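import Pool.Agent.MSL.ABUnion

/-!
Star model: collision bound, growth of the forward sets, analysis of the fixed point.
-/

set_option autoImplicit false
set_option linter.unusedVariables false
set_option linter.unusedSectionVars false
set_option linter.unnecessarySimpa false

open Finset

namespace Pool.Agent.MSL.AB

variable {n : ℕ} {A : ℕ} {m : ℝ} {ν : ℕ → ℝ}

/-! ### the support -/

lemma PR_supp {ι α : Type*} [Fintype ι] [DecidableEq ι] [Fintype α] {w : ι → α → ℝ}
    (hw : IsW w) (E : (ι → α) → Prop) :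
    PR w E = PR w (fun U => E U ∧ ∀ v, w v (U v) ≠ 0) := by
  unfold PR Ex
  refine Finset.sum_congr rfl (fun U _ => ?_)
  by_cases h : ∀ v, w v (U v) ≠ 0
  · congr 1
    show one (E U) = one (E U ∧ ∀ v, w v (U v) ≠ 0)
    by_cases hE : E U
    · rw [one_pos' hE, one_pos' ⟨hE, h⟩]
    · rw [one_neg hE, one_neg (fun h' => hE h'.1)]
  · have h0 : pw w U = 0 := by
      obtain ⟨v, hv⟩ := not_forall.mp h
      unfold pw
      exact Finset.prod_eq_zero (mem_univ v) (not_not.mp hv)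
    rw [h0, zero_mul, zero_mul]

/-- mean size of one set. -/
lemma Ex_card (hν : IsLaw A m ν) (hA : A ≤ n) (v : Fin n) :
    Ex (star n ν) (fun U => (#(U v) : ℝ)) = m := by
  have hW := isW_star hν hA
  rw [hW.resample v, ← star_mean hν hA v]
  refine Finset.sum_congr rfl (fun S _ => ?_)
  congr 1
  have : (fun U : Fin n → Finset (Fin n) => (#(Function.update U v S v) : ℝ)) =
      fun _ => (#S : ℝ) := by
    funext U; rw [Function.update_self]
  rw [this, hW.Ex_const]

lemma one_sub_pow_le {x : ℝ} (hx0 : 0 ≤ x) (hx1 : x ≤ 1) (s : ℕ) :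
    (1 - x) ^ s ≤ 1 - s * x + (s:ℝ) ^ 2 * x ^ 2 / 2 := by
  induction s with
  | zero => simp
  | succ s ih =>
    rw [pow_succ]
    have h1 : (1 - x) ^ s * (1 - x) ≤ (1 - s * x + (s:ℝ) ^ 2 * x ^ 2 / 2) * (1 - x) :=
      mul_le_mul_of_nonneg_right ih (by linarith)
    refine h1.trans ?_
    push_cast
    have h2 : 0 ≤ (s:ℝ) ^ 2 * x ^ 2 / 2 * x := by positivity
    nlinarith [sq_nonneg x]

/-- collision bound. -/
lemma collision (hν : IsLaw A m ν) (hA : A ≤ n) (hn : 0 < n) (Λ : Finset (Fin n)) :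
    PR (star n ν) (fun U => #(UU U Λ) < #Λ) ≤ (#Λ : ℝ) ^ 2 * m ^ 2 / (2 * n) := by
  have hW := isW_star hν hA
  obtain ⟨hm1, hmA⟩ := mean_range hν
  have hnR : (0:ℝ) < n := by exact_mod_cast hn
  have hAn : (A:ℝ) ≤ n := by exact_mod_cast hA
  have hle : ∀ U : Fin n → Finset (Fin n), (#(UU U Λ) : ℝ) ≤ ∑ v ∈ Λ, (#(U v) : ℝ) := by
    intro U
    exact_mod_cast card_biUnion_le
  rw [PR_supp hW]
  have h1 : PR (star n ν) (fun U => #(UU U Λ) < #Λ ∧ ∀ v, star n ν v (U v) ≠ 0) ≤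
      Ex (star n ν) (fun U => (∑ v ∈ Λ, (#(U v) : ℝ)) + (((n:ℝ) - #(∅ ∪ UU U Λ)) + (-(n:ℝ)))) := by
    refine hW.PR_le_Ex _ _ (fun U => ?_) ?_
    · rw [empty_union]; have := hle U; linarith
    · rintro U ⟨hU1, hU2⟩
      rw [empty_union]
      have h2 : (#Λ : ℝ) ≤ ∑ v ∈ Λ, (#(U v) : ℝ) := by
        calc (#Λ : ℝ) = ∑ v ∈ Λ, (1:ℝ) := by simp
          _ ≤ _ := Finset.sum_le_sum (fun v _ => by
            exact_mod_cast (star_ne_zero hν (hU2 v)).1)
      have h3 : (#(UU U Λ) : ℝ) + 1 ≤ #Λ := by exact_mod_cast hU1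
      linarith
  refine h1.trans ?_
  rw [Ex_add, Ex_add, Ex_empty hν hA Λ ∅, hW.Ex_const, Ex_sum]
  rw [Finset.sum_congr rfl (fun v _ => Ex_card hν hA v), Finset.sum_const, nsmul_eq_mul]
  simp only [card_empty, Nat.cast_zero, sub_zero]
  have hx0 : 0 ≤ m / n := by positivity
  have hx1 : m / n ≤ 1 := by rw [div_le_one hnR]; linarith
  have h4 := mul_le_mul_of_nonneg_left (one_sub_pow_le hx0 hx1 #Λ) hnR.le
  have h5 : (n:ℝ) * (1 - #Λ * (m / n) + (#Λ:ℝ) ^ 2 * (m / n) ^ 2 / 2) =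
      n - #Λ * m + (#Λ:ℝ) ^ 2 * m ^ 2 / (2 * n) := by
    field_simp
  rw [h5] at h4
  linarith

/-! ### forward sets -/

lemma Fw_mono (U : Fin n → Finset (Fin n)) (B : Finset (Fin n)) (j : ℕ) :
    Fw U j B ⊆ Fw U (j+1) B := subset_union_left

lemma Fw_succ (U : Fin n → Finset (Fin n)) (B : Finset (Fin n)) (j : ℕ) :
    Fw U (j+1) B = B ∪ UU U (Fw U j B) := by
  induction j with
  | zero => rfl
  | succ j ih =>
    show Fw U (j+1) B ∪ UU U (Fw U (j+1) B) = _
    have h1 : UU U (Fw U j B) ⊆ UU U (Fw U (j+1) B) :=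
      biUnion_subset_biUnion_of_subset_left _ (Fw_mono U B j)
    conv_lhs => rw [ih]
    rw [ih] at h1 ⊢
    rw [union_assoc, union_eq_right.mpr h1]

lemma self_sub_Fw (U : Fin n → Finset (Fin n)) (B : Finset (Fin n)) (j : ℕ) :
    B ⊆ Fw U j B := by
  induction j with
  | zero => exact subset_rfl
  | succ j ih => exact ih.trans (Fw_mono U B j)

/-- growth. -/
lemma growth (U : Fin n → Finset (Fin n)) (u : Fin n) {k0 : ℕ} {T η : ℝ} (hη1 : η ≤ 1)
    (h1 : ∀ Λ : Finset (Fin n), u ∈ Λ → {u} ∪ UU U Λ = Λ → k0 ≤ #Λ)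
    (h2 : ∀ Λ Λ' : Finset (Fin n), u ∈ Λ → Λ' ⊆ Λ → {u} ∪ UU U Λ' = Λ → k0 ≤ #Λ →
      (#Λ : ℝ) < T → η * #Λ ≤ #Λ - #Λ') {ℓ : ℕ} (hℓ : k0 ≤ ℓ)
    (hT : (#(Fw U ℓ {u}) : ℝ) < T) : (k0 : ℝ) ≤ (1 - η) ^ (ℓ - k0) * T := by
  have hmem : ∀ j, u ∈ Fw U j {u} := fun j => self_sub_Fw U {u} j (mem_singleton_self u)
  have hcard : ∀ j, #(Fw U j {u}) ≤ #(Fw U (j+1) {u}) := fun j => card_le_card (Fw_mono U _ j)
  have ha : ∀ j, j + 1 ≤ #(Fw U j {u}) ∨ k0 ≤ #(Fw U j {u}) := by
    intro j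
    induction j with
    | zero => left; simp [Fw]
    | succ j ih =>
      rcases ih with h | h
      · by_cases hk : k0 ≤ #(Fw U j {u})
        · right; exact hk.trans (hcard j)
        · left
          have hne : Fw U j {u} ≠ Fw U (j+1) {u} := by
            intro he
            refine hk (h1 _ (hmem j) ?_)
            rw [← Fw_succ]; exact he.symm
          have := card_lt_card ((Fw_mono U {u} j).ssubset_of_ne hne)
          omega
      · right; exact h.trans (hcard j)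
  have hk0 : ∀ j, k0 ≤ j → k0 ≤ #(Fw U j {u}) := by
    intro j hj
    rcases ha j with h | h
    · omega
    · exact h
  have hb : ∀ i, T ≤ #(Fw U (k0 + i) {u}) ∨
      (k0 : ℝ) ≤ (1 - η) ^ i * #(Fw U (k0 + i) {u}) := by
    intro i
    induction i with
    | zero =>
      right
      rw [pow_zero, one_mul]
      exact_mod_cast hk0 k0 le_rfl
    | succ i ih =>
      rcases ih with h | h
      · left
        refine h.trans ?_
        exact_mod_cast hcard (k0 + i)
      · by_cases hTT : T ≤ #(Fw U (k0 + (i+1)) {u})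
        · exact Or.inl hTT
        · right
          have h3 := h2 (Fw U (k0 + (i+1)) {u}) (Fw U (k0 + i) {u}) (hmem _) (Fw_mono U _ _)
            (Fw_succ U _ _).symm (hk0 _ (by omega)) (not_le.mp hTT)
          have h4 : (#(Fw U (k0 + i) {u}) : ℝ) ≤ (1 - η) * #(Fw U (k0 + (i+1)) {u}) := by linarith
          calc (k0 : ℝ) ≤ (1 - η) ^ i * #(Fw U (k0 + i) {u}) := h
            _ ≤ (1 - η) ^ i * ((1 - η) * #(Fw U (k0 + (i+1)) {u})) :=
              mul_le_mul_of_nonneg_left h4 (pow_nonneg (by linarith) _)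
            _ = _ := by rw [pow_succ]; ring
  obtain ⟨i, rfl⟩ := Nat.exists_eq_add_of_le hℓ
  rcases hb i with h | h
  · exact absurd hT (not_lt.mpr h)
  · refine h.trans ?_
    rw [Nat.add_sub_cancel_left]
    exact mul_le_mul_of_nonneg_left hT.le (pow_nonneg (by linarith) _)

/-- the closure. -/
lemma exists_closed (U : Fin n → Finset (Fin n)) (B : Finset (Fin n)) (j : ℕ) :
    ∃ Λ : Finset (Fin n), B ⊆ Λ ∧ B ∪ UU U Λ = Λ ∧ Fw U j B ⊆ Λ := by
  have hmono : Monotone (fun j => Fw U j B) := monotone_nat_of_le_succ (Fw_mono U B)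
  obtain ⟨N, hN⟩ := WellFoundedGT.monotone_chain_condition ⟨fun j => Fw U j B, hmono⟩
  refine ⟨Fw U N B, self_sub_Fw U B N, ?_, ?_⟩
  · rw [← Fw_succ]
    exact (hN (N+1) (by omega)).symm
  · rcases le_total j N with h | h
    · exact hmono h
    · have := hN j h
      exact le_of_eq this.symm

/-! ### analysis -/

lemma phi_ratio {m a b : ℝ} (hm : 0 < m) (ha : 0 < a) (hab : a < b) :
    a * (1 - Real.exp (-(m * b))) < b * (1 - Real.exp (-(m * a))) := by
  have hb : 0 < b := ha.trans hab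
  have h := strictConvexOn_exp.2 (Set.mem_univ (-(m * b))) (Set.mem_univ (0:ℝ))
    (by have := mul_pos hm hb; linarith) (show 0 < a / b by positivity)
    (show 0 < 1 - a / b by rw [sub_pos, div_lt_one hb]; exact hab) (by ring)
  simp only [smul_eq_mul, mul_zero, add_zero, Real.exp_zero, mul_one] at h
  have h1 : a / b * -(m * b) = -(m * a) := by field_simp
  rw [h1] at h
  have h2 := mul_lt_mul_of_pos_left h hb
  have h3 : b * (a / b * Real.exp (-(m * b)) + (1 - a / b)) = a * Real.exp (-(m * b)) + b - a := by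
    field_simp
    ring
  rw [h3] at h2
  linarith

lemma phi_ratio' {m a b : ℝ} (hm : 0 < m) (ha : 0 < a) (hab : a ≤ b) :
    a * (1 - Real.exp (-(m * b))) ≤ b * (1 - Real.exp (-(m * a))) := by
  rcases hab.lt_or_eq with h | h
  · exact (phi_ratio hm ha h).le
  · rw [h]

lemma m_pos {c : ℝ} (hc0 : 0 < c) (hc1 : c < 1) : 0 < -Real.log (1 - c) / c := by
  have : Real.log (1 - c) < 0 := Real.log_neg (by linarith) (by linarith)
  exact div_pos (by linarith) hc0

lemma phi_fix {c : ℝ} (hc0 : 0 < c) (hc1 : c < 1) :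
    1 - Real.exp (-((-Real.log (1 - c) / c) * c)) = c := by
  have h : -((-Real.log (1 - c) / c) * c) = Real.log (1 - c) := by field_simp
  rw [h, Real.exp_log (by linarith)]
  ring

lemma phi_low {c ρ : ℝ} (hc0 : 0 < c) (hc1 : c < 1) (hρ : 0 < ρ) (hρc : ρ < c) :
    ∃ κ > 0, ∀ x, 0 ≤ x → x ≤ c - ρ →
      (1 + κ) * x ≤ 1 - Real.exp (-((-Real.log (1 - c) / c) * x)) := by
  set m := -Real.log (1 - c) / c with hm
  have hmp : 0 < m := m_pos hc0 hc1
  have hfix : 1 - Real.exp (-(m * c)) = c := phi_fix hc0 hc1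
  have hb : 0 < c - ρ := by linarith
  have h1 := phi_ratio hmp hb (show c - ρ < c by linarith)
  rw [hfix, mul_comm] at h1
  have h2 : c - ρ < 1 - Real.exp (-(m * (c - ρ))) := lt_of_mul_lt_mul_left h1 hc0.le
  refine ⟨(1 - Real.exp (-(m * (c - ρ)))) / (c - ρ) - 1, ?_, ?_⟩
  · rw [gt_iff_lt, sub_pos, one_lt_div hb]; exact h2
  · intro x hx0 hx1
    rcases hx0.eq_or_lt with h | h
    · rw [← h]; simp
    · have h3 := phi_ratio' hmp h hx1
      have h4 : (1 + ((1 - Real.exp (-(m * (c - ρ)))) / (c - ρ) - 1)) * x =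
          x * (1 - Real.exp (-(m * (c - ρ)))) / (c - ρ) := by ring
      rw [h4, div_le_iff₀ hb]
      linarith

lemma phi_high {c ρ : ℝ} (hc0 : 0 < c) (hc1 : c < 1) (hρ : 0 < ρ) :
    ∃ κ > 0, ∀ x, c + ρ ≤ x →
      1 - Real.exp (-((-Real.log (1 - c) / c) * x)) ≤ (1 - κ) * x := by
  set m := -Real.log (1 - c) / c with hm
  have hmp : 0 < m := m_pos hc0 hc1
  have hfix : 1 - Real.exp (-(m * c)) = c := phi_fix hc0 hc1
  have hd : 0 < c + ρ := by linarith
  have h1 := phi_ratio hmp hc0 (show c < c + ρ by linarith)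
  rw [hfix] at h1
  have h2 : 1 - Real.exp (-(m * (c + ρ))) < c + ρ := by
    rw [mul_comm (c + ρ) c] at h1
    exact lt_of_mul_lt_mul_left h1 hc0.le
  refine ⟨1 - (1 - Real.exp (-(m * (c + ρ)))) / (c + ρ), ?_, ?_⟩
  · rw [gt_iff_lt, sub_pos, div_lt_one hd]; exact h2
  · intro x hx
    have h3 := phi_ratio' hmp hd hx
    have h4 : (1 - (1 - (1 - Real.exp (-(m * (c + ρ)))) / (c + ρ))) * x =
        x * (1 - Real.exp (-(m * (c + ρ)))) / (c + ρ) := by ring
    rw [h4, le_div_iff₀ hd]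
    linarith

/-- lower bound for the expected number of vertices reached. -/
lemma one_sub_pow_exp {m : ℝ} (hn : 0 < n) (hm : 0 ≤ m) (hmn : m ≤ n) (s : ℕ) :
    (1 - m / n) ^ s ≤ Real.exp (-(m * (s / n))) := by
  have hnR : (0:ℝ) < n := by exact_mod_cast hn
  have h1 : 1 - m / n ≤ Real.exp (-(m / n)) := by
    have := Real.add_one_le_exp (-(m / n)); linarith
  have h0 : 0 ≤ 1 - m / n := by rw [sub_nonneg, div_le_one hnR]; exact hmn
  calc (1 - m / n) ^ s ≤ Real.exp (-(m / n)) ^ s := pow_le_pow_left₀ h0 h1 s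
    _ = _ := by rw [← Real.exp_nat_mul]; congr 1; ring

/-- upper bound for the expected number of vertices reached. -/
lemma one_sub_pow_exp' {m : ℝ} (hn : 0 < n) (hm : 0 ≤ m) (hmn : 2 * m ≤ n) {s : ℕ} (hs : s ≤ n) :
    n * (1 - (1 - m / n) ^ s) ≤ n * (1 - Real.exp (-(m * (s / n)))) + 2 * m ^ 2 := by
  have hnR : (0:ℝ) < n := by exact_mod_cast hn
  set x := m / n with hx
  have hx0 : 0 ≤ x := by positivity
  have hx1 : x ≤ 1 / 2 := by rw [hx, div_le_iff₀ hnR]; linarith
  -- `1 - x ≥ exp (-x) (1 - 2 x^2)`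
  have h1 : Real.exp (-x) * (1 - 2 * x ^ 2) ≤ 1 - x := by
    have h2 : Real.exp (-x) ≤ 1 / (1 + x) := by
      rw [Real.exp_neg, ← one_div]
      exact one_div_le_one_div_of_le (by linarith) (by have := Real.add_one_le_exp x; linarith)
    have h3 : 0 ≤ 1 - 2 * x ^ 2 := by nlinarith
    calc Real.exp (-x) * (1 - 2 * x ^ 2) ≤ 1 / (1 + x) * (1 - 2 * x ^ 2) :=
          mul_le_mul_of_nonneg_right h2 h3
      _ ≤ 1 - x := by
          rw [one_div, inv_mul_le_iff₀ (by linarith)]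
          nlinarith
  have h0 : 0 ≤ 1 - 2 * x ^ 2 := by nlinarith
  have h4 : (Real.exp (-x) * (1 - 2 * x ^ 2)) ^ s ≤ (1 - x) ^ s :=
    pow_le_pow_left₀ (mul_nonneg (Real.exp_pos _).le h0) h1 s
  have h5 : 1 - s * (2 * x ^ 2) ≤ (1 - 2 * x ^ 2) ^ s := by
    have := one_add_mul_le_pow (show -2 ≤ -(2 * x ^ 2) by nlinarith) s
    have h6 : (1 + -(2 * x ^ 2)) = 1 - 2 * x ^ 2 := by ring
    rw [h6] at this
    linarith
  have h7 : Real.exp (-x) ^ s = Real.exp (-(m * (s / n))) := by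
    rw [← Real.exp_nat_mul]; congr 1; rw [hx]; ring
  rw [mul_pow, h7] at h4
  have h8 : Real.exp (-(m * (s / n))) ≤ 1 := by
    rw [Real.exp_le_one_iff]
    have : 0 ≤ m * (s / n) := by positivity
    linarith
  have hE0 : 0 ≤ Real.exp (-(m * (s / n))) := (Real.exp_pos _).le
  have h9 : Real.exp (-(m * (s / n))) - s * (2 * x ^ 2) ≤ (1 - x) ^ s := by
    have h10 := mul_le_mul_of_nonneg_left h5 hE0
    have h11 : 0 ≤ s * (2 * x ^ 2) := by positivity
    nlinarith
  have h12 : (s:ℝ) * (2 * x ^ 2) * n ≤ 2 * m ^ 2 := by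
    have hsn : (s:ℝ) ≤ n := by exact_mod_cast hs
    have h13 : (s:ℝ) * (2 * x ^ 2) * n = 2 * m ^ 2 * (s / n) := by rw [hx]; field_simp
    rw [h13]
    have h14 : (s:ℝ) / n ≤ 1 := by rw [div_le_one hnR]; exact hsn
    have : 0 ≤ 2 * m ^ 2 := by positivity
    nlinarith
  nlinarith

/-- small binomial sums. -/
lemma choose_sum_small {θ : ℝ} (hθ : 0 < θ) : ∃ η0 > 0, ∀ η, 0 < η → η ≤ η0 → ∀ k Y : ℕ,
    (Y : ℝ) ≤ η * k → ∑ y ∈ range (Y+1), (k.choose y : ℝ) ≤ Real.exp (θ * k) := by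
  set lam := min (θ / 2) (1 / 2) with hlam
  have hlam0 : 0 < lam := lt_min (by linarith) (by norm_num)
  have hlam1 : lam ≤ 1 / 2 := min_le_right _ _
  have hlog : Real.log lam < 0 := Real.log_neg hlam0 (by linarith)
  refine ⟨θ / (2 * -Real.log lam), div_pos hθ (by linarith), ?_⟩
  intro η hη hη0 k Y hY
  have h1 : ∀ y ∈ range (Y+1), (k.choose y : ℝ) ≤
      Real.exp (θ / 2 * k) * (lam ^ y * (1:ℝ) ^ (k - y) * (k.choose y)) := by
    intro y hy
    have hyY : (y:ℝ) ≤ Y := by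
      have := mem_range.mp hy
      exact_mod_cast Nat.lt_succ_iff.mp this
    have h2 : Real.exp (-(θ / 2 * k)) ≤ lam ^ y := by
      rw [← Real.exp_log (pow_pos hlam0 y), Real.exp_le_exp, Real.log_pow]
      have h3 : (y:ℝ) ≤ θ / (2 * -Real.log lam) * k := by
        refine (hyY.trans hY).trans (mul_le_mul_of_nonneg_right hη0 (by positivity))
      have h4 : θ / (2 * -Real.log lam) * k * (-Real.log lam) = θ / 2 * k := by
        have hne : Real.log lam ≠ 0 := hlog.ne
        field_simp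
      have h5 := mul_le_mul_of_nonneg_right h3 (show 0 ≤ -Real.log lam by linarith)
      rw [h4] at h5
      linarith
    have h6 : 1 ≤ Real.exp (θ / 2 * k) * lam ^ y := by
      calc (1:ℝ) = Real.exp (θ / 2 * k) * Real.exp (-(θ / 2 * k)) := by
            rw [← Real.exp_add]; simp
        _ ≤ _ := mul_le_mul_of_nonneg_left h2 (Real.exp_pos _).le
    have h7 : (0:ℝ) ≤ k.choose y := by positivity
    rw [one_pow, mul_one]
    calc (k.choose y : ℝ) = 1 * k.choose y := by ring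
      _ ≤ (Real.exp (θ / 2 * k) * lam ^ y) * k.choose y := mul_le_mul_of_nonneg_right h6 h7
      _ = _ := by ring
  by_cases hYk : Y ≤ k
  · calc ∑ y ∈ range (Y+1), (k.choose y : ℝ)
        ≤ ∑ y ∈ range (Y+1), Real.exp (θ / 2 * k) * (lam ^ y * (1:ℝ) ^ (k - y) * (k.choose y)) :=
          Finset.sum_le_sum h1
      _ ≤ ∑ y ∈ range (k+1), Real.exp (θ / 2 * k) * (lam ^ y * (1:ℝ) ^ (k - y) * (k.choose y)) := by
          refine Finset.sum_le_sum_of_subset_of_nonneg ?_ (fun y _ _ => by positivity)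
          intro y hy; rw [mem_range] at hy ⊢; omega
      _ = Real.exp (θ / 2 * k) * (lam + 1) ^ k := by
          rw [← Finset.mul_sum, add_pow]
      _ ≤ Real.exp (θ / 2 * k) * Real.exp (θ / 2 * k) := by
          refine mul_le_mul_of_nonneg_left ?_ (Real.exp_pos _).le
          calc (lam + 1) ^ k ≤ (Real.exp lam) ^ k :=
                pow_le_pow_left₀ (by linarith) (Real.add_one_le_exp lam) k
            _ = Real.exp (k * lam) := by rw [← Real.exp_nat_mul]
            _ ≤ _ := by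
                rw [Real.exp_le_exp, mul_comm]
                exact mul_le_mul_of_nonneg_right (min_le_left _ _) (by positivity)
      _ = Real.exp (θ * k) := by rw [← Real.exp_add]; congr 1; ring
  · have hk : k < Y := not_le.mp hYk
    calc ∑ y ∈ range (Y+1), (k.choose y : ℝ)
        ≤ ∑ y ∈ range (Y+1), Real.exp (θ / 2 * k) * (lam ^ y * (1:ℝ) ^ (k - y) * (k.choose y)) :=
          Finset.sum_le_sum h1
      _ = ∑ y ∈ range (k+1), Real.exp (θ / 2 * k) * (lam ^ y * (1:ℝ) ^ (k - y) * (k.choose y)) := by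
          symm
          refine Finset.sum_subset (by intro y hy; rw [mem_range] at hy ⊢; omega) ?_
          intro y _ hy
          have : k < y := by rw [mem_range] at hy; omega
          rw [Nat.choose_eq_zero_of_lt this]; simp
      _ = Real.exp (θ / 2 * k) * (lam + 1) ^ k := by
          rw [← Finset.mul_sum, add_pow]
      _ ≤ Real.exp (θ / 2 * k) * Real.exp (θ / 2 * k) := by
          refine mul_le_mul_of_nonneg_left ?_ (Real.exp_pos _).le
          calc (lam + 1) ^ k ≤ (Real.exp lam) ^ k :=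
                pow_le_pow_left₀ (by linarith) (Real.add_one_le_exp lam) k
            _ = Real.exp (k * lam) := by rw [← Real.exp_nat_mul]
            _ ≤ _ := by
                rw [Real.exp_le_exp, mul_comm]
                exact mul_le_mul_of_nonneg_right (min_le_left _ _) (by positivity)
      _ = Real.exp (θ * k) := by rw [← Real.exp_add]; congr 1; ring

end Pool.Agent.MSL.AB
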