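import Mathlib

/-!
Finite product expectations (weights on a finite alphabet, one for each coordinate).
-/

set_option linter.unusedVariables false
set_option linter.unusedSectionVars false
set_option linter.unnecessarySimpa false

open scoped BigOperators

namespace Pool.Agent.MSL.AB

variable {ι α : Type*} [Fintype ι] [DecidableEq ι] [Fintype α]

/-- product weight. -/
noncomputable def pw (w : ι → α → ℝ) (U : ι → α) : ℝ := ∏ v, w v (U v)

/-- expectation under the product weight. -/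
noncomputable def Ex (w : ι → α → ℝ) (F : (ι → α) → ℝ) : ℝ := ∑ U : ι → α, pw w U * F U

/-- indicator of a proposition. -/
noncomputable def one (p : Prop) : ℝ := by classical exact if p then 1 else 0

lemma one_pos' {p : Prop} (h : p) : one p = 1 := by unfold one; rw [if_pos h]
lemma one_neg {p : Prop} (h : ¬ p) : one p = 0 := by unfold one; rw [if_neg h]
lemma one_nonneg (p : Prop) : 0 ≤ one p := by
  by_cases h : p
  · rw [one_pos' h]; norm_num
  · rw [one_neg h]
lemma one_le_one (p : Prop) : one p ≤ 1 := by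
  by_cases h : p
  · rw [one_pos' h]
  · rw [one_neg h]; norm_num

/-- probability under the product weight. -/
noncomputable def PR (w : ι → α → ℝ) (E : (ι → α) → Prop) : ℝ :=
  Ex w (fun U => one (E U))

/-- `w` is a family of probability vectors. -/
structure IsW (w : ι → α → ℝ) : Prop where
  nonneg : ∀ v S, 0 ≤ w v S
  sum_one : ∀ v, ∑ S, w v S = 1

variable {w : ι → α → ℝ}

lemma IsW.pw_nonneg (hw : IsW w) (U : ι → α) : 0 ≤ pw w U :=
  Finset.prod_nonneg (fun v _ => hw.nonneg v (U v))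

lemma IsW.sum_pw (hw : IsW w) : ∑ U : ι → α, pw w U = 1 := by
  have h := Finset.prod_univ_sum (fun _ : ι => (Finset.univ : Finset α)) (fun v S => w v S)
  rw [Fintype.piFinset_univ] at h
  unfold pw
  rw [← h]
  exact Finset.prod_eq_one (fun v _ => hw.sum_one v)

lemma Ex_const_mul (w : ι → α → ℝ) (a : ℝ) (F : (ι → α) → ℝ) :
    Ex w (fun U => a * F U) = a * Ex w F := by
  unfold Ex
  rw [Finset.mul_sum]
  exact Finset.sum_congr rfl (fun U _ => by ring)

lemma IsW.Ex_const (hw : IsW w) (a : ℝ) : Ex w (fun _ => a) = a := by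
  unfold Ex
  rw [← Finset.sum_mul, hw.sum_pw, one_mul]

lemma Ex_add (w : ι → α → ℝ) (F G : (ι → α) → ℝ) :
    Ex w (fun U => F U + G U) = Ex w F + Ex w G := by
  unfold Ex
  rw [← Finset.sum_add_distrib]
  exact Finset.sum_congr rfl (fun U _ => by ring)

lemma Ex_sum {κ : Type*} (w : ι → α → ℝ) (s : Finset κ) (F : κ → (ι → α) → ℝ) :
    Ex w (fun U => ∑ k ∈ s, F k U) = ∑ k ∈ s, Ex w (F k) := by
  unfold Ex
  rw [Finset.sum_comm]
  refine Finset.sum_congr rfl (fun U _ => ?_)
  rw [Finset.mul_sum]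

lemma IsW.Ex_mono (hw : IsW w) {F G : (ι → α) → ℝ} (h : ∀ U, F U ≤ G U) : Ex w F ≤ Ex w G := by
  unfold Ex
  exact Finset.sum_le_sum (fun U _ => mul_le_mul_of_nonneg_left (h U) (hw.pw_nonneg U))

lemma IsW.Ex_nonneg (hw : IsW w) {F : (ι → α) → ℝ} (h : ∀ U, 0 ≤ F U) : 0 ≤ Ex w F := by
  unfold Ex
  exact Finset.sum_nonneg (fun U _ => mul_nonneg (hw.pw_nonneg U) (h U))

lemma IsW.PR_mono (hw : IsW w) {E E' : (ι → α) → Prop} (h : ∀ U, E U → E' U) :
    PR w E ≤ PR w E' := by
  refine hw.Ex_mono (fun U => ?_)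
  by_cases h1 : E U
  · rw [one_pos' h1, one_pos' (h U h1)]
  · rw [one_neg h1]; exact one_nonneg _

lemma IsW.PR_nonneg (hw : IsW w) (E : (ι → α) → Prop) : 0 ≤ PR w E := by
  exact hw.Ex_nonneg (fun U => one_nonneg _)

lemma IsW.PR_le_one (hw : IsW w) (E : (ι → α) → Prop) : PR w E ≤ 1 := by
  calc PR w E ≤ Ex w (fun _ => 1) := by
        exact hw.Ex_mono (fun U => one_le_one _)
    _ = 1 := hw.Ex_const 1

/-- union bound. -/
lemma IsW.PR_le_sum (hw : IsW w) {κ : Type*} (s : Finset κ) (E : (ι → α) → Prop)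
    (E' : κ → (ι → α) → Prop) (h : ∀ U, E U → ∃ k ∈ s, E' k U) :
    PR w E ≤ ∑ k ∈ s, PR w (E' k) := by
  unfold PR
  rw [← Ex_sum]
  refine hw.Ex_mono (fun U => ?_)
  by_cases h1 : E U
  · obtain ⟨k, hk, hE⟩ := h U h1
    rw [one_pos' h1]
    have := Finset.single_le_sum (f := fun k => one (E' k U)) (s := s)
      (fun k _ => one_nonneg _) hk
    rwa [one_pos' hE] at this
  · rw [one_neg h1]
    exact Finset.sum_nonneg (fun k _ => one_nonneg _)

/-- disjoint union. -/
lemma PR_eq_sum (w : ι → α → ℝ) {κ : Type*} (s : Finset κ) (E : (ι → α) → Prop)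
    (E' : κ → (ι → α) → Prop) (h : ∀ U, E U → ∃ k ∈ s, E' k U) (h' : ∀ k ∈ s, ∀ U, E' k U → E U)
    (hd : ∀ k ∈ s, ∀ k' ∈ s, ∀ U, E' k U → E' k' U → k = k') :
    PR w E = ∑ k ∈ s, PR w (E' k) := by
  classical
  unfold PR
  rw [← Ex_sum]
  unfold Ex
  refine Finset.sum_congr rfl (fun U _ => ?_)
  congr 1
  show one (E U) = ∑ k ∈ s, one (E' k U)
  by_cases h1 : E U
  · obtain ⟨k, hk, hE⟩ := h U h1
    rw [one_pos' h1, Finset.sum_eq_single_of_mem k hk]
    · rw [one_pos' hE]
    · intro k' hk' hne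
      exact one_neg (fun hE' => hne (hd k' hk' k hk U hE' hE))
  · rw [one_neg h1]
    refine (Finset.sum_eq_zero (fun k hk => ?_)).symm
    exact one_neg (fun hE => h1 (h' k hk U hE))

/-- Markov's inequality. -/
lemma IsW.PR_le_Ex (hw : IsW w) (E : (ι → α) → Prop) (F : (ι → α) → ℝ) (hF : ∀ U, 0 ≤ F U)
    (h : ∀ U, E U → 1 ≤ F U) : PR w E ≤ Ex w F := by
  refine hw.Ex_mono (fun U => ?_)
  by_cases h1 : E U
  · rw [one_pos' h1]; exact h U h1
  · rw [one_neg h1]; exact hF U

/-- resampling one coordinate. -/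
lemma IsW.resample (hw : IsW w) (v : ι) (F : (ι → α) → ℝ) :
    Ex w F = ∑ S, w v S * Ex w (fun U => F (Function.update U v S)) := by
  classical
  let e := Equiv.funSplitAt v α
  have hpw : ∀ (a : α) (x : {j // j ≠ v} → α), pw w (e.symm (a, x)) =
      w v a * ∏ j : {j // j ≠ v}, w j (x j) := by
    intro a x
    unfold pw
    rw [← Finset.mul_prod_erase Finset.univ _ (Finset.mem_univ v)]
    congr 1
    · simp [e, Equiv.funSplitAt, Equiv.piSplitAt]
    · rw [Finset.prod_subtype (Finset.univ.erase v) (p := fun j => j ≠ v) (by simp)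
        (fun j => w j ((e.symm (a, x)) j))]
      refine Finset.prod_congr rfl (fun j _ => ?_)
      congr 1
      simp [e, Equiv.funSplitAt, Equiv.piSplitAt, j.2]
  have hup : ∀ (a : α) (x : {j // j ≠ v} → α) (S : α),
      Function.update (e.symm (a, x)) v S = e.symm (S, x) := by
    intro a x S
    ext j
    by_cases hj : j = v
    · subst hj
      simp [e, Equiv.funSplitAt, Equiv.piSplitAt]
    · rw [Function.update_of_ne hj]
      simp [e, Equiv.funSplitAt, Equiv.piSplitAt, hj]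
  have hL : ∀ G : (ι → α) → ℝ, ∑ U : ι → α, G U = ∑ a : α, ∑ x : {j // j ≠ v} → α,
      G (e.symm (a, x)) := by
    intro G
    rw [← Equiv.sum_comp e.symm G, Fintype.sum_prod_type]
  unfold Ex
  rw [hL]
  refine Finset.sum_congr rfl (fun S _ => ?_)
  rw [hL (fun U => pw w U * F (Function.update U v S))]
  simp only [hpw, hup]
  rw [Finset.sum_comm]
  rw [Finset.mul_sum]
  refine Finset.sum_congr rfl (fun x _ => ?_)
  have : ∑ a : α, w v a * (∏ j : {j // j ≠ v}, w j (x j)) * F (e.symm (S, x)) =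
      (∏ j : {j // j ≠ v}, w j (x j)) * F (e.symm (S, x)) := by
    calc ∑ a : α, w v a * (∏ j : {j // j ≠ v}, w j (x j)) * F (e.symm (S, x))
        = (∑ a : α, w v a) * ((∏ j : {j // j ≠ v}, w j (x j)) * F (e.symm (S, x))) := by
          rw [Finset.sum_mul]
          exact Finset.sum_congr rfl (fun a _ => by ring)
      _ = _ := by rw [hw.sum_one v, one_mul]
  rw [this]
  ring

/-- comparison of two product weights. -/
lemma IsW.PR_le_of_le {w' : ι → α → ℝ} (hw : IsW w) (hw' : IsW w') {C : ℝ}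
    (h : ∀ v S, w v S ≤ C * w' v S) (hC : 0 ≤ C) (E : (ι → α) → Prop) :
    PR w E ≤ C ^ (Fintype.card ι) * PR w' E := by
  classical
  unfold PR Ex
  rw [Finset.mul_sum]
  refine Finset.sum_le_sum (fun U _ => ?_)
  have h1 : pw w U ≤ C ^ (Fintype.card ι) * pw w' U := by
    unfold pw
    calc ∏ v, w v (U v) ≤ ∏ v, (C * w' v (U v)) :=
          Finset.prod_le_prod (fun v _ => hw.nonneg v (U v)) (fun v _ => h v (U v))
      _ = _ := by rw [Finset.prod_mul_distrib, Finset.prod_const, Finset.card_univ]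
  dsimp only
  rw [← mul_assoc]
  exact mul_le_mul_of_nonneg_right h1 (one_nonneg _)

end Pool.Agent.MSL.AB
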