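import Mathlib

/-!
Common definitions for the local limit of the minimum spanning arborescence
(`MP_e4ce4d_pr`).
-/

set_option autoImplicit false

open scoped Topology ENNReal
open Finset MeasureTheory

namespace Pool.Agent.MSL

/-! ### Oriented graphs, balls, isomorphism of balls -/

section graphs

variable {V W : Type*}

/-- The vertices at distance at most `R` from `ρ` in the oriented graph `E`
(orientations ignored). -/
def ballSet (E : V → V → Prop) (ρ : V) : ℕ → Set V
  | 0 => {ρ}
  | R + 1 => ballSet E ρ R ∪ {v | ∃ u ∈ ballSet E ρ R, E u v ∨ E v u}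

theorem self_mem_ballSet (E : V → V → Prop) (ρ : V) (R : ℕ) : ρ ∈ ballSet E ρ R := by
  induction R with
  | zero => exact rfl
  | succ R ih => exact Or.inl ih

/-- The rooted oriented graph `B_R(E, ρ)` (ball of radius `R`, with orientations) is isomorphic
to the rooted oriented graph `(H, h)`. -/
def BallIso (E : V → V → Prop) (ρ : V) (R : ℕ) (H : W → W → Prop) (h : W) : Prop :=
  ∃ φ : ballSet E ρ R ≃ W, φ ⟨ρ, self_mem_ballSet E ρ R⟩ = h ∧
    ∀ u v : ballSet E ρ R, E u.1 v.1 ↔ H (φ u) (φ v)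

end graphs

/-! ### Arborescences -/

section arb

variable {V : Type*}

/-- `M` is the parent map of a spanning arborescence directed to `r`
(convention `M r = r`; the oriented edges are `(u, M u)` for `u ≠ r`). -/
def IsArb (r : V) (M : V → V) : Prop := M r = r ∧ ∀ u, ∃ k, M^[k] u = r

/-- The oriented graph of the arborescence `M` rooted at `r`. -/
def arbE (r : V) (M : V → V) (u v : V) : Prop := u ≠ r ∧ v = M u

/-- The oriented graph of a map. -/
def mapE (g : V → V) (u v : V) : Prop := v = g u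

/-- The weight of the arborescence. -/
noncomputable def cost [Fintype V] [DecidableEq V] (W : V → V → ℝ) (r : V) (M : V → V) : ℝ :=
  ∑ u ∈ univ.erase r, W u (M u)

/-- `M` is a spanning arborescence of minimal weight. -/
def IsMinArb [Fintype V] [DecidableEq V] (W : V → V → ℝ) (r : V) (M : V → V) : Prop :=
  IsArb r M ∧ ∀ M', IsArb r M' → cost W r M ≤ cost W r M'

/-- A laminar optimal dual solution for the minimal arborescence `M` and the costs `c`. -/
structure Dual [Fintype V] [DecidableEq V] (r : V) (c : V → V → ℝ) (M : V → V)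
    (y : Finset V → ℝ) : Prop where
  nonneg : ∀ S, 0 ≤ y S
  root : ∀ S, y S ≠ 0 → r ∉ S ∧ S.Nonempty
  feas : ∀ u v, u ≠ v → ∑ S ∈ univ.filter (fun S : Finset V => u ∈ S ∧ v ∉ S), y S ≤ c u v
  lam : ∀ S T, y S ≠ 0 → y T ≠ 0 → S ⊆ T ∨ T ⊆ S ∨ Disjoint S T
  tight : ∀ u, u ≠ r → c u (M u) = ∑ S ∈ univ.filter (fun S : Finset V => u ∈ S ∧ M u ∉ S), y S
  exit : ∀ S, y S ≠ 0 → ∃! u, u ∈ S ∧ M u ∉ S

end arb

/-! ### Random digraphs given by out-neighbourhoods -/

section fw

variable {V : Type*} [DecidableEq V]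

/-- vertices reached from `B` by at most `j` steps in the digraph `U` -/
def Fw (U : V → Finset V) : ℕ → Finset V → Finset V
  | 0, B => B
  | j + 1, B => Fw U j B ∪ (Fw U j B).biUnion U

end fw

/-- Probability of the event `E` for independent out-neighbourhoods with weights `w v`. -/
noncomputable def Pr {V X : Type*} [Fintype V] [Fintype X] [DecidableEq V]
    (w : V → X → ℝ) (E : (V → X) → Prop) : ℝ :=
  open Classical in ∑ U ∈ univ.filter E, ∏ v, w v (U v)

/-- weights of the model in which each out-neighbourhood is a uniformly random subset of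
`Fin n` (the vertex itself allowed) of random size with law `ν`. -/
noncomputable def star (n : ℕ) (ν : ℕ → ℝ) (_v : Fin n) (Θ : Finset (Fin n)) : ℝ :=
  ν (#Θ) / (n.choose #Θ)

/-- `ν` is a probability on `{1, …, A}` with mean `m`. -/
structure IsLaw (A : ℕ) (m : ℝ) (ν : ℕ → ℝ) : Prop where
  nonneg : ∀ k, 0 ≤ ν k
  supp : ∀ k, ν k ≠ 0 → 1 ≤ k ∧ k ≤ A
  sum_one : ∑ k ∈ range (A + 1), ν k = 1
  mean : ∑ k ∈ range (A + 1), (k : ℝ) * ν k = m

/-- Admissible laws of the vectors of out-neighbourhoods. -/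
structure Adm (n K A : ℕ) (m : Fin (K + 1) → ℝ)
    (lam : Fin n → (Fin (K + 1) → Finset (Fin n)) → ℝ) : Prop where
  nonneg : ∀ v x, 0 ≤ lam v x
  sum_one : ∀ v, ∑ x, lam v x = 1
  marg : ∀ i : Fin (K + 1), ∃ ν : ℕ → ℝ, IsLaw A (m i) ν ∧ ∀ v (Θ : Finset (Fin n)),
    ∑ x ∈ univ.filter (fun x : Fin (K + 1) → Finset (Fin n) => x i = Θ), lam v x =
      if v ∈ Θ then 0 else ν (#Θ) / ((n - 1).choose #Θ)

/-- The good event for the vectors of out-neighbourhoods. -/
def Good (ε : ℝ) (K h A n : ℕ) (u : Fin n → Fin (K + 1) → Finset (Fin n)) : Prop :=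
  ∃ (L0 : Finset (Fin n)) (W Z Bad : Fin (K + 1) → Finset (Fin n)),
    (∀ i, ∀ a ∈ Z i, ∀ b ∈ W i, b ∈ Fw (fun v => u v i) (2 * Nat.sqrt n) {a}) ∧
    (∀ i : Fin K, ∃ v ∈ W i.castSucc, v ∈ Z i.succ) ∧
    (∀ a ∈ L0, u a 0 ⊆ L0) ∧
    (∀ q : ℕ → Fin n, Set.InjOn q (Set.Iic h) → (∀ j ≤ h, q j ∉ L0) →
      (∀ j < h, q (j + 1) ∈ u (q j) 0) → q h ∈ Bad 0) ∧
    (∀ i : Fin K, ∀ q : ℕ → Fin n, Set.InjOn q (Set.Iic h) → (∀ j ≤ h, q j ∉ W i.castSucc) →
      (∀ j < h, q (j + 1) ∈ u (q j) i.succ) → q h ∈ Bad i.succ) ∧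
    ((#(Z 0)ᶜ + #L0 + #(W (Fin.last K))ᶜ +
      ∑ i, (#(Bad i) + h * #(univ.filter fun v => #(u v i) = A)) : ℕ) : ℝ) ≤ ε * n

/-! ### Weights -/

/-- minimum of `x w`, `w ≠ u` -/
noncomputable def mn {N : ℕ} (x : Fin N → ℝ) (u : Fin N) : ℝ :=
  if h : (univ.erase u).Nonempty then (univ.erase u).inf' h x else 0

/-- The (at most) `A` cheapest targets of `u` among those with gap at most `R`. -/
noncomputable def Uset {N : ℕ} (A : ℕ) (R : ℝ) (u : Fin N) (x : Fin N → ℝ) : Finset (Fin N) :=
  univ.filter fun w => w ≠ u ∧ x w ≤ mn x u + R ∧ #(univ.filter fun w' => w' ≠ u ∧ x w' < x w) < A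

open Classical in
/-- The cheapest target of `u`. -/
noncomputable def argm {N : ℕ} (x : Fin N → ℝ) (u : Fin N) : Fin N :=
  if h : ∃ v, v ≠ u ∧ ∀ w, w ≠ u → x v ≤ x w then h.choose else u

/-- The law of the weights: all entries independent with law `μ` (the diagonal entries are
not used). -/
noncomputable def wM (μ : Measure ℝ) (N : ℕ) : Measure (Fin N → Fin N → ℝ) :=
  Measure.pi fun _ => Measure.pi fun _ => μ

/-! ### The limit object -/

/-- Nodes: `(i, w)` with `i` the index of the vertex of the spine and `w` the word of a vertex of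
the Galton-Watson tree attached to it (last letter first). -/
abbrev Node : Type := ℕ × List ℕ

/-- parent -/
def par : Node → Node
  | (i, []) => (i + 1, [])
  | (i, _ :: w) => (i, w)

/-- `(i, w)` is a vertex of the tree with offspring numbers `ξ` -/
def validL (ξ : Node → ℕ) (i : ℕ) : List ℕ → Prop
  | [] => True
  | k :: w => k < ξ (i, w) ∧ validL ξ i w

/-- The oriented graph of the infinite tree with offspring numbers `ξ`. -/
def TE (ξ : Node → ℕ) (x y : Node) : Prop := validL ξ x.1 x.2 ∧ y = par x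

/-- All offspring numbers are independent with the Poisson law of mean 1. -/
noncomputable def treeM : Measure (Node → ℕ) :=
  Measure.infinitePi fun _ => ProbabilityTheory.poissonMeasure 1

end Pool.Agent.MSL
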