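import Pool.Agent.MSL.ABProd
import Pool.Agent.MSL.Defs

/-!
The star model: independent uniformly random subsets. Occupancy concentration and symmetry.
-/

set_option autoImplicit false
set_option linter.unusedVariables false
set_option linter.unusedSectionVars false
set_option linter.unnecessarySimpa false

open Finset

namespace Pool.Agent.MSL.AB

variable {n : ℕ}

lemma PR_eq_Pr {V X : Type*} [Fintype V] [Fintype X] [DecidableEq V] (w : V → X → ℝ)
    (E : (V → X) → Prop) : Pool.Agent.MSL.Pr w E = PR w E := by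
  classical
  unfold Pool.Agent.MSL.Pr PR Ex pw
  rw [Finset.sum_filter]
  refine Finset.sum_congr rfl (fun U _ => ?_)
  show _ = (∏ v, w v (U v)) * one (E U)
  by_cases h : E U
  · rw [one_pos' h]; simp [h]
  · rw [one_neg h]; simp [h]

/-- `ν`-weighted sums over subsets. -/
lemma sum_star (ν : ℕ → ℝ) (v : Fin n) (f : ℕ → ℝ) :
    ∑ Θ : Finset (Fin n), star n ν v Θ * f #Θ = ∑ k ∈ range (n+1), ν k * f k := by
  have h := Finset.sum_powerset_apply_card (fun k => ν k / (n.choose k) * f k)
    (x := (univ : Finset (Fin n)))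
  rw [Finset.powerset_univ, Finset.card_univ, Fintype.card_fin] at h
  unfold star
  rw [h]
  refine Finset.sum_congr rfl (fun k hk => ?_)
  have hk' : k ≤ n := by have := mem_range.mp hk; omega
  have hc : (n.choose k : ℝ) ≠ 0 := by
    have := Nat.choose_pos hk'
    positivity
  rw [nsmul_eq_mul]
  field_simp

lemma sum_range_law {A : ℕ} {m : ℝ} {ν : ℕ → ℝ} (hν : IsLaw A m ν) (hA : A ≤ n) (f : ℕ → ℝ) :
    ∑ k ∈ range (n+1), ν k * f k = ∑ k ∈ range (A+1), ν k * f k := by
  symm
  refine Finset.sum_subset (by intro k hk; rw [mem_range] at hk ⊢; omega) (fun k _ hk => ?_)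
  have : ν k = 0 := by
    by_contra h
    have := (hν.supp k h).2
    exact hk (mem_range.mpr (by omega))
  rw [this, zero_mul]

variable {A : ℕ} {m : ℝ} {ν : ℕ → ℝ}

lemma isW_star (hν : IsLaw A m ν) (hA : A ≤ n) : IsW (star n ν) := by
  refine ⟨fun v Θ => ?_, fun v => ?_⟩
  · unfold star
    exact div_nonneg (hν.nonneg _) (by positivity)
  · have h := sum_star ν v (fun _ => 1)
    simp only [mul_one] at h
    rw [h]
    have h2 := sum_range_law hν hA (fun _ => 1)
    simp only [mul_one] at h2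
    rw [h2, hν.sum_one]

lemma star_ne_zero (hν : IsLaw A m ν) {v : Fin n} {Θ : Finset (Fin n)} (h : star n ν v Θ ≠ 0) :
    1 ≤ #Θ ∧ #Θ ≤ A := by
  unfold star at h
  refine hν.supp _ (fun h0 => h ?_)
  rw [h0, zero_div]

/-- mean size. -/
lemma star_mean (hν : IsLaw A m ν) (hA : A ≤ n) (v : Fin n) :
    ∑ Θ : Finset (Fin n), star n ν v Θ * #Θ = m := by
  rw [sum_star ν v (fun k => (k:ℝ)), sum_range_law hν hA, ← hν.mean]
  exact Finset.sum_congr rfl (fun k _ => by ring)

/-- the star weight only depends on the cardinality. -/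
lemma star_map (σ : Equiv.Perm (Fin n)) (v v' : Fin n) (Θ : Finset (Fin n)) :
    star n ν v (Θ.map σ.toEmbedding) = star n ν v' Θ := by
  unfold star; rw [card_map]

/-- each vertex belongs to the random set with probability `m / n`. -/
lemma star_mem (hν : IsLaw A m ν) (hA : A ≤ n) (v b : Fin n) :
    ∑ Θ : Finset (Fin n), star n ν v Θ * (if b ∈ Θ then 1 else 0) = m / n := by
  have hn : 0 < n := lt_of_le_of_lt (Nat.zero_le _) b.2
  have hsym : ∀ b' : Fin n, ∑ Θ : Finset (Fin n), star n ν v Θ * (if b' ∈ Θ then (1:ℝ) else 0) =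
      ∑ Θ : Finset (Fin n), star n ν v Θ * (if b ∈ Θ then (1:ℝ) else 0) := by
    intro b'
    let σ : Equiv.Perm (Fin n) := Equiv.swap b b'
    let e : Finset (Fin n) ≃ Finset (Fin n) := σ.finsetCongr
    rw [← Equiv.sum_comp e]
    refine Finset.sum_congr rfl (fun Θ _ => ?_)
    have h1 : star n ν v (e Θ) = star n ν v Θ := star_map σ v v Θ
    rw [h1]
    congr 1
    have h2 : b' ∈ e Θ ↔ b ∈ Θ := by
      show b' ∈ Θ.map σ.toEmbedding ↔ b ∈ Θ
      rw [Finset.mem_map_equiv]
      simp [σ]
    simp only [h2]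
  have htot : ∑ b' : Fin n, ∑ Θ : Finset (Fin n), star n ν v Θ * (if b' ∈ Θ then (1:ℝ) else 0) = m := by
    rw [Finset.sum_comm, ← star_mean hν hA v]
    refine Finset.sum_congr rfl (fun Θ _ => ?_)
    rw [← Finset.mul_sum]
    congr 1
    simp
  have h3 : (n : ℝ) * ∑ Θ : Finset (Fin n), star n ν v Θ * (if b ∈ Θ then (1:ℝ) else 0) = m := by
    rw [← htot, Finset.sum_congr rfl (fun b' _ => hsym b')]
    simp
  have hn' : (n : ℝ) ≠ 0 := by positivity
  field_simp
  linarith

/-- expected number of vertices missed. -/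
lemma star_empty (hν : IsLaw A m ν) (hA : A ≤ n) (v : Fin n) (B : Finset (Fin n)) :
    ∑ Θ : Finset (Fin n), star n ν v Θ * ((n : ℝ) - #(B ∪ Θ)) = ((n:ℝ) - #B) * (1 - m / n) := by
  have hW := isW_star hν hA
  have h1 : ∀ Θ : Finset (Fin n), ((n : ℝ) - #(B ∪ Θ)) =
      ∑ b ∈ Bᶜ, (1 - (if b ∈ Θ then (1:ℝ) else 0)) := by
    intro Θ
    have e1 : (#(B ∪ Θ) : ℝ) = #B + #(Θ \ B) := by
      rw [← Finset.union_sdiff_self_eq_union, card_union_of_disjoint disjoint_sdiff]
      push_cast; ring
    have e2 : ∑ b ∈ Bᶜ, (1 - (if b ∈ Θ then (1:ℝ) else 0)) = #Bᶜ - #(Θ \ B) := by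
      rw [Finset.sum_sub_distrib]
      congr 1
      · simp
      · rw [Finset.sum_ite, Finset.sum_const_zero, add_zero]
        simp only [sum_const, nsmul_eq_mul, mul_one, Nat.cast_inj]
        congr 1
        ext b
        simp only [mem_filter, mem_compl, mem_sdiff]
        tauto
    have e3 : (#Bᶜ : ℝ) = n - #B := by
      rw [card_compl, Fintype.card_fin, Nat.cast_sub]
      have := card_le_univ B
      rwa [Fintype.card_fin] at this
    rw [e1, e2, e3]; ring
  simp_rw [h1]
  simp_rw [Finset.mul_sum]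
  rw [Finset.sum_comm]
  have h2 : ∀ b ∈ Bᶜ, ∑ Θ : Finset (Fin n), star n ν v Θ * (1 - (if b ∈ Θ then (1:ℝ) else 0)) =
      1 - m / n := by
    intro b _
    have e1 := star_mem hν hA v b
    have e2 := hW.sum_one v
    calc ∑ Θ : Finset (Fin n), star n ν v Θ * (1 - (if b ∈ Θ then (1:ℝ) else 0))
        = ∑ Θ : Finset (Fin n), star n ν v Θ -
          ∑ Θ : Finset (Fin n), star n ν v Θ * (if b ∈ Θ then (1:ℝ) else 0) := by
          rw [← Finset.sum_sub_distrib]
          exact Finset.sum_congr rfl (fun Θ _ => by ring)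
      _ = 1 - m / n := by rw [e1, e2]
  rw [Finset.sum_congr rfl h2, Finset.sum_const, nsmul_eq_mul]
  congr 1
  rw [card_compl, Fintype.card_fin, Nat.cast_sub]
  have := card_le_univ B
  rwa [Fintype.card_fin] at this

/-- union of the sets over `Λ`. -/
def UU (U : Fin n → Finset (Fin n)) (Λ : Finset (Fin n)) : Finset (Fin n) := Λ.biUnion U

lemma UU_insert_update (U : Fin n → Finset (Fin n)) (v : Fin n) (S : Finset (Fin n))
    {Λ : Finset (Fin n)} (hv : v ∉ Λ) :
    UU (Function.update U v S) (insert v Λ) = S ∪ UU U Λ := by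
  unfold UU
  rw [biUnion_insert, Function.update_self]
  congr 1
  refine Finset.biUnion_congr rfl (fun a ha => ?_)
  rw [Function.update_of_ne]
  exact fun h => hv (h ▸ ha)

/-- expectation of the number of vertices missed. -/
lemma Ex_empty (hν : IsLaw A m ν) (hA : A ≤ n) (Λ : Finset (Fin n)) :
    ∀ B : Finset (Fin n), Ex (star n ν) (fun U => (n:ℝ) - #(B ∪ UU U Λ)) =
      ((n:ℝ) - #B) * (1 - m / n) ^ #Λ := by
  have hW := isW_star hν hA
  induction Λ using Finset.induction_on with
  | empty =>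
    intro B
    have : (fun U : Fin n → Finset (Fin n) => (n:ℝ) - #(B ∪ UU U ∅)) = fun _ => (n:ℝ) - #B := by
      funext U; simp [UU]
    rw [this, hW.Ex_const]; simp
  | insert v Λ hv ih =>
    intro B
    rw [hW.resample v]
    have h1 : ∀ S, Ex (star n ν) (fun U => (n:ℝ) - #(B ∪ UU (Function.update U v S) (insert v Λ)))
        = ((n:ℝ) - #(B ∪ S)) * (1 - m/n) ^ #Λ := by
      intro S
      rw [← ih (B ∪ S)]
      congr 1
      funext U
      rw [UU_insert_update U v S hv, Finset.union_assoc]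
    simp_rw [h1]
    have h2 : ∑ S : Finset (Fin n), star n ν v S * (((n:ℝ) - #(B ∪ S)) * (1 - m/n) ^ #Λ) =
        (∑ S : Finset (Fin n), star n ν v S * ((n:ℝ) - #(B ∪ S))) * (1 - m/n) ^ #Λ := by
      rw [Finset.sum_mul]
      exact Finset.sum_congr rfl (fun S _ => by ring)
    rw [h2, star_empty hν hA, card_insert_of_notMem hv, pow_succ]
    ring

lemma mean_range (hν : IsLaw A m ν) : 1 ≤ m ∧ m ≤ A := by
  have h1 := hν.sum_one
  have h2 := hν.mean
  constructor
  · rw [← h1, ← h2]
    refine Finset.sum_le_sum (fun k _ => ?_)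
    by_cases hk : ν k = 0
    · simp [hk]
    · have h3 : (1:ℝ) ≤ k := by exact_mod_cast (hν.supp k hk).1
      nlinarith [hν.nonneg k]
  · have : (A : ℝ) = ∑ k ∈ range (A+1), (A:ℝ) * ν k := by rw [← Finset.mul_sum, h1, mul_one]
    rw [this, ← h2]
    refine Finset.sum_le_sum (fun k _ => ?_)
    by_cases hk : ν k = 0
    · simp [hk]
    · have h3 : (k:ℝ) ≤ A := by exact_mod_cast (hν.supp k hk).2
      nlinarith [hν.nonneg k]

/-- moment generating function of a centred bounded variable. -/
lemma mgf_bound {κ : Type*} [Fintype κ] (p : κ → ℝ) (hp : ∀ k, 0 ≤ p k) (hs : ∑ k, p k = 1)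
    (X : κ → ℝ) (hX : ∑ k, p k * X k = 0) {a : ℝ} (ha : 0 < a)
    (hb : ∀ k, p k ≠ 0 → |X k| ≤ a) (t : ℝ) :
    ∑ k, p k * Real.exp (t * X k) ≤ Real.exp (t ^ 2 * a ^ 2 / 2) := by
  have h1 : ∀ k, p k * Real.exp (t * X k) ≤
      p k * (Real.cosh (t * a) + X k / a * Real.sinh (t * a)) := by
    intro k
    by_cases hk : p k = 0
    · simp [hk]
    · refine mul_le_mul_of_nonneg_left ?_ (hp k)
      have h2 : |X k / a| ≤ 1 := by
        rw [abs_div, abs_of_pos ha, div_le_one ha]; exact hb k hk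
      have h3 := Real.exp_mul_le_cosh_add_mul_sinh h2 (t * a)
      have h4 : X k / a * (t * a) = t * X k := by field_simp
      rwa [h4] at h3
  calc ∑ k, p k * Real.exp (t * X k) ≤ ∑ k, p k * (Real.cosh (t * a) + X k / a * Real.sinh (t * a)) :=
        Finset.sum_le_sum (fun k _ => h1 k)
    _ = (∑ k, p k) * Real.cosh (t * a) + (∑ k, p k * X k) * (Real.sinh (t * a) / a) := by
        rw [Finset.sum_mul, Finset.sum_mul, ← Finset.sum_add_distrib]
        exact Finset.sum_congr rfl (fun k _ => by ring)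
    _ = Real.cosh (t * a) := by rw [hs, hX]; ring
    _ ≤ Real.exp ((t * a) ^ 2 / 2) := Real.cosh_le_exp_half_sq _
    _ = Real.exp (t ^ 2 * a ^ 2 / 2) := by congr 1; ring

/-- exponential moments of the occupancy. -/
lemma Ex_exp (hν : IsLaw A m ν) (hA : A ≤ n) (hn : 0 < n) (t : ℝ) (Λ : Finset (Fin n)) :
    ∀ B : Finset (Fin n), Ex (star n ν) (fun U => Real.exp (t * (((n:ℝ) - #(B ∪ UU U Λ)) -
      ((n:ℝ) - #B) * (1 - m / n) ^ #Λ))) ≤ Real.exp (#Λ * (t ^ 2 * (A:ℝ) ^ 2 / 2)) := by
  have hW := isW_star hν hA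
  obtain ⟨hm1, hmA⟩ := mean_range hν
  have hnR : (0:ℝ) < n := by exact_mod_cast hn
  have hAn : (A:ℝ) ≤ n := by exact_mod_cast hA
  have ha0 : 0 ≤ 1 - m / n := by
    rw [sub_nonneg, div_le_one hnR]; linarith
  have ha1 : 1 - m / n ≤ 1 := by
    have : 0 ≤ m / n := by positivity
    linarith
  have hApos : (0:ℝ) < A := by linarith
  induction Λ using Finset.induction_on with
  | empty =>
    intro B
    have : (fun U : Fin n → Finset (Fin n) => Real.exp (t * (((n:ℝ) - #(B ∪ UU U ∅)) -
      ((n:ℝ) - #B) * (1 - m / n) ^ #(∅ : Finset (Fin n))))) = fun _ => 1 := by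
      funext U; simp [UU]
    rw [this, hW.Ex_const]; simp
  | insert v Λ hv ih =>
    intro B
    rw [hW.resample v]
    set a : ℝ := 1 - m / n with ha
    set s := #Λ with hs
    have h1 : ∀ S, Ex (star n ν) (fun U => Real.exp (t * (((n:ℝ) -
        #(B ∪ UU (Function.update U v S) (insert v Λ))) -
        ((n:ℝ) - #B) * a ^ #(insert v Λ)))) ≤
        Real.exp (s * (t ^ 2 * (A:ℝ) ^ 2 / 2)) *
          Real.exp ((t * a ^ s) * (((n:ℝ) - #(B ∪ S)) - ((n:ℝ) - #B) * a)) := by
      intro S
      have h2 : (fun U : Fin n → Finset (Fin n) => Real.exp (t * (((n:ℝ) -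
          #(B ∪ UU (Function.update U v S) (insert v Λ))) -
          ((n:ℝ) - #B) * a ^ #(insert v Λ)))) = fun U =>
          Real.exp ((t * a ^ s) * (((n:ℝ) - #(B ∪ S)) - ((n:ℝ) - #B) * a)) *
          Real.exp (t * (((n:ℝ) - #((B ∪ S) ∪ UU U Λ)) - ((n:ℝ) - #(B ∪ S)) * a ^ s)) := by
        funext U
        rw [UU_insert_update U v S hv, ← Finset.union_assoc, ← Real.exp_add,
          card_insert_of_notMem hv, pow_succ]
        congr 1
        ring
      rw [h2, Ex_const_mul, mul_comm]
      exact mul_le_mul_of_nonneg_right (ih (B ∪ S)) (Real.exp_pos _).le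
    calc ∑ S, star n ν v S * Ex (star n ν) (fun U => Real.exp (t * (((n:ℝ) -
            #(B ∪ UU (Function.update U v S) (insert v Λ))) - ((n:ℝ) - #B) * a ^ #(insert v Λ))))
        ≤ ∑ S, star n ν v S * (Real.exp (s * (t ^ 2 * (A:ℝ) ^ 2 / 2)) *
          Real.exp ((t * a ^ s) * (((n:ℝ) - #(B ∪ S)) - ((n:ℝ) - #B) * a))) :=
          Finset.sum_le_sum (fun S _ => mul_le_mul_of_nonneg_left (h1 S) (hW.nonneg v S))
      _ = Real.exp (s * (t ^ 2 * (A:ℝ) ^ 2 / 2)) * ∑ S, star n ν v S *
          Real.exp ((t * a ^ s) * (((n:ℝ) - #(B ∪ S)) - ((n:ℝ) - #B) * a)) := by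
          rw [Finset.mul_sum]
          exact Finset.sum_congr rfl (fun S _ => by ring)
      _ ≤ Real.exp (s * (t ^ 2 * (A:ℝ) ^ 2 / 2)) * Real.exp ((t * a ^ s) ^ 2 * (A:ℝ) ^ 2 / 2) := by
          refine mul_le_mul_of_nonneg_left ?_ (Real.exp_pos _).le
          refine mgf_bound (fun S => star n ν v S) (hW.nonneg v) (hW.sum_one v)
            (fun S => ((n:ℝ) - #(B ∪ S)) - ((n:ℝ) - #B) * a) ?_ hApos ?_ _
          · have e1 := star_empty hν hA v B
            have e2 := hW.sum_one v
            have e3 : ∑ S, star n ν v S * (((n:ℝ) - #(B ∪ S)) - ((n:ℝ) - #B) * a) =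
                ∑ S, star n ν v S * ((n:ℝ) - #(B ∪ S)) - (∑ S, star n ν v S) * (((n:ℝ) - #B) * a) := by
              rw [Finset.sum_mul, ← Finset.sum_sub_distrib]
              exact Finset.sum_congr rfl (fun S _ => by ring)
            rw [e3, e1, e2]; ring
          · intro S hS
            have hS2 := (star_ne_zero hν hS).2
            have c1 : (#B : ℝ) ≤ #(B ∪ S) := by exact_mod_cast card_le_card subset_union_left
            have c2 : (#(B ∪ S) : ℝ) ≤ #B + A := by
              have := card_union_le B S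
              have h3 : #(B ∪ S) ≤ #B + A := by omega
              exact_mod_cast h3
            have c3 : (#B : ℝ) ≤ n := by
              have := card_le_univ B
              rw [Fintype.card_fin] at this
              exact_mod_cast this
            have c4 : ((n:ℝ) - #B) * a = ((n:ℝ) - #B) - ((n:ℝ) - #B) * (m / n) := by rw [ha]; ring
            have c5 : ((n:ℝ) - #B) * (m / n) ≤ A := by
              calc ((n:ℝ) - #B) * (m / n) ≤ n * (m / n) := by
                    refine mul_le_mul_of_nonneg_right ?_ (by positivity)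
                    have : (0:ℝ) ≤ #B := by positivity
                    linarith
                _ = m := by field_simp
                _ ≤ A := hmA
            have c6 : 0 ≤ ((n:ℝ) - #B) * (m / n) := by
              have : 0 ≤ (n:ℝ) - #B := by linarith
              positivity
            rw [abs_le, c4]
            constructor <;> linarith
      _ ≤ Real.exp (s * (t ^ 2 * (A:ℝ) ^ 2 / 2)) * Real.exp (t ^ 2 * (A:ℝ) ^ 2 / 2) := by
          refine mul_le_mul_of_nonneg_left ?_ (Real.exp_pos _).le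
          rw [Real.exp_le_exp]
          have h5 : a ^ s ≤ 1 := pow_le_one₀ ha0 ha1
          have h6 : 0 ≤ a ^ s := pow_nonneg ha0 s
          have h7 : (t * a ^ s) ^ 2 ≤ t ^ 2 := by
            rw [mul_pow]
            have : (a ^ s) ^ 2 ≤ 1 := pow_le_one₀ h6 h5
            nlinarith [sq_nonneg t]
          have : 0 ≤ (A:ℝ) ^ 2 := by positivity
          nlinarith
      _ = Real.exp (#(insert v Λ) * (t ^ 2 * (A:ℝ) ^ 2 / 2)) := by
          rw [← Real.exp_add, card_insert_of_notMem hv]
          congr 1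
          push_cast
          ring

end Pool.Agent.MSL.AB
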