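import Pool.Agent.MSL.ABStar

/-!
Star model: tail bounds, symmetry, union bounds.
-/

set_option autoImplicit false
set_option linter.unusedVariables false
set_option linter.unusedSectionVars false
set_option linter.unnecessarySimpa false

open Finset

namespace Pool.Agent.MSL.AB

variable {n : ℕ} {A : ℕ} {m : ℝ} {ν : ℕ → ℝ}

lemma tail_aux (hν : IsLaw A m ν) (hA : A ≤ n) (hn : 0 < n) (Λ : Finset (Fin n)) (t δ : ℝ)
    (E : (Fin n → Finset (Fin n)) → Prop)
    (hE : ∀ U, E U → t * δ ≤ t * (((n:ℝ) - #(UU U Λ)) - n * (1 - m / n) ^ #Λ)) :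
    PR (star n ν) E ≤ Real.exp (- t * δ + #Λ * (t ^ 2 * (A:ℝ) ^ 2 / 2)) := by
  have hW := isW_star hν hA
  have h1 := Ex_exp hν hA hn t Λ ∅
  simp only [empty_union, card_empty, Nat.cast_zero, sub_zero] at h1
  calc PR (star n ν) E ≤ Ex (star n ν) (fun U => Real.exp (-t * δ) *
        Real.exp (t * (((n:ℝ) - #(UU U Λ)) - n * (1 - m / n) ^ #Λ))) := by
        refine hW.PR_le_Ex E _ (fun U => by positivity) (fun U hU => ?_)
        rw [← Real.exp_add, Real.one_le_exp_iff]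
        have := hE U hU
        linarith
    _ = Real.exp (-t * δ) * Ex (star n ν) (fun U =>
        Real.exp (t * (((n:ℝ) - #(UU U Λ)) - n * (1 - m / n) ^ #Λ))) := Ex_const_mul _ _ _
    _ ≤ Real.exp (-t * δ) * Real.exp (#Λ * (t ^ 2 * (A:ℝ) ^ 2 / 2)) :=
        mul_le_mul_of_nonneg_left h1 (Real.exp_pos _).le
    _ = _ := by rw [← Real.exp_add]

lemma tail_low (hν : IsLaw A m ν) (hA : A ≤ n) (hn : 0 < n) (Λ : Finset (Fin n)) {δ : ℝ}
    (hδ : 0 ≤ δ) : PR (star n ν) (fun U => (#(UU U Λ) : ℝ) ≤ n * (1 - (1 - m / n) ^ #Λ) - δ) ≤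
      Real.exp (- (δ ^ 2 / (2 * #Λ * (A:ℝ) ^ 2))) := by
  have hW := isW_star hν hA
  rcases Nat.eq_zero_or_pos #Λ with h0 | h0
  · rw [h0]; simpa using hW.PR_le_one _
  obtain ⟨hm1, hmA⟩ := mean_range hν
  have hApos : (0:ℝ) < A := by linarith
  have hs : (0:ℝ) < #Λ := by exact_mod_cast h0
  refine (tail_aux hν hA hn Λ (δ / (#Λ * (A:ℝ) ^ 2)) δ _ (fun U hU => ?_)).trans (le_of_eq ?_)
  · refine mul_le_mul_of_nonneg_left ?_ (by positivity)
    linarith
  · congr 1
    field_simp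
    ring

lemma tail_high (hν : IsLaw A m ν) (hA : A ≤ n) (hn : 0 < n) (Λ : Finset (Fin n)) {δ : ℝ}
    (hδ : 0 ≤ δ) : PR (star n ν) (fun U => n * (1 - (1 - m / n) ^ #Λ) + δ ≤ (#(UU U Λ) : ℝ)) ≤
      Real.exp (- (δ ^ 2 / (2 * #Λ * (A:ℝ) ^ 2))) := by
  have hW := isW_star hν hA
  rcases Nat.eq_zero_or_pos #Λ with h0 | h0
  · rw [h0]; simpa using hW.PR_le_one _
  obtain ⟨hm1, hmA⟩ := mean_range hν
  have hApos : (0:ℝ) < A := by linarith
  have hs : (0:ℝ) < #Λ := by exact_mod_cast h0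
  refine (tail_aux hν hA hn Λ (-(δ / (#Λ * (A:ℝ) ^ 2))) (-δ) _ (fun U hU => ?_)).trans
    (le_of_eq ?_)
  · have h1 : 0 ≤ δ / (#Λ * (A:ℝ) ^ 2) := by positivity
    nlinarith
  · congr 1
    field_simp
    ring

/-! ### symmetry -/

lemma Ex_perm (σ : Equiv.Perm (Fin n)) (F : (Fin n → Finset (Fin n)) → ℝ) :
    Ex (star n ν) (fun U => F (fun v => (U v).map σ.toEmbedding)) = Ex (star n ν) F := by
  let e : (Fin n → Finset (Fin n)) ≃ (Fin n → Finset (Fin n)) :=
    Equiv.piCongrRight (fun _ => σ.finsetCongr)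
  unfold Ex
  rw [← Equiv.sum_comp e (fun U => pw (star n ν) U * F U)]
  refine Finset.sum_congr rfl (fun U _ => ?_)
  have h1 : e U = fun v => (U v).map σ.toEmbedding := rfl
  have h2 : pw (star n ν) (e U) = pw (star n ν) U := by
    unfold pw
    refine Finset.prod_congr rfl (fun v _ => ?_)
    rw [h1]
    exact star_map σ v v (U v)
  rw [h2, h1]

lemma UU_map (σ : Equiv.Perm (Fin n)) (U : Fin n → Finset (Fin n)) (Λ : Finset (Fin n)) :
    UU (fun v => (U v).map σ.toEmbedding) Λ = (UU U Λ).map σ.toEmbedding := by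
  unfold UU
  ext b
  simp only [mem_biUnion, Finset.mem_map_equiv]

lemma exists_perm {Θ Θ' : Finset (Fin n)} (h : #Θ = #Θ') :
    ∃ σ : Equiv.Perm (Fin n), Θ.map σ.toEmbedding = Θ' := by
  classical
  have e : {x // x ∈ Θ} ≃ {x // x ∈ Θ'} := Finset.equivOfCardEq h
  refine ⟨e.extendSubtype, ?_⟩
  refine Finset.eq_of_subset_of_card_le ?_ (by rw [card_map, h])
  intro b hb
  rw [Finset.mem_map] at hb
  obtain ⟨a, ha, rfl⟩ := hb
  exact Equiv.extendSubtype_mem e a ha

lemma PR_UU_perm (Λ : Finset (Fin n)) {Θ Θ' : Finset (Fin n)} (h : #Θ = #Θ') :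
    PR (star n ν) (fun U => UU U Λ = Θ') = PR (star n ν) (fun U => UU U Λ = Θ) := by
  obtain ⟨σ, hσ⟩ := exists_perm h
  unfold PR
  rw [← Ex_perm σ (fun U => one (UU U Λ = Θ'))]
  congr 1
  funext U
  rw [UU_map, ← hσ]
  congr 1
  exact propext (Finset.map_inj)

lemma PR_UU_eq (hn : 0 < n) (Λ Θ : Finset (Fin n)) :
    PR (star n ν) (fun U => UU U Λ = Θ) =
      PR (star n ν) (fun U => #(UU U Λ) = #Θ) / (n.choose #Θ) := by
  have h1 : PR (star n ν) (fun U => #(UU U Λ) = #Θ) =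
      ∑ Θ' ∈ (univ : Finset (Fin n)).powersetCard #Θ, PR (star n ν) (fun U => UU U Λ = Θ') := by
    refine PR_eq_sum _ _ _ (fun Θ' U => UU U Λ = Θ') ?_ ?_ ?_
    · intro U hU
      exact ⟨UU U Λ, Finset.mem_powersetCard.mpr ⟨subset_univ _, hU⟩, rfl⟩
    · intro Θ' hΘ' U hU
      rw [hU]; exact (Finset.mem_powersetCard.mp hΘ').2
    · intro Θ1 _ Θ2 _ U h1 h2
      exact h1.symm.trans h2
  have h2 : ∀ Θ' ∈ (univ : Finset (Fin n)).powersetCard #Θ,
      PR (star n ν) (fun U => UU U Λ = Θ') = PR (star n ν) (fun U => UU U Λ = Θ) := by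
    intro Θ' hΘ'
    exact PR_UU_perm Λ (Finset.mem_powersetCard.mp hΘ').2.symm
  rw [h1, Finset.sum_congr rfl h2, Finset.sum_const, card_powersetCard, card_univ,
    Fintype.card_fin, nsmul_eq_mul]
  have hc : ((n.choose #Θ : ℕ) : ℝ) ≠ 0 := by
    have h3 : #Θ ≤ n := by
      have := card_le_univ Θ
      rwa [Fintype.card_fin] at this
    have := Nat.choose_pos h3
    positivity
  field_simp

lemma choose_le_aux {b k j : ℕ} (hbk : b ≤ k) (hk : k ≤ n) (hj : j ≤ b) :
    (n - b).choose (k - b) ≤ n.choose (k - j) := by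
  calc (n - b).choose (k - b) = (n - b).choose (n - k) := by
        rw [← Nat.choose_symm (by omega)]; congr 1; omega
    _ ≤ (n - j).choose (n - k) := Nat.choose_le_choose _ (by omega)
    _ = (n - j).choose (k - j) := by
        rw [← Nat.choose_symm (by omega)]; congr 1; omega
    _ ≤ n.choose (k - j) := Nat.choose_le_choose _ (by omega)

lemma card_supersets (B : Finset (Fin n)) (k : ℕ) :
    #(((univ : Finset (Fin n)).powersetCard k).filter (fun Λ => B ⊆ Λ)) ≤
      (n - #B).choose (k - #B) := by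
  have h : #((Bᶜ).powersetCard (k - #B)) = (n - #B).choose (k - #B) := by
    rw [card_powersetCard, card_compl, Fintype.card_fin]
  rw [← h]
  refine Finset.card_le_card_of_injOn (fun Λ => Λ \ B) ?_ ?_
  · intro Λ hΛ
    obtain ⟨h1, h2⟩ := Finset.mem_filter.mp (Finset.mem_coe.mp hΛ)
    have h3 := (Finset.mem_powersetCard.mp h1).2
    refine Finset.mem_coe.mpr (Finset.mem_powersetCard.mpr ⟨?_, ?_⟩)
    · intro x hx
      rw [mem_compl]
      exact (mem_sdiff.mp hx).2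
    · rw [card_sdiff_of_subset h2, h3]
  · intro Λ1 h1 Λ2 h2 h12
    have h1' := (Finset.mem_filter.mp (Finset.mem_coe.mp h1)).2
    have h2' := (Finset.mem_filter.mp (Finset.mem_coe.mp h2)).2
    have := congrArg (fun S => S ∪ B) h12
    simp only [sdiff_union_of_subset h1', sdiff_union_of_subset h2'] at this
    exact this

/-- Lemma 1. -/
lemma PR_pair_le (hν : IsLaw A m ν) (hA : A ≤ n) (hn : 0 < n) (B : Finset (Fin n)) {k y : ℕ}
    (hk : k ≤ n) (hy : y ≤ k) {τ : ℝ} (hτ0 : 0 ≤ τ)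
    (hτ : ∀ Λ' : Finset (Fin n), #Λ' = k - y → ∀ j ≤ #B,
      PR (star n ν) (fun U => #(UU U Λ') = k - j) ≤ τ) :
    PR (star n ν) (fun U => ∃ Λ Λ' : Finset (Fin n), B ⊆ Λ ∧ Λ' ⊆ Λ ∧ #Λ = k ∧ #Λ' = k - y ∧
      B ∪ UU U Λ' = Λ) ≤ (k.choose y) * 2 ^ #B * τ := by
  classical
  have hW := isW_star hν hA
  by_cases hBk : #B ≤ k
  swap
  · have : PR (star n ν) (fun U => ∃ Λ Λ' : Finset (Fin n), B ⊆ Λ ∧ Λ' ⊆ Λ ∧ #Λ = k ∧
        #Λ' = k - y ∧ B ∪ UU U Λ' = Λ) ≤ 0 := by
      calc _ ≤ Ex (star n ν) (fun _ => 0) := by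
            refine hW.PR_le_Ex _ _ (fun _ => le_rfl) ?_
            rintro U ⟨Λ, Λ', h1, -, h3, -, -⟩
            exact absurd (h3 ▸ card_le_card h1) hBk
        _ = 0 := hW.Ex_const 0
    exact this.trans (by positivity)
  set I := (((univ : Finset (Fin n)).powersetCard k).filter (fun Λ => B ⊆ Λ)).sigma
    (fun Λ => Λ.powersetCard (k - y)) with hI
  have hIcard : #I ≤ (n - #B).choose (k - #B) * k.choose y := by
    rw [hI, card_sigma]
    calc ∑ Λ ∈ ((univ : Finset (Fin n)).powersetCard k).filter (fun Λ => B ⊆ Λ),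
          #(Λ.powersetCard (k - y)) = ∑ Λ ∈ ((univ : Finset (Fin n)).powersetCard k).filter
          (fun Λ => B ⊆ Λ), k.choose y := by
          refine Finset.sum_congr rfl (fun Λ hΛ => ?_)
          rw [card_powersetCard, (Finset.mem_powersetCard.mp (Finset.mem_filter.mp hΛ).1).2,
            Nat.choose_symm hy]
      _ = #(((univ : Finset (Fin n)).powersetCard k).filter (fun Λ => B ⊆ Λ)) * k.choose y := by
          rw [Finset.sum_const, smul_eq_mul]
      _ ≤ _ := Nat.mul_le_mul_right _ (card_supersets B k)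
  have h1 : PR (star n ν) (fun U => ∃ Λ Λ' : Finset (Fin n), B ⊆ Λ ∧ Λ' ⊆ Λ ∧ #Λ = k ∧
      #Λ' = k - y ∧ B ∪ UU U Λ' = Λ) ≤ ∑ p ∈ I ×ˢ B.powerset,
      PR (star n ν) (fun U => UU U p.1.2 = p.1.1 \ p.2) := by
    refine hW.PR_le_sum (I ×ˢ B.powerset) _ (fun p U => UU U p.1.2 = p.1.1 \ p.2) ?_
    rintro U ⟨Λ, Λ', h1, h2, h3, h4, h5⟩
    refine ⟨(⟨Λ, Λ'⟩, Λ \ UU U Λ'), ?_, ?_⟩
    · rw [mem_product]
      refine ⟨Finset.mem_sigma.mpr ⟨Finset.mem_filter.mpr
        ⟨Finset.mem_powersetCard.mpr ⟨subset_univ _, h3⟩, h1⟩,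
        Finset.mem_powersetCard.mpr ⟨h2, h4⟩⟩, ?_⟩
      rw [mem_powerset]
      intro x hx
      obtain ⟨hx1, hx2⟩ := mem_sdiff.mp hx
      rw [← h5] at hx1
      rcases mem_union.mp hx1 with h | h
      · exact h
      · exact absurd h hx2
    · have hsub : UU U Λ' ⊆ Λ := by rw [← h5]; exact subset_union_right
      show UU U Λ' = Λ \ (Λ \ UU U Λ')
      rw [sdiff_sdiff_right_self]
      exact (inf_eq_right.mpr hsub).symm
  have h2 : ∀ p ∈ I ×ˢ B.powerset, PR (star n ν) (fun U => UU U p.1.2 = p.1.1 \ p.2) ≤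
      τ / ((n - #B).choose (k - #B)) := by
    rintro ⟨⟨Λ, Λ'⟩, B'⟩ hp
    obtain ⟨hp1, hp2⟩ := mem_product.mp hp
    obtain ⟨hp3, hp4⟩ := Finset.mem_sigma.mp hp1
    obtain ⟨hp5, hp6⟩ := Finset.mem_filter.mp hp3
    have hΛk := (Finset.mem_powersetCard.mp hp5).2
    have hΛ'k := (Finset.mem_powersetCard.mp hp4).2
    have hB'B := mem_powerset.mp hp2
    have hB'Λ : B' ⊆ Λ := hB'B.trans hp6
    have hcard : #(Λ \ B') = k - #B' := by rw [card_sdiff_of_subset hB'Λ]; congr 1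
    simp only
    rw [PR_UU_eq hn, hcard]
    have h3 := hτ Λ' hΛ'k #B' (card_le_card hB'B)
    have h4 := choose_le_aux (n := n) hBk hk (card_le_card hB'B)
    have h5 : 0 < (n - #B).choose (k - #B) := Nat.choose_pos (by omega)
    exact div_le_div₀ hτ0 h3 (by exact_mod_cast h5) (by exact_mod_cast h4)
  calc _ ≤ _ := h1
    _ ≤ ∑ p ∈ I ×ˢ B.powerset, τ / ((n - #B).choose (k - #B)) := Finset.sum_le_sum h2
    _ = (#I * 2 ^ #B : ℕ) * (τ / ((n - #B).choose (k - #B))) := by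
        rw [Finset.sum_const, card_product, card_powerset, nsmul_eq_mul]
    _ ≤ (((n - #B).choose (k - #B) * k.choose y) * 2 ^ #B : ℕ) *
        (τ / ((n - #B).choose (k - #B))) := by
        refine mul_le_mul_of_nonneg_right ?_ (by positivity)
        exact_mod_cast Nat.mul_le_mul_right _ hIcard
    _ = (k.choose y) * 2 ^ #B * τ := by
        have h5 : (0:ℝ) < (n - #B).choose (k - #B) := by
          exact_mod_cast (Nat.choose_pos (show k - #B ≤ n - #B by omega))
        push_cast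
        field_simp

/-- small closed sets around one vertex. -/
lemma PR_closed_small (hν : IsLaw A m ν) (hA : A ≤ n) (hn : 0 < n) (u : Fin n) {k : ℕ}
    (hk : k ≤ n) (hk1 : 1 ≤ k) {τ : ℝ} (hτ0 : 0 ≤ τ)
    (hτ : ∀ Λ : Finset (Fin n), #Λ = k → PR (star n ν) (fun U => #(UU U Λ) = k - 1) ≤ τ) :
    PR (star n ν) (fun U => ∃ Λ : Finset (Fin n), u ∈ Λ ∧ #Λ = k ∧ {u} ∪ UU U Λ = Λ) ≤
      k / n + τ := by
  classical
  have hW := isW_star hν hA
  set I := ((univ : Finset (Fin n)).powersetCard k).filter (fun Λ => {u} ⊆ Λ) with hI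
  have hIcard : #I ≤ (n - 1).choose (k - 1) := by
    have := card_supersets ({u} : Finset (Fin n)) k
    rwa [card_singleton] at this
  have h1 : PR (star n ν) (fun U => ∃ Λ : Finset (Fin n), u ∈ Λ ∧ #Λ = k ∧ {u} ∪ UU U Λ = Λ) ≤
      ∑ Λ ∈ I, PR (star n ν) (fun U => UU U Λ = Λ ∨ UU U Λ = Λ \ {u}) := by
    refine hW.PR_le_sum _ _ (fun Λ U => UU U Λ = Λ ∨ UU U Λ = Λ \ {u}) ?_
    rintro U ⟨Λ, h1, h2, h3⟩
    refine ⟨Λ, Finset.mem_filter.mpr ⟨Finset.mem_powersetCard.mpr ⟨subset_univ _, h2⟩,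
      singleton_subset_iff.mpr h1⟩, ?_⟩
    by_cases hu : u ∈ UU U Λ
    · left
      rw [← h3]
      rw [union_eq_right.mpr (singleton_subset_iff.mpr hu)]
      rw [union_eq_right.mpr (singleton_subset_iff.mpr hu)] at h3
      rw [h3]; exact h3
    · right
      ext x
      rw [mem_sdiff, mem_singleton]
      constructor
      · intro hx
        exact ⟨by rw [← h3]; exact mem_union_right _ hx, fun h => hu (h ▸ hx)⟩
      · rintro ⟨hx1, hx2⟩
        rw [← h3] at hx1
        rcases mem_union.mp hx1 with h | h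
        · exact absurd (mem_singleton.mp h) hx2
        · exact h
  have hch1 : (0:ℝ) < (n - 1).choose (k - 1) := by
    exact_mod_cast (Nat.choose_pos (show k - 1 ≤ n - 1 by omega))
  have h2 : ∀ Λ ∈ I, PR (star n ν) (fun U => UU U Λ = Λ ∨ UU U Λ = Λ \ {u}) ≤
      1 / (n.choose k) + τ / ((n - 1).choose (k - 1)) := by
    intro Λ hΛ
    obtain ⟨hp5, hp6⟩ := Finset.mem_filter.mp hΛ
    have hΛk := (Finset.mem_powersetCard.mp hp5).2
    have h3 : PR (star n ν) (fun U => UU U Λ = Λ ∨ UU U Λ = Λ \ {u}) ≤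
        PR (star n ν) (fun U => UU U Λ = Λ) + PR (star n ν) (fun U => UU U Λ = Λ \ {u}) := by
      unfold PR
      rw [← Ex_add]
      refine hW.Ex_mono (fun U => ?_)
      by_cases h : UU U Λ = Λ ∨ UU U Λ = Λ \ {u}
      · rw [one_pos' h]
        rcases h with h | h
        · rw [one_pos' h]; have := one_nonneg (UU U Λ = Λ \ {u}); linarith
        · rw [one_pos' h]; have := one_nonneg (UU U Λ = Λ); linarith
      · rw [one_neg h]
        have := one_nonneg (UU U Λ = Λ \ {u})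
        have := one_nonneg (UU U Λ = Λ)
        linarith
    refine h3.trans (add_le_add ?_ ?_)
    · rw [PR_UU_eq hn, hΛk]
      refine div_le_div_of_nonneg_right (hW.PR_le_one _) (by positivity)
    · have hcard : #(Λ \ {u}) = k - 1 := by
        rw [card_sdiff_of_subset hp6, card_singleton, hΛk]
      rw [PR_UU_eq hn, hcard]
      have h4 := choose_le_aux (n := n) (b := 1) (k := k) (j := 1) hk1 hk le_rfl
      exact div_le_div₀ hτ0 (hτ Λ hΛk) hch1 (by exact_mod_cast h4)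
  calc _ ≤ _ := h1
    _ ≤ ∑ Λ ∈ I, (1 / (n.choose k : ℝ) + τ / ((n - 1).choose (k - 1))) := Finset.sum_le_sum h2
    _ = #I * (1 / (n.choose k : ℝ) + τ / ((n - 1).choose (k - 1))) := by
        rw [Finset.sum_const, nsmul_eq_mul]
    _ ≤ (n - 1).choose (k - 1) * (1 / (n.choose k : ℝ) + τ / ((n - 1).choose (k - 1))) := by
        refine mul_le_mul_of_nonneg_right ?_ (by positivity)
        exact_mod_cast hIcard
    _ = k / n + τ := by
        have e1 : (n.choose k : ℝ) * k = n * (n - 1).choose (k - 1) := by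
          have := Nat.add_one_mul_choose_eq (n - 1) (k - 1)
          rw [Nat.sub_add_cancel hk1,
            Nat.sub_add_cancel hn] at this
          exact_mod_cast this.symm
        have e2 : (0:ℝ) < n.choose k := by exact_mod_cast (Nat.choose_pos hk)
        have e3 : (0:ℝ) < n := by exact_mod_cast hn
        have e4 : ((n - 1).choose (k - 1) : ℝ) * (1 / (n.choose k : ℝ)) = k / n := by
          rw [mul_one_div, div_eq_div_iff e2.ne' e3.ne']
          linarith
        rw [mul_add, e4]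
        congr 1
        field_simp

end Pool.Agent.MSL.AB
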