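import Pool.Agent.MSL.ModC1

/-!
Paths avoiding a forward closure, sizes of balls, choice of the constants.
-/

set_option autoImplicit false

open Finset Filter

namespace Pool.Agent.MSL

namespace C3

open AB

/-! ### independence along a path -/

lemma indep_path {n : ℕ} {α : Type*} [Fintype α] {w : Fin n → α → ℝ} (hw : IsW w)
    (G : (Fin n → α) → ℝ) (q : ℕ → Fin n) (f : ℕ → α → ℝ) (h : ℕ)
    (hq : Set.InjOn q (Set.Iic h))
    (hG : ∀ j < h, ∀ U S, G (Function.update U (q j) S) = G U) :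
    ∀ k ≤ h, Ex w (fun U => G U * ∏ j ∈ range k, f j (U (q j))) =
      Ex w G * ∏ j ∈ range k, ∑ S, w (q j) S * f j S := by
  intro k
  induction k with
  | zero => intro _; simp
  | succ k ih =>
    intro hk
    have ih := ih (by omega)
    rw [hw.resample (q k)]
    have h1 : ∀ S, (fun U : Fin n → α => G (Function.update U (q k) S) *
        ∏ j ∈ range (k + 1), f j (Function.update U (q k) S (q j))) =
        fun U => f k S * (G U * ∏ j ∈ range k, f j (U (q j))) := by
      intro S
      funext U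
      rw [hG k (by omega), Finset.prod_range_succ, Function.update_self]
      have h2 : ∏ j ∈ range k, f j (Function.update U (q k) S (q j)) =
          ∏ j ∈ range k, f j (U (q j)) := by
        refine Finset.prod_congr rfl fun j hj => ?_
        have hj' : j < k := Finset.mem_range.mp hj
        rw [Function.update_of_ne]
        intro he
        have := hq (Set.mem_Iic.mpr (by omega : j ≤ h)) (Set.mem_Iic.mpr (by omega : k ≤ h)) he
        omega
      rw [h2]; ring
    simp only [h1, Ex_const_mul]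
    rw [ih, Finset.prod_range_succ, ← mul_assoc]
    rw [Finset.mul_sum]
    refine Finset.sum_congr rfl fun S _ => ?_
    ring

/-! ### the marginals -/

section marg

variable {n K A : ℕ} {m : Fin (K + 1) → ℝ} {lam : Fin n → (Fin (K + 1) → Finset (Fin n)) → ℝ}

lemma isW_of_adm (hadm : Adm n K A m lam) : IsW lam := ⟨hadm.nonneg, hadm.sum_one⟩

/-- the law of one set -/
noncomputable def adj (n : ℕ) (ν : ℕ → ℝ) (v : Fin n) (Θ : Finset (Fin n)) : ℝ :=
  if v ∈ Θ then 0 else ν (#Θ) / ((n - 1).choose #Θ)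

lemma sum_level (hadm : Adm n K A m lam) (i : Fin (K + 1)) : ∃ ν : ℕ → ℝ, IsLaw A (m i) ν ∧
    ∀ v (F : Finset (Fin n) → ℝ), ∑ x, lam v x * F (x i) = ∑ Θ, adj n ν v Θ * F Θ := by
  obtain ⟨ν, hν, h⟩ := hadm.marg i
  refine ⟨ν, hν, fun v F => ?_⟩
  rw [← Finset.sum_fiberwise_of_maps_to (s := univ) (t := univ)
    (g := fun x : Fin (K + 1) → Finset (Fin n) => x i) (fun _ _ => mem_univ _)]
  refine Finset.sum_congr rfl fun Θ _ => ?_
  rw [adj, ← h v Θ, Finset.sum_mul]
  refine Finset.sum_congr rfl fun x hx => ?_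
  rw [(Finset.mem_filter.mp hx).2]

lemma sum_adj {ν : ℕ → ℝ} {m : ℝ} (hν : IsLaw A m ν) (hA : A < n) (v : Fin n) (f : ℕ → ℝ) :
    ∑ Θ, adj n ν v Θ * f #Θ = ∑ k ∈ range (A + 1), ν k * f k := by
  have hcard : #((univ : Finset (Fin n)).erase v) = n - 1 := by simp
  have h := Finset.sum_powerset_apply_card (fun k => ν k / ((n - 1).choose k) * f k)
    (x := (univ : Finset (Fin n)).erase v)
  rw [hcard] at h
  have h1 : ∑ Θ, adj n ν v Θ * f #Θ =
      ∑ Θ ∈ ((univ : Finset (Fin n)).erase v).powerset, ν (#Θ) / ((n - 1).choose #Θ) * f #Θ := by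
    symm
    refine Finset.sum_subset_zero_on_sdiff (Finset.subset_univ _) ?_ ?_
    · intro Θ hΘ
      have : v ∈ Θ := by
        by_contra hv
        rw [Finset.mem_sdiff, Finset.mem_powerset] at hΘ
        exact hΘ.2 (fun x hx => by
          simp only [mem_erase, mem_univ, and_true]
          rintro rfl; exact hv hx)
      simp [adj, this]
    · intro Θ hΘ
      have : v ∉ Θ := by
        intro hv
        have := (Finset.mem_powerset.mp hΘ) hv
        simp at this
      simp [adj, this]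
  rw [h1, h]
  have h2 : ∑ k ∈ range (n - 1 + 1), (n - 1).choose k • (ν k / ((n - 1).choose k) * f k) =
      ∑ k ∈ range (n - 1 + 1), ν k * f k := by
    refine Finset.sum_congr rfl fun k hk => ?_
    have hk' : k ≤ n - 1 := by have := mem_range.mp hk; omega
    have hc : ((n - 1).choose k : ℝ) ≠ 0 := by
      have := Nat.choose_pos hk'
      positivity
    rw [nsmul_eq_mul]
    field_simp
  rw [h2]
  symm
  refine Finset.sum_subset (by intro k hk; rw [mem_range] at hk ⊢; omega) (fun k _ hk => ?_)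
  have : ν k = 0 := by
    by_contra h
    have := (hν.supp k h).2
    exact hk (mem_range.mpr (by omega))
  rw [this, zero_mul]

lemma adj_nonneg {ν : ℕ → ℝ} {m : ℝ} (hν : IsLaw A m ν) (v : Fin n) (Θ : Finset (Fin n)) :
    0 ≤ adj n ν v Θ := by
  unfold adj
  split_ifs
  · exact le_rfl
  · exact div_nonneg (hν.nonneg _) (by positivity)

lemma adj_mem {ν : ℕ → ℝ} {m : ℝ} (hν : IsLaw A m ν) (hA : A < n) (hn : 2 ≤ n) {v b : Fin n}
    (hb : b ≠ v) :
    ∑ Θ, adj n ν v Θ * (if b ∈ Θ then (1 : ℝ) else 0) = m / (n - 1) := by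
  have hsym : ∀ b' ∈ univ.erase v, ∑ Θ, adj n ν v Θ * (if b' ∈ Θ then (1:ℝ) else 0) =
      ∑ Θ, adj n ν v Θ * (if b ∈ Θ then (1:ℝ) else 0) := by
    intro b' hb'
    have hb'v : b' ≠ v := by simpa using hb'
    let σ : Equiv.Perm (Fin n) := Equiv.swap b b'
    let e : Finset (Fin n) ≃ Finset (Fin n) := σ.finsetCongr
    rw [← Equiv.sum_comp e]
    refine Finset.sum_congr rfl (fun Θ _ => ?_)
    have hmem : ∀ x, x ∈ e Θ ↔ σ.symm x ∈ Θ := by
      intro x
      show x ∈ Θ.map σ.toEmbedding ↔ _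
      rw [Finset.mem_map_equiv]
    have hcard : #(e Θ) = #Θ := by
      show #(Θ.map σ.toEmbedding) = #Θ
      rw [card_map]
    have hv : v ∈ e Θ ↔ v ∈ Θ := by
      rw [hmem]
      have : σ.symm v = v := by
        show (Equiv.swap b b').symm v = v
        rw [Equiv.symm_swap]
        exact Equiv.swap_apply_of_ne_of_ne hb.symm hb'v.symm
      rw [this]
    have h1 : adj n ν v (e Θ) = adj n ν v Θ := by
      unfold adj
      simp only [hv, hcard]
    have h2 : b' ∈ e Θ ↔ b ∈ Θ := by
      rw [hmem]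
      have : σ.symm b' = b := by
        show (Equiv.swap b b').symm b' = b
        rw [Equiv.symm_swap]
        exact Equiv.swap_apply_right _ _
      rw [this]
    rw [h1]
    simp only [h2]
  have htot : ∑ b' ∈ univ.erase v, ∑ Θ, adj n ν v Θ * (if b' ∈ Θ then (1:ℝ) else 0) = m := by
    rw [Finset.sum_comm, ← hν.mean]
    have h3 := sum_adj hν hA v (fun k => (k : ℝ))
    rw [Finset.sum_congr rfl (fun k (_ : k ∈ range (A + 1)) => mul_comm (k : ℝ) (ν k)), ← h3]
    refine Finset.sum_congr rfl (fun Θ _ => ?_)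
    rw [← Finset.mul_sum]
    by_cases hv : v ∈ Θ
    · simp [adj, hv]
    · congr 1
      rw [Finset.sum_boole]
      congr 2
      ext x
      simp only [mem_filter, mem_erase, mem_univ, and_true]
      constructor
      · exact fun h => h.2
      · exact fun h => ⟨fun hx => hv (hx ▸ h), h⟩
  rw [Finset.sum_congr rfl hsym, Finset.sum_const, nsmul_eq_mul, Finset.card_erase_of_mem
    (mem_univ v), Finset.card_univ, Fintype.card_fin, Nat.cast_sub (by omega)] at htot
  have hn' : ((n : ℝ) - 1) ≠ 0 := by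
    have : (2 : ℝ) ≤ n := by exact_mod_cast hn
    linarith
  field_simp
  push_cast at htot
  linarith

lemma level_mem (hadm : Adm n K A m lam) (hA : A < n) (hn : 2 ≤ n) (i : Fin (K + 1))
    {v b : Fin n} (hb : b ≠ v) :
    ∑ x, lam v x * one (b ∈ x i) = m i / (n - 1) := by
  obtain ⟨ν, hν, h⟩ := sum_level hadm i
  rw [h v (fun Θ => one (b ∈ Θ)), ← adj_mem hν hA hn hb]
  refine Finset.sum_congr rfl fun Θ _ => ?_
  congr 1
  by_cases hb : b ∈ Θ
  · rw [one_pos' hb]; simp [hb]
  · rw [one_neg hb]; simp [hb]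

lemma level_card (hadm : Adm n K A m lam) (hA : A < n) (i : Fin (K + 1)) (v : Fin n) :
    ∑ x, lam v x * (#(x i) : ℝ) = m i := by
  obtain ⟨ν, hν, h⟩ := sum_level hadm i
  rw [h v (fun Θ => (#Θ : ℝ)), sum_adj hν hA v (fun k => (k : ℝ)), ← hν.mean]
  exact Finset.sum_congr rfl fun k _ => mul_comm _ _

lemma lam_supp (hadm : Adm n K A m lam) (i : Fin (K + 1)) {v : Fin n}
    {x : Fin (K + 1) → Finset (Fin n)} (hx : lam v x ≠ 0) : v ∉ x i ∧ #(x i) ≤ A := by
  obtain ⟨ν, hν, h⟩ := hadm.marg i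
  have h1 := h v (x i)
  have h2 : lam v x ≤ ∑ y ∈ univ.filter (fun y : Fin (K + 1) → Finset (Fin n) => y i = x i),
      lam v y := by
    refine Finset.single_le_sum (f := lam v) (fun y _ => hadm.nonneg v y) ?_
    simp
  have h3 : 0 < lam v x := lt_of_le_of_ne (hadm.nonneg v x) (Ne.symm hx)
  rw [h1] at h2
  constructor
  · intro hv
    rw [if_pos hv] at h2
    linarith
  · by_contra hgt
    have : ν #(x i) = 0 := by
      by_contra hne
      exact hgt (hν.supp _ hne).2
    rw [this, zero_div, ite_self] at h2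
    linarith

end marg

/-! ### the closure does not depend on the other coordinates -/

section closure

open C1

variable {n : ℕ}

lemma Fw_update (U : Fin n → Finset (Fin n)) (B : Finset (Fin n)) (v : Fin n)
    (S : Finset (Fin n)) (hv : v ∉ cl U B) (j : ℕ) : Fw (Function.update U v S) j B = Fw U j B := by
  induction j with
  | zero => rfl
  | succ j ih =>
    have h1 : v ∉ Fw U j B := fun h => hv (Fw_sub_cl U B j h)
    show Fw (Function.update U v S) j B ∪ (Fw (Function.update U v S) j B).biUnion _ =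
      Fw U j B ∪ (Fw U j B).biUnion U
    rw [ih]
    congr 1
    refine Finset.biUnion_congr rfl fun x hx => ?_
    rw [Function.update_of_ne]
    rintro rfl
    exact h1 hx

lemma cl_update (U : Fin n → Finset (Fin n)) (B : Finset (Fin n)) (v : Fin n)
    (S : Finset (Fin n)) (hv : v ∉ cl U B) : cl (Function.update U v S) B = cl U B := by
  ext x
  rw [mem_cl, mem_cl]
  simp only [Fw_update U B v S hv]

lemma cl_update_iff (U : Fin n → Finset (Fin n)) (B Λ : Finset (Fin n)) (v : Fin n)
    (S : Finset (Fin n)) (hv : v ∉ Λ) : cl (Function.update U v S) B = Λ ↔ cl U B = Λ := by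
  constructor
  · intro h
    have h1 : v ∉ cl (Function.update U v S) B := by rw [h]; exact hv
    have h2 := cl_update (Function.update U v S) B v (U v) h1
    rw [Function.update_idem, Function.update_eq_self] at h2
    rw [h2, h]
  · intro h
    have h1 : v ∉ cl U B := by rw [h]; exact hv
    rw [cl_update U B v S h1, h]

end closure

/-! ### ends of paths -/

section paths

open C1

variable {n K A : ℕ} {m : Fin (K + 1) → ℝ} {lam : Fin n → (Fin (K + 1) → Finset (Fin n)) → ℝ}

open Classical in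
/-- the ends of the paths of length `h` with distinct vertices outside `Λ` -/
noncomputable def ends (U : Fin n → Finset (Fin n)) (h : ℕ) (Λ : Finset (Fin n)) :
    Finset (Fin n) :=
  univ.filter fun b => ∃ q : ℕ → Fin n, Set.InjOn q (Set.Iic h) ∧ (∀ j ≤ h, q j ∉ Λ) ∧
    (∀ j < h, q (j + 1) ∈ U (q j)) ∧ q h = b

/-- extension of a finite sequence -/
def ext {h : ℕ} (p : Fin (h + 1) → Fin n) (j : ℕ) : Fin n := p ⟨min j h, by omega⟩

open Classical in
/-- the sequences of distinct vertices outside `Λ` -/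
noncomputable def seqs (h : ℕ) (Λ : Finset (Fin n)) : Finset (Fin (h + 1) → Fin n) :=
  (Fintype.piFinset fun _ : Fin (h + 1) => Λᶜ).filter (fun p => Set.InjOn (ext p) (Set.Iic h))

lemma mem_seqs {h : ℕ} {Λ : Finset (Fin n)} {p : Fin (h + 1) → Fin n} :
    p ∈ seqs h Λ ↔ (∀ j, p j ∉ Λ) ∧ Set.InjOn (ext p) (Set.Iic h) := by
  simp [seqs]

lemma card_seqs_le (h : ℕ) (Λ : Finset (Fin n)) : #(seqs h Λ) ≤ (#Λᶜ) ^ (h + 1) := by
  classical
  refine (Finset.card_filter_le _ _).trans ?_
  rw [Fintype.card_piFinset]; simp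

lemma card_ends (U : Fin n → Finset (Fin n)) (h : ℕ) (Λ : Finset (Fin n)) :
    (#(ends U h Λ) : ℝ) ≤ ∑ p ∈ seqs h Λ, ∏ j ∈ range h, one (ext p (j + 1) ∈ U (ext p j)) := by
  classical
  set P := seqs h Λ with hP
  have h1 : ends U h Λ ⊆ (P.filter fun p => ∀ j < h, ext p (j + 1) ∈ U (ext p j)).image
      (fun p => p (Fin.last h)) := by
    intro b hb
    simp only [ends, mem_filter, mem_univ, true_and] at hb
    obtain ⟨q, hq1, hq2, hq3, hq4⟩ := hb
    have hext : ∀ j ≤ h, ext (fun i : Fin (h + 1) => q i) j = q j := by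
      intro j hj
      simp [ext, min_eq_left hj]
    rw [Finset.mem_image]
    refine ⟨fun i => q i, ?_, by simpa using hq4⟩
    rw [Finset.mem_filter, hP, mem_seqs]
    refine ⟨⟨fun i => hq2 i (by omega), ?_⟩, ?_⟩
    · intro a ha b hb hab
      rw [hext a ha, hext b hb] at hab
      exact hq1 ha hb hab
    · intro j hj
      rw [hext (j + 1) (by omega), hext j (by omega)]
      exact hq3 j hj
  have h2 : #(ends U h Λ) ≤ #(P.filter fun p => ∀ j < h, ext p (j + 1) ∈ U (ext p j)) :=
    (Finset.card_le_card h1).trans Finset.card_image_le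
  have h3 : (#(P.filter fun p => ∀ j < h, ext p (j + 1) ∈ U (ext p j)) : ℝ) =
      ∑ p ∈ P, ∏ j ∈ range h, one (ext p (j + 1) ∈ U (ext p j)) := by
    rw [Finset.card_filter]
    push_cast
    refine Finset.sum_congr rfl fun p _ => ?_
    by_cases hp : ∀ j < h, ext p (j + 1) ∈ U (ext p j)
    · rw [if_pos hp]
      symm
      exact Finset.prod_eq_one fun j hj => one_pos' (hp j (Finset.mem_range.mp hj))
    · rw [if_neg hp]
      push Not at hp
      obtain ⟨j, hj, hp⟩ := hp
      symm
      exact Finset.prod_eq_zero (Finset.mem_range.mpr hj) (one_neg hp)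
  rw [← h3]
  exact_mod_cast h2

/-- the level `i` of the vector of digraphs -/
def lv (u : Fin n → Fin (K + 1) → Finset (Fin n)) (i : Fin (K + 1)) : Fin n → Finset (Fin n) :=
  fun v => u v i

lemma lv_update (u : Fin n → Fin (K + 1) → Finset (Fin n)) (i : Fin (K + 1)) (v : Fin n)
    (S : Fin (K + 1) → Finset (Fin n)) :
    lv (Function.update u v S) i = Function.update (lv u i) v (S i) := by
  funext x
  by_cases hx : x = v
  · subst hx; simp [lv]
  · simp [lv, Function.update_of_ne hx]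

/-- expected number of ends of paths avoiding the closure of `z` when this closure is large -/
lemma path_expect (hadm : Adm n K A m lam) (hA : A < n) (hn : 2 ≤ n) (i i' : Fin (K + 1))
    (z : Fin n) (h : ℕ) {a : ℝ} (ha : 0 ≤ a) (hm : 0 ≤ m i') :
    Ex lam (fun u => one ((#(cl (lv u i) {z})ᶜ : ℝ) ≤ a * n) *
      (#(ends (lv u i') h (cl (lv u i) {z})) : ℝ)) ≤ n * (a * n * (m i' / (n - 1))) ^ h := by
  classical
  have hw : IsW lam := isW_of_adm hadm
  have hn1 : (0 : ℝ) < (n : ℝ) - 1 := by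
    have : (2 : ℝ) ≤ n := by exact_mod_cast hn
    linarith
  have hp0 : 0 ≤ m i' / ((n : ℝ) - 1) := div_nonneg hm hn1.le
  set P : Finset (Fin n) → Finset (Fin (h + 1) → Fin n) := fun Λ => seqs h Λ with hP
  -- pointwise bound
  have h1 : ∀ u : Fin n → Fin (K + 1) → Finset (Fin n),
      one ((#(cl (lv u i) {z})ᶜ : ℝ) ≤ a * n) * (#(ends (lv u i') h (cl (lv u i) {z})) : ℝ) ≤
      ∑ Λ ∈ univ.filter (fun Λ : Finset (Fin n) => (#Λᶜ : ℝ) ≤ a * n), ∑ p ∈ P Λ,
        one (cl (lv u i) {z} = Λ) * ∏ j ∈ range h, one (ext p (j + 1) ∈ lv u i' (ext p j)) := by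
    intro u
    set L := cl (lv u i) {z} with hL
    by_cases hcard : (#Lᶜ : ℝ) ≤ a * n
    · rw [one_pos' hcard, one_mul]
      refine (card_ends (lv u i') h L).trans ?_
      refine le_trans (le_of_eq ?_) (Finset.single_le_sum (f := fun Λ => ∑ p ∈ P Λ,
        one (L = Λ) * ∏ j ∈ range h, one (ext p (j + 1) ∈ lv u i' (ext p j))) ?_
        (Finset.mem_filter.mpr ⟨mem_univ L, hcard⟩))
      · refine Finset.sum_congr rfl fun p _ => ?_
        rw [one_pos' rfl, one_mul]
      · intro Λ _
        exact Finset.sum_nonneg fun p _ => mul_nonneg (one_nonneg _)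
          (Finset.prod_nonneg fun j _ => one_nonneg _)
    · rw [one_neg hcard, zero_mul]
      exact Finset.sum_nonneg fun Λ _ => Finset.sum_nonneg fun p _ => mul_nonneg (one_nonneg _)
          (Finset.prod_nonneg fun j _ => one_nonneg _)
  refine (hw.Ex_mono h1).trans ?_
  rw [Ex_sum]
  -- the expectation for one path
  have h2 : ∀ Λ, ∀ p ∈ P Λ, Ex lam (fun u => one (cl (lv u i) {z} = Λ) *
      ∏ j ∈ range h, one (ext p (j + 1) ∈ lv u i' (ext p j))) =
      Ex lam (fun u => one (cl (lv u i) {z} = Λ)) * (m i' / (n - 1)) ^ h := by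
    intro Λ p hp
    simp only [hP, mem_seqs] at hp
    have hne : ∀ j < h, ext p (j + 1) ≠ ext p j := by
      intro j hj he
      have := hp.2 (Set.mem_Iic.mpr (by omega : j + 1 ≤ h)) (Set.mem_Iic.mpr hj.le) he
      omega
    have h3 := indep_path hw (fun u => one (cl (lv u i) {z} = Λ)) (ext p)
      (fun j x => one (ext p (j + 1) ∈ x i')) h hp.2 (by
        intro j hj U S
        have hnot : ext p j ∉ Λ := hp.1 _
        simp only [lv_update, cl_update_iff _ _ _ _ _ hnot]) h le_rfl
    refine Eq.trans h3 ?_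
    congr 1
    rw [Finset.prod_congr rfl fun j hj =>
      level_mem hadm hA hn i' (hne j (Finset.mem_range.mp hj)), Finset.prod_const,
      Finset.card_range]
  have h4 : ∀ Λ ∈ univ.filter (fun Λ : Finset (Fin n) => (#Λᶜ : ℝ) ≤ a * n),
      Ex lam (fun u => ∑ p ∈ P Λ, one (cl (lv u i) {z} = Λ) *
        ∏ j ∈ range h, one (ext p (j + 1) ∈ lv u i' (ext p j))) ≤
      Ex lam (fun u => one (cl (lv u i) {z} = Λ)) * (n * (a * n * (m i' / (n - 1))) ^ h) := by
    intro Λ hΛ
    rw [Ex_sum, Finset.sum_congr rfl (h2 Λ), Finset.sum_const, nsmul_eq_mul]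
    have hE : 0 ≤ Ex lam (fun u => one (cl (lv u i) {z} = Λ)) :=
      hw.Ex_nonneg fun U => one_nonneg _
    have hcP : (#(P Λ) : ℝ) ≤ n * (a * n) ^ h := by
      have h5 : #(P Λ) ≤ (#Λᶜ) ^ (h + 1) := card_seqs_le h Λ
      have h6 : (#Λᶜ : ℝ) ≤ n := by
        have : #Λᶜ ≤ n := by
          have := Finset.card_le_univ Λᶜ
          rwa [Fintype.card_fin] at this
        exact_mod_cast this
      have h7 : (#Λᶜ : ℝ) ≤ a * n := (Finset.mem_filter.mp hΛ).2
      calc (#(P Λ) : ℝ) ≤ (#Λᶜ : ℝ) ^ (h + 1) := by exact_mod_cast h5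
        _ = (#Λᶜ : ℝ) * (#Λᶜ : ℝ) ^ h := by ring
        _ ≤ n * (a * n) ^ h := by gcongr
    calc (#(P Λ) : ℝ) * (Ex lam (fun u => one (cl (lv u i) {z} = Λ)) * (m i' / (n - 1)) ^ h)
        = Ex lam (fun u => one (cl (lv u i) {z} = Λ)) * (#(P Λ) * (m i' / (n - 1)) ^ h) := by ring
      _ ≤ Ex lam (fun u => one (cl (lv u i) {z} = Λ)) *
          ((n * (a * n) ^ h) * (m i' / (n - 1)) ^ h) := by gcongr
      _ = _ := by rw [mul_pow (a * (n : ℝ))]; ring
  refine (Finset.sum_le_sum h4).trans ?_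
  rw [← Finset.sum_mul]
  have h5 : ∑ Λ ∈ univ.filter (fun Λ : Finset (Fin n) => (#Λᶜ : ℝ) ≤ a * n),
      Ex lam (fun u => one (cl (lv u i) {z} = Λ)) ≤ 1 := by
    rw [← Ex_sum]
    refine (hw.Ex_mono (G := fun _ => 1) fun u => ?_).trans (le_of_eq (hw.Ex_const 1))
    calc ∑ Λ ∈ univ.filter (fun Λ : Finset (Fin n) => (#Λᶜ : ℝ) ≤ a * n),
          one (cl (lv u i) {z} = Λ) ≤ ∑ Λ, one (cl (lv u i) {z} = Λ) :=
          Finset.sum_le_sum_of_subset_of_nonneg (Finset.subset_univ _)
            fun Λ _ _ => one_nonneg _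
      _ = 1 := by
        rw [Finset.sum_eq_single (cl (lv u i) {z})]
        · exact one_pos' rfl
        · intro Λ _ hne
          exact one_neg fun h => hne h.symm
        · intro h; exact absurd (mem_univ _) h
  have h6 : 0 ≤ (n : ℝ) * (a * n * (m i' / (n - 1))) ^ h := by positivity
  calc _ ≤ 1 * ((n : ℝ) * (a * n * (m i' / (n - 1))) ^ h) :=
        mul_le_mul_of_nonneg_right h5 h6
    _ = _ := one_mul _

end paths

end C3

end Pool.Agent.MSL
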