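import Pool.Agent.MSL.ModC2
import Pool.Agent.MSL.ModC3

/-!
The good event has probability close to one.
-/

set_option autoImplicit false

open Finset Filter

namespace Pool.Agent.MSL

namespace C

open AB C1 C3

variable {n K : ℕ}

/-- the level used for the boundary set of level `j` -/
def prev (j : Fin (K + 1)) : Fin (K + 1) := Fin.cases 0 (fun i => i.castSucc) j

@[simp] lemma prev_zero : prev (0 : Fin (K + 1)) = 0 := rfl

@[simp] lemma prev_succ (i : Fin K) : prev i.succ = i.castSucc := rfl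

lemma path_Fw (U : Fin n → Finset (Fin n)) (B : Finset (Fin n)) (q : ℕ → Fin n) (h j0 : ℕ)
    (hj0 : j0 ≤ h) (hq : ∀ j < h, q (j + 1) ∈ U (q j)) (hB : q j0 ∈ B) : q h ∈ Fw U h B := by
  have h1 : ∀ s, j0 + s ≤ h → q (j0 + s) ∈ Fw U s B := by
    intro s
    induction s with
    | zero => intro _; exact hB
    | succ s ih =>
      intro hs
      refine Finset.mem_union_right _ (Finset.mem_biUnion.mpr ⟨q (j0 + s), ih (by omega), ?_⟩)
      exact hq (j0 + s) (by omega)
  have h2 := h1 (h - j0) (by omega)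
  rw [Nat.add_sub_cancel' hj0] at h2
  exact Fw_mono' U B (Nat.sub_le h j0) h2

lemma card_Fw (U : Fin n → Finset (Fin n)) (B : Finset (Fin n)) {A : ℕ} (hU : ∀ v, #(U v) ≤ A)
    (j : ℕ) : #(Fw U j B) ≤ #B * (A + 1) ^ j := by
  induction j with
  | zero => simp [Fw]
  | succ j ih =>
    calc #(Fw U j B ∪ (Fw U j B).biUnion U) ≤ #(Fw U j B) + #((Fw U j B).biUnion U) :=
          Finset.card_union_le _ _
      _ ≤ #(Fw U j B) + #(Fw U j B) * A := by
          gcongr
          exact Finset.card_biUnion_le_card_mul _ _ _ fun v _ => hU v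
      _ = #(Fw U j B) * (A + 1) := by ring
      _ ≤ (#B * (A + 1) ^ j) * (A + 1) := by gcongr
      _ = #B * (A + 1) ^ (j + 1) := by ring

theorem det {ε ρ t t' : ℝ} {h A : ℕ} {c : Fin (K + 1) → ℝ} (hn : 0 < n)
    (u : Fin n → Fin (K + 1) → Finset (Fin n)) (z : Fin n)
    (hcard : ∀ v i, #(u v i) ≤ A)
    (hlev : ∀ i, LevelGood (c i) ρ (lv u i) z)
    (hends : ∀ j, (#(cl (lv u (prev j)) {z})ᶜ : ℝ) ≤ (1 - c (prev j) + ρ) * n →
      (#(ends (lv u j) h (cl (lv u (prev j)) {z})) : ℝ) ≤ t * n)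
    (hX : ∀ i, (#(univ.filter fun v => #(u v i) = A) : ℝ) ≤ t' * n)
    (hc0 : c 0 ≤ ε / 8) (hcK : 1 - c (Fin.last K) ≤ ε / 8) (hcρ : ∀ i, 3 * ρ < c i)
    (ht : (K + 1) * t ≤ ε / 8) (ht' : (K + 1) * (h * t') ≤ ε / 8) (hρ : ρ ≤ ε / 16)
    (hρB : (K + 1) * (ρ * (A + 1) ^ h) ≤ ε / 16) : Good ε K h A n u := by
  classical
  have hnR : (0 : ℝ) < n := by exact_mod_cast hn
  choose W Z l1 l2 l3 l4 l5 l6 using hlev
  have hcompl : ∀ S : Finset (Fin n), (#Sᶜ : ℝ) = n - #S := by
    intro S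
    rw [card_compl, Fintype.card_fin, Nat.cast_sub]
    have := card_le_univ S
    rwa [Fintype.card_fin] at this
  have hclc : ∀ i, (#(cl (lv u i) {z})ᶜ : ℝ) ≤ (1 - c i + ρ) * n := by
    intro i
    rw [hcompl]
    have := l1 i
    linarith
  have hclW : ∀ i, (#(cl (lv u i) {z}) : ℝ) = #(cl (lv u i) {z} \ W i) + #(W i) := by
    intro i
    rw [← Finset.card_sdiff_add_card_eq_card (l3 i)]
    push_cast; ring
  refine ⟨cl (lv u 0) {z}, W, Z, fun j => ends (lv u j) h (cl (lv u (prev j)) {z}) ∪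
    Fw (lv u j) h (cl (lv u (prev j)) {z} \ W (prev j)), ?_, ?_, ?_, ?_, ?_, ?_⟩
  · intro i a ha b hb
    exact l6 i a ha b hb
  · intro i
    by_contra hcon
    push Not at hcon
    have hsub : W i.castSucc ⊆ (Z i.succ)ᶜ := fun v hv => Finset.mem_compl.mpr (hcon v hv)
    have h1 : (#(W i.castSucc) : ℝ) ≤ #(Z i.succ)ᶜ := by exact_mod_cast Finset.card_le_card hsub
    have h2 := l5 i.succ
    have h3 := l1 i.castSucc
    have h4 := l4 i.castSucc
    have h5 := hclW i.castSucc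
    have h6 := hcρ i.castSucc
    have h7 : 3 * ρ * n < c i.castSucc * n := mul_lt_mul_of_pos_right h6 hnR
    nlinarith
  · intro a ha
    exact cl_closed (lv u 0) {z} a ha
  · intro q hq1 hq2 hq3
    refine Finset.mem_union_left _ ?_
    simp only [ends, mem_filter, mem_univ, true_and, prev_zero]
    exact ⟨q, hq1, hq2, hq3, rfl⟩
  · intro i q hq1 hq2 hq3
    by_cases hall : ∀ j ≤ h, q j ∉ cl (lv u i.castSucc) {z}
    · refine Finset.mem_union_left _ ?_
      simp only [ends, mem_filter, mem_univ, true_and, prev_succ]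
      exact ⟨q, hq1, hall, hq3, rfl⟩
    · push Not at hall
      obtain ⟨j0, hj0, hmem⟩ := hall
      refine Finset.mem_union_right _ ?_
      rw [prev_succ]
      exact path_Fw _ _ q h j0 hj0 hq3 (Finset.mem_sdiff.mpr ⟨hmem, hq2 j0 hj0⟩)
  · -- the sizes
    have hρ0 : 0 ≤ ρ := by
      have := (Nat.cast_nonneg (α := ℝ) #(Z 0)ᶜ).trans (l5 0)
      by_contra hneg
      push Not at hneg
      nlinarith
    have s1 := l5 0
    have s2 := l2 0
    have s3 : (#(W (Fin.last K))ᶜ : ℝ) ≤ (1 - c (Fin.last K) + ρ) * n + ρ * n := by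
      rw [hcompl]
      have h1 := hclc (Fin.last K)
      rw [hcompl] at h1
      have h2 := l4 (Fin.last K)
      have h3 := hclW (Fin.last K)
      linarith
    have s4 : ∀ j : Fin (K + 1), ((#(ends (lv u j) h (cl (lv u (prev j)) {z}) ∪
        Fw (lv u j) h (cl (lv u (prev j)) {z} \ W (prev j))) +
        h * #(univ.filter fun v => #(u v j) = A) : ℕ) : ℝ) ≤
        (t + ρ * (A + 1) ^ h + h * t') * n := by
      intro j
      have h1 : #(ends (lv u j) h (cl (lv u (prev j)) {z}) ∪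
        Fw (lv u j) h (cl (lv u (prev j)) {z} \ W (prev j))) ≤
          #(ends (lv u j) h (cl (lv u (prev j)) {z})) +
            #(cl (lv u (prev j)) {z} \ W (prev j)) * (A + 1) ^ h :=
        (Finset.card_union_le _ _).trans
          (Nat.add_le_add_left (card_Fw _ _ (fun v => hcard v j) h) _)
      have h1' : (#(ends (lv u j) h (cl (lv u (prev j)) {z}) ∪
        Fw (lv u j) h (cl (lv u (prev j)) {z} \ W (prev j))) : ℝ) ≤
          #(ends (lv u j) h (cl (lv u (prev j)) {z})) +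
            #(cl (lv u (prev j)) {z} \ W (prev j)) * (A + 1) ^ h := by exact_mod_cast h1
      have h2 := hends j (hclc (prev j))
      have h3 := l4 (prev j)
      have h4 := hX j
      have h5 : (#(cl (lv u (prev j)) {z} \ W (prev j)) : ℝ) * (A + 1) ^ h ≤
          ρ * n * (A + 1) ^ h := by gcongr
      have h6 : (h : ℝ) * #(univ.filter fun v => #(u v j) = A) ≤ h * (t' * n) := by gcongr
      push_cast
      nlinarith
    have s5 : ((∑ j : Fin (K + 1), (#(ends (lv u j) h (cl (lv u (prev j)) {z}) ∪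
        Fw (lv u j) h (cl (lv u (prev j)) {z} \ W (prev j))) +
        h * #(univ.filter fun v => #(u v j) = A)) : ℕ) : ℝ) ≤
        (K + 1) * ((t + ρ * (A + 1) ^ h + h * t') * n) := by
      rw [Nat.cast_sum]
      refine (Finset.sum_le_sum fun j _ => s4 j).trans ?_
      rw [Finset.sum_const, Finset.card_univ, Fintype.card_fin, nsmul_eq_mul]
      push_cast; rfl
    have s6 : ((K : ℝ) + 1) * ((t + ρ * (A + 1) ^ h + h * t') * n) ≤
        (ε / 8 + ε / 16 + ε / 8) * n := by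
      calc ((K : ℝ) + 1) * ((t + ρ * (A + 1) ^ h + h * t') * n) =
          ((K + 1) * t + (K + 1) * (ρ * (A + 1) ^ h) + (K + 1) * (h * t')) * n := by ring
        _ ≤ _ := by gcongr
    have s7 : (c 0 + ρ) * n ≤ (ε / 8 + ε / 16) * n := by gcongr
    have s8 : (1 - c (Fin.last K) + ρ) * n + ρ * n ≤ (ε / 8 + ε / 16) * n + ε / 16 * n := by
      gcongr
    have s9 : ρ * n ≤ ε / 16 * n := by gcongr
    push_cast at s5 ⊢
    nlinarith

lemma PR_markov {X : Type*} [Fintype X] {w : Fin n → X → ℝ} (hw : IsW w)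
    (P : (Fin n → X) → Prop) (F : (Fin n → X) → ℝ) (hF : ∀ U, 0 ≤ F U) {s : ℝ} (hs : 0 < s) :
    PR w (fun U => P U ∧ s < F U) ≤ Ex w (fun U => one (P U) * F U) / s := by
  calc PR w (fun U => P U ∧ s < F U) ≤ Ex w (fun U => (1 / s) * (one (P U) * F U)) := by
        refine hw.PR_le_Ex _ _ (fun U => ?_) (fun U hU => ?_)
        · exact mul_nonneg (by positivity) (mul_nonneg (one_nonneg _) (hF U))
        · rw [one_pos' hU.1, one_mul, one_div, inv_mul_eq_div, le_div_iff₀ hs, one_mul]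
          exact hU.2.le
    _ = _ := by rw [Ex_const_mul]; ring

lemma PR_card_eq {A : ℕ} {m : Fin (K + 1) → ℝ}
    {lam : Fin n → (Fin (K + 1) → Finset (Fin n)) → ℝ} (hadm : Adm n K A m lam) (hA : A < n)
    (hA0 : 0 < A) (i : Fin (K + 1)) (v : Fin n) :
    PR lam (fun u => #(u v i) = A) ≤ m i / A := by
  have hw : IsW lam := isW_of_adm hadm
  have hA' : (0 : ℝ) < A := by exact_mod_cast hA0
  calc PR lam (fun u => #(u v i) = A) ≤ Ex lam (fun u => (1 / (A : ℝ)) * (#(u v i) : ℝ)) := by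
        refine hw.PR_le_Ex _ _ (fun U => by positivity) (fun U hU => ?_)
        rw [hU]
        field_simp
        exact le_rfl
    _ = (1 / (A : ℝ)) * m i := by
        rw [Ex_const_mul, hw.resample v, ← level_card hadm hA i v]
        congr 1
        refine Finset.sum_congr rfl fun S _ => ?_
        congr 1
        have : (fun U : Fin n → Fin (K + 1) → Finset (Fin n) =>
            (#(Function.update U v S v i) : ℝ)) = fun _ => (#(S i) : ℝ) := by
          funext U; rw [Function.update_self]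
        rw [this, hw.Ex_const]
    _ = m i / A := by ring

lemma PR_exists {X ι : Type*} [Fintype X] [Fintype ι] {w : Fin n → X → ℝ} (hw : IsW w)
    (E : ι → (Fin n → X) → Prop) {p : ℝ} (h : ∀ i, PR w (E i) ≤ p) :
    PR w (fun U => ∃ i, E i U) ≤ Fintype.card ι * p := by
  refine (hw.PR_le_sum univ _ E fun U hU => ?_).trans ?_
  · obtain ⟨i, hi⟩ := hU
    exact ⟨i, mem_univ i, hi⟩
  · refine (Finset.sum_le_sum fun i _ => h i).trans ?_
    rw [Finset.sum_const, Finset.card_univ, nsmul_eq_mul]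

end C

open AB C1 C3 C in
/-- the good event -/
theorem good_event {ε : ℝ} (hε : 0 < ε) : ∃ (K h A : ℕ) (m : Fin (K + 1) → ℝ) (n0 : ℕ),
    (∀ i, 1 ≤ m i ∧ m i < A) ∧ ∀ n ≥ n0, ∀ lam, Adm n K A m lam →
      Pr lam (fun u => ¬ Good ε K h A n u) ≤ ε := by
  classical
  obtain ⟨K, c, δ, M, hδ, hδ1, hc, hc0, hcK, hg0, hg⟩ := C2.grid (show 0 < ε / 8 by linarith)
  set m : Fin (K + 1) → ℝ := fun i => -Real.log (1 - c i) / c i with hm
  have hM1 : 1 ≤ M := (hc 0).2.2.1.trans (hc 0).2.2.2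
  have hM0 : 0 < M := by linarith
  have hK1 : (0 : ℝ) < (K : ℝ) + 1 := by positivity
  obtain ⟨t, ht⟩ : ∃ t, t = ε / (8 * ((K : ℝ) + 1)) := ⟨_, rfl⟩
  have ht0 : 0 < t := by rw [ht]; positivity
  obtain ⟨h, hh⟩ := exists_pow_lt_of_lt_one (show 0 < ε / 4 * t / ((K : ℝ) + 1) by positivity)
    (show 1 - δ / 2 < 1 by linarith)
  obtain ⟨t', ht'⟩ : ∃ t', t' = ε / (8 * ((K : ℝ) + 1) * (h + 1)) := ⟨_, rfl⟩
  have ht'0 : 0 < t' := by rw [ht']; positivity
  obtain ⟨A, hA⟩ := exists_nat_gt (max M (4 * ((K : ℝ) + 1) * M / (t' * ε)))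
  have hAM : M < A := lt_of_le_of_lt (le_max_left _ _) hA
  have hAM' : 4 * ((K : ℝ) + 1) * M / (t' * ε) < A := lt_of_le_of_lt (le_max_right _ _) hA
  have hA0 : (0 : ℝ) < A := hM0.trans hAM
  have hA0' : 0 < A := by exact_mod_cast hA0
  obtain ⟨c1, hc1, hcmin⟩ : ∃ c1 : ℝ, 0 < c1 ∧ ∀ i, c1 ≤ c i := by
    obtain ⟨i, hi⟩ := Finite.exists_min c
    exact ⟨c i, (hc i).1, hi⟩
  obtain ⟨ρ, hρ0, r1, r2, r3, r4, r5⟩ : ∃ ρ : ℝ, 0 < ρ ∧ ρ ≤ ε / 16 ∧
      ρ ≤ ε / (16 * ((K : ℝ) + 1) * (A + 1) ^ h) ∧ ρ ≤ c1 / 4 ∧ ρ ≤ δ / (4 * M) ∧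
      ρ ≤ ε / (4 * ((K : ℝ) + 1)) := by
    refine ⟨min (ε / 16) (min (ε / (16 * ((K : ℝ) + 1) * (A + 1) ^ h)) (min (c1 / 4)
      (min (δ / (4 * M)) (ε / (4 * ((K : ℝ) + 1)))))), ?_, ?_, ?_, ?_, ?_, ?_⟩
    · refine lt_min (by positivity) (lt_min (by positivity) (lt_min (by positivity)
        (lt_min (by positivity) (by positivity))))
    · exact min_le_left _ _
    · exact (min_le_right _ _).trans (min_le_left _ _)
    · exact (min_le_right _ _).trans ((min_le_right _ _).trans (min_le_left _ _))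
    · exact (min_le_right _ _).trans ((min_le_right _ _).trans ((min_le_right _ _).trans
        (min_le_left _ _)))
    · exact (min_le_right _ _).trans ((min_le_right _ _).trans ((min_le_right _ _).trans
        (min_le_right _ _)))
  choose nn hnn using fun i => level_sets (hc i).1 (hc i).2.1 hρ0 A
  obtain ⟨n1, hn1⟩ := exists_nat_gt (4 / δ)
  refine ⟨K, h, A, m, max (univ.sup nn) (max (A + 2) n1), ?_, ?_⟩
  · intro i
    exact ⟨(hc i).2.2.1, (hc i).2.2.2.trans_lt hAM⟩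
  intro n hn lam hadm
  have hnn' : ∀ i, nn i ≤ n := fun i =>
    (Finset.le_sup (mem_univ i)).trans ((le_max_left _ _).trans hn)
  have hnA : A + 2 ≤ n := (le_max_left _ _).trans ((le_max_right _ _).trans hn)
  have hn1' : n1 ≤ n := (le_max_right _ _).trans ((le_max_right _ _).trans hn)
  have hn0 : 0 < n := by omega
  have hnR : (0 : ℝ) < n := by exact_mod_cast hn0
  have hn2 : (2 : ℝ) ≤ n := by exact_mod_cast (by omega : 2 ≤ n)
  have hn4 : 4 / δ < n := hn1.trans_le (by exact_mod_cast hn1')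
  have hw : IsW lam := isW_of_adm hadm
  let z : Fin n := ⟨0, hn0⟩
  rw [PR_eq_Pr, PR_supp hw]
  -- the exceptional events
  have e1 : PR lam (fun u => ∃ i, ¬ LevelGood (c i) ρ (lv u i) z) ≤
      Fintype.card (Fin (K + 1)) * ρ := by
    refine PR_exists hw (fun i u => ¬ LevelGood (c i) ρ (lv u i) z) fun i => ?_
    rw [← PR_eq_Pr]
    exact hnn i n (hnn' i) K m lam hadm i rfl z
  have e2 : PR lam (fun u => ∃ j, (#(cl (lv u (prev j)) {z})ᶜ : ℝ) ≤
      (1 - c (prev j) + ρ) * n ∧ t * n < (#(ends (lv u j) h (cl (lv u (prev j)) {z})) : ℝ)) ≤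
      Fintype.card (Fin (K + 1)) * ((1 - δ / 2) ^ h / t) := by
    refine PR_exists hw (fun j u => (#(cl (lv u (prev j)) {z})ᶜ : ℝ) ≤
      (1 - c (prev j) + ρ) * n ∧ t * n < (#(ends (lv u j) h (cl (lv u (prev j)) {z})) : ℝ))
      fun j => ?_
    refine (PR_markov hw _ _ (fun U => Nat.cast_nonneg _) (by positivity)).trans ?_
    have hprev : (1 - c (prev j)) * m j ≤ 1 - δ := by
      refine Fin.cases ?_ (fun i => ?_) j
      · exact hg0
      · exact hg i
    have hmj : 1 ≤ m j := (hc j).2.2.1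
    have hmjM : m j ≤ M := (hc j).2.2.2
    have ha0 : 0 ≤ 1 - c (prev j) + ρ := by
      have := (hc (prev j)).2.1
      linarith
    have hpe := path_expect hadm (by omega) (by omega) (prev j) j z h ha0 (by linarith)
    have hbound : (1 - c (prev j) + ρ) * n * (m j / (n - 1)) ≤ 1 - δ / 2 := by
      have hn1R : (0 : ℝ) < n - 1 := by linarith
      have h1 : (1 - c (prev j) + ρ) * m j ≤ 1 - 3 * δ / 4 := by
        have h2 : ρ * m j ≤ δ / 4 := by
          calc ρ * m j ≤ δ / (4 * M) * M := by gcongr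
            _ = δ / 4 := by field_simp
        nlinarith
      have h3 : 4 < n * δ := by rwa [div_lt_iff₀ hδ] at hn4
      have h4 : (1 - c (prev j) + ρ) * n * (m j / (n - 1)) =
          ((1 - c (prev j) + ρ) * m j) * n / (n - 1) := by ring
      rw [h4, div_le_iff₀ hn1R]
      nlinarith
    have hpos : 0 ≤ (1 - c (prev j) + ρ) * n * (m j / (n - 1)) := by
      have hn1R : (0 : ℝ) < n - 1 := by linarith
      positivity
    calc Ex lam (fun U => one ((#(cl (lv U (prev j)) {z})ᶜ : ℝ) ≤ (1 - c (prev j) + ρ) * n) *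
        (#(ends (lv U j) h (cl (lv U (prev j)) {z})) : ℝ)) / (t * n)
        ≤ (n * ((1 - c (prev j) + ρ) * n * (m j / (n - 1))) ^ h) / (t * n) := by gcongr
      _ ≤ (n * (1 - δ / 2) ^ h) / (t * n) := by gcongr
      _ = (1 - δ / 2) ^ h / t := by field_simp
  have e3 : PR lam (fun u => ∃ i, t' * n < (#(univ.filter fun v => #(u v i) = A) : ℝ)) ≤
      Fintype.card (Fin (K + 1)) * (M / A / t') := by
    refine PR_exists hw (fun i u => t' * n < (#(univ.filter fun v => #(u v i) = A) : ℝ))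
      fun i => ?_
    refine le_trans ?_ (markov_card hw (fun v u => #(u v i) = A) hn0 ht'0
      (show 0 ≤ M / A by positivity) fun v => ?_)
    · refine hw.PR_mono fun U hU => ?_
      convert hU
    · refine (PR_card_eq hadm (by omega) hA0' i v).trans ?_
      have := (hc i).2.2.2
      gcongr
  -- outside these events the configuration is good
  have hdet : ∀ u : Fin n → Fin (K + 1) → Finset (Fin n),
      (¬ Good ε K h A n u ∧ ∀ v, lam v (u v) ≠ 0) →
      (∃ i, ¬ LevelGood (c i) ρ (lv u i) z) ∨ ((∃ j, (#(cl (lv u (prev j)) {z})ᶜ : ℝ) ≤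
      (1 - c (prev j) + ρ) * n ∧ t * n < (#(ends (lv u j) h (cl (lv u (prev j)) {z})) : ℝ)) ∨
      ∃ i, t' * n < (#(univ.filter fun v => #(u v i) = A) : ℝ)) := by
    rintro u ⟨hbad, hsupp⟩
    by_contra hcon
    push Not at hcon
    obtain ⟨c1', c2', c3'⟩ := hcon
    refine hbad (det (ρ := ρ) (t := t) (t' := t') hn0 u z (fun v i => (lam_supp hadm i (hsupp v)).2)
      c1' c2' c3' hc0 hcK (fun i => ?_) ?_ ?_ r1 ?_)
    · have := hcmin i
      linarith
    · rw [ht]; field_simp; exact le_rfl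
    · rw [ht']
      have h1 : ((K : ℝ) + 1) * (h * (ε / (8 * ((K : ℝ) + 1) * (h + 1)))) =
          ε / 8 * (h / (h + 1)) := by field_simp
      rw [h1]
      have h2 : (h : ℝ) / (h + 1) ≤ 1 := by
        rw [div_le_one (by positivity)]; linarith
      have h3 : 0 ≤ ε / 8 := by linarith
      nlinarith
    · calc ((K : ℝ) + 1) * (ρ * (A + 1) ^ h) ≤
          ((K : ℝ) + 1) * (ε / (16 * ((K : ℝ) + 1) * (A + 1) ^ h) * (A + 1) ^ h) := by gcongr
        _ = ε / 16 := by field_simp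
  refine (PR_or hw _ _ _ hdet).trans ?_
  have e23 := PR_or hw _ (fun u => ∃ j, (#(cl (lv u (prev j)) {z})ᶜ : ℝ) ≤
      (1 - c (prev j) + ρ) * n ∧ t * n < (#(ends (lv u j) h (cl (lv u (prev j)) {z})) : ℝ))
      (fun u => ∃ i, t' * n < (#(univ.filter fun v => #(u v i) = A) : ℝ)) (fun U hU => hU)
  rw [Fintype.card_fin] at e1 e2 e3
  push_cast at e1 e2 e3
  have b1 : ((K : ℝ) + 1) * ρ ≤ ε / 4 := by
    calc ((K : ℝ) + 1) * ρ ≤ ((K : ℝ) + 1) * (ε / (4 * ((K : ℝ) + 1))) := by gcongr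
      _ = ε / 4 := by field_simp
  have b2 : ((K : ℝ) + 1) * ((1 - δ / 2) ^ h / t) ≤ ε / 4 := by
    calc ((K : ℝ) + 1) * ((1 - δ / 2) ^ h / t) ≤
        ((K : ℝ) + 1) * ((ε / 4 * t / ((K : ℝ) + 1)) / t) := by gcongr
      _ = ε / 4 := by field_simp
  have b3 : ((K : ℝ) + 1) * (M / A / t') ≤ ε / 4 := by
    rw [div_lt_iff₀ (by positivity)] at hAM'
    have : ((K : ℝ) + 1) * (M / A / t') = ((K : ℝ) + 1) * M / (A * t') := by field_simp
    rw [this, div_le_iff₀ (by positivity)]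
    nlinarith
  linarith

end Pool.Agent.MSL
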