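import Pool.Agent.MSL.Defs

/-!
From the weights to the random sets.
-/

set_option autoImplicit false

open scoped Topology ENNReal
open Finset MeasureTheory Filter

namespace Pool.Agent.MSL

namespace E

/-- null sets by sections -/
theorem pi_null {N : ℕ} {X : Type*} [MeasurableSpace X] [Nonempty X] (ρ : Measure X)
    [IsProbabilityMeasure ρ] (i : Fin N) {S : Set (Fin N → X)} (hS : MeasurableSet S)
    (h : ∀ W, ρ {y | Function.update W i y ∈ S} = 0) :
    Measure.pi (fun _ : Fin N => ρ) S = 0 := by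
  obtain _ | n := N
  · exact i.elim0
  have hmp := (measurePreserving_piFinSuccAbove (fun _ : Fin (n + 1) => ρ) i).symm
  rw [← hmp.measure_preimage hS.nullMeasurableSet, Measure.prod_apply_symm (hmp.measurable hS)]
  refine lintegral_eq_zero_of_ae_eq_zero ?_
  refine Eventually.of_forall fun z => ?_
  have h1 := h (i.insertNth (Classical.arbitrary X) z)
  simp only [Pi.zero_apply]
  rw [← h1]
  congr 1
  ext y
  simp only [Set.mem_preimage, Set.mem_ofPred_eq]
  rw [Fin.update_insertNth]
  rfl

section basic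

variable (μ : Measure ℝ) [IsProbabilityMeasure μ] (hμ : ∀ x, μ {x} = 0)

/-- the law of a row -/
noncomputable abbrev row (N : ℕ) : Measure (Fin N → ℝ) := Measure.pi fun _ => μ

include hμ in
theorem row_diff {N : ℕ} {a b : Fin N} (hab : a ≠ b) (c : ℝ) : row μ N {y | y a = y b + c} = 0 := by
  have hS : MeasurableSet {y : Fin N → ℝ | y a = y b + c} :=
    measurableSet_eq_fun (measurable_pi_apply a) ((measurable_pi_apply b).add measurable_const)
  refine pi_null μ a hS fun W => ?_
  have : {y | Function.update W a y ∈ {y : Fin N → ℝ | y a = y b + c}} = {W b + c} := by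
    ext y
    simp only [Set.mem_ofPred_eq, Function.update_self, Function.update_of_ne hab.symm,
      Set.mem_singleton_iff]
  rw [this]
  exact hμ _

include hμ in
theorem row_ae (N : ℕ) (c : ℝ) : ∀ᵐ y ∂(row μ N), ∀ a b : Fin N, a ≠ b → y a ≠ y b + c := by
  rw [ae_all_iff]
  intro a
  rw [ae_all_iff]
  intro b
  by_cases hab : a = b
  · simp [hab]
  · have := row_diff μ hμ hab c
    have h2 : ∀ᵐ y ∂(row μ N), y ∉ {y : Fin N → ℝ | y a = y b + c} :=
      measure_eq_zero_iff_ae_notMem.1 this
    filter_upwards [h2] with y hy _ using hy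

include hμ in
theorem row_ae' (N : ℕ) : ∀ᵐ y ∂(row μ N), Function.Injective y := by
  filter_upwards [row_ae μ hμ N 0] with y hy a b hab
  by_contra hne
  exact hy a b hne (by simpa using hab)

/-- almost sure properties of one row -/
theorem ae_rows {N : ℕ} {p : Fin N → (Fin N → ℝ) → Prop} (h : ∀ u, ∀ᵐ y ∂(row μ N), p u y) :
    ∀ᵐ W ∂(wM μ N), ∀ u, p u (W u) := by
  rw [ae_all_iff]
  intro u
  have : MeasurePreserving (Function.eval u) (wM μ N) (row μ N) :=
    measurePreserving_eval (fun _ : Fin N => row μ N) u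
  exact this.quasiMeasurePreserving.ae (h u)

end basic

/-! ### The sets `Uset` -/

section uset

variable {N : ℕ}

theorem mn_le {x : Fin N → ℝ} {u w : Fin N} (h : w ≠ u) : mn x u ≤ x w := by
  unfold mn
  have hne : (univ.erase u).Nonempty := ⟨w, mem_erase.2 ⟨h, mem_univ _⟩⟩
  rw [dif_pos hne]
  exact inf'_le _ (mem_erase.2 ⟨h, mem_univ _⟩)

theorem exists_mn {x : Fin N → ℝ} {u w : Fin N} (h : w ≠ u) : ∃ w', w' ≠ u ∧ mn x u = x w' := by
  unfold mn
  have hne : (univ.erase u).Nonempty := ⟨w, mem_erase.2 ⟨h, mem_univ _⟩⟩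
  rw [dif_pos hne]
  obtain ⟨w', hw', h1⟩ := exists_mem_eq_inf' hne x
  exact ⟨w', (mem_erase.1 hw').1, h1⟩

theorem mem_Uset {A : ℕ} {R : ℝ} {u w : Fin N} {x : Fin N → ℝ} :
    w ∈ Uset A R u x ↔ w ≠ u ∧ (∀ w', w' ≠ u → x w ≤ x w' + R) ∧
      #(univ.filter fun w' => w' ≠ u ∧ x w' < x w) < A := by
  unfold Uset
  rw [mem_filter]
  constructor
  · rintro ⟨_, h1, h2, h3⟩
    refine ⟨h1, fun w' hw' => ?_, h3⟩
    have := mn_le (x := x) hw'
    linarith
  · rintro ⟨h1, h2, h3⟩
    refine ⟨mem_univ _, h1, ?_, h3⟩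
    obtain ⟨w', hw', h4⟩ := exists_mn (x := x) h1
    rw [h4]
    exact h2 w' hw'

theorem measurable_rank (u w : Fin N) :
    Measurable fun x : Fin N → ℝ => #(univ.filter fun w' => w' ≠ u ∧ x w' < x w) := by
  simp only [card_filter]
  refine Finset.measurable_sum _ fun w' _ => ?_
  refine Measurable.ite ?_ measurable_const measurable_const
  by_cases h : w' = u
  · simp [h]
  · have : {a : Fin N → ℝ | w' ≠ u ∧ a w' < a w} = {a : Fin N → ℝ | a w' < a w} := by
      ext a; simp [h]
    rw [this]
    exact measurableSet_lt (measurable_pi_apply w') (measurable_pi_apply w)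

theorem measurableSet_mem (A : ℕ) (R : ℝ) (u w : Fin N) :
    MeasurableSet {x : Fin N → ℝ | w ∈ Uset A R u x} := by
  have : {x : Fin N → ℝ | w ∈ Uset A R u x} =
      {x : Fin N → ℝ | w ≠ u} ∩ ((⋂ w', {x : Fin N → ℝ | w' ≠ u → x w ≤ x w' + R}) ∩
        {x : Fin N → ℝ | #(univ.filter fun w' => w' ≠ u ∧ x w' < x w) < A}) := by
    ext x
    simp only [Set.mem_ofPred_eq, mem_Uset, Set.mem_inter_iff, Set.mem_iInter]
  rw [this]
  refine (MeasurableSet.const _).inter ((MeasurableSet.iInter fun w' => ?_).inter ?_)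
  · by_cases h : w' = u
    · simp [h]
    · have : {x : Fin N → ℝ | w' ≠ u → x w ≤ x w' + R} = {x : Fin N → ℝ | x w ≤ x w' + R} := by
        ext a; simp [h]
      rw [this]
      exact measurableSet_le (measurable_pi_apply w) ((measurable_pi_apply w').add measurable_const)
  · exact measurableSet_lt (measurable_rank u w) measurable_const

theorem measurableSet_eq' (A : ℕ) (R : ℝ) (u : Fin N) (Θ : Finset (Fin N)) :
    MeasurableSet {x : Fin N → ℝ | Uset A R u x = Θ} := by
  have : {x : Fin N → ℝ | Uset A R u x = Θ} =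
      ⋂ w, {x : Fin N → ℝ | w ∈ Uset A R u x ↔ w ∈ Θ} := by
    ext x
    simp only [Set.mem_ofPred_eq, Set.mem_iInter, Finset.ext_iff]
  rw [this]
  refine MeasurableSet.iInter fun w => ?_
  by_cases h : w ∈ Θ
  · simp only [h, iff_true]
    exact measurableSet_mem A R u w
  · simp only [h, iff_false]
    exact (measurableSet_mem A R u w).compl

theorem notMem_Uset {A : ℕ} {R : ℝ} {u : Fin N} {x : Fin N → ℝ} : u ∉ Uset A R u x := by
  rw [mem_Uset]
  simp

/-- equivariance -/
theorem Uset_perm (σ : Equiv.Perm (Fin N)) (A : ℕ) (R : ℝ) (u : Fin N) (x : Fin N → ℝ) :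
    Uset A R (σ u) (fun w => x (σ.symm w)) = (Uset A R u x).map σ.toEmbedding := by
  ext w
  rw [mem_map_equiv, mem_Uset, mem_Uset]
  have h1 : w ≠ σ u ↔ σ.symm w ≠ u := by
    rw [ne_eq, ne_eq, Equiv.symm_apply_eq]
  have h2 : (∀ w', w' ≠ σ u → x (σ.symm w) ≤ x (σ.symm w') + R) ↔
      (∀ w', w' ≠ u → x (σ.symm w) ≤ x w' + R) := by
    constructor
    · intro h w' hw'
      have := h (σ w') (by simpa using hw')
      simpa using this
    · intro h w' hw'
      exact h (σ.symm w') (by rw [ne_eq, Equiv.symm_apply_eq]; exact hw')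
  have h3 : #(univ.filter fun w' => w' ≠ σ u ∧ x (σ.symm w') < x (σ.symm w)) =
      #(univ.filter fun w' => w' ≠ u ∧ x w' < x (σ.symm w)) := by
    apply card_bij (fun w' _ => σ.symm w')
    · intro a ha
      rw [mem_filter] at ha ⊢
      refine ⟨mem_univ _, ?_, ha.2.2⟩
      rw [ne_eq, Equiv.symm_apply_eq]
      exact ha.2.1
    · intro a _ b _ hab
      exact σ.symm.injective hab
    · intro b hb
      rw [mem_filter] at hb
      refine ⟨σ b, ?_, by simp⟩
      rw [mem_filter]
      refine ⟨mem_univ _, by simpa using hb.2.1, by simpa using hb.2.2⟩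
  rw [h1, h2, h3]

theorem card_Uset_le {A : ℕ} {R : ℝ} {u : Fin N} {x : Fin N → ℝ} (hx : Function.Injective x) :
    #(Uset A R u x) ≤ A := by
  have hcr : #(range A) = A := card_range A
  refine le_trans (card_le_card_of_injOn (t := range A)
    (fun w => #(univ.filter fun w' => w' ≠ u ∧ x w' < x w)) ?_ ?_) hcr.le
  · intro w hw
    rw [mem_coe, mem_Uset] at hw
    simp only [coe_range, Set.mem_Iio]
    exact hw.2.2
  · intro a ha b hb hab
    rw [mem_coe, mem_Uset] at ha hb
    by_contra hne
    have key : ∀ a b : Fin N, a ≠ u → x a < x b →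
        #(univ.filter fun w' => w' ≠ u ∧ x w' < x a) <
        #(univ.filter fun w' => w' ≠ u ∧ x w' < x b) := by
      intro a b ha hab
      apply card_lt_card
      rw [Finset.ssubset_iff_of_subset]
      · refine ⟨a, ?_, ?_⟩
        · rw [mem_filter]; exact ⟨mem_univ _, ha, hab⟩
        · rw [mem_filter]; simp
      · intro c hc
        rw [mem_filter] at hc ⊢
        exact ⟨mem_univ _, hc.2.1, hc.2.2.trans hab⟩
    simp only at hab
    rcases lt_or_gt_of_ne (fun h => hne (hx h)) with h | h
    · exact absurd hab (key a b ha.1 h).ne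
    · exact absurd hab (key b a hb.1 h).ne'

/-- the rank is a bijection -/
theorem card_rank_lt {A : ℕ} {u : Fin N} {x : Fin N → ℝ} (hx : Function.Injective x)
    (hA : A + 1 ≤ N) :
    #(univ.filter fun w => w ≠ u ∧ #(univ.filter fun w' => w' ≠ u ∧ x w' < x w) < A) = A := by
  set f : Fin N → ℕ := fun w => #(univ.filter fun w' => w' ≠ u ∧ x w' < x w) with hf
  have key : ∀ a b : Fin N, a ≠ u → x a < x b → f a < f b := by
    intro a b ha hab
    apply card_lt_card
    rw [Finset.ssubset_iff_of_subset]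
    · refine ⟨a, ?_, ?_⟩
      · rw [mem_filter]; exact ⟨mem_univ _, ha, hab⟩
      · rw [mem_filter]; simp
    · intro c hc
      rw [mem_filter] at hc ⊢
      exact ⟨mem_univ _, hc.2.1, hc.2.2.trans hab⟩
  have hinj : Set.InjOn f (univ.erase u : Finset (Fin N)) := by
    intro a ha b hb hab
    rw [mem_coe, mem_erase] at ha hb
    by_contra hne
    rcases lt_or_gt_of_ne (fun h => hne (hx h)) with h | h
    · exact absurd hab (key a b ha.1 h).ne
    · exact absurd hab (key b a hb.1 h).ne'
  have hmaps : ∀ a ∈ univ.erase u, f a ∈ range (N - 1) := by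
    intro a ha
    rw [mem_range]
    have h1 : (univ.filter fun w' => w' ≠ u ∧ x w' < x a) ⊆ (univ.erase u).erase a := by
      intro c hc
      rw [mem_filter] at hc
      rw [mem_erase, mem_erase]
      refine ⟨?_, hc.2.1, mem_univ _⟩
      rintro rfl
      exact lt_irrefl _ hc.2.2
    have h2 := card_le_card h1
    rw [card_erase_of_mem ha, card_erase_of_mem (mem_univ _), card_univ, Fintype.card_fin] at h2
    have h3 : 0 < #(univ.erase u) := card_pos.2 ⟨a, ha⟩
    rw [card_erase_of_mem (mem_univ _), card_univ, Fintype.card_fin] at h3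
    show #(univ.filter fun w' => w' ≠ u ∧ x w' < x a) < N - 1
    omega
  have himg : (univ.erase u).image f = range (N - 1) := by
    apply eq_of_subset_of_card_le
    · intro k hk
      obtain ⟨a, ha, rfl⟩ := mem_image.1 hk
      exact hmaps a ha
    · rw [card_image_of_injOn hinj, card_erase_of_mem (mem_univ _), card_univ, Fintype.card_fin,
        card_range]
  have hcount : (univ.filter fun w => w ≠ u ∧ f w < A).image f = range A := by
    ext k
    rw [mem_image, mem_range]
    constructor
    · rintro ⟨a, ha, rfl⟩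
      exact (mem_filter.1 ha).2.2
    · intro hk
      have h1 : k ∈ (univ.erase u).image f := by
        rw [himg, mem_range]; omega
      obtain ⟨a, ha, rfl⟩ := mem_image.1 h1
      refine ⟨a, ?_, rfl⟩
      rw [mem_filter]
      exact ⟨mem_univ _, (mem_erase.1 ha).1, hk⟩
  calc #(univ.filter fun w => w ≠ u ∧ f w < A)
      = #((univ.filter fun w => w ≠ u ∧ f w < A).image f) := by
        rw [card_image_of_injOn]
        intro a ha b hb hab
        rw [mem_coe, mem_filter] at ha hb
        exact hinj (by rw [mem_coe, mem_erase]; exact ⟨ha.2.1, mem_univ _⟩)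
          (by rw [mem_coe, mem_erase]; exact ⟨hb.2.1, mem_univ _⟩) hab
    _ = A := by rw [hcount, card_range]

theorem one_le_card_Uset {A : ℕ} {R : ℝ} {u w : Fin N} {x : Fin N → ℝ} (hA : 1 ≤ A) (hR : 0 ≤ R)
    (hw : w ≠ u) : 1 ≤ #(Uset A R u x) := by
  rw [Nat.one_le_iff_ne_zero, ← Nat.pos_iff_ne_zero, card_pos]
  obtain ⟨w', hw', h⟩ := exists_mn (x := x) hw
  refine ⟨w', mem_Uset.2 ⟨hw', fun a ha => ?_, ?_⟩⟩
  · have := mn_le (x := x) ha
    linarith
  · have : (univ.filter fun a => a ≠ u ∧ x a < x w') = ∅ := by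
      rw [filter_eq_empty_iff]
      rintro a _ ⟨ha, h2⟩
      have := mn_le (x := x) ha
      linarith
    rw [this, card_empty]
    omega

end uset

/-! ### Finite valued maps -/

section finval

variable {Ω X : Type*} [MeasurableSpace Ω] [Fintype X] {P : Measure Ω}

theorem measurableSet_finval {T : Ω → X} (hT : ∀ x, MeasurableSet {y | T y = x}) (p : X → Prop) :
    MeasurableSet {y | p (T y)} := by
  classical
  have : {y | p (T y)} = ⋃ x ∈ univ.filter p, {y | T y = x} := by
    ext y
    simp
  rw [this]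
  exact Finset.measurableSet_biUnion _ fun x _ => hT x

theorem sum_finval [IsFiniteMeasure P] {T : Ω → X} (hT : ∀ x, MeasurableSet {y | T y = x})
    (p : X → Prop) [DecidablePred p] :
    (P {y | p (T y)}).toReal = ∑ x ∈ univ.filter p, (P {y | T y = x}).toReal := by
  have : {y | p (T y)} = ⋃ x ∈ univ.filter p, {y | T y = x} := by
    ext y
    simp
  rw [this, measure_biUnion_finset]
  · rw [ENNReal.toReal_sum]
    intro x _
    exact measure_ne_top _ _
  · intro a _ b _ hab
    rw [Function.onFun, Set.disjoint_left]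
    intro y hy hy'
    exact hab (hy.symm.trans hy')
  · intro x _
    exact hT x

/-- the product formula -/
theorem prod_finval {N : ℕ} [DecidableEq X] (ρ : Measure Ω) [IsProbabilityMeasure ρ] {T : Fin N → Ω → X}
    (hT : ∀ v x, MeasurableSet {y | T v y = x}) (E : (Fin N → X) → Prop) :
    ((Measure.pi fun _ : Fin N => ρ) {W | E (fun v => T v (W v))}).toReal =
      Pr (fun v x => (ρ {y | T v y = x}).toReal) E := by
  classical
  have hT' : ∀ U : Fin N → X, MeasurableSet {W : Fin N → Ω | (fun v => T v (W v)) = U} := by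
    intro U
    have : {W : Fin N → Ω | (fun v => T v (W v)) = U} = ⋂ v, {W | T v (W v) = U v} := by
      ext W
      simp [funext_iff]
    rw [this]
    exact MeasurableSet.iInter fun v => (hT v (U v)).preimage (measurable_pi_apply v)
  rw [sum_finval (T := fun W : Fin N → Ω => fun v => T v (W v)) hT' E]
  unfold Pr
  refine Finset.sum_congr (by congr) fun U _ => ?_
  have : {W : Fin N → Ω | (fun v => T v (W v)) = U} = Set.univ.pi fun v => {y | T v y = U v} := by
    ext W
    simp [funext_iff]
  rw [this, Measure.pi_pi, ENNReal.toReal_prod]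

end finval

/-! ### The law of `Uset` -/

section law

variable (μ : Measure ℝ) [IsProbabilityMeasure μ]

theorem row_perm {N : ℕ} (σ : Equiv.Perm (Fin N)) :
    MeasurePreserving (fun (x : Fin N → ℝ) w => x (σ.symm w)) (row μ N) (row μ N) := by
  have h := measurePreserving_piCongrLeft (fun _ : Fin N => μ) σ
  have e : (fun (x : Fin N → ℝ) w => x (σ.symm w)) =
      (MeasurableEquiv.piCongrLeft (fun _ : Fin N => ℝ) σ) := by
    funext x w
    rw [MeasurableEquiv.coe_piCongrLeft]
    have := Equiv.piCongrLeft_apply (fun _ : Fin N => ℝ) σ x w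
    rw [this]
    simp
  rw [e]
  exact h

theorem exists_perm {N : ℕ} {v v' : Fin N} {Θ Θ' : Finset (Fin N)} (hv : v ∉ Θ) (hv' : v' ∉ Θ')
    (hc : #Θ = #Θ') : ∃ σ : Equiv.Perm (Fin N), σ v = v' ∧ Θ.map σ.toEmbedding = Θ' := by
  classical
  set f : Fin N → Fin 3 := fun x => if x = v then 0 else if x ∈ Θ then 1 else 2 with hf
  set g : Fin N → Fin 3 := fun x => if x = v' then 0 else if x ∈ Θ' then 1 else 2 with hg
  have hcard : ∀ (v : Fin N) (Θ : Finset (Fin N)), v ∉ Θ → ∀ c : Fin 3,
      #(univ.filter fun x => (if x = v then (0 : Fin 3) else if x ∈ Θ then 1 else 2) = c) =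
        if c = 0 then 1 else if c = 1 then #Θ else N - (#Θ + 1) := by
    intro v Θ hv c
    fin_cases c
    · simp only [Fin.zero_eta, if_true]
      rw [card_eq_one]
      refine ⟨v, ?_⟩
      ext x
      simp only [mem_filter, mem_univ, true_and, mem_singleton]
      by_cases h : x = v
      · simp [h]
      · by_cases h' : x ∈ Θ <;> simp [h, h']
    · simp only [Fin.mk_one, one_ne_zero, if_false, if_true]
      congr 1
      ext x
      simp only [mem_filter, mem_univ, true_and]
      by_cases h : x = v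
      · subst h
        simp [hv]
      · by_cases h' : x ∈ Θ <;> simp [h, h']
    · have e : (univ.filter fun x => (if x = v then (0 : Fin 3) else if x ∈ Θ then 1 else 2) = 2) =
          (insert v Θ)ᶜ := by
        ext x
        simp only [mem_filter, mem_univ, true_and, mem_compl, mem_insert, not_or]
        by_cases h : x = v
        · subst h
          simp
        · by_cases h' : x ∈ Θ <;> simp [h, h']
      have e2 : ((⟨2, by norm_num⟩ : Fin 3)) = 2 := rfl
      simp only [Fin.reduceFinMk]
      rw [e, card_compl, card_insert_of_notMem hv, Fintype.card_fin]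
      simp
  have hfib : ∀ c : Fin 3, Nonempty ({x // f x = c} ≃ {x // g x = c}) := by
    intro c
    apply Fintype.card_eq.1
    rw [Fintype.card_subtype, Fintype.card_subtype, hcard v Θ hv c, hcard v' Θ' hv' c, hc]
  set e : ∀ c : Fin 3, {x // f x = c} ≃ {x // g x = c} := fun c => Classical.choice (hfib c)
    with he
  set σ : Equiv.Perm (Fin N) := Equiv.ofFiberEquiv e with hσ
  have hmap : ∀ a, g (σ a) = f a := fun a => Equiv.ofFiberEquiv_map e a
  refine ⟨σ, ?_, ?_⟩
  · have h1 := hmap v
    have h2 : f v = 0 := by simp [hf]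
    rw [h2] at h1
    simp only [hg] at h1
    by_contra hne
    rw [if_neg hne] at h1
    split_ifs at h1
    · exact absurd h1 (by decide)
    · exact absurd h1 (by decide)
  · ext w
    rw [mem_map_equiv]
    have h1 := hmap (σ.symm w)
    rw [Equiv.apply_symm_apply] at h1
    have h3 : σ.symm w ∈ Θ ↔ f (σ.symm w) = 1 := by
      simp only [hf]
      by_cases h : σ.symm w = v
      · simp [h, hv]
      · by_cases h' : σ.symm w ∈ Θ <;> simp [h, h']
    have h4 : w ∈ Θ' ↔ g w = 1 := by
      simp only [hg]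
      by_cases h : w = v'
      · simp [h, hv']
      · by_cases h' : w ∈ Θ' <;> simp [h, h']
    rw [h3, h4, h1]

/-- the probability of `Uset = Θ` -/
noncomputable def pU {N : ℕ} (A : ℕ) (R : ℝ) (v : Fin N) (Θ : Finset (Fin N)) : ℝ :=
  (row μ N {x | Uset A R v x = Θ}).toReal

theorem pU_perm {N : ℕ} (A : ℕ) (R : ℝ) (v : Fin N) (Θ : Finset (Fin N)) (σ : Equiv.Perm (Fin N)) :
    pU μ A R (σ v) (Θ.map σ.toEmbedding) = pU μ A R v Θ := by
  unfold pU
  congr 1
  rw [← (row_perm μ σ).measure_preimage (measurableSet_eq' A R _ _).nullMeasurableSet]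
  congr 1
  ext x
  simp only [Set.mem_preimage, Set.mem_ofPred_eq]
  rw [Uset_perm]
  exact (Finset.map_injective _).eq_iff

theorem pU_eq {N : ℕ} (A : ℕ) (R : ℝ) {v v' : Fin N} {Θ Θ' : Finset (Fin N)} (hv : v ∉ Θ)
    (hv' : v' ∉ Θ') (hc : #Θ = #Θ') : pU μ A R v Θ = pU μ A R v' Θ' := by
  obtain ⟨σ, h1, h2⟩ := exists_perm hv hv' hc
  rw [← pU_perm μ A R v Θ σ, h1, h2]

omit [IsProbabilityMeasure μ] in
theorem pU_zero {N : ℕ} (A : ℕ) (R : ℝ) {v : Fin N} {Θ : Finset (Fin N)} (hv : v ∈ Θ) :
    pU μ A R v Θ = 0 := by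
  unfold pU
  have : {x : Fin N → ℝ | Uset A R v x = Θ} = ∅ := by
    ext x
    simp only [Set.mem_ofPred_eq, Set.mem_empty_iff_false, iff_false]
    rintro rfl
    exact notMem_Uset hv
  rw [this]
  simp

/-- the law of the size -/
noncomputable def nuU {N : ℕ} (A : ℕ) (R : ℝ) (v : Fin N) (k : ℕ) : ℝ :=
  (row μ N {x | #(Uset A R v x) = k}).toReal

theorem nuU_eq {N : ℕ} (A : ℕ) (R : ℝ) (v : Fin N) (k : ℕ) {Θ : Finset (Fin N)} (hv : v ∉ Θ)
    (hk : #Θ = k) : nuU μ A R v k = (N - 1).choose k * pU μ A R v Θ := by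
  classical
  unfold nuU
  rw [sum_finval (T := fun x : Fin N → ℝ => Uset A R v x) (measurableSet_eq' A R v)
    (fun Θ => #Θ = k)]
  have h1 : ∑ x ∈ univ.filter (fun Θ : Finset (Fin N) => #Θ = k),
      (row μ N {y | Uset A R v y = x}).toReal =
      ∑ x ∈ powersetCard k (univ.erase v), pU μ A R v Θ := by
    have h2 : ∑ x ∈ powersetCard k (univ.erase v), pU μ A R v Θ =
        ∑ x ∈ powersetCard k (univ.erase v), (row μ N {y | Uset A R v y = x}).toReal := by
      refine Finset.sum_congr rfl fun x hx => ?_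
      rw [mem_powersetCard] at hx
      refine pU_eq μ A R hv ?_ (hk.trans hx.2.symm)
      intro h
      have := hx.1 h
      simp at this
    rw [h2]
    symm
    apply Finset.sum_subset
    · intro x hx
      rw [mem_powersetCard] at hx
      simp [hx.2]
    · intro x hx hx'
      rw [mem_filter] at hx
      have hvx : v ∈ x := by
        by_contra h
        apply hx'
        rw [mem_powersetCard]
        refine ⟨?_, hx.2⟩
        intro w hw
        rw [mem_erase]
        refine ⟨?_, mem_univ _⟩
        rintro rfl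
        exact h hw
      exact pU_zero μ A R hvx
  rw [h1, sum_const, card_powersetCard, card_erase_of_mem (mem_univ _), card_univ,
    Fintype.card_fin, nsmul_eq_mul]

theorem pU_formula {N : ℕ} (A : ℕ) (R : ℝ) (u v : Fin N) (Θ : Finset (Fin N)) :
    pU μ A R v Θ = if v ∈ Θ then 0 else nuU μ A R u (#Θ) / ((N - 1).choose #Θ) := by
  classical
  split_ifs with hv
  · exact pU_zero μ A R hv
  -- a set of the same size avoiding `u`
  set σ : Equiv.Perm (Fin N) := Equiv.swap v u with hσ
  have hu : u ∉ Θ.map σ.toEmbedding := by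
    rw [mem_map_equiv, hσ, Equiv.symm_swap, Equiv.swap_apply_right]
    exact hv
  have hc : #Θ = #(Θ.map σ.toEmbedding) := by rw [card_map]
  have h1 := nuU_eq μ A R u (#Θ) hu hc.symm
  rw [pU_eq μ A R hv hu hc, h1]
  have hpos : (0 : ℝ) < ((N - 1).choose #Θ : ℕ) := by
    have : #Θ ≤ N - 1 := by
      have h2 : Θ ⊆ univ.erase v := by
        intro w hw
        rw [mem_erase]
        refine ⟨?_, mem_univ _⟩
        rintro rfl
        exact hv hw
      have := card_le_card h2
      rwa [card_erase_of_mem (mem_univ _), card_univ, Fintype.card_fin] at this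
    exact_mod_cast Nat.choose_pos this
  field_simp

end law

section mean

variable (μ : Measure ℝ) [IsProbabilityMeasure μ] (hμ : ∀ x, μ {x} = 0)

theorem measurable_card {N : ℕ} (A : ℕ) (R : ℝ) (u : Fin N) :
    Measurable fun x : Fin N → ℝ => (#(Uset A R u x) : ℝ) := by
  have : (fun x : Fin N → ℝ => (#(Uset A R u x) : ℝ)) =
      fun x => ∑ w, if w ∈ Uset A R u x then (1 : ℝ) else 0 := by
    funext x
    rw [sum_ite_mem, univ_inter]
    simp
  rw [this]
  refine Finset.measurable_sum _ fun w _ => ?_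
  exact Measurable.ite (measurableSet_mem A R u w) measurable_const measurable_const

theorem measurableSet_card {N : ℕ} (A : ℕ) (R : ℝ) (u : Fin N) (k : ℕ) :
    MeasurableSet {x : Fin N → ℝ | #(Uset A R u x) = k} :=
  measurableSet_finval (T := fun x : Fin N → ℝ => Uset A R u x) (measurableSet_eq' A R u)
    (fun Θ => #Θ = k)

include hμ in
theorem sum_nu {N : ℕ} (A : ℕ) (R : ℝ) (u : Fin N) (f : ℕ → ℝ) :
    ∑ k ∈ range (A + 1), f k * nuU μ A R u k = ∫ x, f (#(Uset A R u x)) ∂(row μ N) := by
  have h1 : ∀ᵐ x ∂(row μ N), f (#(Uset A R u x)) =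
      ∑ k ∈ range (A + 1), f k * ({x : Fin N → ℝ | #(Uset A R u x) = k}.indicator 1 x) := by
    filter_upwards [row_ae' μ hμ N] with x hx
    have h2 := card_Uset_le (A := A) (R := R) (u := u) hx
    rw [Finset.sum_eq_single (#(Uset A R u x))]
    · simp
    · intro k _ hk
      rw [Set.indicator_of_notMem]
      · simp
      · simpa using hk.symm
    · intro h
      exact absurd (mem_range.2 (by omega)) h
  rw [integral_congr_ae h1, integral_finsetSum]
  · refine Finset.sum_congr rfl fun k _ => ?_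
    rw [integral_const_mul, integral_indicator_one (measurableSet_card A R u k)]
    rfl
  · intro k _
    apply Integrable.const_mul
    exact (integrable_const (1 : ℝ)).indicator (measurableSet_card A R u k)

include hμ in
theorem isLaw {N : ℕ} {A : ℕ} (hA : 1 ≤ A) {R : ℝ} (hR : 0 ≤ R) {u w : Fin N} (hw : w ≠ u) {m : ℝ}
    (hm : ∫ x, (#(Uset A R u x) : ℝ) ∂(row μ N) = m) : IsLaw A m (nuU μ A R u) := by
  refine ⟨fun k => ENNReal.toReal_nonneg, fun k hk => ?_, ?_, ?_⟩
  · -- support
    have h1 : row μ N {x | #(Uset A R u x) = k} ≠ 0 := by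
      intro h
      apply hk
      unfold nuU
      rw [h]
      rfl
    have h2 : ∃ᵐ x ∂(row μ N), #(Uset A R u x) = k := by
      rw [frequently_ae_iff]
      exact h1
    obtain ⟨x, hx, hx'⟩ := (h2.and_eventually (row_ae' μ hμ N)).exists
    rw [← hx]
    exact ⟨one_le_card_Uset hA hR hw, card_Uset_le hx'⟩
  · have := sum_nu μ hμ A R u (fun _ => 1)
    simpa using this
  · rw [← hm]
    exact sum_nu μ hμ A R u (fun k => (k : ℝ))

theorem eventually_Uset {N : ℕ} (A : ℕ) {R0 : ℝ} (hR0 : 0 ≤ R0) (u : Fin N) {x : Fin N → ℝ}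
    (hx : ∀ a b : Fin N, a ≠ b → x a ≠ x b + R0) :
    ∀ᶠ R in 𝓝[Set.Ici 0] R0, Uset A R u x = Uset A R0 u x := by
  have h1 : ∀ a b : Fin N, ∀ᶠ R in 𝓝[Set.Ici 0] R0, (x a ≤ x b + R ↔ x a ≤ x b + R0) := by
    intro a b
    by_cases hab : a = b
    · subst hab
      filter_upwards [self_mem_nhdsWithin] with R hR
      simp only [Set.mem_Ici] at hR
      constructor <;> intro _ <;> linarith
    · rcases lt_or_gt_of_ne (hx a b hab) with h | h
      · have : ∀ᶠ R in 𝓝 R0, x a - x b < R := lt_mem_nhds (by linarith)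
        filter_upwards [mem_nhdsWithin_of_mem_nhds this] with R hR
        constructor <;> intro _ <;> linarith
      · have : ∀ᶠ R in 𝓝 R0, R < x a - x b := gt_mem_nhds (by linarith)
        filter_upwards [mem_nhdsWithin_of_mem_nhds this] with R hR
        constructor <;> intro _ <;> linarith
  have h2 : ∀ᶠ R in 𝓝[Set.Ici 0] R0, ∀ a b : Fin N, (x a ≤ x b + R ↔ x a ≤ x b + R0) := by
    rw [eventually_all]
    intro a
    rw [eventually_all]
    intro b
    exact h1 a b
  filter_upwards [h2] with R hR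
  ext w
  rw [mem_Uset, mem_Uset]
  simp only [hR]

theorem eventually_atTop {N : ℕ} (A : ℕ) (u : Fin N) (x : Fin N → ℝ) :
    ∀ᶠ R in atTop, Uset A R u x =
      univ.filter fun w => w ≠ u ∧ #(univ.filter fun w' => w' ≠ u ∧ x w' < x w) < A := by
  have h2 : ∀ᶠ R : ℝ in atTop, ∀ a b : Fin N, x a ≤ x b + R := by
    rw [eventually_all]
    intro a
    rw [eventually_all]
    intro b
    filter_upwards [eventually_ge_atTop (x a - x b)] with R hR
    linarith
  filter_upwards [h2] with R hR
  ext w
  rw [mem_Uset, mem_filter]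
  constructor
  · rintro ⟨h1, _, h3⟩
    exact ⟨mem_univ _, h1, h3⟩
  · rintro ⟨_, h1, h3⟩
    exact ⟨h1, fun w' _ => hR _ _, h3⟩

include hμ in
theorem exists_R {N : ℕ} {A : ℕ} (hA : 1 ≤ A) (hN : A + 1 ≤ N) (u : Fin N) {m : ℝ} (hm1 : 1 ≤ m)
    (hmA : m < A) : ∃ R, 0 ≤ R ∧ ∫ x, (#(Uset A R u x) : ℝ) ∂(row μ N) = m := by
  set φ : ℝ → ℝ := fun R => ∫ x, (#(Uset A R u x) : ℝ) ∂(row μ N) with hφ
  have hbound : ∀ R : ℝ, ∀ᵐ x ∂(row μ N), ‖(#(Uset A R u x) : ℝ)‖ ≤ (A : ℝ) := by
    intro R
    filter_upwards [row_ae' μ hμ N] with x hx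
    rw [Real.norm_of_nonneg (Nat.cast_nonneg _)]
    exact_mod_cast card_Uset_le hx
  have hmeas : ∀ R : ℝ, AEStronglyMeasurable (fun x => (#(Uset A R u x) : ℝ)) (row μ N) :=
    fun R => (measurable_card A R u).aestronglyMeasurable
  have hcont : ContinuousOn φ (Set.Ici 0) := by
    intro R0 hR0
    apply continuousWithinAt_of_dominated (bound := fun _ => (A : ℝ))
    · exact Eventually.of_forall hmeas
    · exact Eventually.of_forall hbound
    · exact integrable_const _
    · filter_upwards [row_ae μ hμ N R0] with x hx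
      have h1 := eventually_Uset A hR0 u hx
      apply tendsto_nhds_of_eventually_eq
      filter_upwards [h1] with R hR
      rw [hR]
  have h0 : φ 0 = 1 := by
    have : ∀ᵐ x ∂(row μ N), (#(Uset A 0 u x) : ℝ) = 1 := by
      filter_upwards [row_ae' μ hμ N] with x hx
      have : #(Uset A 0 u x) = 1 := by
        apply le_antisymm
        · rw [card_le_one]
          intro a ha b hb
          rw [mem_Uset] at ha hb
          apply hx
          apply le_antisymm
          · simpa using ha.2.1 b hb.1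
          · simpa using hb.2.1 a ha.1
        · obtain ⟨w, hw⟩ : ∃ w : Fin N, w ≠ u := by
            have : Nontrivial (Fin N) := Fin.nontrivial_iff_two_le.2 (by omega)
            exact exists_ne u
          exact one_le_card_Uset hA le_rfl hw
      rw [this]
      simp
    rw [hφ]
    simp only
    rw [integral_congr_ae this]
    simp
  have hlim : Tendsto φ atTop (𝓝 (A : ℝ)) := by
    have h1 : Tendsto φ atTop (𝓝 (∫ _, (A : ℝ) ∂(row μ N))) := by
      apply tendsto_integral_filter_of_dominated_convergence (fun _ => (A : ℝ))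
      · exact Eventually.of_forall hmeas
      · exact Eventually.of_forall hbound
      · exact integrable_const _
      · filter_upwards [row_ae' μ hμ N] with x hx
        apply tendsto_nhds_of_eventually_eq
        filter_upwards [eventually_atTop A u x] with R hR
        rw [hR, card_rank_lt hx hN]
    simpa using h1
  obtain ⟨b, hb, hb0⟩ := ((hlim.eventually (lt_mem_nhds hmA)).and (eventually_ge_atTop 0)).exists
  have hIVT := intermediate_value_Icc hb0 (hcont.mono (fun x hx => hx.1))
  have hm : m ∈ Set.Icc (φ 0) (φ b) := ⟨by rw [h0]; exact hm1, hb.le⟩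
  obtain ⟨R, hR, hRm⟩ := hIVT hm
  exact ⟨R, hR.1, hRm⟩

end mean

/-! ### the greedy map -/

theorem argm_spec {N : ℕ} {x : Fin N → ℝ} {u w : Fin N} (hw : w ≠ u) :
    argm x u ≠ u ∧ ∀ w, w ≠ u → x (argm x u) ≤ x w := by
  have h : ∃ v, v ≠ u ∧ ∀ w, w ≠ u → x v ≤ x w := by
    obtain ⟨v, hv, h⟩ := exists_mn (x := x) hw
    exact ⟨v, hv, fun w hw => by rw [← h]; exact mn_le hw⟩
  unfold argm
  rw [dif_pos h]
  exact h.choose_spec

theorem Uset_one {N : ℕ} {x : Fin N → ℝ} {u w : Fin N} (hw : w ≠ u) (hx : Function.Injective x) :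
    Uset 1 0 u x = {argm x u} := by
  obtain ⟨h1, h2⟩ := argm_spec (x := x) hw
  ext a
  rw [mem_singleton, mem_Uset]
  constructor
  · rintro ⟨ha, h3, _⟩
    apply hx
    apply le_antisymm
    · simpa using h3 _ h1
    · exact h2 a ha
  · rintro rfl
    refine ⟨h1, fun w' hw' => by simpa using h2 w' hw', ?_⟩
    rw [Nat.lt_one_iff, card_eq_zero, filter_eq_empty_iff]
    rintro a _ ⟨ha, h4⟩
    exact absurd (h2 a ha) (not_le.2 h4)

theorem pU_one (μ : Measure ℝ) [IsProbabilityMeasure μ] (hμ : ∀ x, μ {x} = 0) {n : ℕ}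
    (v w : Fin (n + 2)) : pU μ 1 0 v {w} = if w = v then 0 else 1 / ((n : ℝ) + 1) := by
  have h1 := pU_formula μ 1 0 v v {w}
  rw [h1, card_singleton]
  obtain ⟨w', hw'⟩ : ∃ w' : Fin (n + 2), w' ≠ v := exists_ne v
  have hlaw := isLaw μ hμ (le_refl 1) (le_refl (0 : ℝ)) hw' rfl
  have h2 := hlaw.sum_one
  have h3 : nuU μ 1 0 v 0 = 0 := by
    by_contra h
    have := (hlaw.supp 0 h).1
    omega
  rw [sum_range_succ, sum_range_succ, sum_range_zero, h3] at h2
  have h4 : nuU μ 1 0 v 1 = 1 := by linarith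
  rw [h4]
  have e : (v ∈ ({w} : Finset (Fin (n + 2)))) ↔ w = v := by
    rw [mem_singleton]; exact eq_comm
  by_cases h : w = v
  · rw [if_pos (e.2 h), if_pos h]
  · rw [if_neg (fun h' => h (e.1 h')), if_neg h]
    congr 1
    rw [Nat.choose_one_right]
    push_cast
    simp

end E

/-- almost surely all weights of a row are distinct -/
theorem ae_distinct (μ : Measure ℝ) [IsProbabilityMeasure μ] (hμ : ∀ x, μ {x} = 0) (N : ℕ) :
    ∀ᵐ W ∂(wM μ N), ∀ u v w : Fin N, v ≠ w → W u v ≠ W u w := by
  have := E.ae_rows μ (N := N) (p := fun _ y => Function.Injective y) (fun u => E.row_ae' μ hμ N)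
  filter_upwards [this] with W hW u v w hvw h
  exact hvw (hW u h)

/-- the greedy map is a uniform map without fixed points -/
theorem greedy_law (μ : Measure ℝ) [IsProbabilityMeasure μ] (hμ : ∀ x, μ {x} = 0) (n : ℕ)
    (E : (Fin (n + 2) → Fin (n + 2)) → Prop) :
    ((wM μ (n + 2)) {W | E (fun u => argm (W u) u)}).toReal =
      (Nat.card {g : Fin (n + 2) → Fin (n + 2) // (∀ v, g v ≠ v) ∧ E g} : ℝ) /
        ((n : ℝ) + 1) ^ (n + 2) := by
  classical
  set E' : (Fin (n + 2) → Finset (Fin (n + 2))) → Prop :=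
    fun U => ∃ g, U = (fun v => {g v}) ∧ E g with hE'
  have h1 : {W | E (fun u => argm (W u) u)} =ᵐ[wM μ (n + 2)]
      {W | E' (fun v => Uset 1 0 v (W v))} := by
    have := Pool.Agent.MSL.E.ae_rows μ (N := n + 2) (p := fun _ y => Function.Injective y)
      (fun u => Pool.Agent.MSL.E.row_ae' μ hμ (n + 2))
    filter_upwards [this] with W hW
    apply propext
    have h2 : (fun v => Uset 1 0 v (W v)) = fun v => {argm (W v) v} := by
      funext v
      obtain ⟨w', hw'⟩ : ∃ w' : Fin (n + 2), w' ≠ v := exists_ne v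
      exact Pool.Agent.MSL.E.Uset_one hw' (hW v)
    show E (fun u => argm (W u) u) ↔ E' (fun v => Uset 1 0 v (W v))
    rw [h2, hE']
    constructor
    · intro h
      exact ⟨_, rfl, h⟩
    · rintro ⟨g, hg, hEg⟩
      have : g = fun v => argm (W v) v := by
        funext v
        have := congrFun hg v
        exact (singleton_injective this).symm
      rw [← this]
      exact hEg
  rw [measure_congr h1]
  have h2 := Pool.Agent.MSL.E.prod_finval (X := Finset (Fin (n + 2))) (Pool.Agent.MSL.E.row μ (n + 2))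
    (T := fun v y => Uset 1 0 v y) (fun v x => Pool.Agent.MSL.E.measurableSet_eq' 1 0 v x) E'
  have h3 : ((wM μ (n + 2)) {W | E' (fun v => Uset 1 0 v (W v))}).toReal =
      Pr (fun v x => (Pool.Agent.MSL.E.row μ (n + 2) {y | Uset 1 0 v y = x}).toReal) E' := h2
  rw [h3]
  unfold Pr
  have himg : (univ.filter E') = (univ.filter E).image (fun g v => {g v}) := by
    ext U
    simp only [mem_filter, mem_univ, true_and, mem_image, hE']
    constructor
    · rintro ⟨g, hg, hEg⟩
      exact ⟨g, hEg, hg.symm⟩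
    · rintro ⟨g, hEg, hg⟩
      exact ⟨g, hg.symm, hEg⟩
  have h4 : ∀ (inst : DecidablePred E'), (@Finset.filter _ E' inst univ) =
      (univ.filter E).image (fun g v => {g v}) := by
    intro inst
    rw [← himg]
    congr
  rw [h4, sum_image]
  · have h5 : ∀ g : Fin (n + 2) → Fin (n + 2),
        (∏ v, (Pool.Agent.MSL.E.row μ (n + 2) {y | Uset 1 0 v y = {g v}}).toReal) =
        if (∀ v, g v ≠ v) then 1 / ((n : ℝ) + 1) ^ (n + 2) else 0 := by
      intro g
      have h6 : ∀ v, (Pool.Agent.MSL.E.row μ (n + 2) {y | Uset 1 0 v y = {g v}}).toReal =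
          if g v = v then 0 else 1 / ((n : ℝ) + 1) := fun v => Pool.Agent.MSL.E.pU_one μ hμ v (g v)
      simp only [h6]
      split_ifs with h
      · rw [Finset.prod_congr rfl (fun v _ => if_neg (h v))]
        simp
      · push Not at h
        obtain ⟨v, hv⟩ := h
        exact prod_eq_zero (mem_univ v) (if_pos hv)
    rw [Finset.sum_congr rfl (fun g _ => h5 g), ← sum_filter, filter_filter, sum_const,
      nsmul_eq_mul, Nat.card_eq_fintype_card, Fintype.card_subtype, mul_one_div]
    congr 3
    ext g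
    simp only [mem_filter, mem_univ, true_and]
    exact and_comm
  · intro g _ g' _ hgg
    funext v
    have := congrFun hgg v
    exact singleton_injective this

/-- almost surely there is exactly one minimal arborescence -/
theorem ae_unique (μ : Measure ℝ) [IsProbabilityMeasure μ] (hμ : ∀ x, μ {x} = 0) (N : ℕ)
    (r : Fin N) : ∀ᵐ W ∂(wM μ N), ∃! M, IsMinArb W r M := by
  classical
  have key : ∀ᵐ W ∂(wM μ N), ∀ M M' : Fin N → Fin N, IsArb r M → IsArb r M' → M ≠ M' →
      cost W r M ≠ cost W r M' := by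
    rw [ae_all_iff]
    intro M
    rw [ae_all_iff]
    intro M'
    by_cases hM : IsArb r M ∧ IsArb r M' ∧ M ≠ M'
    swap
    · refine Eventually.of_forall fun W h1 h2 h3 => absurd ⟨h1, h2, h3⟩ hM
    obtain ⟨hM1, hM2, hne⟩ := hM
    obtain ⟨u, hu⟩ := Function.ne_iff.1 hne
    have hur : u ≠ r := by
      rintro rfl
      exact hu (hM1.1.trans hM2.1.symm)
    have hmeas : ∀ M : Fin N → Fin N, Measurable fun W : Fin N → Fin N → ℝ => cost W r M := by
      intro M
      unfold cost
      exact Finset.measurable_sum _ fun v _ =>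
        (measurable_pi_apply (M v)).comp (measurable_pi_apply v)
    have hS : MeasurableSet {W : Fin N → Fin N → ℝ | cost W r M = cost W r M'} :=
      measurableSet_eq_fun (hmeas M) (hmeas M')
    have hnull : wM μ N {W : Fin N → Fin N → ℝ | cost W r M = cost W r M'} = 0 := by
      refine E.pi_null (E.row μ N) u hS fun W => ?_
      have hsplit : ∀ (M : Fin N → Fin N) (y : Fin N → ℝ),
          cost (Function.update W u y) r M = y (M u) + ∑ v ∈ (univ.erase r).erase u, W v (M v) := by
        intro M y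
        unfold cost
        rw [← add_sum_erase (univ.erase r) _ (mem_erase.2 ⟨hur, mem_univ u⟩)]
        congr 1
        · rw [Function.update_self]
        · refine Finset.sum_congr rfl fun v hv => ?_
          rw [Function.update_of_ne (mem_erase.1 hv).1]
      have hset : {y | Function.update W u y ∈ {W : Fin N → Fin N → ℝ | cost W r M = cost W r M'}} =
          {y | y (M u) = y (M' u) + (∑ v ∈ (univ.erase r).erase u, W v (M' v) -
            ∑ v ∈ (univ.erase r).erase u, W v (M v))} := by
        ext y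
        simp only [Set.mem_ofPred_eq, hsplit]
        constructor <;> intro h <;> linarith
      rw [hset]
      exact E.row_diff μ hμ hu _
    have h2 := measure_eq_zero_iff_ae_notMem.1 hnull
    filter_upwards [h2] with W hW _ _ _ using hW
  filter_upwards [key] with W hW
  obtain ⟨M, hM, hmin⟩ := Set.exists_min_image {M : Fin N → Fin N | IsArb r M} (fun M => cost W r M)
    (Set.toFinite _) ⟨fun _ => r, rfl, fun u => ⟨1, rfl⟩⟩
  refine ⟨M, ⟨hM, fun M' hM' => hmin M' hM'⟩, ?_⟩
  rintro M' ⟨hM', hmin'⟩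
  by_contra hne
  exact hW M' M hM' hM hne (le_antisymm (hmin' M hM) (hmin M' hM'))

/-- thresholds exist and the laws of the random sets are admissible, rows are independent -/
theorem exists_thresholds (μ : Measure ℝ) [IsProbabilityMeasure μ] (hμ : ∀ x, μ {x} = 0)
    (K A : ℕ) (m : Fin (K + 1) → ℝ) (hA : 1 ≤ A)
    (hm : ∀ i, 1 ≤ m i ∧ m i < A) (n : ℕ) (hn : A < n) :
    ∃ (Rr : Fin (K + 1) → ℝ) (lam : Fin n → (Fin (K + 1) → Finset (Fin n)) → ℝ),
      (∀ i, 0 ≤ Rr i) ∧ Adm n K A m lam ∧
      ∀ E : (Fin n → Fin (K + 1) → Finset (Fin n)) → Prop,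
        ((wM μ n) {W | E (fun v i => Uset A (Rr i) v (W v))}).toReal = Pr lam E := by
  classical
  have hn0 : 0 < n := by omega
  set u0 : Fin n := ⟨0, hn0⟩ with hu0
  obtain ⟨w0, hw0⟩ : ∃ w : Fin n, w ≠ u0 := by
    have : Nontrivial (Fin n) := Fin.nontrivial_iff_two_le.2 (by omega)
    exact exists_ne u0
  have h1 : ∀ i, ∃ R, 0 ≤ R ∧ ∫ x, (#(Uset A R u0 x) : ℝ) ∂(E.row μ n) = m i :=
    fun i => E.exists_R μ hμ hA hn u0 (hm i).1 (hm i).2
  choose Rr hR0 hRm using h1
  set T : Fin n → (Fin n → ℝ) → (Fin (K + 1) → Finset (Fin n)) :=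
    fun v y i => Uset A (Rr i) v y with hT
  have hTm : ∀ v x, MeasurableSet {y | T v y = x} := by
    intro v x
    have : {y | T v y = x} = ⋂ i, {y | Uset A (Rr i) v y = x i} := by
      ext y
      simp [hT, funext_iff]
    rw [this]
    exact MeasurableSet.iInter fun i => E.measurableSet_eq' A (Rr i) v (x i)
  refine ⟨Rr, fun v x => (E.row μ n {y | T v y = x}).toReal, hR0, ⟨?_, ?_, ?_⟩, ?_⟩
  · intro v x
    exact ENNReal.toReal_nonneg
  · intro v
    have := E.sum_finval (P := E.row μ n) (hTm v) (fun _ => True)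
    simp only [filter_true] at this
    rw [← this]
    simp
  · intro i
    refine ⟨E.nuU μ A (Rr i) u0, E.isLaw μ hμ hA (hR0 i) hw0 (hRm i), fun v Θ => ?_⟩
    have := E.sum_finval (P := E.row μ n) (hTm v) (fun x => x i = Θ)
    rw [← this, ← E.pU_formula μ A (Rr i) u0 v Θ]
    rfl
  · intro E'
    exact E.prod_finval (E.row μ n) hTm E'

end Pool.Agent.MSL
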