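import Pool.Agent.MSL.Defs

set_option autoImplicit false

open scoped Topology ENNReal
open Finset MeasureTheory

namespace Pool.Agent.MSL

namespace Perturb

section graph

variable {V W : Type*} {E E' : V → V → Prop}

lemma ballSet_succ (E : V → V → Prop) (v : V) (R : ℕ) :
    ballSet E v (R + 1) = ballSet E v R ∪ {w | ∃ u ∈ ballSet E v R, E u w ∨ E w u} := rfl

lemma ballSet_mono (E : V → V → Prop) (v : V) {R R' : ℕ} (h : R ≤ R') :
    ballSet E v R ⊆ ballSet E v R' := by
  induction h with
  | refl => exact subset_rfl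
  | step _ ih => exact ih.trans Set.subset_union_left

lemma ballSet_step {v w u : V} (hvw : E v w ∨ E w v) {R : ℕ} (hu : u ∈ ballSet E w R) :
    u ∈ ballSet E v (R + 1) := by
  induction R generalizing u with
  | zero =>
    have : u = w := hu
    subst this
    exact Or.inr ⟨v, rfl, hvw⟩
  | succ R ih =>
    rcases hu with hu | ⟨u', hu', h⟩
    · exact Or.inl (ih hu)
    · exact Or.inr ⟨u', ih hu', h⟩

lemma ballSet_symm {v u : V} {R : ℕ} (hu : u ∈ ballSet E v R) : v ∈ ballSet E u R := by
  induction R generalizing u with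
  | zero => exact (show u = v from hu).symm
  | succ R ih =>
    rcases hu with hu | ⟨u', hu', h⟩
    · exact ballSet_mono E u (Nat.le_succ R) (ih hu)
    · exact ballSet_step h.symm (ih hu')

lemma ballSet_trans {v s u : V} {R R' : ℕ} (hs : s ∈ ballSet E v R') (hu : u ∈ ballSet E s R) :
    u ∈ ballSet E v (R' + R) := by
  induction R generalizing u with
  | zero =>
    have : u = s := hu
    subst this; exact hs
  | succ R ih =>
    rcases hu with hu | ⟨u', hu', h⟩
    · exact Or.inl (ih hu)
    · exact Or.inr ⟨u', ih hu', h⟩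

lemma ballIso_of_eq {v : V} {R : ℕ} {H : W → W → Prop} {h : W}
    (hs : ballSet E v R = ballSet E' v R)
    (hE : ∀ u ∈ ballSet E v R, ∀ w ∈ ballSet E v R, (E u w ↔ E' u w))
    (hiso : BallIso E v R H h) : BallIso E' v R H h := by
  obtain ⟨φ, h1, h2⟩ := hiso
  refine ⟨(Equiv.setCongr hs.symm).trans φ, ?_, ?_⟩
  · simpa using h1
  · intro u w
    have hu : u.1 ∈ ballSet E v R := by rw [hs]; exact u.2
    have hw : w.1 ∈ ballSet E v R := by rw [hs]; exact w.2
    rw [← hE u.1 hu w.1 hw]
    exact h2 ⟨u.1, hu⟩ ⟨w.1, hw⟩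

lemma ballIso_congr {v : V} {R : ℕ} {H : W → W → Prop} {h : W}
    (hs : ballSet E v R = ballSet E' v R)
    (hE : ∀ u ∈ ballSet E v R, ∀ w ∈ ballSet E v R, (E u w ↔ E' u w)) :
    BallIso E v R H h ↔ BallIso E' v R H h := by
  refine ⟨ballIso_of_eq hs hE, ballIso_of_eq hs.symm fun u hu w hw => ?_⟩
  rw [← hs] at hu hw
  exact (hE u hu w hw).symm

end graph

section arb

variable {V : Type*}

/-- The vertices near which the arborescence and the map can differ. -/
def Dset (r : V) (M g : V → V) : Set V := {s | ∃ u, (u = r ∨ M u ≠ g u) ∧ (s = u ∨ s = M u)}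

/-- The ball of radius `R` about `v` meets the set of differences. -/
def Bd (r : V) (R : ℕ) (M g : V → V) (v : V) : Prop := ∃ s ∈ Dset r M g, s ∈ ballSet (mapE g) v R

lemma ball_agree {r : V} {M g : V → V} {v : V} {R : ℕ} (hv : ¬ Bd r R M g v) :
    ∀ j ≤ R, ballSet (arbE r M) v j = ballSet (mapE g) v j := by
  have key : ∀ u, u ∈ ballSet (mapE g) v R → u ≠ r ∧ M u = g u := by
    intro u hu
    constructor
    · rintro rfl
      exact hv ⟨u, ⟨u, Or.inl rfl, Or.inl rfl⟩, hu⟩
    · by_contra hne
      exact hv ⟨u, ⟨u, Or.inr hne, Or.inl rfl⟩, hu⟩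
  have key2 : ∀ x, x = r ∨ M x ≠ g x → M x ∉ ballSet (mapE g) v R :=
    fun x hx hmem => hv ⟨M x, ⟨x, hx, Or.inr rfl⟩, hmem⟩
  intro j
  induction j with
  | zero => intro _; rfl
  | succ j ih =>
    intro hj
    have ih := ih (by omega)
    rw [ballSet_succ, ballSet_succ, ih]
    have hsub : ballSet (mapE g) v j ⊆ ballSet (mapE g) v R := ballSet_mono _ _ (by omega)
    have hsub1 : ballSet (mapE g) v (j + 1) ⊆ ballSet (mapE g) v R := ballSet_mono _ _ hj
    ext x
    constructor
    · rintro (hx | ⟨u, hu, h | h⟩)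
      · exact Or.inl hx
      · obtain ⟨h1, h2⟩ := h
        refine Or.inr ⟨u, hu, Or.inl ?_⟩
        rw [mapE, h2, (key u (hsub hu)).2]
      · obtain ⟨h1, h2⟩ := h
        refine Or.inr ⟨u, hu, Or.inr ?_⟩
        by_contra hne
        refine key2 x (Or.inr fun he => hne ?_) (h2 ▸ hsub hu)
        rw [mapE, h2, he]
    · rintro (hx | ⟨u, hu, h | h⟩)
      · exact Or.inl hx
      · refine Or.inr ⟨u, hu, Or.inl ⟨(key u (hsub hu)).1, ?_⟩⟩
        rw [(key u (hsub hu)).2]; exact h
      · have hx : x ∈ ballSet (mapE g) v (j + 1) := Or.inr ⟨u, hu, Or.inr h⟩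
        refine Or.inr ⟨u, hu, Or.inr ⟨(key x (hsub1 hx)).1, ?_⟩⟩
        rw [(key x (hsub1 hx)).2]; exact h

lemma ballIso_agree {W : Type*} {H : W → W → Prop} {h : W} {r : V} {M g : V → V} {v : V} {R : ℕ}
    (hv : ¬ Bd r R M g v) : BallIso (arbE r M) v R H h ↔ BallIso (mapE g) v R H h := by
  have hs := ball_agree hv R le_rfl
  refine ballIso_congr hs fun u hu w _ => ?_
  rw [hs] at hu
  have h1 : u ≠ r := by
    rintro rfl
    exact hv ⟨u, ⟨u, Or.inl rfl, Or.inl rfl⟩, hu⟩
  have h2 : M u = g u := by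
    by_contra hne
    exact hv ⟨u, ⟨u, Or.inr hne, Or.inl rfl⟩, hu⟩
  simp [arbE, mapE, h1, h2]

end arb

section count

variable {V : Type*} [Fintype V]

open Classical in
lemma card_near (E : V → V → Prop) (R B : ℕ) (S : Finset V) :
    #(univ.filter fun v => ∃ s ∈ S, s ∈ ballSet E v R) ≤
      B * #S + #(univ.filter fun v => B < (ballSet E v (R + R)).ncard) := by
  set S' := S.filter fun s => (ballSet E s R).ncard ≤ B with hS'
  have hsub : (univ.filter fun v => ∃ s ∈ S, s ∈ ballSet E v R) ⊆
      (S'.biUnion fun s => univ.filter fun v => v ∈ ballSet E s R) ∪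
        (univ.filter fun v => B < (ballSet E v (R + R)).ncard) := by
    intro v hv
    simp only [mem_filter, mem_univ, true_and] at hv
    obtain ⟨s, hs, hsv⟩ := hv
    by_cases hB : B < (ballSet E v (R + R)).ncard
    · exact Finset.mem_union_right _ (by simp [hB])
    · refine Finset.mem_union_left _ ?_
      simp only [mem_biUnion, mem_filter, mem_univ, true_and, hS']
      refine ⟨s, ⟨hs, ?_⟩, ballSet_symm hsv⟩
      push Not at hB
      refine le_trans (Set.ncard_le_ncard ?_ (Set.toFinite _)) hB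
      intro u hu
      exact ballSet_trans hsv hu
  refine (Finset.card_le_card hsub).trans ((Finset.card_union_le _ _).trans ?_)
  refine Nat.add_le_add_right ?_ _
  calc #(S'.biUnion fun s => univ.filter fun v => v ∈ ballSet E s R)
      ≤ #S' * B := by
        refine Finset.card_biUnion_le_card_mul _ _ _ fun s hs => ?_
        have := (Finset.mem_filter.mp hs).2
        rw [← Set.ncard_coe_finset]
        simpa using this
    _ ≤ B * #S := by
        rw [mul_comm]
        exact Nat.mul_le_mul_left _ (Finset.card_le_card (Finset.filter_subset _ _))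

open Classical in
lemma card_Bd [DecidableEq V] (r : V) (R B : ℕ) (M g : V → V) :
    #(univ.filter fun v => Bd r R M g v) ≤
      B * (2 * (#(univ.filter fun u => u ≠ r ∧ M u ≠ g u) + 1)) +
        #(univ.filter fun v => B < (ballSet (mapE g) v (R + R)).ncard) := by
  set D := insert r (univ.filter fun u => u ≠ r ∧ M u ≠ g u) with hD
  set S : Finset V := D ∪ D.image M with hS
  have hSD : ∀ s, s ∈ Dset r M g → s ∈ S := by
    rintro s ⟨u, hu, h⟩
    have huD : u ∈ D := by
      by_cases hur : u = r
      · simp [hD, hur]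
      · rcases hu with h | h
        · exact absurd h hur
        · simp [hD, hur, h]
    rcases h with rfl | rfl
    · exact Finset.mem_union_left _ huD
    · exact Finset.mem_union_right _ (Finset.mem_image_of_mem _ huD)
  have hcard : #S ≤ 2 * (#(univ.filter fun u => u ≠ r ∧ M u ≠ g u) + 1) := by
    have h1 : #D ≤ #(univ.filter fun u => u ≠ r ∧ M u ≠ g u) + 1 := Finset.card_insert_le _ _
    have h2 : #(D.image M) ≤ #D := Finset.card_image_le
    have h3 : #S ≤ #D + #(D.image M) := Finset.card_union_le _ _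
    omega
  refine le_trans (Finset.card_le_card ?_) ((card_near (mapE g) R B S).trans ?_)
  · intro v hv
    simp only [mem_filter, mem_univ, true_and] at hv ⊢
    obtain ⟨s, hs, hsv⟩ := hv
    exact ⟨s, hSD s hs, hsv⟩
  · gcongr

end count

end Perturb

end Pool.Agent.MSL
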