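import Pool.Agent.MSL.Few
import Pool.Agent.MSL.Perturb

set_option autoImplicit false

open scoped Topology ENNReal
open Finset MeasureTheory Filter

namespace Pool.Agent.MSL

namespace Exch

open Perturb

variable {N : ℕ}

/-- relabelling of the weights -/
noncomputable def rel (σ : Equiv.Perm (Fin N)) : (Fin N → Fin N → ℝ) ≃ᵐ (Fin N → Fin N → ℝ) :=
  MeasurableEquiv.arrowCongr' σ (MeasurableEquiv.arrowCongr' σ (MeasurableEquiv.refl ℝ))

lemma rel_apply (σ : Equiv.Perm (Fin N)) (W : Fin N → Fin N → ℝ) (u v : Fin N) :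
    rel σ W u v = W (σ.symm u) (σ.symm v) := rfl

lemma rel_mp (μ : Measure ℝ) [IsProbabilityMeasure μ] (σ : Equiv.Perm (Fin N)) :
    MeasurePreserving (rel σ) (wM μ N) (wM μ N) :=
  measurePreserving_arrowCongr' (fun _ => Measure.pi fun _ => μ) (fun _ => Measure.pi fun _ => μ)
    σ _ (fun _ => measurePreserving_arrowCongr' (fun _ => μ) (fun _ => μ) σ
      (MeasurableEquiv.refl ℝ) (fun _ => MeasurePreserving.id μ))

/-- conjugate map -/
def conj (σ : Equiv.Perm (Fin N)) (M : Fin N → Fin N) : Fin N → Fin N := fun u => σ (M (σ.symm u))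

lemma conj_iter (σ : Equiv.Perm (Fin N)) (M : Fin N → Fin N) (k : ℕ) (u : Fin N) :
    (conj σ M)^[k] u = σ (M^[k] (σ.symm u)) := by
  induction k with
  | zero => simp
  | succ k ih => rw [Function.iterate_succ_apply', ih, Function.iterate_succ_apply', conj]; simp

lemma conj_symm (σ : Equiv.Perm (Fin N)) (M : Fin N → Fin N) : conj σ (conj σ.symm M) = M := by
  funext u; simp [conj]

lemma isArb_conj {σ : Equiv.Perm (Fin N)} {r : Fin N} (hσ : σ r = r) {M : Fin N → Fin N}
    (hM : IsArb r M) : IsArb r (conj σ M) := by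
  have hσ' : σ.symm r = r := by rw [Equiv.symm_apply_eq]; exact hσ.symm
  refine ⟨?_, fun u => ?_⟩
  · rw [conj, hσ', hM.1, hσ]
  · obtain ⟨k, hk⟩ := hM.2 (σ.symm u)
    exact ⟨k, by rw [conj_iter, hk, hσ]⟩

lemma cost_conj {σ : Equiv.Perm (Fin N)} {r : Fin N} (hσ : σ r = r) (W : Fin N → Fin N → ℝ)
    (M : Fin N → Fin N) : cost (rel σ W) r (conj σ M) = cost W r M := by
  have hσ' : σ.symm r = r := by rw [Equiv.symm_apply_eq]; exact hσ.symm
  unfold cost
  refine (Finset.sum_equiv σ ?_ ?_).symm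
  · intro u
    simp only [mem_erase, mem_univ, and_true, ne_eq]
    constructor
    · intro h h'
      exact h (by rw [← σ.symm_apply_apply u, h', hσ'])
    · intro h h'
      exact h (by rw [h', hσ])
  · intro u _
    simp [rel_apply, conj]

lemma isMinArb_conj {σ : Equiv.Perm (Fin N)} {r : Fin N} (hσ : σ r = r)
    {W : Fin N → Fin N → ℝ} {M : Fin N → Fin N} (hM : IsMinArb W r M) :
    IsMinArb (rel σ W) r (conj σ M) := by
  have hσ' : σ.symm r = r := by rw [Equiv.symm_apply_eq]; exact hσ.symm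
  refine ⟨isArb_conj hσ hM.1, fun M' hM' => ?_⟩
  rw [cost_conj hσ, ← conj_symm σ M', cost_conj hσ]
  exact hM.2 _ (isArb_conj hσ' hM')

/-- `g` is the map to the cheapest target -/
def Gr (W : Fin N → Fin N → ℝ) (g : Fin N → Fin N) : Prop :=
  ∀ u, g u ≠ u ∧ ∀ w, w ≠ u → W u (g u) ≤ W u w

lemma gr_conj {σ : Equiv.Perm (Fin N)} {W : Fin N → Fin N → ℝ} {g : Fin N → Fin N}
    (hg : Gr W g) : Gr (rel σ W) (conj σ g) := by
  intro u
  refine ⟨fun h => (hg (σ.symm u)).1 ?_, fun w hw => ?_⟩
  · rw [Equiv.eq_symm_apply]; exact h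
  · rw [rel_apply, rel_apply, conj, σ.symm_apply_apply]
    exact (hg (σ.symm u)).2 _ (fun h => hw (σ.symm.injective h))

lemma ball_conj (σ : Equiv.Perm (Fin N)) (g : Fin N → Fin N) (v : Fin N) (R : ℕ) :
    ballSet (mapE (conj σ g)) (σ v) R = σ '' ballSet (mapE g) v R := by
  induction R with
  | zero => simp [ballSet]
  | succ R ih =>
    rw [ballSet_succ, ballSet_succ, ih, Set.image_union]
    congr 1
    ext w
    constructor
    · rintro ⟨_, ⟨u, hu, rfl⟩, h⟩
      refine ⟨σ.symm w, ⟨u, hu, ?_⟩, by simp⟩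
      rcases h with h | h
      · left
        simp only [mapE, conj, σ.symm_apply_apply] at h ⊢
        rw [h]; simp
      · right
        simp only [mapE, conj] at h ⊢
        exact σ.injective h
    · rintro ⟨x, ⟨u, hu, h⟩, rfl⟩
      refine ⟨σ u, ⟨u, hu, rfl⟩, ?_⟩
      rcases h with h | h
      · left
        simp only [mapE, conj, σ.symm_apply_apply] at h ⊢
        rw [h]
      · right
        simp only [mapE, conj, σ.symm_apply_apply] at h ⊢
        rw [h]

lemma bd_conj {σ : Equiv.Perm (Fin N)} {r : Fin N} (hσ : σ r = r) {R : ℕ} {M g : Fin N → Fin N}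
    {v : Fin N} (h : Bd r R M g v) : Bd r R (conj σ M) (conj σ g) (σ v) := by
  obtain ⟨s, ⟨u, hu, hs⟩, hsv⟩ := h
  refine ⟨σ s, ⟨σ u, ?_, ?_⟩, ?_⟩
  · rcases hu with rfl | hu
    · exact Or.inl hσ
    · right
      simp only [conj, σ.symm_apply_apply]
      exact fun h => hu (σ.injective h)
  · rcases hs with rfl | rfl
    · exact Or.inl rfl
    · right
      simp [conj]
  · rw [ball_conj]; exact ⟨s, hsv, rfl⟩

/-- the event that the ball about `v` meets the set of differences -/
def evB (r : Fin N) (R : ℕ) (v : Fin N) : Set (Fin N → Fin N → ℝ) :=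
  {W | ∃ M g, IsMinArb W r M ∧ Gr W g ∧ Bd r R M g v}

/-- the event that the ball of the greedy map about `v` is large -/
def evC (R B : ℕ) (v : Fin N) : Set (Fin N → Fin N → ℝ) :=
  {W | ∃ g, Gr W g ∧ B < (ballSet (mapE g) v R).ncard}

lemma measurable_cost (r : Fin N) (M : Fin N → Fin N) :
    Measurable fun W : Fin N → Fin N → ℝ => cost W r M := by
  unfold cost
  exact Finset.measurable_sum _ fun u _ => (measurable_pi_apply (M u)).comp (measurable_pi_apply u)

lemma measurable_isMinArb (r : Fin N) (M : Fin N → Fin N) :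
    Measurable fun W : Fin N → Fin N → ℝ => IsMinArb W r M := by
  unfold IsMinArb
  refine measurable_const.and (Measurable.forall fun M' => measurable_const.imp ?_)
  exact measurableSet_setOfPred.mp (measurableSet_le (measurable_cost r M) (measurable_cost r M'))

lemma measurable_gr (g : Fin N → Fin N) : Measurable fun W : Fin N → Fin N → ℝ => Gr W g := by
  unfold Gr
  refine Measurable.forall fun u => measurable_const.and (Measurable.forall fun w =>
    measurable_const.imp ?_)
  exact measurableSet_setOfPred.mp (measurableSet_le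
    ((measurable_pi_apply (g u)).comp (measurable_pi_apply u))
    ((measurable_pi_apply w).comp (measurable_pi_apply u)))

lemma measurableSet_evB (r : Fin N) (R : ℕ) (v : Fin N) : MeasurableSet (evB r R v) := by
  refine measurableSet_setOfPred.mpr (Measurable.exists fun M => Measurable.exists fun g => ?_)
  exact (measurable_isMinArb r M).and ((measurable_gr g).and measurable_const)

lemma measurableSet_evC (R B : ℕ) (v : Fin N) : MeasurableSet (evC R B v) := by
  refine measurableSet_setOfPred.mpr (Measurable.exists fun g => ?_)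
  exact (measurable_gr g).and measurable_const

lemma evB_le (μ : Measure ℝ) [IsProbabilityMeasure μ] {r : Fin N} (R : ℕ) {v w : Fin N}
    (hv : v ≠ r) (hw : w ≠ r) : wM μ N (evB r R v) ≤ wM μ N (evB r R w) := by
  set σ := Equiv.swap v w with hσ
  have hr : σ r = r := Equiv.swap_apply_of_ne_of_ne hv.symm hw.symm
  have hvw : σ v = w := Equiv.swap_apply_left v w
  rw [← (rel_mp μ σ).measure_preimage_equiv (evB r R w)]
  refine measure_mono ?_
  rintro W ⟨M, g, hM, hg, hb⟩
  refine ⟨conj σ M, conj σ g, isMinArb_conj hr hM, gr_conj hg, ?_⟩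
  rw [← hvw]
  exact bd_conj hr hb

lemma evC_le (μ : Measure ℝ) [IsProbabilityMeasure μ] (R B : ℕ) (v w : Fin N) :
    wM μ N (evC R B v) ≤ wM μ N (evC R B w) := by
  set σ := Equiv.swap v w with hσ
  have hvw : σ v = w := Equiv.swap_apply_left v w
  rw [← (rel_mp μ σ).measure_preimage_equiv (evC R B w)]
  refine measure_mono ?_
  rintro W ⟨g, hg, hb⟩
  refine ⟨conj σ g, gr_conj hg, ?_⟩
  rw [← hvw, ball_conj, Set.ncard_image_of_injective _ σ.injective]
  exact hb

open Classical in
lemma sum_measure_le {Ω : Type*} [MeasurableSpace Ω] {P : Measure Ω} [IsProbabilityMeasure P]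
    {B C : Fin N → Set Ω} (hB : ∀ v, MeasurableSet (B v)) (hC : ∀ v, MeasurableSet (C v))
    {E0 : Set Ω} {c : ℝ≥0∞}
    (h : ∀ W ∉ E0, (#(univ.filter fun v => W ∈ B v) : ℝ≥0∞) ≤
      c + (#(univ.filter fun v => W ∈ C v) : ℝ≥0∞)) :
    ∑ v, P (B v) ≤ N * P E0 + c + ∑ v, P (C v) := by
  set E1 := toMeasurable P E0 with hE1
  have hE1m : MeasurableSet E1 := measurableSet_toMeasurable P E0
  have hE1P : P E1 = P E0 := measure_toMeasurable E0
  have hsub : E0 ⊆ E1 := subset_toMeasurable P E0
  have hind : ∀ (D : Fin N → Set Ω) (W : Ω),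
      ∑ v, (D v).indicator (1 : Ω → ℝ≥0∞) W = (#(univ.filter fun v => W ∈ D v) : ℝ≥0∞) := by
    intro D W
    rw [Finset.card_filter]
    push_cast
    refine Finset.sum_congr rfl fun v _ => ?_
    by_cases hW : W ∈ D v <;> simp [hW]
  have hint : ∀ (D : Fin N → Set Ω), (∀ v, MeasurableSet (D v)) →
      ∫⁻ W, ∑ v, (D v).indicator (1 : Ω → ℝ≥0∞) W ∂P = ∑ v, P (D v) := by
    intro D hD
    rw [lintegral_finsetSum _ (fun v _ => measurable_one.indicator (hD v))]
    refine Finset.sum_congr rfl fun v _ => ?_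
    rw [lintegral_indicator_one (hD v)]
  have hpt : ∀ W, ∑ v, (B v).indicator (1 : Ω → ℝ≥0∞) W ≤
      (E1.indicator (fun _ => (N : ℝ≥0∞)) W + c) + ∑ v, (C v).indicator (1 : Ω → ℝ≥0∞) W := by
    intro W
    by_cases hW : W ∈ E1
    · have h1 : ∑ v, (B v).indicator (1 : Ω → ℝ≥0∞) W ≤ N := by
        rw [hind]
        have : #(univ.filter fun v => W ∈ B v) ≤ N := by
          simpa using Finset.card_filter_le (univ : Finset (Fin N)) (fun v => W ∈ B v)
        exact_mod_cast this
      rw [Set.indicator_of_mem hW]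
      exact h1.trans ((self_le_add_right _ _).trans (self_le_add_right _ _))
    · rw [Set.indicator_of_notMem hW, zero_add, hind, hind]
      exact h W (fun hW0 => hW (hsub hW0))
  calc ∑ v, P (B v) = ∫⁻ W, ∑ v, (B v).indicator (1 : Ω → ℝ≥0∞) W ∂P := (hint B hB).symm
    _ ≤ ∫⁻ W, (E1.indicator (fun _ => (N : ℝ≥0∞)) W + c) +
        ∑ v, (C v).indicator (1 : Ω → ℝ≥0∞) W ∂P := lintegral_mono hpt
    _ = N * P E0 + c + ∑ v, P (C v) := by
      rw [lintegral_add_right _ (Finset.measurable_sum _ fun v _ =>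
        measurable_one.indicator (hC v)), hint C hC, lintegral_add_right _ measurable_const,
        lintegral_indicator_const hE1m, lintegral_const, measure_univ, mul_one, hE1P]

end Exch

end Pool.Agent.MSL
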