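import Mathlib
import Pool.Agent.MSL.Defs

/-!
Module F: a uniform random map without fixed points has few cycles, hence a small set of
vertices meets every closed set (`MP_e4ce4d_pr`).
-/

set_option autoImplicit false

open scoped Topology ENNReal
open Finset MeasureTheory Filter

namespace Pool.Agent.MSL.F

section cyc

variable {N : ℕ}

open Classical in
/-- The smallest points of the cycles of `g`. -/
noncomputable def cyc (g : Fin N → Fin N) : Finset (Fin N) :=
  univ.filter (fun v => v ∈ Function.periodicPts g ∧ ∀ j, v ≤ g^[j] v)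

theorem mem_cyc (g : Fin N → Fin N) (v : Fin N) :
    v ∈ cyc g ↔ v ∈ Function.periodicPts g ∧ ∀ j, v ≤ g^[j] v := by
  simp [cyc]

theorem cyc_meets (g : Fin N → Fin N) (S : Finset (Fin N)) (hS : S.Nonempty)
    (hcl : ∀ u ∈ S, g u ∈ S) : ∃ x ∈ S, x ∈ cyc g := by
  classical
  obtain ⟨u, hu⟩ := hS
  have hit : ∀ x ∈ S, ∀ i, g^[i] x ∈ S := by
    intro x hx i
    induction i with
    | zero => simpa using hx
    | succ i ih =>
      rw [Function.iterate_succ_apply']
      exact hcl _ ih
  obtain ⟨i, j, hij, he⟩ := Finite.exists_ne_map_eq_of_infinite (fun i : ℕ => g^[i] u)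
  have key : ∃ w ∈ S, w ∈ Function.periodicPts g := by
    rcases lt_or_gt_of_ne hij with h | h
    · refine ⟨g^[i] u, hit u hu i, ?_⟩
      refine Function.mk_mem_periodicPts (n := j - i) (by omega) ?_
      unfold Function.IsPeriodicPt Function.IsFixedPt
      rw [← Function.iterate_add_apply]
      have : j - i + i = j := by omega
      rw [this]
      exact he.symm
    · refine ⟨g^[j] u, hit u hu j, ?_⟩
      refine Function.mk_mem_periodicPts (n := i - j) (by omega) ?_
      unfold Function.IsPeriodicPt Function.IsFixedPt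
      rw [← Function.iterate_add_apply]
      have : i - j + j = i := by omega
      rw [this]
      exact he
  obtain ⟨w, hwS, hwp⟩ := key
  obtain ⟨p, hp0, hp⟩ := hwp
  set T : Finset (Fin N) := univ.filter (fun y => ∃ k, y = g^[k] w) with hT
  have hTne : T.Nonempty := ⟨w, by simp only [hT, mem_filter, mem_univ, true_and]; exact ⟨0, rfl⟩⟩
  have hmem : T.min' hTne ∈ T := T.min'_mem hTne
  obtain ⟨k, hk⟩ : ∃ k, T.min' hTne = g^[k] w := by
    simpa only [hT, mem_filter, mem_univ, true_and] using hmem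
  refine ⟨T.min' hTne, ?_, ?_⟩
  · rw [hk]; exact hit w hwS k
  · rw [mem_cyc]
    constructor
    · rw [hk]
      exact ⟨p, hp0, hp.apply_iterate k⟩
    · intro j
      apply T.min'_le
      simp only [hT, mem_filter, mem_univ, true_and]
      exact ⟨j + k, by rw [hk, Function.iterate_add_apply]⟩

theorem card_cyc_le (g : Fin N → Fin N) :
    (#(cyc g) : ℝ) ≤ ∑ v : Fin N, 1 / (Function.minimalPeriod g v : ℝ) := by
  classical
  have h1 : (#(cyc g) : ℝ) = ∑ q ∈ (cyc g).sigma (fun x => range (Function.minimalPeriod g x)),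
      1 / (Function.minimalPeriod g (g^[q.2] q.1) : ℝ) := by
    rw [Finset.sum_sigma, Finset.cast_card]
    refine Finset.sum_congr rfl fun x hx => ?_
    have hxp : x ∈ Function.periodicPts g := ((mem_cyc g x).1 hx).1
    have hpos : 0 < Function.minimalPeriod g x := Function.minimalPeriod_pos_of_mem_periodicPts hxp
    have : ∀ i ∈ range (Function.minimalPeriod g x),
        1 / (Function.minimalPeriod g (g^[i] x) : ℝ) = 1 / (Function.minimalPeriod g x : ℝ) := by
      intro i _
      rw [Function.minimalPeriod_apply_iterate hxp]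
    rw [Finset.sum_congr rfl this, Finset.sum_const, card_range, nsmul_eq_mul]
    field_simp
  rw [h1]
  have hinj : Set.InjOn (fun q : (_ : Fin N) × ℕ => g^[q.2] q.1)
      ((cyc g).sigma (fun x => range (Function.minimalPeriod g x)) : Set ((_ : Fin N) × ℕ)) := by
    rintro ⟨x, i⟩ hx ⟨y, j⟩ hy he
    simp only [Finset.coe_sigma, Set.mem_sigma_iff, Finset.mem_coe, mem_range] at hx hy
    obtain ⟨hx, hi⟩ := hx
    obtain ⟨hy, hj⟩ := hy
    simp only at he
    have hxc := (mem_cyc g x).1 hx
    have hyc := (mem_cyc g y).1 hy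
    have aux : ∀ (x y : Fin N) (i j : ℕ), i < Function.minimalPeriod g x →
        g^[i] x = g^[j] y → ∃ m, x = g^[m] y := by
      intro x y i j hi he
      refine ⟨Function.minimalPeriod g x - i + j, ?_⟩
      rw [Function.iterate_add_apply, ← he, ← Function.iterate_add_apply]
      have : Function.minimalPeriod g x - i + i = Function.minimalPeriod g x := by omega
      rw [this, Function.iterate_minimalPeriod]
    obtain ⟨m, hm⟩ := aux x y i j hi he
    obtain ⟨m', hm'⟩ := aux y x j i hj he.symm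
    have hxy : x = y := by
      apply le_antisymm
      · have := hxc.2 m'
        rwa [← hm'] at this
      · have := hyc.2 m
        rwa [← hm] at this
    subst hxy
    have := Function.iterate_injOn_Iio_minimalPeriod (f := g) (x := x) (Set.mem_Iio.2 hi)
      (Set.mem_Iio.2 hj) he
    rw [this]
  rw [← Finset.sum_image (f := fun v => 1 / (Function.minimalPeriod g v : ℝ)) hinj]
  refine Finset.sum_le_sum_of_subset_of_nonneg (subset_univ _) ?_
  intro v _ _
  positivity

theorem update_iterate (g : Fin N → Fin N) (v : Fin N) (k : ℕ)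
    (hk : Function.minimalPeriod g v = k + 1) (a : Fin N) :
    ∀ i ≤ k, (Function.update g (g^[k] v) a)^[i] v = g^[i] v := by
  intro i
  induction i with
  | zero => intro _; rfl
  | succ i ih =>
    intro hi
    rw [Function.iterate_succ_apply', Function.iterate_succ_apply', ih (by omega)]
    apply Function.update_of_ne
    intro he
    have := Function.iterate_injOn_Iio_minimalPeriod (f := g) (x := v)
      (Set.mem_Iio.2 (by omega : i < Function.minimalPeriod g v))
      (Set.mem_Iio.2 (by omega : k < Function.minimalPeriod g v)) he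
    omega

/-- The maps without fixed points. -/
noncomputable def G (N : ℕ) : Finset (Fin N → Fin N) :=
  Fintype.piFinset (fun v => univ.erase v)

theorem mem_G (g : Fin N → Fin N) : g ∈ G N ↔ ∀ v, g v ≠ v := by
  simp [G, Fintype.mem_piFinset]

theorem card_G : #(G N) = (N - 1) ^ N := by
  simp [G, Fintype.card_piFinset]

theorem count_period (v : Fin N) (k : ℕ) :
    (N - 1) * #((G N).filter (fun g => Function.minimalPeriod g v = k + 1)) ≤ #(G N) := by
  classical
  have h1 : #(((G N).filter (fun g => Function.minimalPeriod g v = k + 1)).sigma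
      (fun g => (univ : Finset (Fin N)).erase (g^[k] v))) =
      (N - 1) * #((G N).filter (fun g => Function.minimalPeriod g v = k + 1)) := by
    rw [Finset.card_sigma, Finset.sum_const_nat (m := N - 1)]
    · ring
    · intro g _
      simp
  rw [← h1]
  apply Finset.card_le_card_of_injOn
    (fun q : (_ : Fin N → Fin N) × Fin N => Function.update q.1 (q.1^[k] v) q.2)
  · rintro ⟨g, a⟩ hq
    simp only [Finset.coe_sigma, Set.mem_sigma_iff, Finset.mem_coe, mem_filter, mem_erase] at hq
    obtain ⟨⟨hg, _⟩, ha, _⟩ := hq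
    rw [mem_coe, mem_G]
    rw [mem_G] at hg
    intro u
    simp only
    by_cases hu : u = g^[k] v
    · subst hu
      rw [Function.update_self]
      exact ha
    · rw [Function.update_of_ne hu]
      exact hg u
  · rintro ⟨g, a⟩ hq ⟨g', a'⟩ hq' he
    simp only [Finset.coe_sigma, Set.mem_sigma_iff, Finset.mem_coe, mem_filter, mem_erase] at hq hq'
    obtain ⟨⟨hg, hk⟩, ha, _⟩ := hq
    obtain ⟨⟨hg', hk'⟩, ha', _⟩ := hq'
    simp only at he
    have e1 := update_iterate g v k hk a k le_rfl
    have e2 := update_iterate g' v k hk' a' k le_rfl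
    rw [he, e2] at e1
    have p1 : g (g^[k] v) = v := by
      rw [← Function.iterate_succ_apply' g k v, Nat.succ_eq_add_one, ← hk, Function.iterate_minimalPeriod]
    have p2 : g' (g'^[k] v) = v := by
      rw [← Function.iterate_succ_apply' g' k v, Nat.succ_eq_add_one, ← hk', Function.iterate_minimalPeriod]
    have hga : a = a' := by
      have := congrFun he (g^[k] v)
      rw [Function.update_self, ← e1, Function.update_self] at this
      exact this
    have hgg : g = g' := by
      funext u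
      by_cases hu : u = g^[k] v
      · rw [hu, p1, ← e1, p2]
      · have := congrFun he u
        rw [Function.update_of_ne hu, Function.update_of_ne (by rw [e1]; exact hu)] at this
        exact this
    rw [hgg, hga]

theorem minimalPeriod_le (g : Fin N → Fin N) (v : Fin N) : Function.minimalPeriod g v ≤ N := by
  classical
  have h := Finset.card_le_card_of_injOn (s := range (Function.minimalPeriod g v))
    (t := (univ : Finset (Fin N))) (fun i => g^[i] v) (by intro i _; simp)
    (by
      intro i hi j hj he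
      rw [mem_coe, mem_range] at hi hj
      exact Function.iterate_injOn_Iio_minimalPeriod (Set.mem_Iio.2 hi) (Set.mem_Iio.2 hj) he)
  simpa using h

theorem sum_inv_period (v : Fin N) :
    ((N : ℝ) - 1) * ∑ g ∈ G N, 1 / (Function.minimalPeriod g v : ℝ) ≤
      (harmonic N : ℝ) * #(G N) := by
  classical
  have hN : 1 ≤ N := by have := v.2; omega
  have h1 : ∀ g ∈ G N, 1 / (Function.minimalPeriod g v : ℝ) =
      ∑ k ∈ range N, if Function.minimalPeriod g v = k + 1 then 1 / ((k : ℝ) + 1) else 0 := by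
    intro g _
    rcases Nat.eq_zero_or_pos (Function.minimalPeriod g v) with h0 | hpos
    · rw [h0]
      rw [Finset.sum_eq_zero]
      · simp
      · intro k _
        rw [if_neg (by omega)]
    · have hle := minimalPeriod_le g v
      rw [Finset.sum_eq_single (Function.minimalPeriod g v - 1)]
      · rw [if_pos (by omega)]
        have : ((Function.minimalPeriod g v - 1 : ℕ) : ℝ) + 1 = (Function.minimalPeriod g v : ℝ) := by
          rw [Nat.cast_sub (by omega)]; push_cast; ring
        rw [this]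
      · intro k _ hk
        rw [if_neg (by omega)]
      · intro hk
        rw [mem_range] at hk
        omega
  rw [Finset.sum_congr rfl h1, Finset.sum_comm, Finset.mul_sum]
  have h2 : (harmonic N : ℝ) * #(G N) = ∑ k ∈ range N, 1 / ((k : ℝ) + 1) * #(G N) := by
    rw [← Finset.sum_mul]
    congr 1
    simp [harmonic]
  rw [h2]
  apply Finset.sum_le_sum
  intro k _
  rw [← Finset.sum_filter, Finset.sum_const, nsmul_eq_mul]
  have h3 := count_period v k
  have h4 : ((N : ℝ) - 1) * #((G N).filter (fun g => Function.minimalPeriod g v = k + 1)) ≤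
      #(G N) := by
    have : (((N - 1) * #((G N).filter (fun g => Function.minimalPeriod g v = k + 1)) : ℕ) : ℝ) ≤
      (#(G N) : ℝ) := by exact_mod_cast h3
    rw [Nat.cast_mul, Nat.cast_sub hN] at this
    simpa using this
  have h5 : (0 : ℝ) ≤ 1 / ((k : ℝ) + 1) := by positivity
  calc _ = 1 / ((k : ℝ) + 1) * (((N : ℝ) - 1) *
        #((G N).filter (fun g => Function.minimalPeriod g v = k + 1))) := by ring
    _ ≤ _ := mul_le_mul_of_nonneg_left h4 h5

theorem sum_cyc (n : ℕ) :
    ∑ g ∈ G (n + 2), (#(cyc g) : ℝ) ≤ 2 * (harmonic (n + 2) : ℝ) * ((n : ℝ) + 1) ^ (n + 2) := by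
  have h1 : ∑ g ∈ G (n + 2), (#(cyc g) : ℝ) ≤
      ∑ v : Fin (n + 2), ∑ g ∈ G (n + 2), 1 / (Function.minimalPeriod g v : ℝ) := by
    rw [Finset.sum_comm]
    exact Finset.sum_le_sum fun g _ => card_cyc_le g
  have hc : (#(G (n + 2)) : ℝ) = ((n : ℝ) + 1) ^ (n + 2) := by
    rw [card_G]; push_cast; simp
  have hpos : (0 : ℝ) ≤ (harmonic (n + 2) : ℝ) := by
    have : (0 : ℚ) < harmonic (n + 2) := harmonic_pos (by omega)
    exact_mod_cast this.le
  have h2 : ((n : ℝ) + 1) * ∑ v : Fin (n + 2), ∑ g ∈ G (n + 2),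
      1 / (Function.minimalPeriod g v : ℝ) ≤
      ((n : ℝ) + 2) * ((harmonic (n + 2) : ℝ) * ((n : ℝ) + 1) ^ (n + 2)) := by
    rw [Finset.mul_sum]
    calc _ ≤ ∑ v : Fin (n + 2), (harmonic (n + 2) : ℝ) * ((n : ℝ) + 1) ^ (n + 2) := by
          apply Finset.sum_le_sum
          intro v _
          have := sum_inv_period v
          rw [hc] at this
          have e : (((n + 2 : ℕ) : ℝ) - 1) = (n : ℝ) + 1 := by push_cast; ring
          rwa [e] at this
      _ = _ := by
          rw [Finset.sum_const, card_univ, Fintype.card_fin, nsmul_eq_mul]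
          push_cast
          ring
  have hn : (0 : ℝ) < (n : ℝ) + 1 := by positivity
  refine h1.trans ?_
  refine le_of_mul_le_mul_left (h2.trans ?_) hn
  have hX : 0 ≤ (harmonic (n + 2) : ℝ) * ((n : ℝ) + 1) ^ (n + 2) := by positivity
  nlinarith

end cyc

theorem harmonic_small {ε : ℝ} (hε : 0 < ε) : ∀ᶠ N : ℕ in atTop,
    2 * (harmonic N : ℝ) ≤ ε * (N : ℝ) ^ (1 / 4 : ℝ) := by
  have h1 : ∀ᶠ x : ℝ in atTop, ‖Real.log x‖ ≤ ε / 4 * ‖x ^ (1 / 4 : ℝ)‖ :=
    (isLittleO_log_rpow_atTop (by norm_num : (0 : ℝ) < 1 / 4)).bound (by positivity)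
  have h2 : ∀ᶠ x : ℝ in atTop, 2 ≤ ε / 2 * x ^ (1 / 4 : ℝ) := by
    have : Tendsto (fun x : ℝ => ε / 2 * x ^ (1 / 4 : ℝ)) atTop atTop :=
      (tendsto_rpow_atTop (by norm_num : (0 : ℝ) < 1 / 4)).const_mul_atTop (by positivity)
    exact this.eventually_ge_atTop 2
  have h3 := (h1.and h2).and (eventually_ge_atTop (1 : ℝ))
  filter_upwards [tendsto_natCast_atTop_atTop.eventually h3] with N hN
  obtain ⟨⟨ha, hb⟩, hc⟩ := hN
  have hlog := harmonic_le_one_add_log N
  rw [Real.norm_of_nonneg (Real.log_nonneg hc), Real.norm_of_nonneg (by positivity)] at ha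
  linarith

end Pool.Agent.MSL.F

namespace Pool.Agent.MSL

open F in
theorem few_cycles {ε : ℝ} (hε : 0 < ε) : ∃ n0 : ℕ, ∀ n ≥ n0,
    (Nat.card {g : Fin (n + 2) → Fin (n + 2) // (∀ v, g v ≠ v) ∧
      ¬ ∃ Q : Finset (Fin (n + 2)), #Q ^ 4 ≤ n + 2 ∧
        ∀ S : Finset (Fin (n + 2)), S.Nonempty → (∀ u ∈ S, g u ∈ S) → ∃ x ∈ S, x ∈ Q} : ℝ) ≤
      ε * ((n : ℝ) + 1) ^ (n + 2) := by
  classical
  obtain ⟨n0, hn0⟩ := eventually_atTop.1 (harmonic_small hε)
  refine ⟨n0, fun n hn => ?_⟩
  have h1 := hn0 (n + 2) (by omega)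
  set P : (Fin (n + 2) → Fin (n + 2)) → Prop := fun g => (∀ v, g v ≠ v) ∧
      ¬ ∃ Q : Finset (Fin (n + 2)), #Q ^ 4 ≤ n + 2 ∧
        ∀ S : Finset (Fin (n + 2)), S.Nonempty → (∀ u ∈ S, g u ∈ S) → ∃ x ∈ S, x ∈ Q with hP
  have hcard : Nat.card {g // P g} = #((G (n + 2)).filter P) := by
    rw [Nat.card_eq_fintype_card, Fintype.card_subtype]
    congr 1
    ext g
    simp only [mem_filter, mem_univ, true_and, mem_G]
    constructor
    · intro h; exact ⟨h.1, h⟩
    · intro h; exact h.2
  rw [hcard]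
  have hbig : ∀ g ∈ (G (n + 2)).filter P, (((n + 2 : ℕ) : ℝ)) ^ (1 / 4 : ℝ) ≤ (#(cyc g) : ℝ) := by
    intro g hg
    rw [mem_filter] at hg
    have hno := hg.2.2
    have hlt : n + 2 < #(cyc g) ^ 4 := by
      by_contra hle
      exact hno ⟨cyc g, not_lt.1 hle, fun S hS hcl => cyc_meets g S hS hcl⟩
    have hlt' : (((n + 2 : ℕ) : ℝ)) ≤ (#(cyc g) : ℝ) ^ (4 : ℕ) := by exact_mod_cast hlt.le
    calc (((n + 2 : ℕ) : ℝ)) ^ (1 / 4 : ℝ) ≤ ((#(cyc g) : ℝ) ^ (4 : ℕ)) ^ (1 / 4 : ℝ) :=
          Real.rpow_le_rpow (by positivity) hlt' (by norm_num)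
      _ = (#(cyc g) : ℝ) := by
          rw [← Real.rpow_natCast, ← Real.rpow_mul (by positivity)]
          norm_num
  have hsum : (#((G (n + 2)).filter P) : ℝ) * (((n + 2 : ℕ) : ℝ)) ^ (1 / 4 : ℝ) ≤
      2 * (harmonic (n + 2) : ℝ) * ((n : ℝ) + 1) ^ (n + 2) := by
    calc _ = ∑ g ∈ (G (n + 2)).filter P, (((n + 2 : ℕ) : ℝ)) ^ (1 / 4 : ℝ) := by
          rw [Finset.sum_const, nsmul_eq_mul]
      _ ≤ ∑ g ∈ (G (n + 2)).filter P, (#(cyc g) : ℝ) := Finset.sum_le_sum hbig
      _ ≤ ∑ g ∈ G (n + 2), (#(cyc g) : ℝ) :=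
          Finset.sum_le_sum_of_subset_of_nonneg (filter_subset _ _) (fun _ _ _ => by positivity)
      _ ≤ _ := sum_cyc n
  have hpos : (0 : ℝ) < (((n + 2 : ℕ) : ℝ)) ^ (1 / 4 : ℝ) := by positivity
  refine le_of_mul_le_mul_right (hsum.trans ?_) hpos
  have hX : (0 : ℝ) ≤ ((n : ℝ) + 1) ^ (n + 2) := by positivity
  have := mul_le_mul_of_nonneg_right h1 hX
  linarith

end Pool.Agent.MSL
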