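import Pool.Agent.MSL.Defs
import Pool.Agent.MSA.Count

set_option autoImplicit false

open scoped Topology ENNReal
open Finset

namespace Pool.Agent.MSL

/-- Deterministic hop count for the minimal arborescence, in the form used below. -/
theorem hopCount {V : Type} [Fintype V] [DecidableEq V] {r : V} {γ : V → V → ℝ} {M : V → V}
    (hM : IsMinArb γ r M) (hγ : ∀ u v, 0 ≤ γ u v)
    {g : V → V} (hg : ∀ u, γ u (g u) = 0) {Q : Finset V}
    (hQ : ∀ S : Finset V, S.Nonempty → (∀ u ∈ S, g u ∈ S) → ∃ x ∈ S, x ∈ Q)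
    {K ℓ h : ℕ} {Rr : Fin (K + 1) → ℝ} (hR : ∀ i, 0 ≤ Rr i) {L0 : Finset V}
    {W Z X Bad : Fin (K + 1) → Finset V}
    (h1 : ∀ i, ∀ a ∈ Z i, ∀ b ∈ W i, ∃ n ≤ ℓ, ∃ q : ℕ → V, q 0 = a ∧ q n = b ∧
      ∀ s < n, q s = q (s + 1) ∨ γ (q s) (q (s + 1)) ≤ Rr i)
    (h2 : ∀ i : Fin K, ∃ v ∈ W i.castSucc, v ∈ Z i.succ)
    (h3 : ∀ a ∈ L0, a ∉ X 0 → ∀ b, b ≠ a → γ a b ≤ Rr 0 → b ∈ L0)
    (hB0 : ∀ q : ℕ → V, Set.InjOn q (Set.Iic h) → (∀ j ≤ h, q j ∉ L0) → (∀ j < h, q j ∉ X 0) →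
      (∀ j < h, γ (q j) (q (j + 1)) ≤ Rr 0) → q h ∈ Bad 0)
    (hB : ∀ i : Fin K, ∀ q : ℕ → V, Set.InjOn q (Set.Iic h) → (∀ j ≤ h, q j ∉ W i.castSucc) →
      (∀ j < h, q j ∉ X i.succ) → (∀ j < h, γ (q j) (q (j + 1)) ≤ Rr i.succ) →
      q h ∈ Bad i.succ) :
    #(univ.filter fun u => u ≠ r ∧ 0 < γ u (M u)) ≤
      #(Z 0)ᶜ + #L0 + #(W (Fin.last K))ᶜ + ∑ i, (#(Bad i) + h * #(X i)) +
        #Q * ((K + 1) * (h * (ℓ + 1)) + #Q * (h + 1)) := by
  classical
  obtain ⟨y, hy⟩ := MSA.LD.exists_isDual (M := M) hγ hM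
  -- a slightly larger radius does not change the sets
  obtain ⟨δ, hδ, hδ'⟩ : ∃ δ : ℝ, 0 < δ ∧ ∀ i u v, γ u v ≤ Rr i + δ → γ u v ≤ Rr i := by
    obtain ⟨δ, hδ, h⟩ := MSA.LD.exists_pos_le
      (fun p : Fin (K + 1) × V × V => if Rr p.1 < γ p.2.1 p.2.2 then
        (γ p.2.1 p.2.2 - Rr p.1) / 2 else 1) (by
        rintro ⟨i, u, v⟩
        dsimp only
        split_ifs with hlt
        · linarith
        · norm_num)
    refine ⟨δ, hδ, fun i u v huv => ?_⟩
    by_contra hlt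
    push Not at hlt
    have := h (i, u, v)
    simp only [hlt, if_true] at this
    linarith
  let e : ℕ → Fin (K + 1) := fun i => ⟨min i K, by omega⟩
  have he0 : e 0 = 0 := by
    apply Fin.ext; simp [e]
  have heK : e K = Fin.last K := by
    apply Fin.ext; simp [e]
  have hec : ∀ (i : ℕ) (hi : i < K), e i = (⟨i, hi⟩ : Fin K).castSucc := by
    intro i hi
    apply Fin.ext; simp [e]; omega
  have hes : ∀ (i : ℕ) (hi : i < K), e (i + 1) = (⟨i, hi⟩ : Fin K).succ := by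
    intro i hi
    apply Fin.ext; simp [e]; omega
  have hev : ∀ i : Fin (K + 1), e (i : ℕ) = i := by
    intro i
    apply Fin.ext; simp [e]; omega
  have key := hy.card_expensive hg hQ K h ℓ (fun i => Rr (e i) + δ)
    (fun i _ => by have := hR (e i); linarith) L0
    (fun i => W (e i)) (fun i => Z (e i)) (fun i => X (e i)) (fun i => Bad (e i))
    (by
      intro i _ u hu v hv
      obtain ⟨n, hn, q, hq0, hqn, hq⟩ := h1 (e i) u hu v hv
      refine ⟨n, hn, q, hq0, hqn, fun j hj => ?_⟩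
      rcases hq j hj with h | h
      · exact Or.inl h
      · exact Or.inr (by linarith))
    (by
      intro i hi
      obtain ⟨v, hv1, hv2⟩ := h2 ⟨i, hi⟩
      refine ⟨v, ?_, ?_⟩
      · rw [hec i hi]; exact hv1
      · rw [hes i hi]; exact hv2)
    (by
      intro u hu hux v huv hγuv
      simp only [he0] at hux hγuv
      exact h3 u hu hux v (Ne.symm huv) (hδ' 0 u v hγuv))
    (by
      intro q hq hq1 hq2
      simp only [he0] at hq2 ⊢
      exact hB0 q (fun a ha b hb hab => hq a b ha hb hab) hq1 (fun j hj => (hq2 j hj).1)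
        (fun j hj => hδ' 0 _ _ (hq2 j hj).2))
    (by
      intro i hi q hq hq1 hq2
      simp only [hec i hi] at hq1
      simp only [hes i hi] at hq2 ⊢
      exact hB ⟨i, hi⟩ q (fun a ha b hb hab => hq a b ha hb hab) hq1 (fun j hj => (hq2 j hj).1)
        (fun j hj => hδ' _ _ _ (hq2 j hj).2))
  have hsum : ∑ i ∈ Finset.range (K + 1), ((Bad (e i)).card + h * (X (e i)).card) =
      ∑ i : Fin (K + 1), (#(Bad i) + h * #(X i)) := by
    rw [Finset.sum_range]
    exact Finset.sum_congr rfl (fun i _ => by rw [hev i])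
  simp only [he0, heK] at key
  rw [hsum] at key
  exact key

end Pool.Agent.MSL
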