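import Pool.Agent.MSL.C
import Pool.Agent.MSL.E
import Pool.Agent.MSL.F
import Pool.Agent.MSL.Hop

set_option autoImplicit false

open scoped Topology ENNReal
open Finset MeasureTheory Filter

namespace Pool.Agent.MSL

namespace Few

variable {N : ℕ}

lemma mn_le (x : Fin N → ℝ) {u w : Fin N} (h : w ≠ u) : mn x u ≤ x w := by
  have hne : (univ.erase u).Nonempty := ⟨w, by simp [h]⟩
  rw [mn, dif_pos hne]
  exact Finset.inf'_le _ (by simp [h])

lemma exists_min (x : Fin N → ℝ) {u w : Fin N} (h : w ≠ u) :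
    ∃ v, v ≠ u ∧ x v = mn x u := by
  have hne : (univ.erase u).Nonempty := ⟨w, by simp [h]⟩
  obtain ⟨v, hv, hv2⟩ := Finset.exists_mem_eq_inf' hne x
  refine ⟨v, by simpa using hv, ?_⟩
  rw [mn, dif_pos hne, hv2]

lemma argm_spec (x : Fin N → ℝ) {u w : Fin N} (h : w ≠ u) :
    argm x u ≠ u ∧ ∀ v, v ≠ u → x (argm x u) ≤ x v := by
  obtain ⟨v, hv, hv2⟩ := exists_min x h
  have hex : ∃ v, v ≠ u ∧ ∀ w, w ≠ u → x v ≤ x w :=
    ⟨v, hv, fun w hw => by rw [hv2]; exact mn_le x hw⟩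
  rw [argm, dif_pos hex]
  exact hex.choose_spec

lemma argm_eq (x : Fin N → ℝ) {u w : Fin N} (h : w ≠ u) : x (argm x u) = mn x u := by
  obtain ⟨v, hv, hv2⟩ := exists_min x h
  obtain ⟨h1, h2⟩ := argm_spec x h
  refine le_antisymm ?_ (mn_le x h1)
  rw [← hv2]; exact h2 v hv

/-- the rank of `w` among the targets of `a` -/
noncomputable def rk (x : Fin N → ℝ) (a w : Fin N) : ℕ := #(univ.filter fun w' => w' ≠ a ∧ x w' < x w)

lemma rk_mono (x : Fin N → ℝ) (a : Fin N) {v w : Fin N} (h : x v ≤ x w) : rk x a v ≤ rk x a w := by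
  refine Finset.card_le_card ?_
  intro c hc
  simp only [mem_filter, mem_univ, true_and] at hc ⊢
  exact ⟨hc.1, hc.2.trans_le h⟩

lemma rk_strict (x : Fin N → ℝ) (a : Fin N) {v w : Fin N} (hv : v ≠ a) (h : x v < x w) :
    rk x a v < rk x a w := by
  refine Finset.card_lt_card ?_
  refine ⟨?_, fun hs => ?_⟩
  · intro c hc
    simp only [mem_filter, mem_univ, true_and] at hc ⊢
    exact ⟨hc.1, hc.2.trans h⟩
  · have : v ∈ univ.filter fun w' => w' ≠ a ∧ x w' < x v := hs (by simp [hv, h])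
    simp at this

lemma image_rk (x : Fin N → ℝ) (a : Fin N) (hx : ∀ v w, v ≠ w → x v ≠ x w) :
    (univ.erase a).image (rk x a) = range (#(univ.erase a)) := by
  have hinj : Set.InjOn (rk x a) (univ.erase a : Finset (Fin N)) := by
    intro v hv w hw hvw
    simp only [coe_erase, coe_univ, Set.mem_sdiff, Set.mem_univ, Set.mem_singleton_iff,
      true_and] at hv hw
    by_contra hne
    rcases lt_or_gt_of_ne (hx v w hne) with h | h
    · exact absurd hvw (rk_strict x a hv h).ne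
    · exact absurd hvw (rk_strict x a hw h).ne'
  refine Finset.eq_of_subset_of_card_le ?_ ?_
  · intro k hk
    obtain ⟨w, hw, rfl⟩ := Finset.mem_image.mp hk
    rw [Finset.mem_range]
    refine Finset.card_lt_card ?_
    refine ⟨?_, fun hs => ?_⟩
    · intro c hc
      simp only [mem_filter, mem_univ, true_and] at hc
      simp [hc.1]
    · have := hs hw
      simp at this
  · rw [Finset.card_image_of_injOn hinj, Finset.card_range]

lemma mem_Uset_of_card_ne (x : Fin N → ℝ) {a b : Fin N} (hx : ∀ v w, v ≠ w → x v ≠ x w)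
    {A : ℕ} {R : ℝ} (hb : b ≠ a) (hR : x b ≤ mn x a + R) (hA : #(Uset A R a x) ≠ A) :
    b ∈ Uset A R a x := by
  by_contra hcon
  have hrk : A ≤ rk x a b := by
    by_contra hlt
    push Not at hlt
    exact hcon (by simp only [Uset, mem_filter, mem_univ, true_and]; exact ⟨hb, hR, hlt⟩)
  apply hA
  have h1 : Uset A R a x = (univ.erase a).filter fun w => rk x a w < A := by
    ext w
    simp only [Uset, mem_filter, mem_univ, true_and, mem_erase, and_true]
    constructor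
    · rintro ⟨h1, -, h3⟩
      exact ⟨h1, h3⟩
    · rintro ⟨h1, h3⟩
      refine ⟨h1, ?_, h3⟩
      by_contra hgt
      push Not at hgt
      have : rk x a b ≤ rk x a w := rk_mono x a (hR.trans hgt.le)
      omega
  have himg := image_rk x a hx
  have hbN : rk x a b < #(univ.erase a) := by
    have : rk x a b ∈ range (#(univ.erase a)) := by
      rw [← himg]
      exact Finset.mem_image_of_mem _ (by simp [hb])
    simpa using this
  have h2 : ((univ.erase a).filter fun w => rk x a w < A).image (rk x a) = range A := by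
    ext k
    simp only [mem_image, mem_filter, mem_range]
    constructor
    · rintro ⟨w, hw, rfl⟩
      exact hw.2
    · intro hk
      have : k ∈ (univ.erase a).image (rk x a) := by
        rw [himg, mem_range]; omega
      obtain ⟨w, hw, rfl⟩ := Finset.mem_image.mp this
      exact ⟨w, ⟨hw, hk⟩, rfl⟩
  have hinj : Set.InjOn (rk x a) ((univ.erase a).filter fun w => rk x a w < A : Finset (Fin N)) := by
    intro v hv w hw hvw
    simp only [coe_filter, mem_erase, ne_eq, mem_univ, and_true] at hv hw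
    by_contra hne
    rcases lt_or_gt_of_ne (hx v w hne) with h | h
    · exact absurd hvw (rk_strict x a hv.1 h).ne
    · exact absurd hvw (rk_strict x a hw.1 h).ne'
  rw [h1, ← Finset.card_image_of_injOn hinj, h2, Finset.card_range]

lemma Fw_path {V : Type} [DecidableEq V] (U : V → Finset V) (a : V) : ∀ (j : ℕ) (b : V),
    b ∈ Fw U j {a} → ∃ n ≤ j, ∃ q : ℕ → V, q 0 = a ∧ q n = b ∧ ∀ s < n, q (s + 1) ∈ U (q s)
  | 0, b, hb => by
    simp only [Fw, mem_singleton] at hb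
    exact ⟨0, le_rfl, fun _ => a, rfl, hb.symm, fun s hs => absurd hs (by omega)⟩
  | j + 1, b, hb => by
    simp only [Fw, mem_union, mem_biUnion] at hb
    rcases hb with hb | ⟨c, hc, hb⟩
    · obtain ⟨n, hn, q, h⟩ := Fw_path U a j b hb
      exact ⟨n, by omega, q, h⟩
    · obtain ⟨n, hn, q, h0, h1, h2⟩ := Fw_path U a j c hc
      refine ⟨n + 1, by omega, fun s => if s ≤ n then q s else b, by simp [h0], by simp, ?_⟩
      intro s hs
      by_cases hsn : s < n
      · have : s + 1 ≤ n := hsn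
        simp only [this, if_true, hsn.le]
        exact h2 s hsn
      · have hsn' : s = n := by omega
        subst hsn'
        simp only [le_refl, if_true, Nat.not_succ_le_self, if_false]
        rw [h1]; exact hb

/-- the gaps -/
noncomputable def gap (W : Fin N → Fin N → ℝ) (u v : Fin N) : ℝ :=
  if v = u then 0 else W u v - mn (W u) u

lemma gap_nonneg (W : Fin N → Fin N → ℝ) (u v : Fin N) : 0 ≤ gap W u v := by
  unfold gap
  split_ifs with h
  · exact le_rfl
  · exact sub_nonneg.mpr (mn_le _ h)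

lemma arb_ne {r : Fin N} {M : Fin N → Fin N} (hM : IsArb r M) {u : Fin N} (hu : u ≠ r) :
    M u ≠ u := by
  intro h
  obtain ⟨k, hk⟩ := hM.2 u
  exact hu (by rw [Function.iterate_fixed h] at hk; exact hk)

lemma cost_gap (W : Fin N → Fin N → ℝ) {r : Fin N} {M : Fin N → Fin N} (hM : IsArb r M) :
    cost (gap W) r M = cost W r M - ∑ u ∈ univ.erase r, mn (W u) u := by
  unfold cost
  rw [← Finset.sum_sub_distrib]
  refine Finset.sum_congr rfl fun u hu => ?_
  have hu' : u ≠ r := by simpa using hu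
  rw [gap, if_neg (arb_ne hM hu')]

lemma isMinArb_gap {W : Fin N → Fin N → ℝ} {r : Fin N} {M : Fin N → Fin N}
    (hM : IsMinArb W r M) : IsMinArb (gap W) r M := by
  refine ⟨hM.1, fun M' hM' => ?_⟩
  rw [cost_gap W hM.1, cost_gap W hM']
  have := hM.2 M' hM'
  linarith

theorem det {W : Fin N → Fin N → ℝ} {r : Fin N} {M : Fin N → Fin N} (hN : 2 ≤ N)
    (hM : IsMinArb W r M) (hW : ∀ u v w : Fin N, v ≠ w → W u v ≠ W u w) {ε : ℝ} {K h A : ℕ}
    {Rr : Fin (K + 1) → ℝ} (hR : ∀ i, 0 ≤ Rr i)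
    (hgood : Good ε K h A N (fun v i => Uset A (Rr i) v (W v))) {Q : Finset (Fin N)}
    (hQ : ∀ S : Finset (Fin N), S.Nonempty → (∀ u ∈ S, argm (W u) u ∈ S) → ∃ x ∈ S, x ∈ Q) :
    (#(univ.filter fun u => u ≠ r ∧ M u ≠ argm (W u) u) : ℝ) ≤
      ε * N + ((#Q * ((K + 1) * (h * (2 * Nat.sqrt N + 1)) + #Q * (h + 1)) : ℕ) : ℝ) := by
  classical
  have hex : ∀ u : Fin N, ∃ w, w ≠ u := by
    intro u
    have : Nontrivial (Fin N) := Fin.nontrivial_iff_two_le.mpr hN
    exact exists_ne u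
  obtain ⟨L0, W', Z, Bad, g1, g2, g3, g4, g5, g6⟩ := hgood
  have hstep : ∀ (i : Fin (K + 1)) (v w : Fin N), w ∈ Uset A (Rr i) v (W v) →
      gap W v w ≤ Rr i := by
    intro i v w hw
    simp only [Uset, mem_filter, mem_univ, true_and] at hw
    rw [gap, if_neg hw.1]
    linarith [hw.2.1]
  have hback : ∀ (i : Fin (K + 1)) (v w : Fin N), w ≠ v → gap W v w ≤ Rr i →
      #(Uset A (Rr i) v (W v)) ≠ A → w ∈ Uset A (Rr i) v (W v) := by
    intro i v w hw hg hc
    rw [gap, if_neg hw] at hg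
    exact mem_Uset_of_card_ne (W v) (hW v) hw (by linarith) hc
  have key := hopCount (isMinArb_gap hM) (gap_nonneg W) (g := fun u => argm (W u) u)
    (fun u => by
      obtain ⟨w, hw⟩ := hex u
      rw [gap, if_neg (argm_spec (W u) hw).1, argm_eq (W u) hw, sub_self])
    hQ (K := K) (ℓ := 2 * Nat.sqrt N) (h := h) hR (L0 := L0) (W := W') (Z := Z)
    (X := fun i => univ.filter fun v => #(Uset A (Rr i) v (W v)) = A) (Bad := Bad)
    (by
      intro i a ha b hb
      obtain ⟨n, hn, q, h0, hq, hs⟩ := Fw_path _ a _ b (g1 i a ha b hb)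
      exact ⟨n, hn, q, h0, hq, fun s hs' => Or.inr (hstep i _ _ (hs s hs'))⟩)
    g2
    (by
      intro a ha hax b hb hg
      simp only [mem_filter, mem_univ, true_and] at hax
      exact g3 a ha (hback 0 a b hb hg hax))
    (by
      intro q hq hq1 hq2 hq3
      refine g4 q hq hq1 (fun j hj => ?_)
      have hne : q (j + 1) ≠ q j := by
        intro he
        have := hq (Set.mem_Iic.mpr (by omega : j + 1 ≤ h)) (Set.mem_Iic.mpr hj.le) he
        omega
      have h2 := hq2 j hj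
      simp only [mem_filter, mem_univ, true_and] at h2
      exact hback 0 _ _ hne (hq3 j hj) h2)
    (by
      intro i q hq hq1 hq2 hq3
      refine g5 i q hq hq1 (fun j hj => ?_)
      have hne : q (j + 1) ≠ q j := by
        intro he
        have := hq (Set.mem_Iic.mpr (by omega : j + 1 ≤ h)) (Set.mem_Iic.mpr hj.le) he
        omega
      have h2 := hq2 j hj
      simp only [mem_filter, mem_univ, true_and] at h2
      exact hback _ _ _ hne (hq3 j hj) h2)
  have hsub : (univ.filter fun u => u ≠ r ∧ M u ≠ argm (W u) u) ⊆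
      univ.filter fun u => u ≠ r ∧ 0 < gap W u (M u) := by
    intro u hu
    simp only [mem_filter, mem_univ, true_and] at hu ⊢
    refine ⟨hu.1, lt_of_le_of_ne (gap_nonneg W u (M u)) fun h0 => ?_⟩
    obtain ⟨w, hw⟩ := hex u
    rw [gap, if_neg (arb_ne hM.1 hu.1), ← argm_eq (W u) hw] at h0
    exact hW u _ _ hu.2 (by linarith)
  have h1 := (Finset.card_le_card hsub).trans key
  have h2 : (#(univ.filter fun u => u ≠ r ∧ M u ≠ argm (W u) u) : ℝ) ≤
      ((#(Z 0)ᶜ + #L0 + #(W' (Fin.last K))ᶜ +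
      ∑ i, (#(Bad i) + h * #(univ.filter fun v => #(Uset A (Rr i) v (W v)) = A)) : ℕ) : ℝ) +
      ((#Q * ((K + 1) * (h * (2 * Nat.sqrt N + 1)) + #Q * (h + 1)) : ℕ) : ℝ) := by
    exact_mod_cast h1
  linarith


lemma small (C : ℕ) {ε : ℝ} (hε : 0 < ε) : ∃ n3 : ℕ, ∀ n ≥ n3, ∀ q : ℕ, q ^ 4 ≤ n →
    (C : ℝ) * q * (Nat.sqrt n) ≤ ε * n := by
  obtain ⟨B, hB⟩ := exists_nat_gt ((C : ℝ) ^ 2 / ε ^ 2)
  refine ⟨B * B, fun n hn q hq => ?_⟩
  set s := Nat.sqrt n with hs
  have hBs : B ≤ s := Nat.le_sqrt.mpr hn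
  have hqs : q * q ≤ s := by
    rw [hs, Nat.le_sqrt]
    calc q * q * (q * q) = q ^ 4 := by ring
      _ ≤ n := hq
  have hsn : s * s ≤ n := Nat.sqrt_le n
  have h1 : (C : ℝ) ^ 2 ≤ ε ^ 2 * s := by
    have h2 : (C : ℝ) ^ 2 / ε ^ 2 ≤ s := hB.le.trans (by exact_mod_cast hBs)
    rw [div_le_iff₀ (by positivity)] at h2
    linarith
  have hqs' : (q : ℝ) * q ≤ s := by exact_mod_cast hqs
  have hsn' : (s : ℝ) * s ≤ n := by exact_mod_cast hsn
  have hs0 : (0 : ℝ) ≤ s := Nat.cast_nonneg _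
  have hn0 : (0 : ℝ) ≤ n := Nat.cast_nonneg _
  refine le_of_sq_le_sq ?_ (by positivity)
  calc ((C : ℝ) * q * s) ^ 2 = (C : ℝ) ^ 2 * ((q : ℝ) * q) * ((s : ℝ) * s) := by ring
    _ ≤ (C : ℝ) ^ 2 * s * n := by gcongr
    _ ≤ (ε ^ 2 * s) * s * n := by gcongr
    _ = ε ^ 2 * ((s : ℝ) * s) * n := by ring
    _ ≤ ε ^ 2 * n * n := by gcongr
    _ = (ε * n) ^ 2 := by ring

lemma small' (K h : ℕ) {ε : ℝ} (hε : 0 < ε) : ∃ n3 : ℕ, ∀ n ≥ n3, ∀ q : ℕ, q ^ 4 ≤ n →
    ((q * ((K + 1) * (h * (2 * Nat.sqrt n + 1)) + q * (h + 1)) : ℕ) : ℝ) ≤ ε * n := by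
  obtain ⟨n3, h3⟩ := small ((K + 1) * h * 3 + (h + 1)) hε
  refine ⟨max n3 1, fun n hn q hq => ?_⟩
  have h4 := h3 n (le_of_max_le_left hn) q hq
  refine le_trans ?_ h4
  set s := Nat.sqrt n with hs
  have hs1 : 1 ≤ s := by
    rw [hs, Nat.le_sqrt]
    have := le_of_max_le_right hn
    omega
  have hqs : q * q ≤ s := by
    rw [hs, Nat.le_sqrt]
    calc q * q * (q * q) = q ^ 4 := by ring
      _ ≤ n := hq
  have hqs' : q ≤ s := le_trans (Nat.le_mul_self q) hqs
  have : q * ((K + 1) * (h * (2 * s + 1)) + q * (h + 1)) ≤ ((K + 1) * h * 3 + (h + 1)) * q * s := by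
    calc q * ((K + 1) * (h * (2 * s + 1)) + q * (h + 1))
        ≤ q * ((K + 1) * (h * (3 * s)) + s * (h + 1)) := by
          gcongr
          omega
      _ = ((K + 1) * h * 3 + (h + 1)) * q * s := by ring
  exact_mod_cast this

end Few

open Few in
/-- main estimate -/
theorem few_changes {ε : ℝ} (hε : 0 < ε) : ∃ n0 : ℕ, ∀ n ≥ n0, ∀ μ : Measure ℝ,
    IsProbabilityMeasure μ → (∀ x, μ {x} = 0) → ∀ r : Fin n,
      wM μ n {W | ∃ M, IsMinArb W r M ∧
        ε * n < (#(univ.filter fun u => u ≠ r ∧ M u ≠ argm (W u) u) : ℝ)} ≤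
          ENNReal.ofReal ε := by
  classical
  have hε4 : 0 < ε / 4 := by linarith
  obtain ⟨K, h, A, m, n1, hm, hgood⟩ := good_event hε4
  obtain ⟨n2, hcyc⟩ := few_cycles hε4
  obtain ⟨n3, hsm⟩ := small' K h hε4
  refine ⟨max (max n1 (n2 + 2)) (max n3 (A + 2)), ?_⟩
  intro n hn μ hprob hμ r
  have hn1 : n1 ≤ n := (le_max_left _ _).trans ((le_max_left _ _).trans hn)
  have hn2 : n2 + 2 ≤ n := (le_max_right _ _).trans ((le_max_left _ _).trans hn)
  have hn3 : n3 ≤ n := (le_max_left _ _).trans ((le_max_right _ _).trans hn)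
  have hn4 : A + 2 ≤ n := (le_max_right _ _).trans ((le_max_right _ _).trans hn)
  have hA : 1 ≤ A := by
    have h1 := hm 0
    have : (1 : ℝ) < A := h1.1.trans_lt h1.2
    have : 1 < A := by exact_mod_cast this
    omega
  obtain ⟨Rr, lam, hR, hadm, hlaw⟩ := exists_thresholds μ hμ K A m hA hm n (by omega)
  have hlaw1 := hlaw (fun u => ¬ Good (ε / 4) K h A n u)
  have hgood1 := hgood n hn1 lam hadm
  obtain ⟨n', rfl⟩ : ∃ n', n = n' + 2 := ⟨n - 2, by omega⟩
  have hprobW : IsProbabilityMeasure (wM μ (n' + 2)) := by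
    unfold wM; infer_instance
  set E1 : Set (Fin (n' + 2) → Fin (n' + 2) → ℝ) :=
    {W | ¬ Good (ε / 4) K h A (n' + 2) (fun v i => Uset A (Rr i) v (W v))} with hE1
  set E2 : Set (Fin (n' + 2) → Fin (n' + 2) → ℝ) :=
    {W | ¬ ∃ Q : Finset (Fin (n' + 2)), #Q ^ 4 ≤ n' + 2 ∧
        ∀ S : Finset (Fin (n' + 2)), S.Nonempty → (∀ u ∈ S, argm (W u) u ∈ S) → ∃ x ∈ S, x ∈ Q}
    with hE2
  set E3 : Set (Fin (n' + 2) → Fin (n' + 2) → ℝ) :=
    {W | ¬ ∀ u v w : Fin (n' + 2), v ≠ w → W u v ≠ W u w} with hE3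
  have m1 : wM μ (n' + 2) E1 ≤ ENNReal.ofReal (ε / 4) := by
    rw [← ENNReal.ofReal_toReal (measure_ne_top (wM μ (n' + 2)) E1)]
    apply ENNReal.ofReal_le_ofReal
    rw [hE1, hlaw1]
    exact hgood1
  have m2 : wM μ (n' + 2) E2 ≤ ENNReal.ofReal (ε / 4) := by
    rw [← ENNReal.ofReal_toReal (measure_ne_top (wM μ (n' + 2)) E2)]
    apply ENNReal.ofReal_le_ofReal
    have h1 := greedy_law μ hμ n' (fun g => ¬ ∃ Q : Finset (Fin (n' + 2)), #Q ^ 4 ≤ n' + 2 ∧
        ∀ S : Finset (Fin (n' + 2)), S.Nonempty → (∀ u ∈ S, g u ∈ S) → ∃ x ∈ S, x ∈ Q)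
    rw [hE2, h1, div_le_iff₀ (by positivity)]
    exact hcyc n' (by omega)
  have m3 : wM μ (n' + 2) E3 = 0 := by
    have := ae_distinct μ hμ (n' + 2)
    exact MeasureTheory.ae_iff.mp this
  have hsub : {W | ∃ M, IsMinArb W r M ∧
      ε * (n' + 2 : ℕ) < (#(univ.filter fun u => u ≠ r ∧ M u ≠ argm (W u) u) : ℝ)} ⊆
      E3 ∪ (E1 ∪ E2) := by
    rintro W ⟨M, hM, hlt⟩
    by_contra hcon
    simp only [Set.mem_union, not_or, hE1, hE2, hE3, Set.mem_ofPred_eq, not_not] at hcon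
    obtain ⟨c1, c2, Q, hQ1, hQ2⟩ := hcon
    have hdet := det (by omega) hM c1 hR c2 hQ2
    have hsm1 := hsm (n' + 2) hn3 #Q hQ1
    have hnpos : (0 : ℝ) < (n' + 2 : ℕ) := by positivity
    nlinarith
  calc wM μ (n' + 2) {W | ∃ M, IsMinArb W r M ∧
      ε * (n' + 2 : ℕ) < (#(univ.filter fun u => u ≠ r ∧ M u ≠ argm (W u) u) : ℝ)}
      ≤ wM μ (n' + 2) (E3 ∪ (E1 ∪ E2)) := measure_mono hsub
    _ ≤ wM μ (n' + 2) E3 + (wM μ (n' + 2) E1 + wM μ (n' + 2) E2) :=
        (measure_union_le _ _).trans (by gcongr; exact measure_union_le _ _)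
    _ ≤ 0 + (ENNReal.ofReal (ε / 4) + ENNReal.ofReal (ε / 4)) := by
        rw [m3]; gcongr
    _ = ENNReal.ofReal (ε / 4 + ε / 4) := by
        rw [zero_add, ENNReal.ofReal_add hε4.le hε4.le]
    _ ≤ ENNReal.ofReal ε := ENNReal.ofReal_le_ofReal (by linarith)

end Pool.Agent.MSL
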