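import Pool.Agent.MSL.G3

/-!
Module G: the local limit of uniform random mappings without fixed points.
-/

set_option autoImplicit false

open scoped Topology ENNReal
open Finset MeasureTheory Filter

namespace Pool.Agent.MSL

namespace G

universe u

section classes

/-- isomorphism of finite rooted oriented graphs -/
def isoSetoid (k : ℕ) : Setoid ((Fin k → Fin k → Prop) × Fin k) where
  r p q := ∃ σ : Equiv.Perm (Fin k), σ p.2 = q.2 ∧ ∀ u v, p.1 u v ↔ q.1 (σ u) (σ v)
  iseqv := by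
    refine ⟨fun p => ⟨Equiv.refl _, rfl, fun _ _ => Iff.rfl⟩, ?_, ?_⟩
    · rintro p q ⟨σ, h1, h2⟩
      refine ⟨σ.symm, by rw [← h1, Equiv.symm_apply_apply], fun u v => ?_⟩
      rw [h2]
      simp
    · rintro p q r ⟨σ, h1, h2⟩ ⟨τ, h3, h4⟩
      refine ⟨σ.trans τ, by simp [h1, h3], fun u v => ?_⟩
      rw [h2, h4]
      rfl

/-- isomorphism classes -/
abbrev Cls (k : ℕ) : Type := Quotient (isoSetoid k)

noncomputable instance (k : ℕ) : Fintype (Cls k) := Fintype.ofFinite _

variable {V : Type u} {E : V → V → Prop} {ρ : V} {R k : ℕ}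

theorem ballIso_of_rel {p q : (Fin k → Fin k → Prop) × Fin k} (hpq : isoSetoid k p q)
    (hp : BallIso E ρ R p.1 p.2) : BallIso E ρ R q.1 q.2 := by
  obtain ⟨φ, h1, h2⟩ := hp
  obtain ⟨σ, h3, h4⟩ := hpq
  refine ⟨φ.trans σ, by rw [Equiv.trans_apply, h1, h3], fun u v => ?_⟩
  rw [h2, h4]
  rfl

theorem rel_of_ballIso {p q : (Fin k → Fin k → Prop) × Fin k} (hp : BallIso E ρ R p.1 p.2)
    (hq : BallIso E ρ R q.1 q.2) : isoSetoid k p q := by
  obtain ⟨φ, h1, h2⟩ := hp
  obtain ⟨ψ, h3, h4⟩ := hq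
  refine ⟨φ.symm.trans ψ, ?_, fun u v => ?_⟩
  · rw [← h1, Equiv.trans_apply, Equiv.symm_apply_apply, h3]
  · rw [Equiv.trans_apply, Equiv.trans_apply, ← h4, h2, Equiv.apply_symm_apply,
      Equiv.apply_symm_apply]

theorem ballIso_out (p : (Fin k → Fin k → Prop) × Fin k) :
    BallIso E ρ R (Quotient.out (Quotient.mk (isoSetoid k) p)).1
      (Quotient.out (Quotient.mk (isoSetoid k) p)).2 ↔
      BallIso E ρ R p.1 p.2 :=
  ⟨ballIso_of_rel (Quotient.mk_out p), ballIso_of_rel ((isoSetoid k).symm' (Quotient.mk_out p))⟩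

theorem ncard_of_ballIso {H : Fin k → Fin k → Prop} {h : Fin k} (hB : BallIso E ρ R H h) :
    (ballSet E ρ R).ncard = k := by
  obtain ⟨φ, _, _⟩ := hB
  rw [← Nat.card_coe_set_eq, Nat.card_congr φ, Nat.card_eq_fintype_card, Fintype.card_fin]

theorem exists_ballIso (hf : (ballSet E ρ R).Finite) (hk : (ballSet E ρ R).ncard = k) :
    ∃ p : (Fin k → Fin k → Prop) × Fin k, BallIso E ρ R p.1 p.2 := by
  have : Finite (ballSet E ρ R) := hf
  have hk' : Nat.card (ballSet E ρ R) = k := by rw [Nat.card_coe_set_eq, hk]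
  let e := Finite.equivFinOfCardEq hk'
  refine ⟨(fun u v => E (e.symm u).1 (e.symm v).1, e ⟨ρ, self_mem_ballSet E ρ R⟩), e, rfl, ?_⟩
  intro u v
  simp

open Classical in
theorem sum_cls (hf : (ballSet E ρ R).Finite) (B : ℕ) : ∑ k ∈ range (B + 1), ∑ c : Cls k,
    (if BallIso E ρ R (Quotient.out c).1 (Quotient.out c).2 then 1 else 0) =
      if (ballSet E ρ R).ncard ≤ B then 1 else 0 := by
  have h1 : ∀ k, ∑ c : Cls k,
    (if BallIso E ρ R (Quotient.out c).1 (Quotient.out c).2 then 1 else 0) =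
      if (ballSet E ρ R).ncard = k then 1 else 0 := by
    intro k
    by_cases hk : (ballSet E ρ R).ncard = k
    · rw [if_pos hk]
      obtain ⟨p, hp⟩ := exists_ballIso hf hk
      rw [sum_eq_single (Quotient.mk (isoSetoid k) p)]
      · rw [if_pos ((ballIso_out p).2 hp)]
      · intro c _ hc
        rw [if_neg]
        intro hB
        apply hc
        rw [← Quotient.out_eq c]
        exact Quotient.sound (rel_of_ballIso hB hp)
      · intro h
        exact absurd (mem_univ _) h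
    · rw [if_neg hk]
      apply sum_eq_zero
      intro c _
      rw [if_neg]
      intro hB
      exact hk (ncard_of_ballIso hB)
  rw [sum_congr rfl fun k _ => h1 k, sum_ite_eq]
  congr 1
  rw [mem_range]
  exact propext Nat.lt_succ_iff

end classes

section limit

open Classical

variable {R : ℕ}

theorem card_noFix (n : ℕ) :
    #(univ.filter fun g : Fin (n + 2) → Fin (n + 2) => ∀ v, g v ≠ v) = (n + 1) ^ (n + 2) := by
  have h1 : (univ.filter fun g : Fin (n + 2) → Fin (n + 2) => ∀ v, g v ≠ v) =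
      Fintype.piFinset (fun v => univ.erase v) := by
    ext g
    simp
  rw [h1, Fintype.card_piFinset]
  simp

theorem sum_count (n B : ℕ) : ∑ k ∈ range (B + 1), ∑ c : Cls k,
    #(univ.filter fun g : Fin (n + 2) → Fin (n + 2) => (∀ v, g v ≠ v) ∧
      BallIso (mapE g) 0 R (Quotient.out c).1 (Quotient.out c).2) =
    #(univ.filter fun g : Fin (n + 2) → Fin (n + 2) => (∀ v, g v ≠ v) ∧
      (ballSet (mapE g) 0 R).ncard ≤ B) := by
  simp only [card_filter]
  have h1 : ∀ k, ∑ c : Cls k, ∑ g : Fin (n + 2) → Fin (n + 2), (if (∀ v, g v ≠ v) ∧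
      BallIso (mapE g) 0 R (Quotient.out c).1 (Quotient.out c).2 then 1 else 0) =
      ∑ g : Fin (n + 2) → Fin (n + 2), ∑ c : Cls k, (if (∀ v, g v ≠ v) ∧
      BallIso (mapE g) 0 R (Quotient.out c).1 (Quotient.out c).2 then 1 else 0) :=
    fun k => sum_comm
  rw [sum_congr rfl fun k _ => h1 k, sum_comm]
  apply sum_congr rfl
  intro g _
  by_cases hg : ∀ v, g v ≠ v
  · have := sum_cls (E := mapE g) (ρ := 0) (R := R) (Set.toFinite _) B
    simpa [hg] using this
  · simp [hg]

/-- probabilities of the classes for random mappings -/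
noncomputable def pn (R n : ℕ) {k : ℕ} (p : (Fin k → Fin k → Prop) × Fin k) : ℝ :=
  (#(univ.filter fun g : Fin (n + 2) → Fin (n + 2) => (∀ v, g v ≠ v) ∧
      BallIso (mapE g) 0 R p.1 p.2) : ℝ) / ((n : ℝ) + 1) ^ (n + 2)

/-- probability of having a small ball -/
noncomputable def qn (R n B : ℕ) : ℝ :=
  (#(univ.filter fun g : Fin (n + 2) → Fin (n + 2) => (∀ v, g v ≠ v) ∧
      (ballSet (mapE g) 0 R).ncard ≤ B) : ℝ) / ((n : ℝ) + 1) ^ (n + 2)

theorem sum_pn (R n B : ℕ) : ∑ k ∈ range (B + 1), ∑ c : Cls k, pn R n (Quotient.out c) =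
    qn R n B := by
  unfold pn qn
  simp only [← sum_div]
  congr 1
  rw [← sum_count n B]
  push_cast
  rfl

theorem qn_add (R n B : ℕ) : qn R n B + (#(univ.filter fun g : Fin (n + 2) → Fin (n + 2) =>
    (∀ v, g v ≠ v) ∧ B < (ballSet (mapE g) 0 R).ncard) : ℝ) / ((n : ℝ) + 1) ^ (n + 2) = 1 := by
  unfold qn
  rw [← add_div, div_eq_one_iff_eq (by positivity)]
  have h1 := card_noFix n
  have h2 := card_filter_add_card_filter_not (s := univ.filter fun g : Fin (n + 2) → Fin (n + 2) =>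
    ∀ v, g v ≠ v) (fun g => (ballSet (mapE g) 0 R).ncard ≤ B)
  rw [filter_filter, filter_filter, h1] at h2
  simp only [not_le] at h2
  exact_mod_cast h2

theorem qn_le_one (R n B : ℕ) : qn R n B ≤ 1 := by
  have := qn_add R n B
  have h2 : 0 ≤ (#(univ.filter fun g : Fin (n + 2) → Fin (n + 2) =>
    (∀ v, g v ≠ v) ∧ B < (ballSet (mapE g) 0 R).ncard) : ℝ) / ((n : ℝ) + 1) ^ (n + 2) := by
    positivity
  linarith

theorem tendsto_qn (R B : ℕ) : Tendsto (fun n => qn R n B) atTop
    (𝓝 (∑ k ∈ range (B + 1), ∑ c : Cls k, cc R (Quotient.out c).1 (Quotient.out c).2)) := by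
  have : Tendsto (fun n => ∑ k ∈ range (B + 1), ∑ c : Cls k, pn R n (Quotient.out c)) atTop
    (𝓝 (∑ k ∈ range (B + 1), ∑ c : Cls k, cc R (Quotient.out c).1 (Quotient.out c).2)) :=
    tendsto_finsetSum _ fun k _ => tendsto_finsetSum _ fun c _ => tendsto_pn R _ _
  exact this.congr fun n => sum_pn R n B

theorem finite_ball_TE (ξ : Node → ℕ) (r : ℕ) : (ballSet (TE ξ) (0, []) r).Finite := by
  induction r with
  | zero => exact Set.finite_singleton _
  | succ r ih =>
    refine ih.union ?_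
    have h1 : ∀ u : Node, {v | TE ξ v u}.Finite := by
      intro u
      refine ((Set.finite_singleton ((u.1 - 1, []) : Node)).union
        ((Set.finite_Iio (ξ u)).image (fun a => (u.1, a :: u.2)))).subset ?_
      rintro ⟨i, w⟩ ⟨h1, h2⟩
      cases w with
      | nil =>
        left
        rw [h2]
        rfl
      | cons a w =>
        right
        rw [h2]
        exact ⟨a, h1.1, rfl⟩
    refine ((ih.image par).union (ih.biUnion fun u _ => h1 u)).subset ?_
    rintro v ⟨u, hu, h2 | h2⟩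
    · left
      exact ⟨u, hu, h2.2.symm⟩
    · right
      exact Set.mem_biUnion hu h2

/-- probability of the class for the tree -/
noncomputable def pT (R : ℕ) {k : ℕ} (p : (Fin k → Fin k → Prop) × Fin k) : ℝ :=
  (treeM {ξ | BallIso (TE ξ) (0, []) R p.1 p.2}).toReal

instance : IsProbabilityMeasure treeM := by
  unfold treeM
  infer_instance

theorem measure_le_sum (R B : ℕ) : (treeM {ξ | (ballSet (TE ξ) (0, []) R).ncard ≤ B}).toReal ≤
    ∑ k ∈ range (B + 1), ∑ c : Cls k, pT R (Quotient.out c) := by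
  have h1 : {ξ : Node → ℕ | (ballSet (TE ξ) (0, []) R).ncard ≤ B} ⊆
      ⋃ k ∈ range (B + 1), ⋃ c ∈ (univ : Finset (Cls k)),
        {ξ : Node → ℕ | BallIso (TE ξ) (0, []) R (Quotient.out c).1 (Quotient.out c).2} := by
    intro ξ hξ
    have hξ' : (ballSet (TE ξ) (0, []) R).ncard ≤ B := hξ
    obtain ⟨p, hp⟩ := exists_ballIso (finite_ball_TE ξ R) rfl
    simp only [Set.mem_iUnion]
    exact ⟨_, mem_range.2 (Nat.lt_succ_of_le hξ'), Quotient.mk (isoSetoid _) p, mem_univ _, (ballIso_out p).2 hp⟩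
  have h2 : treeM {ξ | (ballSet (TE ξ) (0, []) R).ncard ≤ B} ≤
      ∑ k ∈ range (B + 1), ∑ c : Cls k,
        treeM {ξ | BallIso (TE ξ) (0, []) R (Quotient.out c).1 (Quotient.out c).2} :=
    (measure_mono h1).trans ((measure_biUnion_finset_le _ _).trans
      (sum_le_sum fun k _ => measure_biUnion_finset_le _ _))
  have h3 : ∀ k : ℕ, ∑ c : Cls k,
        treeM {ξ | BallIso (TE ξ) (0, []) R (Quotient.out c).1 (Quotient.out c).2} ≠ ∞ :=
    fun k => ENNReal.sum_ne_top.2 fun c _ => measure_ne_top _ _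
  refine (ENNReal.toReal_mono (ENNReal.sum_ne_top.2 fun k _ => h3 k) h2).trans (le_of_eq ?_)
  rw [ENNReal.toReal_sum fun k _ => h3 k]
  apply sum_congr rfl
  intro k _
  rw [ENNReal.toReal_sum fun c _ => measure_ne_top _ _]
  rfl

theorem tendsto_measure (R : ℕ) :
    Tendsto (fun B : ℕ => (treeM {ξ | (ballSet (TE ξ) (0, []) R).ncard ≤ B}).toReal) atTop
      (𝓝 1) := by
  have h1 : Monotone fun B : ℕ => {ξ : Node → ℕ | (ballSet (TE ξ) (0, []) R).ncard ≤ B} := by
    intro B B' hB ξ hξ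
    exact le_trans (show (ballSet (TE ξ) (0, []) R).ncard ≤ B from hξ) hB
  have h2 := tendsto_measure_iUnion_atTop (μ := treeM) h1
  have h3 : (⋃ B : ℕ, {ξ : Node → ℕ | (ballSet (TE ξ) (0, []) R).ncard ≤ B}) = Set.univ := by
    rw [Set.eq_univ_iff_forall]
    intro ξ
    rw [Set.mem_iUnion]
    exact ⟨(ballSet (TE ξ) (0, []) R).ncard, le_refl (ballSet (TE ξ) (0, []) R).ncard⟩
  rw [h3, measure_univ] at h2
  have h4 := (ENNReal.tendsto_toReal ENNReal.one_ne_top).comp h2
  rw [ENNReal.toReal_one] at h4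
  exact h4

theorem cc_eq (R : ℕ) {k : ℕ} (c : Cls k) :
    cc R (Quotient.out c).1 (Quotient.out c).2 = pT R (Quotient.out c) := by
  refine le_antisymm ?_ (measure_le_cc R _ _)
  rw [← sub_nonpos]
  have h1 : Tendsto (fun B : ℕ => 1 - (treeM {ξ | (ballSet (TE ξ) (0, []) R).ncard ≤ B}).toReal)
      atTop (𝓝 (1 - 1)) := tendsto_const_nhds.sub (tendsto_measure R)
  rw [sub_self] at h1
  refine ge_of_tendsto h1 ?_
  filter_upwards [eventually_ge_atTop k] with B hB
  have h2 := measure_le_sum R B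
  have h3 : ∑ k ∈ range (B + 1), ∑ c : Cls k, cc R (Quotient.out c).1 (Quotient.out c).2 ≤ 1 :=
    le_of_tendsto' (tendsto_qn R B) fun n => qn_le_one R n B
  have h4 : ∀ (k' : ℕ) (c' : Cls k'),
      0 ≤ cc R (Quotient.out c').1 (Quotient.out c').2 - pT R (Quotient.out c') := fun k' c' =>
    sub_nonneg.2 (measure_le_cc R _ _)
  have h5 : cc R (Quotient.out c).1 (Quotient.out c).2 - pT R (Quotient.out c) ≤
      ∑ k' ∈ range (B + 1), ∑ c' : Cls k',
        (cc R (Quotient.out c').1 (Quotient.out c').2 - pT R (Quotient.out c')) := by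
    calc _ ≤ ∑ c' : Cls k,
        (cc R (Quotient.out c').1 (Quotient.out c').2 - pT R (Quotient.out c')) :=
          single_le_sum (f := fun c' : Cls k =>
            cc R (Quotient.out c').1 (Quotient.out c').2 - pT R (Quotient.out c'))
            (fun c' _ => h4 k c') (mem_univ c)
      _ ≤ _ := single_le_sum (f := fun k' : ℕ => ∑ c' : Cls k',
            (cc R (Quotient.out c').1 (Quotient.out c').2 - pT R (Quotient.out c')))
            (fun k' _ => sum_nonneg fun c' _ => h4 k' c') (mem_range.2 (Nat.lt_succ_of_le hB))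
  simp only [sum_sub_distrib] at h5
  linarith

theorem measure_out {k : ℕ} (p : (Fin k → Fin k → Prop) × Fin k) :
    pT R (Quotient.out (Quotient.mk (isoSetoid k) p)) = pT R p := by
  unfold pT
  simp only [ballIso_out]

theorem pn_out {k : ℕ} (n : ℕ) (p : (Fin k → Fin k → Prop) × Fin k) :
    pn R n (Quotient.out (Quotient.mk (isoSetoid k) p)) = pn R n p := by
  unfold pn
  simp only [ballIso_out]

end limit

theorem meas_validL (i : ℕ) (w : List ℕ) : Measurable fun ξ : Node → ℕ => validL ξ i w := by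
  induction w with
  | nil => exact measurable_const
  | cons a w ih =>
    have h1 : Measurable fun ξ : Node → ℕ => ξ (i, w) := measurable_pi_apply (i, w)
    have h2 : Measurable fun ξ : Node → ℕ => a < ξ (i, w) :=
      measurableSet_setOfPred.1 (measurableSet_lt measurable_const h1)
    exact h2.and ih

theorem meas_TE (x y : Node) : Measurable fun ξ : Node → ℕ => TE ξ x y :=
  (meas_validL x.1 x.2).and measurable_const

end G

open Classical in
theorem local_limit_map (R : ℕ) {k : ℕ} (H : Fin k → Fin k → Prop) (h : Fin k) :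
    Tendsto (fun n : ℕ => (Nat.card {g : Fin (n + 2) → Fin (n + 2) // (∀ v, g v ≠ v) ∧
      BallIso (mapE g) 0 R H h} : ℝ) / ((n : ℝ) + 1) ^ (n + 2)) atTop
      (𝓝 (treeM {ξ | BallIso (TE ξ) (0, []) R H h}).toReal) := by
  set q : (Fin k → Fin k → Prop) × Fin k :=
    Quotient.out (Quotient.mk (G.isoSetoid k) (H, h)) with hq
  have h1 : Tendsto (fun n => G.pn R n q) atTop (𝓝 (G.cc R q.1 q.2)) := G.tendsto_pn R q.1 q.2
  have h2 : G.cc R q.1 q.2 = (treeM {ξ | BallIso (TE ξ) (0, []) R H h}).toReal := by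
    rw [hq, G.cc_eq, G.measure_out]
    rfl
  rw [h2] at h1
  refine h1.congr fun n => ?_
  rw [hq, G.pn_out]
  unfold G.pn
  rw [Nat.card_eq_fintype_card, Fintype.card_subtype]

open Classical in
theorem tight_map (R : ℕ) {ε : ℝ} (hε : 0 < ε) : ∃ B n0 : ℕ, ∀ n ≥ n0,
    (Nat.card {g : Fin (n + 2) → Fin (n + 2) // (∀ v, g v ≠ v) ∧
      B < (ballSet (mapE g) 0 R).ncard} : ℝ) ≤ ε * ((n : ℝ) + 1) ^ (n + 2) := by
  have h1 := (G.tendsto_measure R).eventually (lt_mem_nhds (show 1 - ε < 1 by linarith))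
  obtain ⟨B, hB⟩ := h1.exists
  have h2 := G.measure_le_sum R B
  have h3 : (1 - ε) < ∑ k ∈ range (B + 1), ∑ c : G.Cls k,
      G.cc R (Quotient.out c).1 (Quotient.out c).2 := by
    refine lt_of_lt_of_le hB (h2.trans (le_of_eq ?_))
    apply sum_congr rfl
    intro k _
    apply sum_congr rfl
    intro c _
    rw [G.cc_eq]
  have h4 := (G.tendsto_qn R B).eventually (lt_mem_nhds h3)
  obtain ⟨n0, hn0⟩ := eventually_atTop.1 h4
  refine ⟨B, n0, fun n hn => ?_⟩
  have h5 := hn0 n hn
  have h6 := G.qn_add R n B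
  rw [Nat.card_eq_fintype_card, Fintype.card_subtype]
  have h7 : (#(univ.filter fun g : Fin (n + 2) → Fin (n + 2) =>
    (∀ v, g v ≠ v) ∧ B < (ballSet (mapE g) 0 R).ncard) : ℝ) / ((n : ℝ) + 1) ^ (n + 2) ≤ ε := by
    linarith
  rwa [div_le_iff₀ (by positivity)] at h7

/-- (optional) the events of the limit object are measurable -/
theorem measurableSet_limit (R : ℕ) {k : ℕ} (H : Fin k → Fin k → Prop) (h : Fin k) :
    MeasurableSet {ξ : Node → ℕ | BallIso (TE ξ) (0, []) R H h} := by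
  by_cases hH : ballSet H h R = Set.univ
  swap
  · have : {ξ : Node → ℕ | BallIso (TE ξ) (0, []) R H h} = ∅ := by
      rw [Set.eq_empty_iff_forall_notMem]
      intro ξ hξ
      exact hH (G.ball_univ_of_ballIso hξ)
    rw [this]
    exact MeasurableSet.empty
  have h1 : {ξ : Node → ℕ | BallIso (TE ξ) (0, []) R H h} =
      {ξ : Node → ℕ | ∃ l : Fin k → Node, (Function.Injective l ∧ l h = (0, [])) ∧
        (∀ u v, TE ξ (l u) (l v) ↔ H u v) ∧
        ∀ u, ∀ _ : u ∈ G.inner H h R, ∀ x, (TE ξ x (l u) ∨ TE ξ (l u) x) → x ∈ Set.range l} := by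
    ext ξ
    constructor
    · intro hξ
      obtain ⟨l, hl⟩ := G.exists_isoMap hξ
      exact ⟨l, ⟨hl.inj, hl.root⟩, hl.iff, hl.clo⟩
    · rintro ⟨l, ⟨h1, h2⟩, h3, h4⟩
      exact (G.IsoMap.mk h1 h2 h3 h4 : G.IsoMap (TE ξ) (0, []) R H h l).ballIso hH
  rw [h1, measurableSet_setOfPred]
  refine Measurable.exists fun l => (measurable_const.and ((Measurable.forall fun u =>
    Measurable.forall fun v => (G.meas_TE _ _).iff measurable_const).and (Measurable.forall
    fun u => Measurable.forall fun _ => Measurable.forall fun x =>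
    ((G.meas_TE _ _).or (G.meas_TE _ _)).imp measurable_const)))

end Pool.Agent.MSL
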