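import Pool.Agent.MSL.Exch
import Pool.Agent.MSL.G

set_option autoImplicit false

open scoped Topology ENNReal
open Finset MeasureTheory Filter

namespace Pool.Agent.MSL

namespace Final

open Perturb Exch

instance probW (μ : Measure ℝ) [IsProbabilityMeasure μ] (N : ℕ) :
    IsProbabilityMeasure (wM μ N) := by
  unfold wM; infer_instance

variable {n : ℕ}

lemma exists_other (u : Fin (n + 2)) : ∃ w, w ≠ u := exists_ne u

lemma gr_argm (W : Fin (n + 2) → Fin (n + 2) → ℝ) : Gr W (fun u => argm (W u) u) := by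
  intro u
  obtain ⟨w, hw⟩ := exists_other u
  exact Few.argm_spec (W u) hw

lemma gr_unique {W : Fin (n + 2) → Fin (n + 2) → ℝ}
    (hW : ∀ u v w : Fin (n + 2), v ≠ w → W u v ≠ W u w) {g : Fin (n + 2) → Fin (n + 2)}
    (hg : Gr W g) : g = fun u => argm (W u) u := by
  funext u
  by_contra hne
  have h1 := gr_argm W u
  have h2 := hg u
  exact hW u _ _ hne (le_antisymm (h2.2 _ h1.1) (h1.2 _ h2.1))

/-- rows without ties -/
def Dist (W : Fin (n + 2) → Fin (n + 2) → ℝ) : Prop :=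
  ∀ u v w : Fin (n + 2), v ≠ w → W u v ≠ W u w

lemma law_le (μ : Measure ℝ) [IsProbabilityMeasure μ] (hμ : ∀ x, μ {x} = 0)
    (E : (Fin (n + 2) → Fin (n + 2)) → Prop) {ε : ℝ}
    (h : (Nat.card {g : Fin (n + 2) → Fin (n + 2) // (∀ v, g v ≠ v) ∧ E g} : ℝ) ≤
      ε * ((n : ℝ) + 1) ^ (n + 2)) :
    wM μ (n + 2) {W | E (fun u => argm (W u) u)} ≤ ENNReal.ofReal ε := by
  rw [← ENNReal.ofReal_toReal (measure_ne_top (wM μ (n + 2)) _)]
  apply ENNReal.ofReal_le_ofReal
  rw [greedy_law μ hμ n E, div_le_iff₀ (by positivity)]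
  exact h

lemma not_dist_null (μ : Measure ℝ) [IsProbabilityMeasure μ] (hμ : ∀ x, μ {x} = 0) :
    wM μ (n + 2) {W | ¬ Dist W} = 0 := MeasureTheory.ae_iff.mp (ae_distinct μ hμ (n + 2))

lemma not_unique_null (μ : Measure ℝ) [IsProbabilityMeasure μ] (hμ : ∀ x, μ {x} = 0)
    (r : Fin (n + 2)) : wM μ (n + 2) {W | ¬ ∃! M, IsMinArb W r M} = 0 :=
  MeasureTheory.ae_iff.mp (ae_unique μ hμ (n + 2) r)

lemma evC_small (μ : Measure ℝ) [IsProbabilityMeasure μ] (hμ : ∀ x, μ {x} = 0) {R B : ℕ} {ε : ℝ}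
    (h : (Nat.card {g : Fin (n + 2) → Fin (n + 2) // (∀ v, g v ≠ v) ∧
      B < (ballSet (mapE g) 0 R).ncard} : ℝ) ≤ ε * ((n : ℝ) + 1) ^ (n + 2)) (v : Fin (n + 2)) :
    wM μ (n + 2) (evC R B v) ≤ ENNReal.ofReal ε := by
  refine (evC_le μ R B v 0).trans ?_
  have hsub : (evC R B 0 : Set (Fin (n + 2) → Fin (n + 2) → ℝ)) ⊆ {W | ¬ Dist W} ∪
      {W | B < (ballSet (mapE fun u => argm (W u) u) 0 R).ncard} := by
    rintro W ⟨g, hg, hB⟩
    by_cases hd : Dist W
    · right
      rw [gr_unique hd hg] at hB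
      exact hB
    · exact Or.inl hd
  calc wM μ (n + 2) (evC R B 0) ≤ wM μ (n + 2) ({W | ¬ Dist W} ∪
      {W | B < (ballSet (mapE fun u => argm (W u) u) 0 R).ncard}) := measure_mono hsub
    _ ≤ wM μ (n + 2) {W | ¬ Dist W} +
      wM μ (n + 2) {W | B < (ballSet (mapE fun u => argm (W u) u) 0 R).ncard} :=
        measure_union_le _ _
    _ ≤ 0 + ENNReal.ofReal ε := by
        rw [not_dist_null μ hμ]
        gcongr
        exact law_le μ hμ (fun g => B < (ballSet (mapE g) 0 R).ncard) h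
    _ = ENNReal.ofReal ε := zero_add _

open Classical in
lemma evB_small (R : ℕ) {η : ℝ} (hη : 0 < η) : ∃ n0 : ℕ, ∀ n ≥ n0, ∀ μ : Measure ℝ,
    IsProbabilityMeasure μ → (∀ x, μ {x} = 0) → ∀ r : Fin (n + 2), r ≠ 0 →
      (wM μ (n + 2) (evB r R 0)).toReal ≤ η := by
  obtain ⟨B, n1, hB⟩ := tight_map (R + R) (ε := η / 8) (by linarith)
  set ε : ℝ := η / (16 * (B + 1)) with hεdef
  have hε : 0 < ε := by positivity
  obtain ⟨n2, hfew⟩ := few_changes hε
  obtain ⟨n3, hn3⟩ := exists_nat_gt (16 * B / η)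
  refine ⟨max n1 (max n2 n3), fun n hn μ hprob hμ r hr => ?_⟩
  have hn1 : n1 ≤ n := (le_max_left _ _).trans hn
  have hn2 : n2 ≤ n := (le_max_left _ _).trans ((le_max_right _ _).trans hn)
  have hn3' : n3 ≤ n := (le_max_right _ _).trans ((le_max_right _ _).trans hn)
  have hC : ∀ v, wM μ (n + 2) (evC (R + R) B v) ≤ ENNReal.ofReal (η / 8) :=
    evC_small μ hμ (hB n hn1)
  set E3 : Set (Fin (n + 2) → Fin (n + 2) → ℝ) := {W | ∃ M, IsMinArb W r M ∧
        ε * (n + 2 : ℕ) < (#(univ.filter fun u => u ≠ r ∧ M u ≠ argm (W u) u) : ℝ)} with hE3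
  set E0 : Set (Fin (n + 2) → Fin (n + 2) → ℝ) :=
    {W | ¬ Dist W} ∪ ({W | ¬ ∃! M, IsMinArb W r M} ∪ E3) with hE0
  have hPE0 : wM μ (n + 2) E0 ≤ ENNReal.ofReal ε := by
    calc wM μ (n + 2) E0 ≤ wM μ (n + 2) {W | ¬ Dist W} +
        (wM μ (n + 2) {W | ¬ ∃! M, IsMinArb W r M} + wM μ (n + 2) E3) :=
          (measure_union_le _ _).trans (by gcongr; exact measure_union_le _ _)
      _ = wM μ (n + 2) E3 := by rw [not_dist_null μ hμ, not_unique_null μ hμ r]; simp
      _ ≤ ENNReal.ofReal ε := by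
        have := hfew (n + 2) (by omega) μ hprob hμ r
        convert this using 5
  have hcnn : (0 : ℝ) ≤ B * (2 * (ε * (n + 2 : ℕ) + 1)) := by positivity
  have hpt : ∀ W ∉ E0, (#(univ.filter fun v => W ∈ evB r R v) : ℝ≥0∞) ≤
      ENNReal.ofReal (B * (2 * (ε * (n + 2 : ℕ) + 1))) +
        (#(univ.filter fun v => W ∈ evC (R + R) B v) : ℝ≥0∞) := by
    intro W hW
    simp only [hE0, hE3, Set.mem_union, Set.mem_ofPred_eq, not_or, not_not] at hW
    obtain ⟨hd, ⟨M, hM, hMu⟩, hD⟩ := hW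
    have hD' : (#(univ.filter fun u => u ≠ r ∧ M u ≠ argm (W u) u) : ℝ) ≤ ε * (n + 2 : ℕ) := by
      by_contra hlt
      push Not at hlt
      exact hD ⟨M, hM, hlt⟩
    have h1 : #(univ.filter fun v => W ∈ evB r R v) ≤
        #(univ.filter fun v => Bd r R M (fun u => argm (W u) u) v) := by
      refine Finset.card_le_card fun v hv => ?_
      simp only [mem_filter, mem_univ, true_and] at hv ⊢
      obtain ⟨M', g, hM', hg, hb⟩ := hv
      rw [hMu M' hM', gr_unique hd hg] at hb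
      exact hb
    have h2 := card_Bd r R B M (fun u => argm (W u) u)
    have h3 : #(univ.filter fun v =>
        B < (ballSet (mapE fun u => argm (W u) u) v (R + R)).ncard) ≤
        #(univ.filter fun v => W ∈ evC (R + R) B v) := by
      refine Finset.card_le_card fun v hv => ?_
      simp only [mem_filter, mem_univ, true_and] at hv ⊢
      exact ⟨_, gr_argm W, hv⟩
    have h4 : (#(univ.filter fun v => W ∈ evB r R v) : ℝ) ≤
        B * (2 * (ε * (n + 2 : ℕ) + 1)) + #(univ.filter fun v => W ∈ evC (R + R) B v) := by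
      have h5 : (#(univ.filter fun v => W ∈ evB r R v) : ℝ) ≤
          B * (2 * (#(univ.filter fun u => u ≠ r ∧ M u ≠ argm (W u) u) + 1)) +
            #(univ.filter fun v => W ∈ evC (R + R) B v) := by
        exact_mod_cast h1.trans (h2.trans (Nat.add_le_add_left h3 _))
      refine h5.trans ?_
      gcongr
    rw [← ENNReal.ofReal_natCast, ← ENNReal.ofReal_natCast, ← ENNReal.ofReal_add hcnn
      (Nat.cast_nonneg _)]
    exact ENNReal.ofReal_le_ofReal h4
  have hsum := sum_measure_le (P := wM μ (n + 2)) (B := fun v => evB r R v)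
    (C := fun v => evC (R + R) B v) (measurableSet_evB r R) (measurableSet_evC (R + R) B) hpt
  -- lower bound of the left hand side
  have hlow : ((n + 1 : ℕ) : ℝ≥0∞) * wM μ (n + 2) (evB r R 0) ≤
      ∑ v, wM μ (n + 2) (evB r R v) := by
    calc ((n + 1 : ℕ) : ℝ≥0∞) * wM μ (n + 2) (evB r R 0)
        = ∑ _v ∈ univ.erase r, wM μ (n + 2) (evB r R 0) := by
          rw [Finset.sum_const, Finset.card_erase_of_mem (mem_univ r), Finset.card_univ,
            Fintype.card_fin, nsmul_eq_mul]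
          rfl
      _ ≤ ∑ v ∈ univ.erase r, wM μ (n + 2) (evB r R v) :=
          Finset.sum_le_sum fun v hv => evB_le μ R (Ne.symm hr) (by simpa using hv)
      _ ≤ ∑ v, wM μ (n + 2) (evB r R v) :=
          Finset.sum_le_sum_of_subset (Finset.subset_univ _)
  have hup : ∑ v, wM μ (n + 2) (evB r R v) ≤
      ENNReal.ofReal ((n + 2 : ℕ) * ε + B * (2 * (ε * (n + 2 : ℕ) + 1)) +
        (n + 2 : ℕ) * (η / 8)) := by
    refine hsum.trans ?_
    have hC' : ∑ v, wM μ (n + 2) (evC (R + R) B v) ≤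
        ((n + 2 : ℕ) : ℝ≥0∞) * ENNReal.ofReal (η / 8) := by
      refine (Finset.sum_le_card_nsmul _ _ _ fun v _ => hC v).trans ?_
      rw [Finset.card_univ, Fintype.card_fin, nsmul_eq_mul]
    have e1 : ∀ x, ENNReal.ofReal (((n + 2 : ℕ) : ℝ) * x) =
        ((n + 2 : ℕ) : ℝ≥0∞) * ENNReal.ofReal x := fun x => by
      rw [ENNReal.ofReal_mul (Nat.cast_nonneg _), ENNReal.ofReal_natCast]
    rw [ENNReal.ofReal_add (by positivity) (by positivity),
      ENNReal.ofReal_add (by positivity) (by positivity), e1, e1]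
    gcongr
  have hreal := ENNReal.toReal_mono ENNReal.ofReal_ne_top (hlow.trans hup)
  rw [ENNReal.toReal_mul, ENNReal.toReal_natCast, ENNReal.toReal_ofReal (by positivity)] at hreal
  set p := (wM μ (n + 2) (evB r R 0)).toReal with hp
  have hn3r : 16 * B / η < n := hn3.trans_le (by exact_mod_cast hn3')
  have hBn : 16 * B < η * n := by
    rw [div_lt_iff₀ hη] at hn3r; linarith
  have hεB : ε * (B + 1) = η / 16 := by
    rw [hεdef]; field_simp
  have hB0 : (0 : ℝ) ≤ B := Nat.cast_nonneg _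
  have hεη : ε ≤ η / 16 := by nlinarith
  have hεB' : ε * B ≤ η / 16 := by nlinarith
  push_cast at hreal
  have hnn : (0 : ℝ) ≤ n := Nat.cast_nonneg _
  by_contra hlt
  push Not at hlt
  have h1 : ((n : ℝ) + 1) * η < (n + 1) * p := by
    apply mul_lt_mul_of_pos_left hlt; positivity
  have h2 : ((n : ℝ) + 2) * ε ≤ (n + 2) * (η / 16) := by
    apply mul_le_mul_of_nonneg_left hεη; positivity
  have h3 : ((n : ℝ) + 2) * (ε * B) ≤ (n + 2) * (η / 16) := by
    apply mul_le_mul_of_nonneg_left hεB'; positivity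
  nlinarith

lemma abs_toReal_sub_le {Ω : Type*} [MeasurableSpace Ω] {P : Measure Ω} [IsProbabilityMeasure P]
    {X Y Z : Set Ω} (h1 : X ⊆ Y ∪ Z) (h2 : Y ⊆ X ∪ Z) :
    |(P X).toReal - (P Y).toReal| ≤ (P Z).toReal := by
  have k1 : (P X).toReal ≤ (P Y).toReal + (P Z).toReal := by
    rw [← ENNReal.toReal_add (measure_ne_top _ _) (measure_ne_top _ _)]
    exact ENNReal.toReal_mono (by finiteness) ((measure_mono h1).trans (measure_union_le _ _))
  have k2 : (P Y).toReal ≤ (P X).toReal + (P Z).toReal := by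
    rw [← ENNReal.toReal_add (measure_ne_top _ _) (measure_ne_top _ _)]
    exact ENNReal.toReal_mono (by finiteness) ((measure_mono h2).trans (measure_union_le _ _))
  rw [abs_le]
  constructor <;> linarith

theorem limit (μ : Measure ℝ) [hprob : IsProbabilityMeasure μ] (hμ : ∀ x, μ {x} = 0)
    (bd : ∀ n : ℕ, Fin (n + 2)) (hbd : ∀ n, bd n ≠ 0) (R : ℕ) {k : ℕ}
    (H : Fin k → Fin k → Prop) (h : Fin k) :
    Tendsto (fun n : ℕ => (wM μ (n + 2) {W | ∃ M, IsMinArb W (bd n) M ∧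
      BallIso (arbE (bd n) M) 0 R H h}).toReal) atTop
      (𝓝 (treeM {ξ | BallIso (TE ξ) (0, []) R H h}).toReal) := by
  have hlim := local_limit_map R H h
  refine hlim.congr_dist ?_
  rw [Metric.tendsto_atTop]
  intro η hη
  obtain ⟨n0, hn0⟩ := evB_small R (η := η / 2) (by linarith)
  refine ⟨n0, fun n hn => ?_⟩
  have hsm := hn0 n hn μ hprob hμ (bd n) (hbd n)
  rw [Real.dist_0_eq_abs, abs_of_nonneg dist_nonneg, Real.dist_eq, ← greedy_law μ hμ n
    (fun g => BallIso (mapE g) 0 R H h)]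
  set Z : Set (Fin (n + 2) → Fin (n + 2) → ℝ) :=
    evB (bd n) R 0 ∪ ({W | ¬ Dist W} ∪ {W | ¬ ∃! M, IsMinArb W (bd n) M}) with hZ
  have hPZ : (wM μ (n + 2) Z).toReal ≤ η / 2 := by
    refine le_trans (ENNReal.toReal_mono (measure_ne_top _ _) ?_) hsm
    calc wM μ (n + 2) Z ≤ wM μ (n + 2) (evB (bd n) R 0) + (wM μ (n + 2) {W | ¬ Dist W} +
        wM μ (n + 2) {W | ¬ ∃! M, IsMinArb W (bd n) M}) :=
          (measure_union_le _ _).trans (by gcongr; exact measure_union_le _ _)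
      _ = wM μ (n + 2) (evB (bd n) R 0) := by
        rw [not_dist_null μ hμ, not_unique_null μ hμ (bd n)]; simp
  refine lt_of_le_of_lt (abs_toReal_sub_le (Z := Z) ?_ ?_) (lt_of_le_of_lt hPZ (by linarith))
  · intro W hW
    by_cases hWZ : W ∈ Z
    · exact Or.inr hWZ
    · left
      simp only [hZ, Set.mem_union, not_or, Set.mem_ofPred_eq, not_not] at hWZ
      obtain ⟨hb, hd, M, hM, hMu⟩ := hWZ
      have hnb : ¬ Bd (bd n) R M (fun u => argm (W u) u) 0 :=
        fun hB => hb ⟨M, _, hM, gr_argm W, hB⟩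
      exact ⟨M, hM, (ballIso_agree hnb).mpr hW⟩
  · rintro W ⟨M, hM, hiso⟩
    by_cases hWZ : W ∈ Z
    · exact Or.inr hWZ
    · left
      simp only [hZ, Set.mem_union, not_or, Set.mem_ofPred_eq, not_not] at hWZ
      obtain ⟨hb, hd, -⟩ := hWZ
      have hnb : ¬ Bd (bd n) R M (fun u => argm (W u) u) 0 :=
        fun hB => hb ⟨M, _, hM, gr_argm W, hB⟩
      exact (ballIso_agree hnb).mp hiso

end Final

end Pool.Agent.MSL
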