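import Pool.Agent.MSL.Defs

/-!
Module G, part 1: deterministic facts about isomorphisms onto balls.
-/

set_option autoImplicit false

open scoped Topology ENNReal
open Finset MeasureTheory Filter

namespace Pool.Agent.MSL.G

universe u v

section general

variable {V : Type u} {W : Type v}

theorem ballSet_mono (E : V → V → Prop) (ρ : V) : Monotone (ballSet E ρ) :=
  monotone_nat_of_le_succ fun _ => Set.subset_union_left

/-- the vertices at distance less than `R` -/
def inner (H : W → W → Prop) (h : W) : ℕ → Set W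
  | 0 => ∅
  | R + 1 => ballSet H h R

theorem ballSet_subset_inner (H : W → W → Prop) (h : W) {r R : ℕ} (hr : r + 1 ≤ R) :
    ballSet H h r ⊆ inner H h R := by
  obtain ⟨R', rfl⟩ : ∃ R', R = R' + 1 := ⟨R - 1, by omega⟩
  exact ballSet_mono H h (by omega)

/-- `l` is an isomorphism of `(H, h)` onto the ball of radius `R` in `E` -/
structure IsoMap (E : V → V → Prop) (ρ : V) (R : ℕ) (H : W → W → Prop) (h : W) (l : W → V) :
    Prop where
  inj : Function.Injective l
  root : l h = ρ
  iff : ∀ u v, E (l u) (l v) ↔ H u v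
  clo : ∀ u ∈ inner H h R, ∀ x, (E x (l u) ∨ E (l u) x) → x ∈ Set.range l

variable {E : V → V → Prop} {ρ : V} {R : ℕ} {H : W → W → Prop} {h : W}

theorem IsoMap.ball {l : W → V} (hl : IsoMap E ρ R H h l) :
    ∀ r ≤ R, ballSet E ρ r = l '' ballSet H h r := by
  intro r
  induction r with
  | zero =>
    intro _
    show {ρ} = l '' {h}
    rw [Set.image_singleton, hl.root]
  | succ r ih =>
    intro hr
    have ih' := ih (by omega)
    ext x
    constructor
    · rintro (hx | ⟨y, hy, hxy⟩)
      · rw [ih'] at hx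
        exact Set.image_mono (ballSet_mono H h (Nat.le_succ r)) hx
      · rw [ih'] at hy
        obtain ⟨w, hw, rfl⟩ := hy
        obtain ⟨x', rfl⟩ := hl.clo w (ballSet_subset_inner H h hr hw) x hxy.symm
        refine ⟨x', Or.inr ⟨w, hw, ?_⟩, rfl⟩
        rw [hl.iff, hl.iff] at hxy
        exact hxy
    · rintro ⟨w, hw | ⟨y, hy, hwy⟩, rfl⟩
      · left
        rw [ih']
        exact ⟨w, hw, rfl⟩
      · right
        refine ⟨l y, ?_, ?_⟩
        · rw [ih']; exact ⟨y, hy, rfl⟩
        · rw [hl.iff, hl.iff]; exact hwy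

theorem IsoMap.range {l : W → V} (hl : IsoMap E ρ R H h l) (hH : ballSet H h R = Set.univ) :
    ballSet E ρ R = Set.range l := by
  rw [hl.ball R le_rfl, hH, Set.image_univ]

theorem IsoMap.ballIso {l : W → V} (hl : IsoMap E ρ R H h l) (hH : ballSet H h R = Set.univ) :
    BallIso E ρ R H h := by
  have hr := hl.range hH
  refine ⟨(Equiv.setCongr hr).trans (Equiv.ofInjective l hl.inj).symm, ?_, ?_⟩
  · rw [Equiv.trans_apply, Equiv.symm_apply_eq]
    apply Subtype.ext
    show ρ = l h
    exact hl.root.symm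
  · intro u v
    rw [← hl.iff]
    have key : ∀ w : ballSet E ρ R,
        l (((Equiv.setCongr hr).trans (Equiv.ofInjective l hl.inj).symm) w) = w.1 := by
      intro w
      have h1 := (Equiv.ofInjective l hl.inj).apply_symm_apply (Equiv.setCongr hr w)
      have h2 := congrArg Subtype.val h1
      exact h2
    rw [key, key]

/-- The isomorphism attached to `BallIso`. -/
theorem ball_univ_of_ballIso (hB : BallIso E ρ R H h) : ballSet H h R = Set.univ := by
  obtain ⟨φ, hφ, hE⟩ := hB
  have key : ∀ r (hr : r ≤ R), ∀ x (hx : x ∈ ballSet E ρ r),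
      φ ⟨x, ballSet_mono E ρ hr hx⟩ ∈ ballSet H h r := by
    intro r
    induction r with
    | zero =>
      intro hr x hx
      have hx' : x = ρ := hx
      subst hx'
      show φ ⟨x, _⟩ = h
      exact hφ
    | succ r ih =>
      intro hr x hx
      rcases hx with hx | ⟨y, hy, hxy⟩
      · exact Or.inl (ih (by omega) x hx)
      · right
        have hx2 : x ∈ ballSet E ρ R := ballSet_mono E ρ hr (Or.inr ⟨y, hy, hxy⟩)
        refine ⟨_, ih (by omega) y hy, ?_⟩
        have h1 := hE ⟨y, ballSet_mono E ρ (show r ≤ R by omega) hy⟩ ⟨x, hx2⟩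
        have h2 := hE ⟨x, hx2⟩ ⟨y, ballSet_mono E ρ (show r ≤ R by omega) hy⟩
        rw [← h1, ← h2]
        exact hxy
  rw [Set.eq_univ_iff_forall]
  intro w
  have := key R le_rfl (φ.symm w).1 (φ.symm w).2
  have e : φ ⟨(φ.symm w).1, ballSet_mono E ρ le_rfl (φ.symm w).2⟩ = w := by
    have : (⟨(φ.symm w).1, ballSet_mono E ρ le_rfl (φ.symm w).2⟩ : ballSet E ρ R) = φ.symm w := rfl
    rw [this, Equiv.apply_symm_apply]
  rwa [e] at this

theorem exists_isoMap (hB : BallIso E ρ R H h) : ∃ l : W → V, IsoMap E ρ R H h l := by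
  obtain ⟨φ, hφ, hE⟩ := hB
  have hiff : ∀ u v, E (φ.symm u).1 (φ.symm v).1 ↔ H u v := by
    intro u v
    rw [hE, Equiv.apply_symm_apply, Equiv.apply_symm_apply]
  have hroot : (φ.symm h).1 = ρ := by
    rw [← hφ, Equiv.symm_apply_apply]
  have hsub : ∀ r, ∀ w ∈ ballSet H h r, (φ.symm w).1 ∈ ballSet E ρ r := by
    intro r
    induction r with
    | zero =>
      intro w hw
      have : w = h := hw
      subst this
      exact hroot
    | succ r ih =>
      rintro w (hw | ⟨y, hy, hwy⟩)
      · exact Or.inl (ih w hw)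
      · right
        refine ⟨(φ.symm y).1, ih y hy, ?_⟩
        rw [hiff, hiff]
        exact hwy
  refine ⟨fun w => (φ.symm w).1, ?_, hroot, hiff, ?_⟩
  · intro a b hab
    exact φ.symm.injective (Subtype.ext hab)
  · intro u hu x hx
    cases R with
    | zero => exact absurd hu (Set.notMem_empty u)
    | succ R =>
      have hx' : x ∈ ballSet E ρ (R + 1) := Or.inr ⟨_, hsub R u hu, hx.symm⟩
      refine ⟨φ ⟨x, hx'⟩, ?_⟩
      simp

/-- automorphisms of a finite rooted oriented graph -/
def IsAut (H : W → W → Prop) (h : W) (σ : Equiv.Perm W) : Prop :=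
  σ h = h ∧ ∀ u v, H (σ u) (σ v) ↔ H u v

theorem IsAut.one (H : W → W → Prop) (h : W) : IsAut H h 1 := ⟨rfl, fun _ _ => Iff.rfl⟩

theorem IsAut.ball {σ : Equiv.Perm W} (hσ : IsAut H h σ) (r : ℕ) (w : W) :
    σ w ∈ ballSet H h r ↔ w ∈ ballSet H h r := by
  induction r generalizing w with
  | zero =>
    show σ w = h ↔ w = h
    constructor
    · intro e
      apply σ.injective
      rw [e, hσ.1]
    · rintro rfl
      exact hσ.1
  | succ r ih =>
    constructor
    · rintro (hw | ⟨y, hy, hwy⟩)
      · exact Or.inl ((ih w).1 hw)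
      · right
        refine ⟨σ.symm y, ?_, ?_⟩
        · rw [← ih, Equiv.apply_symm_apply]; exact hy
        · rw [← hσ.2, ← hσ.2 w, Equiv.apply_symm_apply]; exact hwy
    · rintro (hw | ⟨y, hy, hwy⟩)
      · exact Or.inl ((ih w).2 hw)
      · right
        refine ⟨σ y, (ih y).2 hy, ?_⟩
        rw [hσ.2, hσ.2]; exact hwy

theorem IsAut.inner {σ : Equiv.Perm W} (hσ : IsAut H h σ) (R : ℕ) (w : W) :
    σ w ∈ inner H h R ↔ w ∈ inner H h R := by
  cases R with
  | zero => exact Iff.rfl
  | succ R => exact hσ.ball R w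

theorem IsoMap.comp_aut {l : W → V} (hl : IsoMap E ρ R H h l) {σ : Equiv.Perm W}
    (hσ : IsAut H h σ) : IsoMap E ρ R H h (l ∘ σ) where
  inj := hl.inj.comp σ.injective
  root := by simp [hσ.1, hl.root]
  iff u v := by simp only [Function.comp_apply]; rw [hl.iff, hσ.2]
  clo u hu x hx := by
    obtain ⟨w, rfl⟩ := hl.clo (σ u) ((hσ.inner R u).2 hu) x hx
    exact ⟨σ.symm w, by simp⟩

theorem IsoMap.exists_aut {l l' : W → V} (hl : IsoMap E ρ R H h l) (hl' : IsoMap E ρ R H h l')
    (hH : ballSet H h R = Set.univ) : ∃ σ : Equiv.Perm W, IsAut H h σ ∧ l' = l ∘ σ := by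
  have hr : Set.range l' = Set.range l := by rw [← hl.range hH, ← hl'.range hH]
  let σ : Equiv.Perm W := ((Equiv.ofInjective l' hl'.inj).trans (Equiv.setCongr hr)).trans
    (Equiv.ofInjective l hl.inj).symm
  have hσ : ∀ w, l (σ w) = l' w := by
    intro w
    have h1 := (Equiv.ofInjective l hl.inj).apply_symm_apply
      ((Equiv.setCongr hr) ((Equiv.ofInjective l' hl'.inj) w))
    exact congrArg Subtype.val h1
  refine ⟨σ, ⟨?_, ?_⟩, ?_⟩
  · apply hl.inj
    rw [hσ, hl.root, hl'.root]
  · intro u v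
    rw [← hl.iff, hσ, hσ, hl'.iff]
  · funext w
    exact (hσ w).symm

/-- the number of isomorphisms onto the ball is the number of automorphisms. -/
theorem card_isoMap_of_ballIso (hB : BallIso E ρ R H h) :
    Nat.card {l : W → V // IsoMap E ρ R H h l} = Nat.card {σ : Equiv.Perm W // IsAut H h σ} := by
  obtain ⟨l, hl⟩ := exists_isoMap hB
  have hH := ball_univ_of_ballIso hB
  symm
  refine Nat.card_congr (Equiv.ofBijective (fun σ => ⟨l ∘ σ.1, hl.comp_aut σ.2⟩) ⟨?_, ?_⟩)
  · intro σ τ hστ
    have h1 : l ∘ σ.1 = l ∘ τ.1 := congrArg Subtype.val hστ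
    apply Subtype.ext
    ext w
    exact hl.inj (congrFun h1 w)
  · rintro ⟨l', hl'⟩
    obtain ⟨σ, hσ, rfl⟩ := hl.exists_aut hl' hH
    exact ⟨⟨σ, hσ⟩, rfl⟩

theorem not_isoMap_of_not_ballIso (hB : ¬ BallIso E ρ R H h) (hH : ballSet H h R = Set.univ)
    (l : W → V) : ¬ IsoMap E ρ R H h l := fun hl => hB (hl.ballIso hH)

end general

/-! ### the forward map of a partial functional graph -/

section forward

variable {W : Type v} {H : W → W → Prop} {h : W}

open Classical in
/-- the out-neighbour, or the vertex itself if there is none -/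
noncomputable def out (H : W → W → Prop) (u : W) : W := if hu : ∃ v, H u v then hu.choose else u

theorem out_spec {u : W} (hu : ∃ v, H u v) : H u (out H u) := by
  unfold out
  rw [dif_pos hu]
  exact hu.choose_spec

theorem out_eq {u v : W} (h1 : ∀ u v v', H u v → H u v' → v = v') (huv : H u v) :
    out H u = v := h1 _ _ _ (out_spec ⟨v, huv⟩) huv

theorem out_stuck {u : W} (hu : ¬ ∃ v, H u v) : out H u = u := by
  unfold out
  rw [dif_neg hu]

theorem iterate_stuck {u : W} (hu : ¬ ∃ v, H u v) (j : ℕ) : (out H)^[j] u = u := by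
  induction j with
  | zero => rfl
  | succ j ih => rw [Function.iterate_succ_apply, out_stuck hu, ih]

/-- forward orbits meet -/
theorem orbit_meet (h1 : ∀ u v v', H u v → H u v' → v = v') (r : ℕ) :
    ∀ u ∈ ballSet H h r, ∃ i j, i + j ≤ r ∧ (out H)^[i] h = (out H)^[j] u := by
  induction r with
  | zero =>
    intro u hu
    have : u = h := hu
    subst this
    exact ⟨0, 0, le_rfl, rfl⟩
  | succ r ih =>
    rintro u (hu | ⟨w, hw, hwu⟩)
    · obtain ⟨i, j, hij, he⟩ := ih u hu
      exact ⟨i, j, by omega, he⟩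
    · obtain ⟨i, j, hij, he⟩ := ih w hw
      rcases hwu with hwu | hwu
      · have ho := out_eq h1 hwu
        cases j with
        | zero =>
          refine ⟨i + 1, 0, by omega, ?_⟩
          rw [Function.iterate_succ_apply', he]
          exact ho
        | succ j =>
          refine ⟨i, j, by omega, ?_⟩
          rw [he, Function.iterate_succ_apply, ho]
      · have ho := out_eq h1 hwu
        refine ⟨i, j + 1, by omega, ?_⟩
        rw [he, Function.iterate_succ_apply, ho]

/-- at most one stuck vertex -/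
theorem stuck_unique (h1 : ∀ u v v', H u v → H u v' → v = v') {R : ℕ}
    (hH : ballSet H h R = Set.univ) {z z' : W} (hz : ¬ ∃ v, H z v) (hz' : ¬ ∃ v, H z' v) :
    z = z' := by
  have key : ∀ z, (¬ ∃ v, H z v) → ∃ i, (out H)^[i] h = z := by
    intro z hz
    obtain ⟨i, j, _, he⟩ := orbit_meet h1 R z (by rw [hH]; trivial)
    exact ⟨i, by rw [he, iterate_stuck hz]⟩
  obtain ⟨i, hi⟩ := key z hz
  obtain ⟨i', hi'⟩ := key z' hz'
  rcases le_total i i' with h2 | h2
  · rw [← hi', show i' = (i' - i) + i by omega, Function.iterate_add_apply, hi, iterate_stuck hz]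
  · rw [← hi, show i = (i - i') + i' by omega, Function.iterate_add_apply, hi', iterate_stuck hz']

theorem forward_mem_ball (i : ℕ) : (out H)^[i] h ∈ ballSet H h i := by
  induction i with
  | zero => exact rfl
  | succ i ih =>
    rw [Function.iterate_succ_apply']
    by_cases hu : ∃ v, H ((out H)^[i] h) v
    · exact Or.inr ⟨_, ih, Or.inl (out_spec hu)⟩
    · rw [out_stuck hu]
      exact Or.inl ih

theorem mem_ball_of_iterate {r : ℕ} (j : ℕ) : ∀ u, (out H)^[j] u ∈ ballSet H h r →
    u ∈ ballSet H h (r + j) := by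
  induction j with
  | zero => intro u hu; exact hu
  | succ j ih =>
    intro u hu
    rw [Function.iterate_succ_apply] at hu
    have h2 := ih _ hu
    by_cases hu' : ∃ v, H u v
    · exact Or.inr ⟨_, h2, Or.inr (out_spec hu')⟩
    · rw [out_stuck hu'] at h2
      exact Or.inl h2

end forward

end Pool.Agent.MSL.G
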