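import Pool.Agent.MSL.G1

/-!
Module G, part 2: counting maps whose ball is isomorphic to a given graph.
-/

set_option autoImplicit false

open scoped Topology ENNReal
open Finset MeasureTheory Filter

namespace Pool.Agent.MSL.G

/-- the conditions on `(H, h)` which are necessary for being a ball of a map. -/
structure Valid {W : Type*} (R : ℕ) (H : W → W → Prop) (h : W) : Prop where
  ball : ballSet H h R = Set.univ
  out1 : ∀ u v v', H u v → H u v' → v = v'
  noloop : ∀ u, ¬ H u u
  inn : ∀ u ∈ inner H h R, ∃ v, H u v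

section count

open Classical

variable {k : ℕ} {R : ℕ} {H : Fin k → Fin k → Prop} {h : Fin k}

/-- number of vertices without out-neighbour -/
noncomputable def sN (H : Fin k → Fin k → Prop) : ℕ := #(univ.filter fun u => ¬ ∃ v, H u v)

/-- number of interior vertices -/
noncomputable def iN (H : Fin k → Fin k → Prop) (h : Fin k) (R : ℕ) : ℕ :=
  #(univ.filter fun u => u ∈ inner H h R)

/-- the allowed values at `x` -/
noncomputable def Cl (R : ℕ) (H : Fin k → Fin k → Prop) (h : Fin k) {N : ℕ} (l : Fin k → Fin N)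
    (x : Fin N) : Finset (Fin N) :=
  univ.filter fun y => y ≠ x ∧
    (∀ u, l u = x → (∀ v, l v = y ↔ H u v) ∧ (u ∈ inner H h R → ∃ w, l w = y)) ∧
    (x ∉ Set.range l → ∀ u ∈ inner H h R, l u ≠ y)

theorem isoMap_iff_Cl {N : ℕ} {l : Fin k → Fin N} (hl : Function.Injective l)
    (g : Fin N → Fin N) :
    ((∀ v, g v ≠ v) ∧ IsoMap (mapE g) (l h) R H h l) ↔ ∀ x, g x ∈ Cl R H h l x := by
  constructor
  · rintro ⟨hg, hI⟩ x
    unfold Cl
    rw [mem_filter]
    refine ⟨mem_univ _, hg x, ?_, ?_⟩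
    · rintro u rfl
      refine ⟨fun v => hI.iff u v, fun hu => ?_⟩
      exact hI.clo u hu (g (l u)) (Or.inr rfl)
    · intro hx u hu he
      exact hx (hI.clo u hu x (Or.inl he))
  · intro hC
    have hC' : ∀ x, g x ≠ x ∧
      (∀ u, l u = x → (∀ v, l v = g x ↔ H u v) ∧ (u ∈ inner H h R → ∃ w, l w = g x)) ∧
      (x ∉ Set.range l → ∀ u ∈ inner H h R, l u ≠ g x) := fun x => by
      have := hC x
      unfold Cl at this
      rw [mem_filter] at this
      exact this.2
    refine ⟨fun v => (hC' v).1, hl, rfl, fun u v => ((hC' (l u)).2.1 u rfl).1 v, ?_⟩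
    intro u hu x hx
    rcases hx with hx | hx
    · by_contra hx'
      exact (hC' x).2.2 hx' u hu hx
    · have hx2 : x = g (l u) := hx
      rw [hx2]
      exact ((hC' (l u)).2.1 u rfl).2 hu

theorem card_Cl_edge (hV : Valid R H h) {N : ℕ} {l : Fin k → Fin N} (hl : Function.Injective l)
    {u v : Fin k} (huv : H u v) : #(Cl R H h l (l u)) = 1 := by
  rw [card_eq_one]
  refine ⟨l v, ?_⟩
  ext y
  unfold Cl
  rw [mem_filter, mem_singleton]
  constructor
  · rintro ⟨_, _, h2, _⟩
    exact (((h2 u rfl).1 v).2 huv).symm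
  · rintro rfl
    refine ⟨mem_univ _, ?_, ?_, ?_⟩
    · intro he
      rw [hl he] at huv
      exact hV.noloop _ huv
    · intro u' hu'
      have := hl hu'
      subst this
      refine ⟨fun v' => ⟨fun he => ?_, fun hv' => ?_⟩, fun _ => ⟨v, rfl⟩⟩
      · rw [hl he]; exact huv
      · rw [hV.out1 _ _ _ hv' huv]
    · intro hx
      exact absurd ⟨u, rfl⟩ hx

theorem card_Cl_stuck (hV : Valid R H h) {N : ℕ} {l : Fin k → Fin N} (hl : Function.Injective l)
    {u : Fin k} (hu : ¬ ∃ v, H u v) : #(Cl R H h l (l u)) = N - k := by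
  have : Cl R H h l (l u) = (univ.image l)ᶜ := by
    ext y
    unfold Cl
    rw [mem_filter, mem_compl, mem_image]
    constructor
    · rintro ⟨_, _, h2, _⟩ ⟨v, _, hv⟩
      exact hu ⟨v, ((h2 u rfl).1 v).1 hv⟩
    · intro hy
      have hy' : ∀ v, l v ≠ y := fun v hv => hy ⟨v, mem_univ _, hv⟩
      refine ⟨mem_univ _, fun he => hy' u he.symm, ?_, ?_⟩
      · intro u' hu'
        have := hl hu'
        subst this
        refine ⟨fun v => ⟨fun he => absurd he (hy' v), fun hv => absurd ⟨v, hv⟩ hu⟩, fun hi => ?_⟩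
        exact absurd (hV.inn _ hi) hu
      · intro hx
        exact absurd ⟨u, rfl⟩ hx
  rw [this, card_compl, card_image_of_injective _ hl, card_univ, Fintype.card_fin, Fintype.card_fin]

theorem card_Cl_out {N : ℕ} {l : Fin k → Fin N} (hl : Function.Injective l)
    {x : Fin N} (hx : x ∉ Set.range l) : #(Cl R H h l x) = N - (iN H h R + 1) := by
  have : Cl R H h l x = (insert x ((univ.filter fun u => u ∈ inner H h R).image l))ᶜ := by
    ext y
    unfold Cl
    rw [mem_filter, mem_compl, mem_insert, mem_image, not_or]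
    constructor
    · rintro ⟨_, h1, _, h3⟩
      refine ⟨h1, ?_⟩
      rintro ⟨u, hu, he⟩
      rw [mem_filter] at hu
      exact h3 hx u hu.2 he
    · rintro ⟨h1, h2⟩
      refine ⟨mem_univ _, h1, ?_, ?_⟩
      · intro u hu
        exact absurd ⟨u, hu⟩ hx
      · intro _ u hu he
        exact h2 ⟨u, by rw [mem_filter]; exact ⟨mem_univ _, hu⟩, he⟩
  rw [this, card_compl, Fintype.card_fin, card_insert_of_notMem, card_image_of_injective _ hl]
  · rfl
  · intro hm
    rw [mem_image] at hm
    obtain ⟨u, _, he⟩ := hm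
    exact hx ⟨u, he⟩

theorem card_maps (hV : Valid R H h) {N : ℕ} {l : Fin k → Fin N} (hl : Function.Injective l) :
    #(univ.filter fun g : Fin N → Fin N => (∀ v, g v ≠ v) ∧ IsoMap (mapE g) (l h) R H h l) =
      (N - k) ^ sN H * (N - (iN H h R + 1)) ^ (N - k) := by
  have h1 : (univ.filter fun g : Fin N → Fin N => (∀ v, g v ≠ v) ∧
      IsoMap (mapE g) (l h) R H h l) = Fintype.piFinset (Cl R H h l) := by
    ext g
    rw [mem_filter, Fintype.mem_piFinset, isoMap_iff_Cl hl]
    simp
  rw [h1, Fintype.card_piFinset, ← prod_mul_prod_compl (univ.image l)]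
  congr 1
  · rw [prod_image (fun a _ b _ hab => hl hab)]
    have : ∀ u : Fin k, #(Cl R H h l (l u)) = if ¬ ∃ v, H u v then N - k else 1 := by
      intro u
      by_cases hu : ∃ v, H u v
      · rw [if_neg (not_not.2 hu)]
        obtain ⟨v, hv⟩ := hu
        exact card_Cl_edge hV hl hv
      · rw [if_pos hu]
        exact card_Cl_stuck hV hl hu
    rw [prod_congr rfl fun u _ => this u, prod_ite, prod_const, prod_const_one, mul_one]
    rfl
  · have : ∀ x ∈ (univ.image l)ᶜ, #(Cl R H h l x) = N - (iN H h R + 1) := by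
      intro x hx
      apply card_Cl_out hl
      rintro ⟨u, hu⟩
      rw [mem_compl, mem_image] at hx
      exact hx ⟨u, mem_univ _, hu⟩
    rw [prod_congr rfl this, prod_const, card_compl, card_image_of_injective _ hl, card_univ,
      Fintype.card_fin, Fintype.card_fin]

/-- number of injections with prescribed root -/
theorem card_inj (h : Fin k) (N : ℕ) (ρ : Fin N) :
    N * #(univ.filter fun l : Fin k → Fin N => Function.Injective l ∧ l h = ρ) =
      N.descFactorial k := by
  have h1 : #(univ.filter fun l : Fin k → Fin N => Function.Injective l) = N.descFactorial k := by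
    have := Fintype.card_embedding_eq (α := Fin k) (β := Fin N)
    rw [Fintype.card_fin, Fintype.card_fin] at this
    rw [← this, ← Fintype.card_subtype]
    exact Fintype.card_congr (Equiv.subtypeInjectiveEquivEmbedding _ _)
  have h2 : ∀ y : Fin N, #(univ.filter fun l : Fin k → Fin N => Function.Injective l ∧ l h = y) =
      #(univ.filter fun l : Fin k → Fin N => Function.Injective l ∧ l h = ρ) := by
    intro y
    refine card_bij (fun l _ => Equiv.swap y ρ ∘ l) ?_ ?_ ?_
    · intro l hl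
      rw [mem_filter] at hl ⊢
      refine ⟨mem_univ _, (Equiv.swap y ρ).injective.comp hl.2.1, ?_⟩
      simp [hl.2.2]
    · intro l _ l' _ he
      funext u
      exact (Equiv.swap y ρ).injective (congrFun he u)
    · intro l hl
      rw [mem_filter] at hl
      refine ⟨Equiv.swap y ρ ∘ l, ?_, ?_⟩
      · rw [mem_filter]
        refine ⟨mem_univ _, (Equiv.swap y ρ).injective.comp hl.2.1, ?_⟩
        simp [hl.2.2]
      · funext u
        simp
  have h4 := card_eq_sum_card_fiberwise (s := univ.filter fun l : Fin k → Fin N =>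
    Function.Injective l) (f := fun l => l h) (t := univ) (fun _ _ => by simp)
  have h3 : ∀ y ∈ (univ : Finset (Fin N)), #{l ∈ (univ.filter fun l : Fin k → Fin N =>
      Function.Injective l) | l h = y} =
      #(univ.filter fun l : Fin k → Fin N => Function.Injective l ∧ l h = ρ) := by
    intro y _
    rw [filter_filter]
    exact h2 y
  rw [← h1, h4, sum_congr rfl h3, sum_const, card_univ, Fintype.card_fin, smul_eq_mul]

/-- double counting -/
theorem card_ballIso_mul (hV : Valid R H h) (N : ℕ) (ρ : Fin N) :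
    #(univ.filter fun g : Fin N → Fin N => (∀ v, g v ≠ v) ∧ BallIso (mapE g) ρ R H h) *
      Nat.card {σ : Equiv.Perm (Fin k) // IsAut H h σ} =
    #(univ.filter fun l : Fin k → Fin N => Function.Injective l ∧ l h = ρ) *
      ((N - k) ^ sN H * (N - (iN H h R + 1)) ^ (N - k)) := by
  have hA : ∑ g : Fin N → Fin N, ∑ l : Fin k → Fin N,
      (if (∀ v, g v ≠ v) ∧ IsoMap (mapE g) ρ R H h l then 1 else 0) =
      #(univ.filter fun g : Fin N → Fin N => (∀ v, g v ≠ v) ∧ BallIso (mapE g) ρ R H h) *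
      Nat.card {σ : Equiv.Perm (Fin k) // IsAut H h σ} := by
    rw [card_filter, sum_mul]
    apply sum_congr rfl
    intro g _
    by_cases hg : (∀ v, g v ≠ v) ∧ BallIso (mapE g) ρ R H h
    · rw [if_pos hg, one_mul, ← card_isoMap_of_ballIso hg.2, Nat.card_eq_fintype_card,
        Fintype.card_subtype, card_filter]
      apply sum_congr rfl
      intro l _
      simp [hg.1]
    · rw [if_neg hg, zero_mul]
      apply sum_eq_zero
      intro l _
      rw [if_neg]
      rintro ⟨h1, h2⟩
      exact hg ⟨h1, h2.ballIso hV.ball⟩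
  have hB : ∑ l : Fin k → Fin N, ∑ g : Fin N → Fin N,
      (if (∀ v, g v ≠ v) ∧ IsoMap (mapE g) ρ R H h l then 1 else 0) =
      #(univ.filter fun l : Fin k → Fin N => Function.Injective l ∧ l h = ρ) *
      ((N - k) ^ sN H * (N - (iN H h R + 1)) ^ (N - k)) := by
    rw [card_filter, sum_mul]
    apply sum_congr rfl
    intro l _
    by_cases hl : Function.Injective l ∧ l h = ρ
    · rw [if_pos hl, one_mul, ← card_maps hV hl.1, card_filter]
      apply sum_congr rfl
      intro g _
      rw [hl.2]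
    · rw [if_neg hl, zero_mul]
      apply sum_eq_zero
      intro g _
      rw [if_neg]
      rintro ⟨h1, h2⟩
      exact hl ⟨h2.inj, h2.root⟩
  rw [← hA, ← hB, sum_comm]

theorem valid_of_map {V : Type*} {g : V → V} (hg : ∀ v, g v ≠ v) {ρ : V}
    (hB : BallIso (mapE g) ρ R H h) : Valid R H h := by
  obtain ⟨l, hl⟩ := exists_isoMap hB
  refine ⟨ball_univ_of_ballIso hB, ?_, ?_, ?_⟩
  · intro u v v' h1 h2
    rw [← hl.iff] at h1 h2
    have h1' : l v = g (l u) := h1
    have h2' : l v' = g (l u) := h2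
    exact hl.inj (h1'.trans h2'.symm)
  · intro u hu
    rw [← hl.iff] at hu
    have hu' : l u = g (l u) := hu
    exact hg _ hu'.symm
  · intro u hu
    obtain ⟨v, hv⟩ := hl.clo u hu (g (l u)) (Or.inr rfl)
    exact ⟨v, (hl.iff u v).1 hv⟩

theorem sN_le_one (hV : Valid R H h) : sN H ≤ 1 := by
  unfold sN
  rw [card_le_one]
  intro a ha b hb
  rw [mem_filter] at ha hb
  exact stuck_unique hV.out1 hV.ball ha.2 hb.2

theorem aut_pos : 0 < Nat.card {σ : Equiv.Perm (Fin k) // IsAut H h σ} := by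
  have : Nonempty {σ : Equiv.Perm (Fin k) // IsAut H h σ} := ⟨⟨1, IsAut.one H h⟩⟩
  exact Nat.card_pos

theorem iN_le : iN H h R ≤ k := by
  unfold iN
  exact (card_le_univ _).trans (by rw [Fintype.card_fin])

/-- the limit constant -/
noncomputable def cc (R : ℕ) (H : Fin k → Fin k → Prop) (h : Fin k) : ℝ :=
  if Valid R H h ∧ sN H = 1 then
    Real.exp (-(iN H h R : ℝ)) / (Nat.card {σ : Equiv.Perm (Fin k) // IsAut H h σ} : ℝ) else 0

theorem tendsto_ratio (c : ℝ) :
    Tendsto (fun n : ℕ => ((n : ℝ) + c) / ((n : ℝ) + 1)) atTop (𝓝 1) := by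
  have h1 : Tendsto (fun n : ℕ => 1 + (c - 1) * (1 / ((n : ℝ) + 1))) atTop (𝓝 (1 + (c - 1) * 0)) :=
    tendsto_const_nhds.add (tendsto_const_nhds.mul tendsto_one_div_add_atTop_nhds_zero_nat)
  rw [mul_zero, add_zero] at h1
  refine h1.congr fun n => ?_
  have : (n : ℝ) + 1 ≠ 0 := by positivity
  field_simp
  ring

theorem tendsto_desc (k : ℕ) :
    Tendsto (fun n : ℕ => ((n + 2).descFactorial k : ℝ) / ((n : ℝ) + 1) ^ k) atTop (𝓝 1) := by
  have h1 : Tendsto (fun n : ℕ => (((n : ℝ) + (3 - k)) / ((n : ℝ) + 1)) ^ k) atTop (𝓝 (1 ^ k)) :=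
    (tendsto_ratio _).pow k
  have h2 : Tendsto (fun n : ℕ => (((n : ℝ) + 2) / ((n : ℝ) + 1)) ^ k) atTop (𝓝 (1 ^ k)) :=
    (tendsto_ratio _).pow k
  rw [one_pow] at h1 h2
  refine tendsto_of_tendsto_of_tendsto_of_le_of_le' h1 h2 ?_ ?_
  · filter_upwards [eventually_ge_atTop k] with n hn
    rw [div_pow]
    apply div_le_div_of_nonneg_right _ (by positivity)
    have h3 := Nat.pow_sub_le_descFactorial (n + 2) k
    have h4 : (((n + 2 + 1 - k : ℕ) : ℝ)) ^ k ≤ ((n + 2).descFactorial k : ℝ) := by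
      exact_mod_cast h3
    have h5 : ((n + 2 + 1 - k : ℕ) : ℝ) = (n : ℝ) + (3 - k) := by
      rw [Nat.cast_sub (by omega)]
      push_cast
      ring
    rwa [h5] at h4
  · filter_upwards with n
    rw [div_pow]
    apply div_le_div_of_nonneg_right _ (by positivity)
    have h3 := Nat.descFactorial_le_pow (n + 2) k
    exact_mod_cast h3

theorem tendsto_exp_part (I k : ℕ) :
    Tendsto (fun n : ℕ => (((n : ℝ) + (1 - I)) / ((n : ℝ) + 1)) ^ (n + 2 - k)) atTop
      (𝓝 (Real.exp (-(I : ℝ)))) := by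
  have h1 : Tendsto (fun n : ℕ => (1 + (-(I : ℝ)) / ((n : ℝ) + 1)) ^ (n + 1)) atTop
      (𝓝 (Real.exp (-(I : ℝ)))) := by
    have := (Real.tendsto_one_add_div_pow_exp (-(I : ℝ))).comp (tendsto_add_atTop_nat 1)
    refine this.congr fun n => ?_
    simp
  have h2 := (tendsto_ratio (1 - I : ℝ)).pow k
  rw [one_pow] at h2
  have h3 := tendsto_ratio (1 - I : ℝ)
  have h4 := (h1.mul h3).div h2 one_ne_zero
  rw [mul_one, div_one] at h4
  refine h4.congr' ?_
  filter_upwards [eventually_ge_atTop (max k I)] with n hn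
  have hn1 : k ≤ n := (le_max_left _ _).trans hn
  have hn2 : I ≤ n := (le_max_right _ _).trans hn
  have hne : ((n : ℝ) + (1 - I)) / ((n : ℝ) + 1) ≠ 0 := by
    have : (I : ℝ) ≤ n := by exact_mod_cast hn2
    apply div_ne_zero
    · linarith
    · positivity
  have e1 : (1 + (-(I : ℝ)) / ((n : ℝ) + 1)) = ((n : ℝ) + (1 - I)) / ((n : ℝ) + 1) := by
    have : (n : ℝ) + 1 ≠ 0 := by positivity
    field_simp
    ring
  simp only [Pi.div_apply]
  rw [e1, ← pow_succ, div_eq_iff (pow_ne_zero _ hne), ← pow_add]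
  congr 1
  omega

/-- the limit of the probabilities for the random mapping -/
theorem tendsto_pn (R : ℕ) (H : Fin k → Fin k → Prop) (h : Fin k) :
    Tendsto (fun n : ℕ => (#(univ.filter fun g : Fin (n + 2) → Fin (n + 2) => (∀ v, g v ≠ v) ∧
      BallIso (mapE g) 0 R H h) : ℝ) / ((n : ℝ) + 1) ^ (n + 2)) atTop (𝓝 (cc R H h)) := by
  by_cases hV : Valid R H h
  swap
  · have : cc R H h = 0 := by
      unfold cc
      rw [if_neg]
      exact fun h1 => hV h1.1
    rw [this]
    refine tendsto_const_nhds.congr fun n => ?_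
    have : (univ.filter fun g : Fin (n + 2) → Fin (n + 2) => (∀ v, g v ≠ v) ∧
      BallIso (mapE g) 0 R H h) = ∅ := by
      rw [filter_eq_empty_iff]
      rintro g - ⟨h1, h2⟩
      exact hV (valid_of_map h1 h2)
    rw [this]
    simp
  set a := Nat.card {σ : Equiv.Perm (Fin k) // IsAut H h σ} with ha
  have hapos : (0 : ℝ) < a := by exact_mod_cast aut_pos
  have hk : 1 ≤ k := Fin.pos h
  set s := sN H with hs
  set I := iN H h R with hI
  have hIk : I ≤ k := iN_le
  have hs1 : s ≤ 1 := sN_le_one hV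
  have key : ∀ᶠ n : ℕ in atTop, (#(univ.filter fun g : Fin (n + 2) → Fin (n + 2) =>
      (∀ v, g v ≠ v) ∧ BallIso (mapE g) 0 R H h) : ℝ) / ((n : ℝ) + 1) ^ (n + 2) =
      (((n + 2).descFactorial k : ℝ) / ((n : ℝ) + 1) ^ k) * (((n : ℝ) + (2 - k)) / ((n : ℝ) + 1)) ^ s *
      (((n : ℝ) + (1 - I)) / ((n : ℝ) + 1)) ^ (n + 2 - k) * (((n : ℝ) + 1) ^ s / ((n : ℝ) + 2)) / a := by
    filter_upwards [eventually_ge_atTop k] with n hn
    have h1 := card_ballIso_mul hV (n + 2) 0
    have h2 := card_inj h (n + 2) 0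
    rw [← ha, ← hs, ← hI] at h1
    set X := #(univ.filter fun g : Fin (n + 2) → Fin (n + 2) => (∀ v, g v ≠ v) ∧
      BallIso (mapE g) 0 R H h) with hX
    set J := #(univ.filter fun l : Fin k → Fin (n + 2) => Function.Injective l ∧ l h = 0) with hJ
    have h1' : (X : ℝ) * a = J * ((((n + 2 - k : ℕ) : ℝ)) ^ s *
        (((n + 2 - (I + 1) : ℕ) : ℝ)) ^ (n + 2 - k)) := by exact_mod_cast h1
    have h2' : ((n : ℝ) + 2) * J = ((n + 2).descFactorial k : ℝ) := by exact_mod_cast h2
    have e1 : ((n + 2 - k : ℕ) : ℝ) = (n : ℝ) + (2 - k) := by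
      rw [Nat.cast_sub (by omega)]; push_cast; ring
    have e2 : ((n + 2 - (I + 1) : ℕ) : ℝ) = (n : ℝ) + (1 - I) := by
      rw [Nat.cast_sub (by omega)]; push_cast; ring
    rw [e1, e2] at h1'
    have hne1 : (n : ℝ) + 1 ≠ 0 := by positivity
    have hne2 : (n : ℝ) + 2 ≠ 0 := by positivity
    have e3 : ((n : ℝ) + 1) ^ (n + 2) = ((n : ℝ) + 1) ^ k * ((n : ℝ) + 1) ^ (n + 2 - k) := by
      rw [← pow_add]; congr 1; omega
    have hX' : (X : ℝ) = J * (((n : ℝ) + (2 - k)) ^ s * ((n : ℝ) + (1 - I)) ^ (n + 2 - k)) / a := by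
      rw [eq_div_iff hapos.ne', h1']
    rw [hX', e3, ← h2', div_pow, div_pow]
    field_simp
  rw [tendsto_congr' key]
  have t1 := tendsto_desc k
  have t2 := (tendsto_ratio (2 - k : ℝ)).pow s
  rw [one_pow] at t2
  have t3 := tendsto_exp_part I k
  have t4 : Tendsto (fun n : ℕ => ((n : ℝ) + 1) ^ s / ((n : ℝ) + 2)) atTop
      (𝓝 (if s = 1 then 1 else 0)) := by
    rcases Nat.le_one_iff_eq_zero_or_eq_one.1 hs1 with h0 | h0
    · rw [h0]
      simp only [pow_zero, zero_ne_one, if_false]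
      have : Tendsto (fun n : ℕ => (1 : ℝ) / ((n + 1 : ℕ) + 1 : ℝ)) atTop (𝓝 0) :=
        tendsto_one_div_add_atTop_nhds_zero_nat.comp (tendsto_add_atTop_nat 1)
      refine this.congr fun n => ?_
      push_cast
      congr 1
      ring
    · rw [h0]
      simp only [pow_one, if_true]
      have := (tendsto_ratio (2 : ℝ)).inv₀ one_ne_zero
      rw [inv_one] at this
      refine this.congr fun n => ?_
      rw [inv_div]
  have t5 := (((t1.mul t2).mul t3).mul t4).div_const (a : ℝ)
  refine t5.trans (le_of_eq ?_)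
  congr 1
  unfold cc
  rw [← ha, ← hI, ← hs]
  by_cases h0 : s = 1
  · rw [if_pos h0, if_pos ⟨hV, h0⟩]
    ring
  · rw [if_neg h0, if_neg (fun h1 => h0 h1.2)]
    ring

end count

end Pool.Agent.MSL.G
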