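import Pool.Agent.MSL.G2

/-!
Module G, part 3: the infinite tree.
-/

set_option autoImplicit false

open scoped Topology ENNReal
open Finset MeasureTheory Filter

namespace Pool.Agent.MSL.G

section tree

variable {ξ : Node → ℕ}

theorem par_ne (x : Node) : x ≠ par x := by
  obtain ⟨i, w⟩ := x
  cases w with
  | nil =>
    intro h
    have h1 : i = i + 1 := congrArg Prod.fst h
    omega
  | cons a w =>
    intro h
    have h1 : (a :: w).length = w.length := congrArg (fun y : Node => y.2.length) h
    simp at h1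

theorem valid_par {x : Node} (hx : validL ξ x.1 x.2) : validL ξ (par x).1 (par x).2 := by
  obtain ⟨i, w⟩ := x
  cases w with
  | nil => trivial
  | cons a w => exact hx.2

theorem mem_ball_TE (r : ℕ) : ∀ x : Node, x ∈ ballSet (TE ξ) (0, []) r ↔
    validL ξ x.1 x.2 ∧ x.1 + x.2.length ≤ r := by
  induction r with
  | zero =>
    rintro ⟨i, w⟩
    show (i, w) = ((0, []) : Node) ↔ _
    constructor
    · intro h
      rw [h]
      exact ⟨trivial, le_rfl⟩
    · rintro ⟨_, h⟩
      have h' : i + w.length ≤ 0 := h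
      have h1 : i = 0 := by omega
      have h2 : w = [] := List.eq_nil_of_length_eq_zero (by omega)
      rw [h1, h2]
  | succ r ih =>
    intro x
    constructor
    · rintro (hx | ⟨y, hy, hxy | hxy⟩)
      · rw [ih] at hx
        exact ⟨hx.1, by omega⟩
      · rw [ih] at hy
        rw [hxy.2]
        refine ⟨valid_par hy.1, ?_⟩
        obtain ⟨i, w⟩ := y
        cases w with
        | nil =>
          have := hy.2
          simp only [par, List.length_nil] at this ⊢
          omega
        | cons a w =>
          have := hy.2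
          simp only [par, List.length_cons] at this ⊢
          omega
      · rw [ih] at hy
        refine ⟨hxy.1, ?_⟩
        obtain ⟨i, w⟩ := x
        have h2 := hxy.2
        rw [h2] at hy
        cases w with
        | nil =>
          have := hy.2
          simp only [par, List.length_nil] at this ⊢
          omega
        | cons a w =>
          have := hy.2
          simp only [par, List.length_cons] at this ⊢
          omega
    · rintro ⟨hv, hr⟩
      rcases Nat.lt_or_ge (x.1 + x.2.length) (r + 1) with h1 | h1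
      · exact Or.inl ((ih x).2 ⟨hv, by omega⟩)
      · right
        obtain ⟨i, w⟩ := x
        cases w with
        | nil =>
          have hi : i = r + 1 := by
            simp only [List.length_nil] at hr h1
            omega
          subst hi
          refine ⟨(r, []), (ih _).2 ⟨trivial, le_rfl⟩, Or.inl ⟨trivial, rfl⟩⟩
        | cons a w =>
          refine ⟨(i, w), (ih _).2 ⟨hv.2, ?_⟩, Or.inr ⟨hv, rfl⟩⟩
          simp only [List.length_cons] at hr h1 ⊢
          omega

end tree

section iso

open Classical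

variable {ξ : Node → ℕ} {k R : ℕ} {H : Fin k → Fin k → Prop} {h : Fin k} {l : Fin k → Node}

/-- the image of the spine -/
def spine (R : ℕ) (H : Fin k → Fin k → Prop) (h : Fin k) : Set (Fin k) :=
  {u | ∃ i ≤ R, (out H)^[i] h = u}

/-- the number of off-spine children -/
noncomputable def dg (R : ℕ) (H : Fin k → Fin k → Prop) (h v : Fin k) : ℕ :=
  #(univ.filter fun u => H u v ∧ u ∉ spine R H h)

theorem l_mem (hl : IsoMap (TE ξ) (0, []) R H h l) (hH : ballSet H h R = Set.univ) (u : Fin k) :
    validL ξ (l u).1 (l u).2 ∧ (l u).1 + (l u).2.length ≤ R := by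
  rw [← mem_ball_TE, hl.range hH]
  exact ⟨u, rfl⟩

theorem H_iff (hl : IsoMap (TE ξ) (0, []) R H h l) (hH : ballSet H h R = Set.univ) (u v : Fin k) :
    H u v ↔ l v = par (l u) := by
  rw [← hl.iff]
  exact ⟨fun h => h.2, fun h => ⟨(l_mem hl hH u).1, h⟩⟩

theorem valid_of_tree (hl : IsoMap (TE ξ) (0, []) R H h l) (hH : ballSet H h R = Set.univ) :
    Valid R H h := by
  refine ⟨hH, ?_, ?_, ?_⟩
  · intro u v v' h1 h2
    rw [H_iff hl hH] at h1 h2
    exact hl.inj (h1.trans h2.symm)
  · intro u hu
    rw [H_iff hl hH] at hu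
    exact par_ne _ hu
  · intro u hu
    obtain ⟨v, hv⟩ := hl.clo u hu (par (l u)) (Or.inr ⟨(l_mem hl hH u).1, rfl⟩)
    exact ⟨v, (H_iff hl hH u v).2 hv⟩

theorem spine_eq (hl : IsoMap (TE ξ) (0, []) R H h l) (hH : ballSet H h R = Set.univ) :
    ∀ i ≤ R, l ((out H)^[i] h) = (i, []) := by
  intro i
  induction i with
  | zero => intro _; exact hl.root
  | succ i ih =>
    intro hi
    have h1 := ih (by omega)
    have h2 : (out H)^[i] h ∈ inner H h R := ballSet_subset_inner H h hi (forward_mem_ball i)
    have h3 := out_spec ((valid_of_tree hl hH).inn _ h2)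
    rw [H_iff hl hH, h1] at h3
    rw [Function.iterate_succ_apply', h3]
    rfl

theorem mem_spine_iff (hl : IsoMap (TE ξ) (0, []) R H h l) (hH : ballSet H h R = Set.univ)
    (u : Fin k) : u ∈ spine R H h ↔ (l u).2 = [] := by
  constructor
  · rintro ⟨i, hi, rfl⟩
    rw [spine_eq hl hH i hi]
  · intro hu
    have h1 := (l_mem hl hH u).2
    rw [hu, List.length_nil, add_zero] at h1
    refine ⟨(l u).1, h1, hl.inj ?_⟩
    rw [spine_eq hl hH _ h1]
    exact Prod.ext rfl hu.symm

theorem sN_tree (hl : IsoMap (TE ξ) (0, []) R H h l) (hH : ballSet H h R = Set.univ) :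
    sN H = 1 := by
  refine le_antisymm (sN_le_one (valid_of_tree hl hH)) ?_
  unfold sN
  rw [Nat.one_le_iff_ne_zero, Ne, card_eq_zero, filter_eq_empty_iff]
  intro h1
  apply h1 (mem_univ ((out H)^[R] h))
  rintro ⟨v, hv⟩
  rw [H_iff hl hH, spine_eq hl hH R le_rfl] at hv
  have h2 := (l_mem hl hH v).2
  rw [hv] at h2
  simp only [par, List.length_nil] at h2
  omega

theorem off_spine (hl : IsoMap (TE ξ) (0, []) R H h l) (hH : ballSet H h R = Set.univ)
    {u : Fin k} (hu : u ∉ spine R H h) : ∃ v, v ∈ inner H h R ∧ H u v ∧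
      ∃ a < ξ (l v), l u = ((l v).1, a :: (l v).2) := by
  rw [mem_spine_iff hl hH] at hu
  have h1 := l_mem hl hH u
  rcases hx : l u with ⟨i, w⟩
  cases w with
  | nil => rw [hx] at hu; exact absurd rfl hu
  | cons a w =>
    rw [hx] at h1
    have h2 : i + w.length ≤ R - 1 := by
      have := h1.2
      simp only [List.length_cons] at this
      omega
    have hR : 1 ≤ R := by
      have := h1.2
      simp only [List.length_cons] at this
      omega
    have h3 : ((i, w) : Node) ∈ ballSet (TE ξ) (0, []) (R - 1) :=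
      (mem_ball_TE _ _).2 ⟨h1.1.2, h2⟩
    rw [hl.ball (R - 1) (by omega)] at h3
    obtain ⟨v, hv, he⟩ := h3
    refine ⟨v, ballSet_subset_inner H h (by omega) hv, ?_, a, ?_, ?_⟩
    · rw [H_iff hl hH, he, hx]
      rfl
    · rw [he]
      exact h1.1.1
    · simp [he]

theorem xi_eq (hl : IsoMap (TE ξ) (0, []) R H h l) (hH : ballSet H h R = Set.univ)
    {v : Fin k} (hv : v ∈ inner H h R) : ξ (l v) = dg R H h v := by
  have hV := valid_of_tree hl hH
  rw [← card_range (ξ (l v))]
  unfold dg
  symm
  refine card_bij (fun u _ => (l u).2.headI) ?_ ?_ ?_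
  · intro u hu
    rw [mem_filter] at hu
    obtain ⟨v', _, h1, a, ha, he⟩ := off_spine hl hH hu.2.2
    have : v' = v := hV.out1 _ _ _ h1 hu.2.1
    subst this
    rw [he, mem_range]
    exact ha
  · intro u hu u' hu' heq
    rw [mem_filter] at hu hu'
    obtain ⟨v1, _, h1, a, ha, he⟩ := off_spine hl hH hu.2.2
    have : v1 = v := hV.out1 _ _ _ h1 hu.2.1
    subst this
    obtain ⟨v2, _, h2, a', ha', he'⟩ := off_spine hl hH hu'.2.2
    have : v2 = v1 := hV.out1 _ _ _ h2 hu'.2.1
    subst this
    apply hl.inj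
    have heq' : (l u).2.headI = (l u').2.headI := heq
    rw [he, he'] at heq'
    have h3 : a = a' := heq'
    rw [he, he', h3]
  · intro a ha
    rw [mem_range] at ha
    have h1 : TE ξ ((l v).1, a :: (l v).2) (l v) := ⟨⟨ha, (l_mem hl hH v).1⟩, rfl⟩
    obtain ⟨u, hu⟩ := hl.clo v hv _ (Or.inl h1)
    refine ⟨u, ?_, ?_⟩
    · rw [mem_filter, mem_spine_iff hl hH]
      refine ⟨mem_univ _, ?_, ?_⟩
      · rw [← hl.iff, hu]
        exact h1
      · rw [hu]
        simp
    · rw [hu]
      rfl

/-- the labelings compatible with `(H, h)` -/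
structure Compat (R : ℕ) (H : Fin k → Fin k → Prop) (h : Fin k) (l : Fin k → Node) : Prop where
  inj : Function.Injective l
  sp : ∀ i ≤ R, l ((out H)^[i] h) = (i, [])
  off : ∀ u, u ∉ spine R H h → ∃ v, v ∈ inner H h R ∧ H u v ∧
    ∃ a < dg R H h v, l u = ((l v).1, a :: (l v).2)

theorem compat_of_iso (hl : IsoMap (TE ξ) (0, []) R H h l) (hH : ballSet H h R = Set.univ) :
    Compat R H h l := by
  refine ⟨hl.inj, spine_eq hl hH, ?_⟩
  intro u hu
  obtain ⟨v, h1, h2, a, ha, he⟩ := off_spine hl hH hu
  refine ⟨v, h1, h2, a, ?_, he⟩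
  rwa [xi_eq hl hH h1] at ha

theorem Compat.off' (hV : Valid R H h) (hl : Compat R H h l) {u v : Fin k} (huv : H u v)
    (hu : u ∉ spine R H h) : (l u).2.headI < dg R H h v ∧
      l u = ((l v).1, (l u).2.headI :: (l v).2) := by
  obtain ⟨v', _, h2, a, ha, he⟩ := hl.off u hu
  have : v' = v := hV.out1 _ _ _ h2 huv
  subst this
  have h3 : (l u).2.headI = a := by rw [he]; rfl
  rw [h3]
  exact ⟨ha, he⟩

/-- the data of a compatible labeling -/
noncomputable def Phi (hV : Valid R H h) (l : {l : Fin k → Node // Compat R H h l}) :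
    (v : {v : Fin k // v ∈ inner H h R}) →
      ({u : Fin k // H u v.1 ∧ u ∉ spine R H h} ↪ Fin (dg R H h v.1)) :=
  fun v => ⟨fun u => ⟨(l.1 u.1).2.headI, (l.2.off' hV u.2.1 u.2.2).1⟩, by
    intro u u' huu
    have h1 : (l.1 u.1).2.headI = (l.1 u'.1).2.headI := congrArg Fin.val huu
    apply Subtype.ext
    apply l.2.inj
    rw [(l.2.off' hV u.2.1 u.2.2).2, (l.2.off' hV u'.2.1 u'.2.2).2, h1]⟩

theorem Phi_inj (hV : Valid R H h) : Function.Injective (Phi hV) := by
  intro l l' hll
  apply Subtype.ext
  have key : ∀ n u, (l.1 u).2.length = n → l.1 u = l'.1 u := by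
    intro n
    induction n with
    | zero =>
      intro u hu
      by_cases hs : u ∈ spine R H h
      · obtain ⟨i, hi, rfl⟩ := hs
        rw [l.2.sp i hi, l'.2.sp i hi]
      · obtain ⟨v, _, _, a, _, he⟩ := l.2.off u hs
        rw [he] at hu
        simp at hu
    | succ n ih =>
      intro u hu
      by_cases hs : u ∈ spine R H h
      · obtain ⟨i, hi, rfl⟩ := hs
        rw [l.2.sp i hi, l'.2.sp i hi]
      · obtain ⟨v, hv, huv, a, _, he⟩ := l.2.off u hs
        have h1 := (l.2.off' hV huv hs).2
        have h2 := (l'.2.off' hV huv hs).2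
        have h3 : (l.1 v).2.length = n := by
          rw [he] at hu
          simpa using hu
        have h4 := ih v h3
        have h5 : (l.1 u).2.headI = (l'.1 u).2.headI := by
          have h6 := congrFun hll ⟨v, hv⟩
          have h7 := DFunLike.congr_fun h6 ⟨u, huv, hs⟩
          exact congrArg Fin.val h7
        rw [h1, h2, h4, h5]
  funext u
  exact key _ u rfl



theorem finite_compat (hV : Valid R H h) : Finite {l : Fin k → Node // Compat R H h l} :=
  Finite.of_injective _ (Phi_inj hV)

theorem card_compat (hV : Valid R H h) : Nat.card {l : Fin k → Node // Compat R H h l} ≤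
    ∏ v ∈ univ.filter (fun v => v ∈ inner H h R), (dg R H h v).factorial := by
  have h1 := Nat.card_le_card_of_injective _ (Phi_inj hV)
  refine h1.trans (le_of_eq ?_)
  rw [Nat.card_eq_fintype_card, Fintype.card_pi, prod_subtype (p := fun v => v ∈ inner H h R)
    (univ.filter fun v => v ∈ inner H h R) (by simp) (fun v => (dg R H h v).factorial)]
  apply Fintype.prod_congr
  rintro ⟨v, hv⟩
  rw [Fintype.card_embedding_eq, Fintype.card_fin, Fintype.card_subtype]
  exact Nat.descFactorial_self _

/-- the cylinder of `l` -/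
def cyl (R : ℕ) (H : Fin k → Fin k → Prop) (h : Fin k) (l : Fin k → Node) : Set (Node → ℕ) :=
  {ξ | ∀ v ∈ inner H h R, ξ (l v) = dg R H h v}

theorem cyl_eq : cyl R H h l =
    Set.pi (((univ.filter fun v => v ∈ inner H h R).image l : Finset Node) : Set Node)
      (fun x => {n | ∀ v ∈ inner H h R, l v = x → n = dg R H h v}) := by
  ext ξ
  simp only [cyl, Set.mem_ofPred_eq, Set.mem_pi, coe_image, Set.mem_image, coe_filter, mem_univ,
    true_and]
  constructor
  · rintro hc x ⟨v, hv, rfl⟩ v' hv' he
    rw [← he]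
    exact hc v' hv'
  · intro hc v hv
    exact hc (l v) ⟨v, hv, rfl⟩ v hv rfl

theorem measurableSet_cyl : MeasurableSet (cyl R H h l) := by
  unfold cyl
  rw [Set.ofPred_forall]
  refine MeasurableSet.iInter fun v => ?_
  rw [Set.ofPred_forall]
  refine MeasurableSet.iInter fun _ => ?_
  have h1 : Measurable fun ξ : Node → ℕ => ξ (l v) := measurable_pi_apply (l v)
  exact h1 (measurableSet_singleton (dg R H h v))

theorem measure_cyl (hl : Function.Injective l) : treeM (cyl R H h l) =
    ∏ v ∈ univ.filter (fun v => v ∈ inner H h R),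
      ENNReal.ofReal (Real.exp (-1) / (dg R H h v).factorial) := by
  rw [cyl_eq]
  unfold treeM
  rw [Measure.infinitePi_pi _ (fun _ _ => MeasurableSet.of_discrete),
    prod_image (fun a _ b _ hab => hl hab)]
  apply prod_congr rfl
  intro v hv
  rw [mem_filter] at hv
  have : {n | ∀ v' ∈ inner H h R, l v' = l v → n = dg R H h v'} = {dg R H h v} := by
    ext n
    simp only [Set.mem_ofPred_eq, Set.mem_singleton_iff]
    constructor
    · intro h1
      exact h1 v hv.2 rfl
    · rintro rfl v' _ he
      rw [hl he]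
  rw [this, ProbabilityTheory.poissonMeasure_singleton]
  congr 1
  simp

theorem aut_mul_le (hV : Valid R H h) :
    (Nat.card {σ : Equiv.Perm (Fin k) // IsAut H h σ} : ℝ≥0∞) *
      treeM {ξ | BallIso (TE ξ) (0, []) R H h} ≤ ENNReal.ofReal (Real.exp (-(iN H h R : ℝ))) := by
  have hfin := finite_compat hV
  have : Fintype {l : Fin k → Node // Compat R H h l} := Fintype.ofFinite _
  set a := Nat.card {σ : Equiv.Perm (Fin k) // IsAut H h σ} with ha
  have h1 : {ξ | BallIso (TE ξ) (0, []) R H h} ⊆ {ξ : Node → ℕ | (a : ℝ≥0∞) ≤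
      ∑ l : {l : Fin k → Node // Compat R H h l}, (cyl R H h l.1).indicator 1 ξ} := by
    intro ξ hξ
    have hξ' : BallIso (TE ξ) (0, []) R H h := hξ
    have h2 := card_isoMap_of_ballIso hξ'
    rw [← ha] at h2
    show (a : ℝ≥0∞) ≤ _
    have h3 : ∑ l : {l : Fin k → Node // Compat R H h l},
        (cyl R H h l.1).indicator (1 : (Node → ℕ) → ℝ≥0∞) ξ =
        (#(univ.filter fun l : {l : Fin k → Node // Compat R H h l} => ξ ∈ cyl R H h l.1) : ℝ≥0∞) := by
      rw [card_filter]
      push_cast
      apply sum_congr rfl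
      intro l _
      by_cases hm : ξ ∈ cyl R H h l.1
      · simp [hm]
      · simp [hm]
    rw [h3]
    have h4 : a ≤ #(univ.filter fun l : {l : Fin k → Node // Compat R H h l} =>
        ξ ∈ cyl R H h l.1) := by
      rw [← h2, ← Fintype.card_subtype, ← Nat.card_eq_fintype_card]
      refine Nat.card_le_card_of_injective (fun l => ⟨⟨l.1, compat_of_iso l.2 hV.ball⟩,
        fun v hv => xi_eq l.2 hV.ball hv⟩) ?_
      intro l l' he
      apply Subtype.ext
      exact congrArg (fun x => x.1.1) he
    exact_mod_cast h4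
  have hmeas : Measurable fun ξ : Node → ℕ => ∑ l : {l : Fin k → Node // Compat R H h l},
      (cyl R H h l.1).indicator (1 : (Node → ℕ) → ℝ≥0∞) ξ :=
    Finset.measurable_sum _ fun l _ => measurable_one.indicator measurableSet_cyl
  calc (a : ℝ≥0∞) * treeM {ξ | BallIso (TE ξ) (0, []) R H h}
      ≤ (a : ℝ≥0∞) * treeM {ξ : Node → ℕ | (a : ℝ≥0∞) ≤
      ∑ l : {l : Fin k → Node // Compat R H h l}, (cyl R H h l.1).indicator 1 ξ} := by
        gcongr
    _ ≤ ∫⁻ ξ, ∑ l : {l : Fin k → Node // Compat R H h l}, (cyl R H h l.1).indicator 1 ξ ∂treeM :=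
        mul_meas_ge_le_lintegral hmeas _
    _ = ∑ l : {l : Fin k → Node // Compat R H h l}, treeM (cyl R H h l.1) := by
        rw [lintegral_finsetSum _ fun l _ => measurable_one.indicator measurableSet_cyl]
        apply sum_congr rfl
        intro l _
        rw [lintegral_indicator_one measurableSet_cyl]
    _ = (Fintype.card {l : Fin k → Node // Compat R H h l} : ℝ≥0∞) *
        ∏ v ∈ univ.filter (fun v => v ∈ inner H h R),
          ENNReal.ofReal (Real.exp (-1) / (dg R H h v).factorial) := by
        rw [sum_congr rfl fun l _ => measure_cyl l.2.inj, sum_const, card_univ, nsmul_eq_mul]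
    _ ≤ (∏ v ∈ univ.filter (fun v => v ∈ inner H h R), (dg R H h v).factorial : ℕ) *
        ∏ v ∈ univ.filter (fun v => v ∈ inner H h R),
          ENNReal.ofReal (Real.exp (-1) / (dg R H h v).factorial) := by
        have := card_compat hV
        rw [Nat.card_eq_fintype_card] at this
        gcongr
    _ = ENNReal.ofReal (Real.exp (-(iN H h R : ℝ))) := by
        push_cast
        rw [← prod_mul_distrib]
        have h5 : ∀ v ∈ univ.filter (fun v => v ∈ inner H h R),
            ((dg R H h v).factorial : ℝ≥0∞) *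
              ENNReal.ofReal (Real.exp (-1) / (dg R H h v).factorial) =
            ENNReal.ofReal (Real.exp (-1)) := by
          intro v _
          rw [← ENNReal.ofReal_natCast, ← ENNReal.ofReal_mul (by positivity)]
          congr 1
          have : ((dg R H h v).factorial : ℝ) ≠ 0 := by positivity
          field_simp
        rw [prod_congr rfl h5, prod_const, ← ENNReal.ofReal_pow (Real.exp_pos _).le,
          ← Real.exp_nat_mul]
        congr 2
        unfold iN
        ring

theorem measure_le_cc (R : ℕ) (H : Fin k → Fin k → Prop) (h : Fin k) :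
    (treeM {ξ | BallIso (TE ξ) (0, []) R H h}).toReal ≤ cc R H h := by
  by_cases hV : Valid R H h ∧ sN H = 1
  · unfold cc
    rw [if_pos hV]
    have hpos : (0 : ℝ) < Nat.card {σ : Equiv.Perm (Fin k) // IsAut H h σ} := by
      exact_mod_cast aut_pos
    rw [le_div_iff₀ hpos, mul_comm]
    have h1 := ENNReal.toReal_mono ENNReal.ofReal_ne_top (aut_mul_le hV.1)
    rwa [ENNReal.toReal_mul, ENNReal.toReal_natCast, ENNReal.toReal_ofReal (Real.exp_pos _).le] at h1
  · have : {ξ : Node → ℕ | BallIso (TE ξ) (0, []) R H h} = ∅ := by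
      rw [Set.eq_empty_iff_forall_notMem]
      intro ξ hξ
      obtain ⟨l, hl⟩ := exists_isoMap hξ
      have hH := ball_univ_of_ballIso hξ
      exact hV ⟨valid_of_tree hl hH, sN_tree hl hH⟩
    rw [this]
    unfold cc
    rw [if_neg hV]
    simp

end iso

end Pool.Agent.MSL.G
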