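import Pool.Agent.MSL.ABAna

/-!
Facts A and B of the star model.
-/

set_option autoImplicit false
set_option linter.unusedVariables false
set_option linter.unusedSectionVars false
set_option linter.unnecessarySimpa false

open Finset Filter Topology

namespace Pool.Agent.MSL.AB

variable {n : ℕ} {A : ℕ} {m : ℝ} {ν : ℕ → ℝ}

/-! ### small closed sets -/

lemma small_closed (hν : IsLaw A m ν) (hA : A ≤ n) (hn : 0 < n) (u : Fin n) {k0 : ℕ}
    (hk0 : k0 ^ 4 ≤ n) (hk1 : 1 ≤ k0) :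
    PR (star n ν) (fun U => ∃ Λ : Finset (Fin n), u ∈ Λ ∧ {u} ∪ UU U Λ = Λ ∧ #Λ < k0) ≤
      (1 + m ^ 2) / k0 := by
  have hW := isW_star hν hA
  have hnR : (0:ℝ) < n := by exact_mod_cast hn
  have hk0R : (0:ℝ) < k0 := by exact_mod_cast hk1
  have hk0n : k0 ≤ n := by
    calc k0 = k0 ^ 1 := (pow_one _).symm
      _ ≤ k0 ^ 4 := Nat.pow_le_pow_right hk1 (by norm_num)
      _ ≤ n := hk0
  have h1 : PR (star n ν) (fun U => ∃ Λ : Finset (Fin n), u ∈ Λ ∧ {u} ∪ UU U Λ = Λ ∧ #Λ < k0) ≤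
      ∑ k ∈ (range k0).erase 0, PR (star n ν) (fun U => ∃ Λ : Finset (Fin n), u ∈ Λ ∧ #Λ = k ∧
        {u} ∪ UU U Λ = Λ) := by
    refine hW.PR_le_sum _ _ (fun k U => ∃ Λ : Finset (Fin n), u ∈ Λ ∧ #Λ = k ∧
        {u} ∪ UU U Λ = Λ) ?_
    rintro U ⟨Λ, h1, h2, h3⟩
    exact ⟨#Λ, mem_erase.mpr ⟨(card_pos.mpr ⟨u, h1⟩).ne', mem_range.mpr h3⟩, Λ, h1, rfl, h2⟩
  have h2 : ∀ k ∈ (range k0).erase 0, PR (star n ν) (fun U => ∃ Λ : Finset (Fin n), u ∈ Λ ∧
      #Λ = k ∧ {u} ∪ UU U Λ = Λ) ≤ (k0 : ℝ) ^ 2 * (1 + m ^ 2) / n := by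
    intro k hk
    obtain ⟨hk2, hk3⟩ := mem_erase.mp hk
    rw [mem_range] at hk3
    have hkk : (k:ℝ) ≤ k0 := by exact_mod_cast hk3.le
    refine (PR_closed_small hν hA hn u (k := k) (by omega) (by omega)
      (τ := (k:ℝ) ^ 2 * m ^ 2 / (2 * n)) (by positivity) ?_).trans ?_
    · intro Λ hΛ
      refine le_trans (hW.PR_mono ?_) (hΛ ▸ collision hν hA hn Λ)
      intro U hU
      omega
    · have e1 : (k:ℝ) / n + (k:ℝ) ^ 2 * m ^ 2 / (2 * n) = (k + (k:ℝ) ^ 2 * m ^ 2 / 2) / n := by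
        field_simp
      rw [e1]
      refine div_le_div_of_nonneg_right ?_ hnR.le
      have hk1' : (1:ℝ) ≤ k0 := by exact_mod_cast hk1
      have e2 : (k:ℝ) ≤ (k0:ℝ) ^ 2 := by nlinarith
      have e3 : (k:ℝ) ^ 2 ≤ (k0:ℝ) ^ 2 := by
        have : (0:ℝ) ≤ k := by positivity
        nlinarith
      have e4 : (k:ℝ) ^ 2 * m ^ 2 ≤ (k0:ℝ) ^ 2 * m ^ 2 :=
        mul_le_mul_of_nonneg_right e3 (by positivity)
      have e5 : 0 ≤ (k0:ℝ) ^ 2 * m ^ 2 := by positivity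
      linarith
  calc _ ≤ _ := h1
    _ ≤ ∑ k ∈ (range k0).erase 0, (k0 : ℝ) ^ 2 * (1 + m ^ 2) / n := Finset.sum_le_sum h2
    _ = #((range k0).erase 0) * ((k0 : ℝ) ^ 2 * (1 + m ^ 2) / n) := by
        rw [Finset.sum_const, nsmul_eq_mul]
    _ ≤ k0 * ((k0 : ℝ) ^ 2 * (1 + m ^ 2) / n) := by
        refine mul_le_mul_of_nonneg_right ?_ (by positivity)
        have := card_le_card (erase_subset 0 (range k0))
        rw [card_range] at this
        exact_mod_cast this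
    _ ≤ (1 + m ^ 2) / k0 := by
        rw [mul_div_assoc', div_le_div_iff₀ hnR hk0R]
        have h4 : (k0:ℝ) ^ 4 ≤ n := by exact_mod_cast hk0
        have : (0:ℝ) ≤ 1 + m ^ 2 := by positivity
        nlinarith

lemma PR_false {ι α : Type*} [Fintype ι] [DecidableEq ι] [Fintype α] {w : ι → α → ℝ}
    (E : (ι → α) → Prop) (h : ∀ U, ¬ E U) : PR w E = 0 := by
  unfold PR Ex
  refine Finset.sum_eq_zero (fun U _ => ?_)
  show pw w U * one (E U) = 0
  rw [one_neg (h U), mul_zero]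

/-! ### slow growth -/

/-- the event of Lemma 1. -/
def EvP (B : Finset (Fin n)) (k y : ℕ) (U : Fin n → Finset (Fin n)) : Prop :=
  ∃ Λ Λ' : Finset (Fin n), B ⊆ Λ ∧ Λ' ⊆ Λ ∧ #Λ = k ∧ #Λ' = k - y ∧ B ∪ UU U Λ' = Λ

/-- slow growth to a set of size `k`. -/
def EvK (B : Finset (Fin n)) (T η : ℝ) (k : ℕ) (U : Fin n → Finset (Fin n)) : Prop :=
  (k:ℝ) < T ∧ ∃ Λ Λ' : Finset (Fin n), B ⊆ Λ ∧ Λ' ⊆ Λ ∧ #Λ = k ∧ ((k:ℝ) - #Λ' < η * k) ∧
    B ∪ UU U Λ' = Λ

/-- large closed set of size `k`. -/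
def EvL (B : Finset (Fin n)) (D : ℝ) (k : ℕ) (U : Fin n → Finset (Fin n)) : Prop :=
  D ≤ k ∧ EvP B k 0 U

lemma slow_growth (hν : IsLaw A m ν) (hA : A ≤ n) (hn : 0 < n) (u : Fin n) {κ θ η T : ℝ}
    (hκ : 0 < κ) (hη0 : 0 < η) (hη : η * (1 + κ) ≤ κ / 2) (hθ : θ = κ ^ 2 / (16 * (A:ℝ) ^ 2))
    (hT : T ≤ n)
    (hlow : ∀ x, 0 ≤ x → x ≤ T / n → (1 + κ) * x ≤ 1 - Real.exp (-(m * x)))
    (hch : ∀ k Y : ℕ, (Y : ℝ) ≤ η * k → ∑ y ∈ range (Y+1), (k.choose y : ℝ) ≤ Real.exp (θ * k))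
    (k0 : ℕ) (hk1 : 1 ≤ k0) :
    PR (star n ν) (fun U => ∃ Λ Λ' : Finset (Fin n), u ∈ Λ ∧ Λ' ⊆ Λ ∧ {u} ∪ UU U Λ' = Λ ∧
      k0 ≤ #Λ ∧ (#Λ:ℝ) < T ∧ (#Λ:ℝ) - #Λ' < η * #Λ) ≤
      2 * (Real.exp (-θ) ^ k0 / (1 - Real.exp (-θ))) := by
  have hW := isW_star hν hA
  obtain ⟨hm1, hmA⟩ := mean_range hν
  have hnR : (0:ℝ) < n := by exact_mod_cast hn
  have hAn : (A:ℝ) ≤ n := by exact_mod_cast hA
  have hApos : (0:ℝ) < A := by linarith
  have hθ0 : 0 < θ := by rw [hθ]; positivity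
  have hη1 : η < 1 := by nlinarith
  -- for fixed k and y
  have hky : ∀ k y : ℕ, 1 ≤ k → (k:ℝ) < T → (y:ℝ) ≤ η * k →
      PR (star n ν) (EvP {u} k y) ≤ (k.choose y) * 2 * Real.exp (-(2 * θ * k)) := by
    intro k y hk1' hkT hy
    have hkR : (1:ℝ) ≤ k := by exact_mod_cast hk1'
    have hyk : y < k := by
      have : (y:ℝ) < k := by nlinarith
      exact_mod_cast this
    have hkn : k ≤ n := by
      have : (k:ℝ) < n := lt_of_lt_of_le hkT hT
      exact_mod_cast this.le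
    have h := PR_pair_le hν hA hn ({u} : Finset (Fin n)) (k := k) (y := y) hkn hyk.le
      (τ := Real.exp (-(2 * θ * k))) (Real.exp_pos _).le ?_
    · rw [card_singleton, pow_one] at h
      exact h
    intro Λ' hΛ' j hj
    have hs : (#Λ' : ℝ) = k - y := by rw [hΛ', Nat.cast_sub hyk.le]
    have hs0 : (0:ℝ) < #Λ' := by
      rw [hs]
      have : (y:ℝ) < k := by exact_mod_cast hyk
      linarith
    have h1 : (1 - m / n) ^ #Λ' ≤ Real.exp (-(m * (#Λ' / n))) :=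
      one_sub_pow_exp hn (by linarith) (by linarith) _
    have h2 : (1 + κ) * (#Λ' / n) ≤ 1 - Real.exp (-(m * (#Λ' / n))) := by
      refine hlow _ (by positivity) ?_
      refine div_le_div_of_nonneg_right ?_ hnR.le
      rw [hs]
      have : (0:ℝ) ≤ y := by positivity
      linarith
    have h3 : (1 + κ) * #Λ' ≤ n * (1 - (1 - m / n) ^ #Λ') := by
      have h4 : (1 + κ) * (#Λ' / n) ≤ 1 - (1 - m / n) ^ #Λ' := by linarith
      have h5 := mul_le_mul_of_nonneg_left h4 hnR.le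
      have h6 : (n:ℝ) * ((1 + κ) * (#Λ' / n)) = (1 + κ) * #Λ' := by field_simp
      rwa [h6] at h5
    have h7 : (k:ℝ) + κ / 2 * k ≤ n * (1 - (1 - m / n) ^ #Λ') := by
      refine le_trans ?_ h3
      rw [hs]
      have h8 := mul_le_mul_of_nonneg_right hη (show (0:ℝ) ≤ k by linarith)
      have h9 : (1 + κ) * (y:ℝ) ≤ (1 + κ) * (η * k) := mul_le_mul_of_nonneg_left hy (by linarith)
      nlinarith
    refine le_trans (hW.PR_mono ?_) ((tail_low hν hA hn Λ' (δ := κ / 2 * k) (by positivity)).trans ?_)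
    · intro U hU
      have : (#(UU U Λ') : ℝ) ≤ k := by
        rw [hU]
        exact_mod_cast Nat.sub_le _ _
      linarith
    · rw [Real.exp_le_exp, neg_le_neg_iff, hθ, le_div_iff₀ (by positivity)]
      have h10 : 2 * (κ ^ 2 / (16 * (A:ℝ) ^ 2)) * k * (2 * #Λ' * (A:ℝ) ^ 2) =
          κ ^ 2 / 4 * k * #Λ' := by field_simp; ring
      rw [h10]
      have h11 : (#Λ' : ℝ) ≤ k := by
        rw [hs]
        have : (0:ℝ) ≤ y := by positivity
        linarith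
      have h12 : 0 ≤ κ ^ 2 / 4 * k := by positivity
      nlinarith
  -- union bound over y
  have hk : ∀ k : ℕ, 1 ≤ k → PR (star n ν) (EvK {u} T η k) ≤ 2 * Real.exp (-θ) ^ k := by
    intro k hk1'
    by_cases hkT : (k:ℝ) < T
    swap
    · rw [PR_false _ (fun U h => hkT h.1)]
      positivity
    obtain ⟨Y, hYle, hYge⟩ : ∃ Y : ℕ, (Y:ℝ) ≤ η * k ∧ ∀ y : ℕ, (y:ℝ) ≤ η * k → y ≤ Y :=
      ⟨⌊η * k⌋₊, Nat.floor_le (by positivity), fun y hy => Nat.le_floor hy⟩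
    calc PR (star n ν) (EvK {u} T η k) ≤ ∑ y ∈ range (Y+1), PR (star n ν) (EvP {u} k y) := by
          refine hW.PR_le_sum (range (Y+1)) (EvK {u} T η k) (fun y => EvP {u} k y) ?_
          rintro U ⟨-, Λ, Λ', h1, h2, h3, h4, h5⟩
          have h6 := card_le_card h2
          refine ⟨k - #Λ', ?_, Λ, Λ', h1, h2, h3, by omega, h5⟩
          rw [mem_range, Nat.lt_succ_iff]
          refine hYge _ ?_
          rw [Nat.cast_sub (by omega)]
          exact h4.le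
      _ ≤ ∑ y ∈ range (Y+1), (k.choose y) * 2 * Real.exp (-(2 * θ * k)) := by
          refine Finset.sum_le_sum (fun y hy => hky k y hk1' hkT ?_)
          refine le_trans ?_ hYle
          exact_mod_cast Nat.lt_succ_iff.mp (mem_range.mp hy)
      _ = (∑ y ∈ range (Y+1), (k.choose y : ℝ)) * (2 * Real.exp (-(2 * θ * k))) := by
          rw [Finset.sum_mul]
          exact Finset.sum_congr rfl (fun y _ => by ring)
      _ ≤ Real.exp (θ * k) * (2 * Real.exp (-(2 * θ * k))) :=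
          mul_le_mul_of_nonneg_right (hch k Y hYle) (by positivity)
      _ = 2 * Real.exp (-θ) ^ k := by
          rw [mul_comm, mul_assoc, ← Real.exp_add, ← Real.exp_nat_mul]
          congr 2
          ring
  have hr0 : 0 ≤ Real.exp (-θ) := (Real.exp_pos _).le
  have hr1 : Real.exp (-θ) < 1 := by rw [Real.exp_lt_one_iff]; linarith
  calc PR (star n ν) (fun U => ∃ Λ Λ' : Finset (Fin n), u ∈ Λ ∧ Λ' ⊆ Λ ∧ {u} ∪ UU U Λ' = Λ ∧
        k0 ≤ #Λ ∧ (#Λ:ℝ) < T ∧ (#Λ:ℝ) - #Λ' < η * #Λ)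
      ≤ ∑ k ∈ Ico k0 (n+1), PR (star n ν) (EvK {u} T η k) := by
        refine hW.PR_le_sum (Ico k0 (n+1)) _ (fun k => EvK {u} T η k) ?_
        rintro U ⟨Λ, Λ', h1, h2, h3, h4, h5, h6⟩
        refine ⟨#Λ, mem_Ico.mpr ⟨h4, ?_⟩, h5, Λ, Λ', singleton_subset_iff.mpr h1, h2, rfl, h6, h3⟩
        have := card_le_univ Λ
        rw [Fintype.card_fin] at this
        omega
    _ ≤ ∑ k ∈ Ico k0 (n+1), 2 * Real.exp (-θ) ^ k := by
        refine Finset.sum_le_sum (fun k hk' => hk k ?_)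
        have := (mem_Ico.mp hk').1
        omega
    _ = 2 * ∑ k ∈ Ico k0 (n+1), Real.exp (-θ) ^ k := by rw [Finset.mul_sum]
    _ ≤ _ := by
        refine mul_le_mul_of_nonneg_left ?_ (by norm_num)
        exact geom_sum_Ico_le_of_lt_one hr0 hr1

/-! ### large closed sets -/

lemma large_closed (hν : IsLaw A m ν) (hA : A ≤ n) (hn : 0 < n) (B : Finset (Fin n))
    (hB : #B ≤ 2) {κ θ d : ℝ} (hκ : 0 < κ) (hd : 0 < d) (hθ : θ = κ ^ 2 / (8 * (A:ℝ) ^ 2))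
    (h2A : 2 * A ≤ n) (hlarge : 2 + 2 * m ^ 2 ≤ κ / 2 * (d * n))
    (hhigh : ∀ x, d ≤ x → 1 - Real.exp (-(m * x)) ≤ (1 - κ) * x) :
    PR (star n ν) (fun U => ∃ Λ : Finset (Fin n), B ⊆ Λ ∧ B ∪ UU U Λ = Λ ∧ d * n ≤ #Λ) ≤
      4 * ((n + 1) * Real.exp (-(θ * d)) ^ n) := by
  have hW := isW_star hν hA
  obtain ⟨hm1, hmA⟩ := mean_range hν
  have hnR : (0:ℝ) < n := by exact_mod_cast hn
  have hAn : (A:ℝ) ≤ n := by exact_mod_cast hA
  have hApos : (0:ℝ) < A := by linarith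
  have h2An : 2 * (A:ℝ) ≤ n := by exact_mod_cast h2A
  have hθ0 : 0 < θ := by rw [hθ]; positivity
  have hk : ∀ k ∈ range (n+1), PR (star n ν) (EvL B (d * n) k) ≤
      4 * Real.exp (-(θ * d)) ^ n := by
    intro k hk
    have hkn : k ≤ n := Nat.lt_succ_iff.mp (mem_range.mp hk)
    by_cases hdk : d * n ≤ k
    swap
    · rw [PR_false _ (fun U h => hdk h.1)]
      positivity
    have hk0 : (0:ℝ) < k := lt_of_lt_of_le (by positivity) hdk
    have h := PR_pair_le hν hA hn B (k := k) (y := 0) hkn (Nat.zero_le _)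
      (τ := Real.exp (-(θ * k))) (Real.exp_pos _).le ?_
    · calc PR (star n ν) (EvL B (d * n) k) ≤ PR (star n ν) (EvP B k 0) :=
            hW.PR_mono (fun U hU => hU.2)
        _ ≤ _ := h
        _ ≤ 4 * Real.exp (-(θ * k)) := by
            rw [Nat.choose_zero_right, Nat.cast_one, one_mul]
            refine mul_le_mul_of_nonneg_right ?_ (Real.exp_pos _).le
            calc (2:ℝ) ^ #B ≤ 2 ^ 2 := pow_le_pow_right₀ (by norm_num) hB
              _ = 4 := by norm_num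
        _ ≤ 4 * Real.exp (-(θ * d)) ^ n := by
            refine mul_le_mul_of_nonneg_left ?_ (by norm_num)
            rw [← Real.exp_nat_mul, Real.exp_le_exp]
            have := mul_le_mul_of_nonneg_left hdk hθ0.le
            linarith
    intro Λ' hΛ' j hj
    rw [Nat.sub_zero] at hΛ'
    have hs : (#Λ' : ℝ) = k := by rw [hΛ']
    have h1 := one_sub_pow_exp' (n := n) (m := m) hn (by linarith) (by linarith) (s := k) hkn
    have h2 : (n:ℝ) * (1 - Real.exp (-(m * (k / n)))) ≤ (1 - κ) * k := by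
      have h3 := hhigh (k / n) (by rw [le_div_iff₀ hnR]; exact hdk)
      have h4 := mul_le_mul_of_nonneg_left h3 hnR.le
      have h5 : (n:ℝ) * ((1 - κ) * (k / n)) = (1 - κ) * k := by field_simp
      rwa [h5] at h4
    refine le_trans (hW.PR_mono ?_) ((tail_high hν hA hn Λ' (δ := κ / 2 * k) (by positivity)).trans ?_)
    · intro U hU
      rw [hU, hΛ']
      have hj2 : j ≤ 2 := hj.trans hB
      have h6 : (k:ℝ) ≤ ((k - j : ℕ) : ℝ) + 2 := by
        have : k ≤ (k - j) + 2 := by omega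
        exact_mod_cast this
      have h7 : κ / 2 * (d * n) ≤ κ / 2 * k := mul_le_mul_of_nonneg_left hdk (by positivity)
      linarith
    · rw [hΛ', Real.exp_le_exp, neg_le_neg_iff, hθ, le_div_iff₀ (by positivity)]
      apply le_of_eq
      field_simp
      ring
  calc PR (star n ν) (fun U => ∃ Λ : Finset (Fin n), B ⊆ Λ ∧ B ∪ UU U Λ = Λ ∧ d * n ≤ #Λ)
      ≤ ∑ k ∈ range (n+1), PR (star n ν) (EvL B (d * n) k) := by
        refine hW.PR_le_sum (range (n+1)) _ (fun k => EvL B (d * n) k) ?_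
        rintro U ⟨Λ, h1, h2, h3⟩
        refine ⟨#Λ, ?_, h3, Λ, Λ, h1, subset_rfl, rfl, rfl, h2⟩
        rw [mem_range]
        have := card_le_univ Λ
        rw [Fintype.card_fin] at this
        omega
    _ ≤ ∑ k ∈ range (n+1), 4 * Real.exp (-(θ * d)) ^ n := Finset.sum_le_sum hk
    _ = _ := by
        rw [Finset.sum_const, card_range, nsmul_eq_mul]
        push_cast
        ring

lemma tendsto_sqrt : Tendsto Nat.sqrt atTop atTop := by
  refine tendsto_atTop_atTop.mpr (fun b => ⟨b * b, fun n hn => ?_⟩)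
  exact Nat.le_sqrt.mpr hn

lemma PR_or {ι α : Type*} [Fintype ι] [DecidableEq ι] [Fintype α] {w : ι → α → ℝ}
    (hw : IsW w) (E E1 E2 : (ι → α) → Prop) (h : ∀ U, E U → E1 U ∨ E2 U) :
    PR w E ≤ PR w E1 + PR w E2 := by
  unfold PR
  rw [← Ex_add]
  refine hw.Ex_mono (fun U => ?_)
  by_cases hE : E U
  · rw [one_pos' hE]
    rcases h U hE with h | h
    · rw [one_pos' h]; have := one_nonneg (E2 U); linarith
    · rw [one_pos' h]; have := one_nonneg (E1 U); linarith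
  · rw [one_neg hE]
    have := one_nonneg (E1 U)
    have := one_nonneg (E2 U)
    linarith

end Pool.Agent.MSL.AB

namespace Pool.Agent.MSL

open AB

theorem fact_A {c ρ ε : ℝ} (hc0 : 0 < c) (hc1 : c < 1) (hρ : 0 < ρ) (hε : 0 < ε) (A : ℕ) :
    ∃ n0 : ℕ, ∀ n ≥ n0, ∀ ν : ℕ → ℝ, IsLaw A (-Real.log (1 - c) / c) ν → ∀ u : Fin n,
      Pr (star n ν) (fun U => (#(Fw U (Nat.sqrt n) {u}) : ℝ) < (c - ρ) * n) ≤ ε := by
  set m := -Real.log (1 - c) / c with hm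
  rcases le_or_gt c ρ with hcρ | hρc
  · refine ⟨0, fun n _ ν _ u => ?_⟩
    rw [PR_eq_Pr, PR_false]
    · exact hε.le
    · intro U hU
      have h1 : (c - ρ) * (n:ℝ) ≤ 0 := mul_nonpos_of_nonpos_of_nonneg (by linarith) (by positivity)
      have h2 : (0:ℝ) ≤ #(Fw U (Nat.sqrt n) {u}) := by positivity
      linarith
  rcases Nat.eq_zero_or_pos A with hA0 | hApos
  · refine ⟨0, fun n _ ν hν u => ?_⟩
    obtain ⟨h1, h2⟩ := mean_range hν
    rw [hA0] at h2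
    norm_num at h2
    linarith
  obtain ⟨κ, hκ, hlow⟩ := phi_low hc0 hc1 hρ hρc
  rw [← hm] at hlow
  have hAR : (0:ℝ) < A := by exact_mod_cast hApos
  set θ := κ ^ 2 / (16 * (A:ℝ) ^ 2) with hθ
  have hθ0 : 0 < θ := by positivity
  obtain ⟨η0, hη00, hη0⟩ := choose_sum_small hθ0
  set η := min η0 (κ / (2 * (1 + κ))) with hη
  have hηpos : 0 < η := lt_min hη00 (by positivity)
  have hηκ : η * (1 + κ) ≤ κ / 2 := by
    calc η * (1 + κ) ≤ κ / (2 * (1 + κ)) * (1 + κ) :=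
          mul_le_mul_of_nonneg_right (min_le_right _ _) (by linarith)
      _ = κ / 2 := by field_simp
  have hη1 : η < 1 := by nlinarith
  have hch := hη0 η hηpos (min_le_left _ _)
  set r := Real.exp (-θ) with hr
  have hr0 : 0 ≤ r := (Real.exp_pos _).le
  have hr1 : r < 1 := by rw [hr, Real.exp_lt_one_iff]; linarith
  -- limits
  have hk0 : Tendsto (fun n : ℕ => Nat.sqrt (Nat.sqrt n)) atTop atTop :=
    tendsto_sqrt.comp tendsto_sqrt
  have hlim1 : Tendsto (fun k : ℕ => (1 + m ^ 2) / (k:ℝ)) atTop (𝓝 0) :=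
    tendsto_const_div_atTop_nhds_zero_nat _
  have hlim2 : Tendsto (fun k : ℕ => 2 * (r ^ k / (1 - r))) atTop (𝓝 0) := by
    have h := ((tendsto_pow_atTop_nhds_zero_of_lt_one hr0 hr1).div_const (1 - r)).const_mul 2
    simpa using h
  have hlim3 : Tendsto (fun k : ℕ => (1 - η) ^ k * ((k:ℝ) + 1) ^ 4) atTop (𝓝 0) := by
    have h1 : |1 - η| < 1 := by rw [abs_lt]; constructor <;> linarith
    have h := (tendsto_pow_const_mul_const_pow_of_abs_lt_one 4 h1).comp (tendsto_add_atTop_nat 1)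
    have h2 := h.mul_const ((1 - η)⁻¹)
    rw [zero_mul] at h2
    refine h2.congr (fun k => ?_)
    have : (1 - η) ≠ 0 := by linarith
    simp only [Function.comp_apply]
    push_cast
    rw [pow_succ (1 - η) k]
    field_simp
  have ev1 := (hlim1.comp hk0).eventually (gt_mem_nhds (show (0:ℝ) < ε / 2 by linarith))
  have ev2 := (hlim2.comp hk0).eventually (gt_mem_nhds (show (0:ℝ) < ε / 2 by linarith))
  have ev3 := (hlim3.comp hk0).eventually (gt_mem_nhds (show (0:ℝ) < 1 by norm_num))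
  have ev4 := hk0.eventually_ge_atTop 2
  have ev5 := eventually_ge_atTop (A + 1)
  obtain ⟨n0, hn0⟩ := eventually_atTop.mp (ev1.and (ev2.and (ev3.and (ev4.and ev5))))
  refine ⟨n0, fun n hn ν hν u => ?_⟩
  obtain ⟨e1, e2, e3, e4, e5⟩ := hn0 n hn
  simp only [Function.comp_apply] at e1 e2 e3
  set ℓ := Nat.sqrt n with hℓ
  set k0 := Nat.sqrt ℓ with hk0def
  have hA : A ≤ n := by omega
  have hnpos : 0 < n := by omega
  have hnR : (0:ℝ) < n := by exact_mod_cast hnpos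
  have hW := isW_star hν hA
  rw [PR_eq_Pr]
  have hk0ℓ : k0 * k0 ≤ ℓ := Nat.sqrt_le ℓ
  have hℓn : ℓ * ℓ ≤ n := Nat.sqrt_le n
  have hk04 : k0 ^ 4 ≤ n := by
    calc k0 ^ 4 = (k0 * k0) * (k0 * k0) := by ring
      _ ≤ ℓ * ℓ := Nat.mul_le_mul hk0ℓ hk0ℓ
      _ ≤ n := hℓn
  have hn4 : n ≤ (k0 + 1) ^ 4 := by
    have h1 : ℓ < (k0 + 1) * (k0 + 1) := Nat.lt_succ_sqrt ℓ
    have h2 : n < (ℓ + 1) * (ℓ + 1) := Nat.lt_succ_sqrt n
    calc n ≤ (ℓ + 1) * (ℓ + 1) := h2.le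
      _ ≤ ((k0 + 1) * (k0 + 1)) * ((k0 + 1) * (k0 + 1)) := Nat.mul_le_mul h1 h1
      _ = (k0 + 1) ^ 4 := by ring
  have hk0le : 2 * k0 ≤ ℓ := by nlinarith
  have hTn : (c - ρ) * (n:ℝ) ≤ n := by nlinarith
  have hmain := PR_or hW (fun U => (#(Fw U ℓ {u}) : ℝ) < (c - ρ) * n)
    (fun U => ∃ Λ : Finset (Fin n), u ∈ Λ ∧ {u} ∪ UU U Λ = Λ ∧ #Λ < k0)
    (fun U => ∃ Λ Λ' : Finset (Fin n), u ∈ Λ ∧ Λ' ⊆ Λ ∧ {u} ∪ UU U Λ' = Λ ∧
      k0 ≤ #Λ ∧ (#Λ:ℝ) < (c - ρ) * n ∧ (#Λ:ℝ) - #Λ' < η * #Λ) ?_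
  · refine hmain.trans ?_
    have b1 := small_closed hν hA hnpos u hk04 (by omega)
    have b2 := slow_growth hν hA hnpos u hκ hηpos hηκ hθ hTn ?_ hch k0 (by omega)
    · linarith
    · intro x hx0 hx1
      refine hlow x hx0 (hx1.trans (le_of_eq ?_))
      field_simp
  · intro U hU
    by_contra hcon
    obtain ⟨c1, c2⟩ := not_or.mp hcon
    have hg := growth U u (k0 := k0) (T := (c - ρ) * n) (η := η) hη1.le ?_ ?_ (ℓ := ℓ)
      (by omega) hU
    · have d1 : (1 - η) ^ (ℓ - k0) ≤ (1 - η) ^ k0 :=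
        pow_le_pow_of_le_one (by linarith) (by linarith) (by omega)
      have d2 : (n:ℝ) ≤ ((k0:ℝ) + 1) ^ 4 := by exact_mod_cast hn4
      have d3 : (1 - η) ^ (ℓ - k0) * ((c - ρ) * n) ≤ (1 - η) ^ k0 * ((k0:ℝ) + 1) ^ 4 := by
        refine mul_le_mul d1 (hTn.trans d2) ?_ (pow_nonneg (by linarith) _)
        exact mul_nonneg (by linarith) hnR.le
      have d4 : (2:ℝ) ≤ k0 := by exact_mod_cast e4
      linarith
    · intro Λ hu hΛ
      by_contra hlt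
      exact c1 ⟨Λ, hu, hΛ, not_le.mp hlt⟩
    · intro Λ Λ' hu hs hΛ hk hT
      by_contra hlt
      exact c2 ⟨Λ, Λ', hu, hs, hΛ, hk, hT, not_le.mp hlt⟩

theorem fact_B {c ρ ε : ℝ} (hc0 : 0 < c) (hc1 : c < 1) (hρ : 0 < ρ) (hε : 0 < ε) (A : ℕ) :
    ∃ n0 : ℕ, ∀ n ≥ n0, ∀ ν : ℕ → ℝ, IsLaw A (-Real.log (1 - c) / c) ν → ∀ u v : Fin n,
      Pr (star n ν) (fun U => ∃ j, (c + ρ) * n ≤ (#(Fw U j {u, v}) : ℝ)) ≤ ε := by
  set m := -Real.log (1 - c) / c with hm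
  rcases Nat.eq_zero_or_pos A with hA0 | hApos
  · refine ⟨0, fun n _ ν hν u => ?_⟩
    obtain ⟨h1, h2⟩ := mean_range hν
    rw [hA0] at h2
    norm_num at h2
    linarith
  obtain ⟨κ, hκ, hhigh⟩ := phi_high hc0 hc1 hρ
  rw [← hm] at hhigh
  have hAR : (0:ℝ) < A := by exact_mod_cast hApos
  set θ := κ ^ 2 / (8 * (A:ℝ) ^ 2) with hθ
  have hθ0 : 0 < θ := by positivity
  have hd : 0 < c + ρ := by linarith
  set r := Real.exp (-(θ * (c + ρ))) with hr
  have hr0 : 0 < r := Real.exp_pos _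
  have hr1 : r < 1 := by
    rw [hr, Real.exp_lt_one_iff]
    have := mul_pos hθ0 hd
    linarith
  have hlim : Tendsto (fun n : ℕ => 4 * (((n:ℝ) + 1) * r ^ n)) atTop (𝓝 0) := by
    have h1 : |r| < 1 := by rw [abs_lt]; constructor <;> linarith
    have h := (tendsto_pow_const_mul_const_pow_of_abs_lt_one 1 h1).comp (tendsto_add_atTop_nat 1)
    have h2 := (h.mul_const (r⁻¹)).const_mul 4
    rw [zero_mul, mul_zero] at h2
    refine h2.congr (fun k => ?_)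
    simp only [Function.comp_apply]
    push_cast
    rw [pow_succ r k]
    field_simp
  have hlin : Tendsto (fun n : ℕ => κ / 2 * ((c + ρ) * (n:ℝ))) atTop atTop := by
    refine Tendsto.const_mul_atTop (by positivity) ?_
    exact Tendsto.const_mul_atTop hd tendsto_natCast_atTop_atTop
  have ev1 := hlim.eventually (gt_mem_nhds hε)
  have ev2 := hlin.eventually_ge_atTop (2 + 2 * m ^ 2)
  have ev3 := eventually_ge_atTop (2 * A + 1)
  obtain ⟨n0, hn0⟩ := eventually_atTop.mp (ev1.and (ev2.and ev3))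
  refine ⟨n0, fun n hn ν hν u v => ?_⟩
  obtain ⟨e1, e2, e3⟩ := hn0 n hn
  have hA : A ≤ n := by omega
  have hnpos : 0 < n := by omega
  have hW := isW_star hν hA
  rw [PR_eq_Pr]
  refine le_trans (hW.PR_mono (E' := fun U => ∃ Λ : Finset (Fin n), {u, v} ⊆ Λ ∧
    {u, v} ∪ UU U Λ = Λ ∧ (c + ρ) * n ≤ #Λ) ?_)
    ((large_closed hν hA hnpos {u, v} card_le_two hκ hd hθ (by omega) e2 hhigh).trans e1.le)
  rintro U ⟨j, hj⟩
  obtain ⟨Λ, h1, h2, h3⟩ := exists_closed U {u, v} j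
  refine ⟨Λ, h1, h2, hj.trans ?_⟩
  exact_mod_cast card_le_card h3

end Pool.Agent.MSL
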