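import Pool.Agent.MSL.ModAB

/-!
Transfer of the facts A and B to the levels of an admissible law, and the sets of one level.
-/

set_option autoImplicit false
set_option linter.unusedVariables false
set_option linter.unusedSectionVars false
set_option linter.unnecessarySimpa false

open Finset Filter Topology

namespace Pool.Agent.MSL.C1

open Pool.Agent.MSL.AB

variable {n : ℕ}

open Classical in
/-- closure of `B` under the digraph `U` -/
noncomputable def cl (U : Fin n → Finset (Fin n)) (B : Finset (Fin n)) : Finset (Fin n) :=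
  univ.filter fun x => ∃ j, x ∈ Fw U j B

/-- everything needed about one level -/
def LevelGood (c δ : ℝ) (U : Fin n → Finset (Fin n)) (a0 : Fin n) : Prop :=
  ∃ W Z : Finset (Fin n), (c - δ) * n ≤ (#(cl U {a0}) : ℝ) ∧ (#(cl U {a0}) : ℝ) ≤ (c + δ) * n ∧
    W ⊆ cl U {a0} ∧ (#(cl U {a0} \ W) : ℝ) ≤ δ * n ∧ (#Zᶜ : ℝ) ≤ δ * n ∧
    ∀ a ∈ Z, ∀ b ∈ W, b ∈ Fw U (2 * Nat.sqrt n) {a}

/-! ### closure -/

lemma Fw_mono' (U : Fin n → Finset (Fin n)) (B : Finset (Fin n)) :
    Monotone (fun j => Fw U j B) := monotone_nat_of_le_succ (Fw_mono U B)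

lemma Fw_sub (U : Fin n → Finset (Fin n)) {B B' : Finset (Fin n)} (h : B ⊆ B') (j : ℕ) :
    Fw U j B ⊆ Fw U j B' := by
  induction j with
  | zero => exact h
  | succ j ih =>
    exact union_subset_union ih (biUnion_subset_biUnion_of_subset_left _ ih)

lemma Fw_add (U : Fin n → Finset (Fin n)) (B : Finset (Fin n)) (i j : ℕ) :
    Fw U j (Fw U i B) = Fw U (i + j) B := by
  induction j with
  | zero => rfl
  | succ j ih =>
    show Fw U j (Fw U i B) ∪ (Fw U j (Fw U i B)).biUnion U = _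
    rw [ih]; rfl

lemma mem_cl {U : Fin n → Finset (Fin n)} {B : Finset (Fin n)} {x : Fin n} :
    x ∈ cl U B ↔ ∃ j, x ∈ Fw U j B := by
  classical
  unfold cl
  simp

theorem exists_cl (U : Fin n → Finset (Fin n)) (B : Finset (Fin n)) : ∃ j, cl U B = Fw U j B := by
  obtain ⟨N, hN⟩ := WellFoundedGT.monotone_chain_condition ⟨fun j => Fw U j B, Fw_mono' U B⟩
  refine ⟨N, ?_⟩
  ext x
  rw [mem_cl]
  constructor
  · rintro ⟨j, hj⟩
    rcases le_total j N with h | h
    · exact Fw_mono' U B h hj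
    · have := hN j h
      have h2 : Fw U N B = Fw U j B := this
      rw [h2]; exact hj
  · intro h
    exact ⟨N, h⟩

lemma Fw_sub_cl (U : Fin n → Finset (Fin n)) (B : Finset (Fin n)) (j : ℕ) : Fw U j B ⊆ cl U B := by
  intro x hx
  exact mem_cl.mpr ⟨j, hx⟩

theorem cl_closed (U : Fin n → Finset (Fin n)) (B : Finset (Fin n)) :
    ∀ a ∈ cl U B, U a ⊆ cl U B := by
  intro a ha b hb
  obtain ⟨j, hj⟩ := mem_cl.mp ha
  refine Fw_sub_cl U B (j+1) ?_
  exact mem_union_right _ (mem_biUnion.mpr ⟨a, hj, hb⟩)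

lemma cl_sub (U : Fin n → Finset (Fin n)) {B B' : Finset (Fin n)} (h : B ⊆ B') :
    cl U B ⊆ cl U B' := by
  obtain ⟨j, hj⟩ := exists_cl U B
  rw [hj]
  exact (Fw_sub U h j).trans (Fw_sub_cl U B' j)

/-- the closure of a vertex is reached in at most `n` steps. -/
theorem cl_eq_Fw (U : Fin n → Finset (Fin n)) (a0 : Fin n) : cl U {a0} = Fw U n {a0} := by
  refine subset_antisymm ?_ (Fw_sub_cl U _ n)
  by_contra hcon
  have hstab : ∀ j, Fw U j {a0} = Fw U (j+1) {a0} → cl U {a0} = Fw U j {a0} := by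
    intro j hj
    refine subset_antisymm ?_ (Fw_sub_cl U _ j)
    intro x hx
    obtain ⟨i, hi⟩ := mem_cl.mp hx
    have hall : ∀ k, Fw U (j + k) {a0} = Fw U j {a0} := by
      intro k
      induction k with
      | zero => rfl
      | succ k ih =>
        have : Fw U (j + (k + 1)) {a0} = Fw U (j + k) {a0} ∪ (Fw U (j + k) {a0}).biUnion U := rfl
        rw [this, ih]
        exact hj.symm
    have h1 := Fw_mono' U {a0} (show i ≤ j + i by omega) hi
    change x ∈ Fw U (j + i) {a0} at h1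
    rwa [hall i] at h1
  have hne : ∀ j ≤ n, Fw U j {a0} ≠ Fw U (j+1) {a0} := by
    intro j hj he
    apply hcon
    rw [hstab j he]
    exact Fw_mono' U {a0} hj
  have hcard : ∀ j ≤ n, j + 1 ≤ #(Fw U j {a0}) := by
    intro j hj
    induction j with
    | zero => simp [Fw]
    | succ j ih =>
      have h1 := ih (by omega)
      have h2 := card_lt_card ((Fw_mono U {a0} j).ssubset_of_ne (hne j (by omega)))
      omega
  have h1 := hcard n le_rfl
  have h2 := card_le_univ (Fw U n {a0})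
  rw [Fintype.card_fin] at h2
  omega

/-! ### transfer -/

lemma Ex_map {ι α β : Type*} [Fintype ι] [DecidableEq ι] [Fintype α] [DecidableEq α] [Fintype β]
    [DecidableEq β] (w : ι → α → ℝ) (f : α → β) (F : (ι → β) → ℝ) :
    Ex w (fun u => F (fun v => f (u v))) =
      Ex (fun v b => ∑ a ∈ univ.filter (fun a => f a = b), w v a) F := by
  unfold Ex
  rw [← Finset.sum_fiberwise univ (fun u : ι → α => fun v => f (u v))]
  refine Finset.sum_congr rfl (fun U _ => ?_)
  have h1 : pw (fun v b => ∑ a ∈ univ.filter (fun a => f a = b), w v a) U =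
      ∑ u ∈ Fintype.piFinset (fun v => univ.filter (fun a => f a = U v)), pw w u := by
    unfold pw
    exact Finset.prod_univ_sum (fun v => univ.filter (fun a => f a = U v)) (fun v a => w v a)
  have h2 : (Fintype.piFinset (fun v => univ.filter (fun a => f a = U v))) =
      univ.filter (fun u : ι → α => (fun v => f (u v)) = U) := by
    ext u
    simp only [Fintype.mem_piFinset, mem_filter, mem_univ, true_and]
    exact ⟨fun h => funext h, fun h v => congrFun h v⟩
  rw [h1, h2, Finset.sum_mul]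
  refine Finset.sum_congr rfl (fun u hu => ?_)
  show pw w u * F (fun v => f (u v)) = pw w u * F U
  rw [(mem_filter.mp hu).2]

lemma ratio_pow {A : ℕ} (hn : 2 * A < n) : ((n:ℝ) / (n - A)) ^ n ≤ Real.exp (2 * A) := by
  have h1 : 2 * (A:ℝ) < n := by exact_mod_cast hn
  have hA0 : (0:ℝ) ≤ A := by positivity
  have hnA : (0:ℝ) < n - A := by linarith
  have h2 : (n:ℝ) / (n - A) ≤ Real.exp (A / (n - A)) := by
    have := Real.add_one_le_exp ((A:ℝ) / (n - A))
    have e : (n:ℝ) / (n - A) = A / (n - A) + 1 := by field_simp; ring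
    rw [e]; exact this
  calc ((n:ℝ) / (n - A)) ^ n ≤ (Real.exp (A / (n - A))) ^ n :=
        pow_le_pow_left₀ (by positivity) h2 n
    _ = Real.exp (n * (A / (n - A))) := by rw [← Real.exp_nat_mul]
    _ ≤ Real.exp (2 * A) := by
        rw [Real.exp_le_exp, mul_div_assoc', div_le_iff₀ hnA]
        nlinarith

lemma choose_ratio {A k : ℕ} (hn : A < n) (hk : k ≤ A) :
    (1:ℝ) / ((n - 1).choose k) ≤ (n:ℝ) / (n - A) * (1 / (n.choose k)) := by
  have hAR : (A:ℝ) < n := by exact_mod_cast hn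
  have hkR : (k:ℝ) ≤ A := by exact_mod_cast hk
  have h1 : ((n - 1).choose k : ℝ) * n = n.choose k * (n - k) := by
    have h := Nat.choose_mul_succ_eq (n - 1) k
    rw [Nat.sub_add_cancel (by omega)] at h
    have h2 : ((n - k : ℕ) : ℝ) = n - k := Nat.cast_sub (by omega)
    rw [← h2]
    exact_mod_cast h
  have c1 : (0:ℝ) < (n - 1).choose k := by
    exact_mod_cast (Nat.choose_pos (show k ≤ n - 1 by omega))
  have c2 : (0:ℝ) < n.choose k := by
    exact_mod_cast (Nat.choose_pos (show k ≤ n by omega))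
  have hnA : (0:ℝ) < n - A := by linarith
  rw [div_mul_div_comm, mul_one, div_le_div_iff₀ c1 (by positivity)]
  nlinarith

/-- transfer to the star model -/
theorem transfer {K A : ℕ} {m : Fin (K + 1) → ℝ}
    {lam : Fin n → (Fin (K + 1) → Finset (Fin n)) → ℝ} (h : Adm n K A m lam) (hn : 2 * A < n)
    (i : Fin (K + 1)) : ∃ ν : ℕ → ℝ, IsLaw A (m i) ν ∧ ∀ E : (Fin n → Finset (Fin n)) → Prop,
      Pr lam (fun u => E (fun v => u v i)) ≤ Real.exp (2 * A) * Pr (star n ν) E := by
  classical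
  obtain ⟨ν, hν, hmarg⟩ := h.marg i
  refine ⟨ν, hν, fun E => ?_⟩
  rw [PR_eq_Pr, PR_eq_Pr]
  have hA : A ≤ n := by omega
  have hAR : 2 * (A:ℝ) < n := by exact_mod_cast hn
  have hA0 : (0:ℝ) ≤ A := by positivity
  have hnA : (0:ℝ) < n - A := by linarith
  have h1 : PR lam (fun u => E (fun v => u v i)) =
      PR (fun v b => ∑ a ∈ univ.filter (fun a : Fin (K + 1) → Finset (Fin n) => a i = b), lam v a)
        E := Ex_map lam (fun x : Fin (K + 1) → Finset (Fin n) => x i) (fun U => one (E U))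
  rw [h1]
  have hW : IsW (fun v b => ∑ a ∈ univ.filter
      (fun a : Fin (K + 1) → Finset (Fin n) => a i = b), lam v a) := by
    refine ⟨fun v S => Finset.sum_nonneg (fun x _ => h.nonneg v x), fun v => ?_⟩
    rw [← h.sum_one v]
    exact Finset.sum_fiberwise univ (fun x : Fin (K + 1) → Finset (Fin n) => x i) (fun x => lam v x)
  have h2 := hW.PR_le_of_le (isW_star hν hA) (C := (n:ℝ) / (n - A)) ?_ (by positivity) E
  · rw [Fintype.card_fin] at h2
    refine h2.trans (mul_le_mul_of_nonneg_right (ratio_pow hn) ?_)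
    exact (isW_star hν hA).PR_nonneg E
  · intro v Θ
    show ∑ a ∈ univ.filter (fun a : Fin (K + 1) → Finset (Fin n) => a i = Θ), lam v a ≤ _
    rw [hmarg v Θ]
    unfold star
    have hν0 := hν.nonneg #Θ
    split_ifs with hv
    · positivity
    · by_cases h0 : ν #Θ = 0
      · rw [h0]; simp
      · have h3 := choose_ratio (n := n) (A := A) (k := #Θ) (by omega) (hν.supp _ h0).2
        calc ν #Θ / ((n - 1).choose #Θ) = ν #Θ * (1 / ((n - 1).choose #Θ)) := by ring
          _ ≤ ν #Θ * ((n:ℝ) / (n - A) * (1 / (n.choose #Θ))) :=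
            mul_le_mul_of_nonneg_left h3 hν0
          _ = _ := by ring

/-! ### the sets of one level -/

/-- deterministic part. -/
lemma level_det (U : Fin n → Finset (Fin n)) (a0 : Fin n) {c ρ η δ : ℝ} (hn : 0 < n) (hη : 0 < η)
    (hδ : 0 < δ) (hρ : 0 < ρ)
    (hc : 3 * ρ + η < c) (h1 : 2 * ρ + 3 * ρ ≤ η * δ) (h2 : 3 * ρ ≤ δ)
    (hA0 : (c - ρ) * n ≤ (#(Fw U (Nat.sqrt n) {a0}) : ℝ))
    (hA : (#(univ.filter fun u => (#(Fw U (Nat.sqrt n) {u}) : ℝ) < (c - ρ) * n) : ℝ) ≤ ρ * n)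
    (hB : (#(univ.filter fun u => (c + ρ) * n ≤ (#(cl U {a0, u}) : ℝ)) : ℝ) ≤ ρ * n) :
    LevelGood c δ U a0 := by
  classical
  have hnR : (0:ℝ) < n := by exact_mod_cast hn
  set ℓ := Nat.sqrt n with hℓ
  set L := cl U {a0} with hL
  set Z := univ.filter (fun u => (#(L \ Fw U ℓ {u}) : ℝ) ≤ 2 * ρ * n) with hZ
  set W := L.filter (fun v => (#(univ.filter fun u => v ∉ Fw U ℓ {u}) : ℝ) ≤ η * n) with hW
  have hZc : (#Zᶜ : ℝ) ≤ 2 * ρ * n := by
    have hsub : Zᶜ ⊆ (univ.filter fun u => (#(Fw U ℓ {u}) : ℝ) < (c - ρ) * n) ∪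
        (univ.filter fun u => (c + ρ) * n ≤ (#(cl U {a0, u}) : ℝ)) := by
      intro u hu
      by_contra hcon
      rw [mem_union, not_or, mem_filter, mem_filter] at hcon
      simp only [mem_univ, true_and, not_lt, not_le] at hcon
      obtain ⟨c1, c2⟩ := hcon
      rw [mem_compl] at hu
      apply hu
      rw [hZ, mem_filter]
      refine ⟨mem_univ _, ?_⟩
      have c3 : L ∪ Fw U ℓ {u} ⊆ cl U {a0, u} := by
        refine union_subset (cl_sub U (by intro x hx; rw [mem_singleton] at hx; simp [hx])) ?_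
        exact (Fw_sub U (by intro x hx; rw [mem_singleton] at hx; simp [hx]) ℓ).trans
          (Fw_sub_cl U _ ℓ)
      have c4 : #(L \ Fw U ℓ {u}) + #(Fw U ℓ {u}) ≤ #(cl U {a0, u}) := by
        calc #(L \ Fw U ℓ {u}) + #(Fw U ℓ {u}) = #(L ∪ Fw U ℓ {u}) := card_sdiff_add_card _ _
          _ ≤ _ := card_le_card c3
      have c5 : (#(L \ Fw U ℓ {u}) : ℝ) + #(Fw U ℓ {u}) ≤ #(cl U {a0, u}) := by exact_mod_cast c4
      linarith
    have h3 := (card_le_card hsub).trans (card_union_le _ _)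
    have h4 : (#Zᶜ : ℝ) ≤ #(univ.filter fun u => (#(Fw U ℓ {u}) : ℝ) < (c - ρ) * n) +
        #(univ.filter fun u => (c + ρ) * n ≤ (#(cl U {a0, u}) : ℝ)) := by exact_mod_cast h3
    linarith
  have hLlow : (c - ρ) * n ≤ (#L : ℝ) := by
    refine hA0.trans ?_
    exact_mod_cast card_le_card (Fw_sub_cl U {a0} ℓ)
  -- the upper bound for L : there is at least one vertex outside the second exceptional set
  have hLhigh : (#L : ℝ) ≤ (c + ρ) * n := by
    by_contra hcon
    rw [not_le] at hcon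
    have hall : (univ.filter fun u => (c + ρ) * n ≤ (#(cl U {a0, u}) : ℝ)) = univ := by
      refine Finset.filter_true_of_mem (fun u _ => ?_)
      have c3 : L ⊆ cl U {a0, u} :=
        cl_sub U (by intro x hx; rw [mem_singleton] at hx; simp [hx])
      have c4 : (#L : ℝ) ≤ #(cl U {a0, u}) := by exact_mod_cast card_le_card c3
      linarith
    rw [hall, card_univ, Fintype.card_fin] at hB
    have hLn : (#L : ℝ) ≤ n := by
      have := card_le_univ L
      rw [Fintype.card_fin] at this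
      exact_mod_cast this
    have : c < 1 := by
      by_contra hc1
      rw [not_lt] at hc1
      nlinarith
    nlinarith
  -- double counting
  have hdc : (#(L \ W) : ℝ) * (η * n) ≤ (2 * ρ * n + 2 * ρ * n) * n := by
    have h5 : ∑ v ∈ L \ W, η * n ≤ ∑ v ∈ L \ W, (#(univ.filter fun u => v ∉ Fw U ℓ {u}) : ℝ) := by
      refine Finset.sum_le_sum (fun v hv => ?_)
      obtain ⟨hv1, hv2⟩ := mem_sdiff.mp hv
      by_contra hcon
      exact hv2 (by rw [hW, mem_filter]; exact ⟨hv1, (not_le.mp hcon).le⟩)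
    have h6 : ∑ v ∈ L \ W, (#(univ.filter fun u => v ∉ Fw U ℓ {u}) : ℝ) ≤
        ∑ v ∈ L, (#(univ.filter fun u => v ∉ Fw U ℓ {u}) : ℝ) :=
      Finset.sum_le_sum_of_subset_of_nonneg sdiff_subset (fun _ _ _ => by positivity)
    have h7 : ∑ v ∈ L, (#(univ.filter fun u => v ∉ Fw U ℓ {u}) : ℝ) =
        ∑ u : Fin n, (#(L \ Fw U ℓ {u}) : ℝ) := by
      have : ∑ v ∈ L, #(univ.filter fun u => v ∉ Fw U ℓ {u}) =
          ∑ u : Fin n, #(L.filter fun v => v ∉ Fw U ℓ {u}) :=
        Finset.sum_card_bipartiteAbove_eq_sum_card_bipartiteBelow (s := L)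
          (t := (univ : Finset (Fin n))) (fun v u => v ∉ Fw U ℓ {u})
      have h8 : ∀ u : Fin n, L.filter (fun v => v ∉ Fw U ℓ {u}) = L \ Fw U ℓ {u} := by
        intro u; ext v; rw [mem_filter, Finset.mem_sdiff]
      simp only [h8] at this
      exact_mod_cast this
    have h9 : ∑ u : Fin n, (#(L \ Fw U ℓ {u}) : ℝ) ≤ (2 * ρ * n + 2 * ρ * n) * n := by
      have h10 : ∀ u : Fin n, (#(L \ Fw U ℓ {u}) : ℝ) ≤
          2 * ρ * n + (if u ∈ Zᶜ then (n:ℝ) else 0) := by
        intro u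
        split_ifs with hu
        · have : (#(L \ Fw U ℓ {u}) : ℝ) ≤ n := by
            have := card_le_univ (L \ Fw U ℓ {u})
            rw [Fintype.card_fin] at this
            exact_mod_cast this
          have : 0 ≤ 2 * ρ * n := by positivity
          linarith
        · rw [mem_compl, not_not, hZ, mem_filter] at hu
          linarith [hu.2]
      calc ∑ u : Fin n, (#(L \ Fw U ℓ {u}) : ℝ)
          ≤ ∑ u : Fin n, (2 * ρ * n + (if u ∈ Zᶜ then (n:ℝ) else 0)) :=
            Finset.sum_le_sum (fun u _ => h10 u)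
        _ = n * (2 * ρ * n) + #Zᶜ * n := by
            rw [Finset.sum_add_distrib, Finset.sum_const, card_univ, Fintype.card_fin,
              nsmul_eq_mul, Finset.sum_ite_mem, univ_inter, Finset.sum_const, nsmul_eq_mul]
        _ ≤ _ := by nlinarith
    calc (#(L \ W) : ℝ) * (η * n) = ∑ v ∈ L \ W, η * n := by
          rw [Finset.sum_const, nsmul_eq_mul]
      _ ≤ _ := h5.trans (h6.trans (h7.le.trans h9))
  have hLW : (#(L \ W) : ℝ) ≤ δ * n := by
    have h11 : (#(L \ W) : ℝ) * η ≤ 4 * ρ * n := by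
      have : (#(L \ W) : ℝ) * η * n ≤ 4 * ρ * n * n := by linarith
      exact le_of_mul_le_mul_right this hnR
    have h12 : 4 * ρ * n ≤ η * δ * n := mul_le_mul_of_nonneg_right (by linarith) hnR.le
    have h13 : η * #(L \ W) ≤ η * (δ * n) := by linarith
    exact le_of_mul_le_mul_left h13 hη
  refine ⟨W, Z, ?_, ?_, filter_subset _ _, hLW, ?_, ?_⟩
  · nlinarith
  · nlinarith
  · nlinarith
  · intro a ha b hb
    rw [hZ, mem_filter] at ha
    rw [hW, mem_filter] at hb
    -- a common vertex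
    have hex : ∃ w ∈ Fw U ℓ {a}, b ∈ Fw U ℓ {w} := by
      by_contra hcon
      have hsub : L ∩ Fw U ℓ {a} ⊆ univ.filter (fun u => b ∉ Fw U ℓ {u}) := by
        intro w hw
        rw [mem_filter]
        exact ⟨mem_univ _, fun h => hcon ⟨w, (mem_inter.mp hw).2, h⟩⟩
      have h14 : (#(L ∩ Fw U ℓ {a}) : ℝ) ≤ η * n := by
        refine le_trans ?_ hb.2
        exact_mod_cast card_le_card hsub
      have h15 : #L = #(L ∩ Fw U ℓ {a}) + #(L \ Fw U ℓ {a}) := (card_inter_add_card_sdiff _ _).symm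
      have h16 : (#L : ℝ) = #(L ∩ Fw U ℓ {a}) + #(L \ Fw U ℓ {a}) := by exact_mod_cast h15
      have h17 := ha.2
      nlinarith
    obtain ⟨w, hw1, hw2⟩ := hex
    have h18 : Fw U ℓ {w} ⊆ Fw U ℓ (Fw U ℓ {a}) := Fw_sub U (singleton_subset_iff.mpr hw1) ℓ
    rw [Fw_add] at h18
    have h19 : ℓ + ℓ = 2 * ℓ := by ring
    rw [h19] at h18
    exact h18 hw2

/-- Markov for a number of vertices. -/
lemma markov_card {X : Type*} [Fintype X] {w : Fin n → X → ℝ} (hw : IsW w)
    (P : Fin n → (Fin n → X) → Prop) {ε ρ : ℝ} (hn : 0 < n) (hρ : 0 < ρ) (hε : 0 ≤ ε)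
    (h : ∀ v, PR w (P v) ≤ ε) :
    PR w (fun U => ρ * n < (open Classical in #(univ.filter fun v => P v U) : ℝ)) ≤ ε / ρ := by
  classical
  have hnR : (0:ℝ) < n := by exact_mod_cast hn
  calc PR w (fun U => ρ * n < (#(univ.filter fun v => P v U) : ℝ))
      ≤ Ex w (fun U => (1 / (ρ * n)) * ∑ v : Fin n, one (P v U)) := by
        refine hw.PR_le_Ex _ _ (fun U => ?_) (fun U hU => ?_)
        · exact mul_nonneg (by positivity) (Finset.sum_nonneg (fun v _ => one_nonneg _))
        · have h1 : ∑ v : Fin n, one (P v U) = #(univ.filter fun v => P v U) := by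
            rw [Finset.card_filter]
            push_cast
            refine Finset.sum_congr rfl (fun v _ => ?_)
            by_cases hv : P v U
            · rw [one_pos' hv, if_pos hv]
            · rw [one_neg hv, if_neg hv]
          rw [h1, one_div, inv_mul_eq_div, le_div_iff₀ (by positivity), one_mul]
          have h2 : (#(univ.filter fun v => P v U) : ℝ) =
            (open Classical in #(univ.filter fun v => P v U) : ℝ) := by congr
          linarith
    _ = (1 / (ρ * n)) * ∑ v : Fin n, PR w (P v) := by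
        rw [Ex_const_mul, Ex_sum]; rfl
    _ ≤ (1 / (ρ * n)) * ∑ v : Fin n, ε :=
        mul_le_mul_of_nonneg_left (Finset.sum_le_sum (fun v _ => h v)) (by positivity)
    _ = ε / ρ := by
        rw [Finset.sum_const, card_univ, Fintype.card_fin, nsmul_eq_mul]
        field_simp

theorem level_sets {c δ : ℝ} (hc0 : 0 < c) (hc1 : c < 1) (hδ : 0 < δ) (A : ℕ) :
    ∃ n0 : ℕ, ∀ n ≥ n0, ∀ (K : ℕ) (m : Fin (K + 1) → ℝ)
      (lam : Fin n → (Fin (K + 1) → Finset (Fin n)) → ℝ), Adm n K A m lam →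
      ∀ i, m i = -Real.log (1 - c) / c → ∀ a0 : Fin n,
        Pr lam (fun u => ¬ LevelGood c δ (fun v => u v i) a0) ≤ δ := by
  -- constants
  set η := min δ c / 4 with hη
  have hη0 : 0 < η := by have := lt_min hδ hc0; positivity
  set ρ := min (η * min δ 1 / 5) (c / 12) with hρ
  have hδ1 : 0 < min δ 1 := lt_min hδ one_pos
  have hρ0 : 0 < ρ := lt_min (by positivity) (by positivity)
  set ε := min (δ / 3) (δ * ρ / 3) * Real.exp (-(2 * A)) with hε
  have hε0 : 0 < ε := by
    have : 0 < min (δ / 3) (δ * ρ / 3) := lt_min (by positivity) (by positivity)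
    positivity
  obtain ⟨nA, hnA⟩ := fact_A hc0 hc1 hρ0 hε0 A
  obtain ⟨nB, hnB⟩ := fact_B hc0 hc1 hρ0 hε0 A
  refine ⟨max (max nA nB) (2 * A + 1), fun n hn K m lam hlam i hi a0 => ?_⟩
  have hn1 : nA ≤ n := (le_max_left _ _).trans ((le_max_left _ _).trans hn)
  have hn2 : nB ≤ n := (le_max_right _ _).trans ((le_max_left _ _).trans hn)
  have hn3 : 2 * A + 1 ≤ n := (le_max_right _ _).trans hn
  have hnpos : 0 < n := by omega
  obtain ⟨ν, hν, htr⟩ := transfer hlam (by omega) i
  rw [hi] at hν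
  have hW : IsW lam := ⟨hlam.nonneg, hlam.sum_one⟩
  have hexp : Real.exp (2 * A) * ε = min (δ / 3) (δ * ρ / 3) := by
    rw [hε, mul_left_comm, ← Real.exp_add]; simp
  have hexp0 := Real.exp_pos (2 * (A:ℝ))
  have eA : ∀ u : Fin n, PR lam (fun x => (#(Fw (fun v => x v i) (Nat.sqrt n) {u}) : ℝ) <
      (c - ρ) * n) ≤ min (δ / 3) (δ * ρ / 3) := by
    intro u
    have h1 := htr (fun U => (#(Fw U (Nat.sqrt n) {u}) : ℝ) < (c - ρ) * n)
    rw [PR_eq_Pr] at h1
    rw [← hexp]
    exact h1.trans (mul_le_mul_of_nonneg_left (hnA n hn1 ν hν u) hexp0.le)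
  have eB : ∀ u : Fin n, PR lam (fun x => (c + ρ) * n ≤ (#(cl (fun v => x v i) {a0, u}) : ℝ)) ≤
      min (δ / 3) (δ * ρ / 3) := by
    intro u
    have h1 := htr (fun U => ∃ j, (c + ρ) * n ≤ (#(Fw U j {a0, u}) : ℝ))
    rw [PR_eq_Pr] at h1
    rw [← hexp]
    refine le_trans (hW.PR_mono ?_) (h1.trans (mul_le_mul_of_nonneg_left (hnB n hn2 ν hν a0 u)
      hexp0.le))
    intro x hx
    obtain ⟨j, hj⟩ := exists_cl (fun v => x v i) {a0, u}
    exact ⟨j, by rw [← hj]; exact hx⟩
  have m1 := markov_card hW (fun u x => (#(Fw (fun v => x v i) (Nat.sqrt n) {u}) : ℝ) <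
      (c - ρ) * n) hnpos hρ0 (le_min (by positivity) (by positivity)) eA
  have m2 := markov_card hW (fun u x => (c + ρ) * n ≤ (#(cl (fun v => x v i) {a0, u}) : ℝ))
    hnpos hρ0 (le_min (by positivity) (by positivity)) eB
  have m3 : min (δ / 3) (δ * ρ / 3) / ρ ≤ δ / 3 := by
    rw [div_le_iff₀ hρ0]
    refine (min_le_right _ _).trans (le_of_eq (by ring))
  rw [PR_eq_Pr]
  have hfin := PR_or hW (fun u => ¬ LevelGood c δ (fun v => u v i) a0)
    (fun x => (#(Fw (fun v => x v i) (Nat.sqrt n) {a0}) : ℝ) < (c - ρ) * n)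
    (fun x => (ρ * n < (open Classical in #(univ.filter fun u =>
        (#(Fw (fun v => x v i) (Nat.sqrt n) {u}) : ℝ) < (c - ρ) * n) : ℝ)) ∨
      (ρ * n < (open Classical in #(univ.filter fun u =>
        (c + ρ) * n ≤ (#(cl (fun v => x v i) {a0, u}) : ℝ)) : ℝ))) ?_
  · have hor := PR_or hW (fun x => (ρ * n < (open Classical in #(univ.filter fun u =>
        (#(Fw (fun v => x v i) (Nat.sqrt n) {u}) : ℝ) < (c - ρ) * n) : ℝ)) ∨
      (ρ * n < (open Classical in #(univ.filter fun u =>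
        (c + ρ) * n ≤ (#(cl (fun v => x v i) {a0, u}) : ℝ)) : ℝ))) _ _ (fun U hU => hU)
    have e0 := (eA a0).trans (min_le_left _ _)
    linarith
  · intro x hx
    by_contra hcon
    rw [not_or, not_or, not_lt, not_lt, not_lt] at hcon
    obtain ⟨c1, c2, c3⟩ := hcon
    refine hx (level_det _ a0 (ρ := ρ) (η := η) hnpos hη0 hδ hρ0 ?_ ?_ ?_ c1 ?_ ?_)
    · have h1 : ρ ≤ c / 12 := min_le_right _ _
      have h2 : η ≤ c / 4 := by
        rw [hη]; have := min_le_right δ c; linarith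
      linarith
    · have h1 : ρ ≤ η * min δ 1 / 5 := min_le_left _ _
      have h2 : η * min δ 1 ≤ η * δ := mul_le_mul_of_nonneg_left (min_le_left _ _) hη0.le
      linarith
    · have h1 : ρ ≤ η * min δ 1 / 5 := min_le_left _ _
      have h2 : η * min δ 1 ≤ η * 1 := mul_le_mul_of_nonneg_left (min_le_right _ _) hη0.le
      have h3 : η ≤ δ / 4 := by
        rw [hη]; have := min_le_left δ c; linarith
      linarith
    · convert c2
    · convert c3

end Pool.Agent.MSL.C1
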