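import Mathlib

/-!
Choice of the grid constants for the minimum spanning arborescence.
-/

set_option autoImplicit false
set_option linter.unusedVariables false

namespace Pool.Agent.MSL.C2

lemma key {y : ℝ} (hy0 : 0 < y) (hy1 : y < 1) {s0 : ℝ} (hs0 : 0 ≤ s0) (hys : y ≤ s0 ^ 2) :
    y * (-Real.log y) ≤ (2 * s0 / (1 + s0)) * (1 - y) := by
  set s := Real.sqrt y with hs
  have hs1 : s ^ 2 = y := Real.sq_sqrt hy0.le
  have hspos : 0 < s := Real.sqrt_pos.mpr hy0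
  have hslt : s < 1 := by nlinarith
  have hss0 : s ≤ s0 := by
    rw [hs]; exact Real.sqrt_le_iff.mpr ⟨hs0, hys⟩
  have hlog : -Real.log y ≤ 2 * (1 / s - 1) := by
    have h1 : Real.log y = 2 * Real.log s := by rw [← hs1, Real.log_pow]; norm_num
    have h2 : -Real.log s ≤ 1 / s - 1 := by
      rw [← Real.log_inv, ← one_div]
      have := Real.log_le_sub_one_of_pos (show 0 < 1 / s by positivity)
      exact this
    rw [h1]; linarith
  have h3 : y * (-Real.log y) ≤ 2 * s * (1 - s) := by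
    calc y * (-Real.log y) ≤ y * (2 * (1 / s - 1)) := mul_le_mul_of_nonneg_left hlog hy0.le
      _ = 2 * s * (1 - s) := by rw [← hs1]; field_simp
  refine h3.trans ?_
  rw [div_mul_eq_mul_div, le_div_iff₀ (by linarith), ← hs1]
  have h4 : 2 * s * (1 - s) * (1 + s0) ≤ 2 * s0 * (1 - s) * (1 + s) := by
    have h5 : s * (1 + s0) ≤ s0 * (1 + s) := by linarith
    have h6 : 0 ≤ 2 * (1 - s) := by linarith
    nlinarith
  calc 2 * s * (1 - s) * (1 + s0) ≤ 2 * s0 * (1 - s) * (1 + s) := h4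
    _ = 2 * s0 * (1 - s ^ 2) := by ring

theorem grid1 {ε : ℝ} (hε : 0 < ε) (hε1 : ε < 1) :
    ∃ (K : ℕ) (c : Fin (K + 1) → ℝ) (ρ δ M : ℝ), 0 < ρ ∧ 0 < δ ∧ δ < 1 ∧
      (∀ i, 0 < c i ∧ c i < 1 ∧ 1 ≤ -Real.log (1 - c i) / c i ∧ -Real.log (1 - c i) / c i ≤ M) ∧
      c 0 ≤ ε ∧ 1 - c (Fin.last K) ≤ ε ∧
      (1 - c 0 + ρ) * (-Real.log (1 - c 0) / c 0) ≤ 1 - δ ∧
      ∀ i : Fin K, (1 - c i.castSucc + ρ) * (-Real.log (1 - c i.succ) / c i.succ) ≤ 1 - δ := by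
  set x0 := 1 - ε with hx0
  have hx0p : 0 < x0 := by linarith
  have hx01 : x0 < 1 := by linarith
  set s0 := Real.sqrt x0 with hs0
  have hs0sq : s0 ^ 2 = x0 := Real.sq_sqrt hx0p.le
  have hs0p : 0 < s0 := Real.sqrt_pos.mpr hx0p
  have hs01 : s0 < 1 := by nlinarith
  set g := 2 * s0 / (1 + s0) with hg
  have hg0 : 0 < g := by positivity
  have hg1 : g < 1 := by rw [hg, div_lt_one (by linarith)]; linarith
  set q := (1 + g) / 2 with hq
  have hq0 : 0 < q := by linarith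
  have hq1 : q < 1 := by linarith
  have hgq : g < q := by linarith
  obtain ⟨K, hK⟩ := exists_pow_lt_of_lt_one hε hq1
  set δ := (1 - g / q) / 2 with hδ
  have hgq1 : g / q < 1 := by rw [div_lt_one hq0]; exact hgq
  have hδ0 : 0 < δ := by linarith
  -- bound for the means
  have hxK : 0 < x0 * q ^ K := by positivity
  have hxK1 : x0 * q ^ K < 1 := by
    have : q ^ K ≤ 1 := pow_le_one₀ hq0.le hq1.le
    nlinarith
  set M := -Real.log (x0 * q ^ K) / ε with hM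
  have hM0 : 0 < M := div_pos (by have := Real.log_neg hxK hxK1; linarith) hε
  have hx : ∀ i : ℕ, i ≤ K → 0 < x0 * q ^ i ∧ x0 * q ^ i ≤ x0 ∧ x0 * q ^ K ≤ x0 * q ^ i := by
    intro i hi
    refine ⟨by positivity, ?_, ?_⟩
    · have : q ^ i ≤ 1 := pow_le_one₀ hq0.le hq1.le
      nlinarith
    · exact mul_le_mul_of_nonneg_left (pow_le_pow_of_le_one hq0.le hq1.le hi) hx0p.le
  have hmean : ∀ i : ℕ, i ≤ K → -Real.log (x0 * q ^ i) / (1 - x0 * q ^ i) ≤ M := by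
    intro i hi
    obtain ⟨h1, h2, h3⟩ := hx i hi
    have h4 : Real.log (x0 * q ^ K) ≤ Real.log (x0 * q ^ i) := Real.log_le_log hxK h3
    have h5 : Real.log (x0 * q ^ i) < 0 := Real.log_neg h1 (by linarith)
    exact div_le_div₀ (by linarith) (by linarith) hε (by linarith)
  have hbase : ∀ i : ℕ, i ≤ K → x0 * q ^ i * (-Real.log (x0 * q ^ i) / (1 - x0 * q ^ i)) ≤ g := by
    intro i hi
    obtain ⟨h1, h2, h3⟩ := hx i hi
    rw [mul_div_assoc', div_le_iff₀ (by linarith)]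
    exact key h1 (by linarith) hs0p.le (by rw [hs0sq]; exact h2)
  have hδ1 : δ < 1 := by
    have : 0 < g / q := by positivity
    linarith
  refine ⟨K, fun i => 1 - x0 * q ^ (i : ℕ), δ / M, δ, M, by positivity, hδ0, hδ1, ?_, ?_, ?_,
    ?_, ?_⟩
  · intro i
    obtain ⟨h1, h2, h3⟩ := hx i (Nat.lt_succ_iff.mp i.2)
    have h4 := hmean i (Nat.lt_succ_iff.mp i.2)
    have e : 1 - (1 - x0 * q ^ (i : ℕ)) = x0 * q ^ (i : ℕ) := by ring
    have h5 := Real.log_le_sub_one_of_pos h1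
    show 0 < 1 - x0 * q ^ (i : ℕ) ∧ 1 - x0 * q ^ (i : ℕ) < 1 ∧
      1 ≤ -Real.log (1 - (1 - x0 * q ^ (i : ℕ))) / (1 - x0 * q ^ (i : ℕ)) ∧
      -Real.log (1 - (1 - x0 * q ^ (i : ℕ))) / (1 - x0 * q ^ (i : ℕ)) ≤ M
    rw [e]
    refine ⟨by linarith, by linarith, ?_, h4⟩
    rw [le_div_iff₀ (by linarith)]
    linarith
  · simp [hx0]
  · show 1 - (1 - x0 * q ^ ((Fin.last K : Fin (K + 1)) : ℕ)) ≤ ε
    rw [Fin.val_last]
    have : x0 * q ^ K ≤ q ^ K := by
      have : 0 < q ^ K := by positivity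
      nlinarith
    linarith
  · have h1 := hbase 0 (Nat.zero_le _)
    have h2 := hmean 0 (Nat.zero_le _)
    simp only [Fin.val_zero, pow_zero, mul_one] at h1 h2 ⊢
    have e : 1 - (1 - x0) = x0 := by ring
    rw [e, add_mul]
    have h3 : δ / M * (-Real.log x0 / (1 - x0)) ≤ δ / M * M :=
      mul_le_mul_of_nonneg_left h2 (by positivity)
    have h4 : δ / M * M = δ := by field_simp
    have h5 : g ≤ g / q := by
      rw [le_div_iff₀ hq0]; nlinarith
    linarith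
  · intro i
    have hi : (i : ℕ) + 1 ≤ K := i.2
    have h1 := hbase (i + 1) hi
    have h2 := hmean (i + 1) hi
    simp only [Fin.val_castSucc, Fin.val_succ]
    have e : ∀ z : ℝ, 1 - (1 - z) = z := fun z => by ring
    rw [e, e, add_mul]
    have h3 : δ / M * (-Real.log (x0 * q ^ ((i:ℕ) + 1)) / (1 - x0 * q ^ ((i:ℕ) + 1))) ≤ δ / M * M :=
      mul_le_mul_of_nonneg_left h2 (by positivity)
    have h4 : δ / M * M = δ := by field_simp
    have h5 : x0 * q ^ (i:ℕ) * (-Real.log (x0 * q ^ ((i:ℕ) + 1)) / (1 - x0 * q ^ ((i:ℕ) + 1))) ≤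
        g / q := by
      rw [le_div_iff₀ hq0]
      refine le_trans (le_of_eq ?_) h1
      rw [pow_succ]
      ring
    linarith

/-- the grid. -/
theorem grid {ε : ℝ} (hε : 0 < ε) :
    ∃ (K : ℕ) (c : Fin (K + 1) → ℝ) (δ M : ℝ), 0 < δ ∧ δ < 1 ∧
      (∀ i, 0 < c i ∧ c i < 1 ∧ 1 ≤ -Real.log (1 - c i) / c i ∧ -Real.log (1 - c i) / c i ≤ M) ∧
      c 0 ≤ ε ∧ 1 - c (Fin.last K) ≤ ε ∧
      (1 - c 0) * (-Real.log (1 - c 0) / c 0) ≤ 1 - δ ∧
      ∀ i : Fin K, (1 - c i.castSucc) * (-Real.log (1 - c i.succ) / c i.succ) ≤ 1 - δ := by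
  obtain ⟨K, c, ρ, δ, M, hρ, hδ, hδ1, hc, h0, h1, h2, h3⟩ :=
    grid1 (ε := min ε (1 / 2)) (lt_min hε (by norm_num))
      (lt_of_le_of_lt (min_le_right _ _) (by norm_num))
  refine ⟨K, c, δ, M, hδ, hδ1, hc, h0.trans (min_le_left _ _), h1.trans (min_le_left _ _), ?_, ?_⟩
  · have := (hc 0).2.2.1
    nlinarith
  · intro i
    have := (hc i.succ).2.2.1
    have := h3 i
    nlinarith

end Pool.Agent.MSL.C2
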