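import Pool.Agent.MSL.ModC1

/-!
Further facts on admissible laws: marginals, number of saturated vertices, forward balls.
-/

set_option autoImplicit false
set_option linter.unusedVariables false
set_option linter.unusedSectionVars false

open Finset

namespace Pool.Agent.MSL.C4

open Pool.Agent.MSL.AB Pool.Agent.MSL.C1

variable {n K A : ℕ} {m : Fin (K + 1) → ℝ}
  {lam : Fin n → (Fin (K + 1) → Finset (Fin n)) → ℝ}

lemma isW (h : Adm n K A m lam) : IsW lam := ⟨h.nonneg, h.sum_one⟩

/-- sums over a marginal. -/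
lemma sum_marg (h : Adm n K A m lam) (i : Fin (K + 1)) (hn : A < n) :
    ∃ ν : ℕ → ℝ, IsLaw A (m i) ν ∧ ∀ (v : Fin n) (f : ℕ → ℝ),
      ∑ x : Fin (K + 1) → Finset (Fin n), lam v x * f #(x i) = ∑ k ∈ range (A + 1), ν k * f k := by
  classical
  obtain ⟨ν, hν, hmarg⟩ := h.marg i
  refine ⟨ν, hν, fun v f => ?_⟩
  rw [← Finset.sum_fiberwise univ (fun x : Fin (K + 1) → Finset (Fin n) => x i)]
  have h1 : ∀ Θ : Finset (Fin n), ∑ x ∈ univ.filter (fun x : Fin (K + 1) → Finset (Fin n) => x i = Θ),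
      lam v x * f #(x i) = (if v ∈ Θ then 0 else ν (#Θ) / ((n - 1).choose #Θ)) * f #Θ := by
    intro Θ
    rw [← hmarg v Θ, Finset.sum_mul]
    refine Finset.sum_congr rfl (fun x hx => ?_)
    rw [(mem_filter.mp hx).2]
  rw [Finset.sum_congr rfl (fun Θ _ => h1 Θ)]
  have h2 : ∑ Θ : Finset (Fin n), (if v ∈ Θ then 0 else ν (#Θ) / ((n - 1).choose #Θ)) * f #Θ =
      ∑ Θ ∈ (univ.erase v).powerset, ν (#Θ) / ((n - 1).choose #Θ) * f #Θ := by
    rw [← Finset.sum_filter_add_sum_filter_not univ (fun Θ : Finset (Fin n) => v ∈ Θ)]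
    have e1 : ∑ Θ ∈ univ.filter (fun Θ : Finset (Fin n) => v ∈ Θ),
        (if v ∈ Θ then 0 else ν (#Θ) / ((n - 1).choose #Θ)) * f #Θ = 0 := by
      refine Finset.sum_eq_zero (fun Θ hΘ => ?_)
      rw [if_pos (mem_filter.mp hΘ).2, zero_mul]
    rw [e1, zero_add]
    refine Finset.sum_congr ?_ (fun Θ hΘ => ?_)
    · ext Θ
      rw [mem_filter, mem_powerset, subset_erase]
      simp
    · have : v ∉ Θ := by
        rw [mem_powerset, subset_erase] at hΘ
        exact hΘ.2
      rw [if_neg this]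
  rw [h2, Finset.sum_powerset_apply_card (fun k => ν k / ((n - 1).choose k) * f k)]
  have hc : #((univ : Finset (Fin n)).erase v) = n - 1 := by
    rw [card_erase_of_mem (mem_univ v), card_univ, Fintype.card_fin]
  rw [hc]
  have hn1 : n - 1 + 1 = n := by omega
  symm
  calc ∑ k ∈ range (A + 1), ν k * f k = ∑ k ∈ range (n - 1 + 1), ν k * f k := by
        refine Finset.sum_subset (by intro k hk; rw [mem_range] at hk ⊢; omega) (fun k _ hk => ?_)
        have : ν k = 0 := by
          by_contra h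
          have := (hν.supp k h).2
          exact hk (mem_range.mpr (by omega))
        rw [this, zero_mul]
    _ = _ := by
        refine Finset.sum_congr rfl (fun k hk => ?_)
        have hk' : k ≤ n - 1 := by have := mem_range.mp hk; omega
        have hcc : ((n - 1).choose k : ℝ) ≠ 0 := by
          have := Nat.choose_pos hk'
          positivity
        rw [nsmul_eq_mul]
        field_simp

/-- probability of an event depending on one vertex. -/
lemma PR_single {ι α : Type*} [Fintype ι] [DecidableEq ι] [Fintype α] {w : ι → α → ℝ}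
    (hw : IsW w) (v : ι) (g : α → ℝ) : Ex w (fun u => g (u v)) = ∑ x, w v x * g x := by
  rw [hw.resample v]
  refine Finset.sum_congr rfl (fun S _ => ?_)
  congr 1
  have : (fun U : ι → α => g (Function.update U v S v)) = fun _ => g S := by
    funext U; rw [Function.update_self]
  rw [this, hw.Ex_const]

lemma PR_card_eq (h : Adm n K A m lam) (i : Fin (K + 1)) (hA : 1 ≤ A) (hn : A < n) (v : Fin n) :
    PR lam (fun u => #(u v i) = A) ≤ m i / A := by
  have hW := isW h
  have hAR : (0:ℝ) < A := by exact_mod_cast hA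
  obtain ⟨ν, hν, hsum⟩ := sum_marg h i hn
  have h1 : PR lam (fun u => #(u v i) = A) ≤ Ex lam (fun u => (1 / (A:ℝ)) * (#(u v i) : ℝ)) := by
    refine hW.PR_le_Ex _ _ (fun U => by positivity) (fun U hU => ?_)
    rw [hU]
    apply le_of_eq
    field_simp
  refine h1.trans (le_of_eq ?_)
  rw [Ex_const_mul, PR_single hW v (fun x => (#(x i) : ℝ)), hsum v (fun k => (k:ℝ))]
  have h2 : ∑ k ∈ range (A + 1), ν k * (k:ℝ) = m i := by
    rw [← hν.mean]
    exact Finset.sum_congr rfl (fun k _ => by ring)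
  rw [h2]
  ring

/-- number of saturated vertices. -/
theorem saturated (h : Adm n K A m lam) (i : Fin (K + 1)) (hA : 1 ≤ A) (hn : A < n) {η : ℝ}
    (hη : 0 < η) (hm : 0 ≤ m i) :
    Pr lam (fun u => η * n < (#(univ.filter fun v => #(u v i) = A) : ℝ)) ≤ m i / A / η := by
  rw [PR_eq_Pr]
  have h1 := markov_card (isW h) (fun v u => #(u v i) = A) (ε := m i / A) (by omega) hη
    (by positivity) (fun v => PR_card_eq h i hA hn v)
  convert h1 using 8

/-- almost surely all sets have at most `A` elements. -/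
theorem card_le_supp (h : Adm n K A m lam) {v : Fin n} {x : Fin (K + 1) → Finset (Fin n)}
    (hx : lam v x ≠ 0) (i : Fin (K + 1)) : #(x i) ≤ A := by
  classical
  obtain ⟨ν, hν, hmarg⟩ := h.marg i
  have h1 := hmarg v (x i)
  have h2 : 0 < ∑ y ∈ univ.filter (fun y : Fin (K + 1) → Finset (Fin n) => y i = x i), lam v y := by
    refine Finset.sum_pos' (fun y _ => h.nonneg v y) ⟨x, by simp, ?_⟩
    exact lt_of_le_of_ne (h.nonneg v x) (Ne.symm hx)
  rw [h1] at h2
  split_ifs at h2 with hv
  · exact absurd h2 (lt_irrefl _)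
  · refine (hν.supp _ (fun h0 => ?_)).2
    rw [h0, zero_div] at h2
    exact absurd h2 (lt_irrefl _)

/-- passing to the support. -/
theorem Pr_supp (h : Adm n K A m lam) (E : (Fin n → Fin (K + 1) → Finset (Fin n)) → Prop) :
    Pr lam E ≤ Pr lam (fun u => E u ∧ ∀ v i, #(u v i) ≤ A) := by
  rw [PR_eq_Pr, PR_eq_Pr, PR_supp (isW h)]
  exact (isW h).PR_mono (fun U hU => ⟨hU.1, fun v i => card_le_supp h (hU.2 v) i⟩)

/-- size of the forward ball. -/
theorem card_Fw_le (U : Fin n → Finset (Fin n)) (hU : ∀ v, #(U v) ≤ A) (B : Finset (Fin n))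
    (h : ℕ) : #(Fw U h B) ≤ (1 + A) ^ h * #B := by
  induction h with
  | zero => simp [Fw]
  | succ h ih =>
    calc #(Fw U (h+1) B) ≤ #(Fw U h B) + #((Fw U h B).biUnion U) := card_union_le _ _
      _ ≤ #(Fw U h B) + #(Fw U h B) * A := by
          refine Nat.add_le_add_left (card_biUnion_le_card_mul _ _ _ (fun v _ => hU v)) _
      _ = (1 + A) * #(Fw U h B) := by ring
      _ ≤ (1 + A) * ((1 + A) ^ h * #B) := Nat.mul_le_mul_left _ ih
      _ = (1 + A) ^ (h+1) * #B := by ring

/-- a path starting in `B` stays in the forward balls. -/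
theorem path_mem_Fw (U : Fin n → Finset (Fin n)) {B : Finset (Fin n)} {q : ℕ → Fin n} {h j : ℕ}
    (hj : j ≤ h) (hq : ∀ s < h, q (s + 1) ∈ U (q s)) (hB : q j ∈ B) : q h ∈ Fw U h B := by
  have h1 : ∀ i, j + i ≤ h → q (j + i) ∈ Fw U i B := by
    intro i
    induction i with
    | zero => intro _; exact hB
    | succ i ih =>
      intro hi
      have h2 := ih (by omega)
      exact mem_union_right _ (mem_biUnion.mpr ⟨q (j + i), h2, hq (j + i) (by omega)⟩)
  have h2 := h1 (h - j) (by omega)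
  rw [show j + (h - j) = h by omega] at h2
  exact Fw_mono' U B (show h - j ≤ h by omega) h2

/-- either the path avoids `L` or its end is in the forward ball of `L \ W`. -/
theorem path_avoid (U : Fin n → Finset (Fin n)) {L W : Finset (Fin n)} {q : ℕ → Fin n} {h : ℕ}
    (hq : ∀ s < h, q (s + 1) ∈ U (q s)) (hW : ∀ j ≤ h, q j ∉ W) :
    (∀ j ≤ h, q j ∉ L) ∨ q h ∈ Fw U h (L \ W) := by
  by_cases hL : ∀ j ≤ h, q j ∉ L
  · exact Or.inl hL
  · right
    push Not at hL
    obtain ⟨j, hj, hjL⟩ := hL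
    exact path_mem_Fw U hj hq (Finset.mem_sdiff.mpr ⟨hjL, hW j hj⟩)

end Pool.Agent.MSL.C4
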