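import Pool.Agent.MSL.Defs
import Pool.Agent.MSA.Count

/-!
Modules I and II of the MSA blueprint: laminar dual and hop count, interface form.
-/

set_option autoImplicit false

open Finset

namespace Pool.Agent.MSL

open Pool.Agent.MSA

namespace ModI

variable {V : Type*} [Fintype V] [DecidableEq V]

open Pool.Agent.MSA.LD in
lemma leave_eq_filter (y : Finset V → ℝ) (u v : V) :
    leave y u v = ∑ S ∈ univ.filter (fun S : Finset V => u ∈ S ∧ v ∉ S), y S := by
  unfold leave ind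
  rw [Finset.sum_filter]
  exact Finset.sum_congr rfl (fun S _ => by split_ifs <;> simp)

end ModI

theorem exists_dual {V : Type} [Fintype V] [DecidableEq V] {r : V} {c : V → V → ℝ} {M : V → V}
    (hc : ∀ u v, 0 ≤ c u v) (hM : IsMinArb c r M) : ∃ y, Dual r c M y := by
  have hM' : MSA.LD.IsMinArb r c M := ⟨hM.1, fun M' h' => hM.2 M' h'⟩
  obtain ⟨y, hy⟩ := MSA.LD.exists_isDual hc hM'
  refine ⟨y, hy.nonneg, fun S hS => ⟨(hy.good S hS).2, (hy.good S hS).1⟩, ?_, hy.lam, ?_, hy.exit⟩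
  · intro u v huv
    rw [← ModI.leave_eq_filter]
    exact hy.feas u v huv
  · intro u hu
    rw [← ModI.leave_eq_filter]
    exact (hy.tight u hu).symm

theorem hop_count {V : Type} [Fintype V] [DecidableEq V] {r : V} {γ : V → V → ℝ} {M : V → V}
    {y : Finset V → ℝ} (hM : IsArb r M) (hy : Dual r γ M y) (hγ : ∀ u v, 0 ≤ γ u v)
    {g : V → V} (hg0 : ∀ u, g u ≠ u) (hg : ∀ u, γ u (g u) = 0) {Q : Finset V}
    (hQ : ∀ S : Finset V, S.Nonempty → (∀ u ∈ S, g u ∈ S) → ∃ x ∈ S, x ∈ Q)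
    {K ℓ h : ℕ} {Rr : Fin (K + 1) → ℝ} (hR : ∀ i, 0 ≤ Rr i) {L0 : Finset V}
    {W Z X Bad : Fin (K + 1) → Finset V}
    (h1 : ∀ i, ∀ a ∈ Z i, ∀ b ∈ W i, ∃ q : ℕ → V, q 0 = a ∧ q ℓ = b ∧
      ∀ s < ℓ, q s ≠ q (s + 1) → γ (q s) (q (s + 1)) ≤ Rr i)
    (h2 : ∀ i : Fin K, ∃ v ∈ W i.castSucc, v ∈ Z i.succ)
    (h3 : ∀ a ∈ L0, a ∉ X 0 → ∀ b, b ≠ a → γ a b ≤ Rr 0 → b ∈ L0)
    (hB0 : ∀ q : ℕ → V, Set.InjOn q (Set.Iic h) → (∀ j ≤ h, q j ∉ L0) → (∀ j < h, q j ∉ X 0) →
      (∀ j < h, γ (q j) (q (j + 1)) ≤ Rr 0) → q h ∈ Bad 0)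
    (hB : ∀ i : Fin K, ∀ q : ℕ → V, Set.InjOn q (Set.Iic h) → (∀ j ≤ h, q j ∉ W i.castSucc) →
      (∀ j < h, q j ∉ X i.succ) → (∀ j < h, γ (q j) (q (j + 1)) ≤ Rr i.succ) →
      q h ∈ Bad i.succ) :
    #(univ.filter fun u => u ≠ r ∧ γ u (M u) ≠ 0) ≤
      #(Z 0)ᶜ + #L0 + #(W (Fin.last K))ᶜ + ∑ i, (#(Bad i) + h * #(X i)) +
        #Q * ((K + 1) * h * (ℓ + 1) + #Q * (h + 1)) := by
  classical
  have hd : MSA.LD.IsDual r γ y M := by
    refine ⟨hy.nonneg, fun S hS => ⟨(hy.root S hS).2, (hy.root S hS).1⟩, ?_, hy.lam, hM, ?_,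
      hy.exit⟩
    · intro u v huv
      rw [ModI.leave_eq_filter]
      exact hy.feas u v huv
    · intro u hu
      rw [ModI.leave_eq_filter]
      exact (hy.tight u hu).symm
  -- extend the families to ℕ
  let ex : {β : Type} → (Fin (K+1) → β) → ℕ → β := fun F i => F ⟨min i K, by omega⟩
  have hex0 : ∀ {β : Type} (F : Fin (K+1) → β), ex F 0 = F 0 := by
    intro β F
    have : (⟨min 0 K, by omega⟩ : Fin (K+1)) = 0 := by ext; simp
    show F _ = F _
    rw [this]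
  have hexK : ∀ {β : Type} (F : Fin (K+1) → β), ex F K = F (Fin.last K) := by
    intro β F
    have : (⟨min K K, by omega⟩ : Fin (K+1)) = Fin.last K := by ext; simp
    show F _ = F _
    rw [this]
  have hexc : ∀ {β : Type} (F : Fin (K+1) → β) (i : ℕ) (hi : i < K),
      ex F i = F (Fin.castSucc ⟨i, hi⟩) := by
    intro β F i hi
    have : (⟨min i K, by omega⟩ : Fin (K+1)) = Fin.castSucc ⟨i, hi⟩ := by ext; simp; omega
    show F _ = F _
    rw [this]
  have hexs : ∀ {β : Type} (F : Fin (K+1) → β) (i : ℕ) (hi : i < K),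
      ex F (i+1) = F (Fin.succ ⟨i, hi⟩) := by
    intro β F i hi
    have : (⟨min (i+1) K, by omega⟩ : Fin (K+1)) = Fin.succ ⟨i, hi⟩ := by ext; simp; omega
    show F _ = F _
    rw [this]
  have hinj : ∀ q : ℕ → V, (∀ i j, i ≤ h → j ≤ h → q i = q j → i = j) →
      Set.InjOn q (Set.Iic h) := by
    intro q hq a ha b hb hab
    exact hq a b ha hb hab
  have key := hd.card_expensive hg hQ K h ℓ (ex Rr) (fun i _ => hR _) L0 (ex W) (ex Z) (ex X)
    (ex Bad)
    (by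
      intro i hi u hu v hv
      obtain ⟨q, hq0, hql, hq⟩ := h1 _ u hu v hv
      refine ⟨ℓ, le_rfl, q, hq0, hql, fun j hj => ?_⟩
      by_cases he : q j = q (j+1)
      · exact Or.inl he
      · exact Or.inr (hq j hj he))
    (by
      intro i hi
      obtain ⟨v, hv1, hv2⟩ := h2 ⟨i, hi⟩
      exact ⟨v, by rw [hexc W i hi]; exact hv1, by rw [hexs Z i hi]; exact hv2⟩)
    (by
      intro u hu hux v huv hle
      rw [hex0 X] at hux
      rw [hex0 Rr] at hle
      exact h3 u hu hux v (Ne.symm huv) hle)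
    (by
      intro q hq hL hX
      rw [hex0 Bad]
      refine hB0 q (hinj q hq) hL (fun j hj => ?_) (fun j hj => ?_)
      · have := (hX j hj).1; rwa [hex0 X] at this
      · have := (hX j hj).2; rwa [hex0 Rr] at this)
    (by
      intro i hi q hq hW hX
      rw [hexs Bad i hi]
      refine hB ⟨i, hi⟩ q (hinj q hq) (fun j hj => ?_) (fun j hj => ?_) (fun j hj => ?_)
      · have := hW j hj; rwa [hexc W i hi] at this
      · have := (hX j hj).1; rwa [hexs X i hi] at this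
      · have := (hX j hj).2; rwa [hexs Rr i hi] at this)
  have hfil : (univ.filter fun u => u ≠ r ∧ γ u (M u) ≠ 0) =
      univ.filter (fun u => u ≠ r ∧ 0 < γ u (M u)) := by
    refine Finset.filter_congr (fun u _ => ?_)
    constructor
    · rintro ⟨h1, h2⟩; exact ⟨h1, lt_of_le_of_ne (hγ _ _) (Ne.symm h2)⟩
    · rintro ⟨h1, h2⟩; exact ⟨h1, ne_of_gt h2⟩
  rw [hfil]
  have hsum : ∑ i ∈ Finset.range (K+1), ((ex Bad i).card + h * (ex X i).card) =
      ∑ i, (#(Bad i) + h * #(X i)) := by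
    rw [Finset.sum_range]
    refine Finset.sum_congr rfl (fun i _ => ?_)
    have : ∀ {β : Type} (F : Fin (K+1) → β), ex F i = F i := by
      intro β F
      have : (⟨min i K, by omega⟩ : Fin (K+1)) = i := by ext; simp; omega
      show F _ = F _
      rw [this]
    rw [this Bad, this X]
  rw [hsum, hex0 Z, hexK W] at key
  refine key.trans (le_of_eq ?_)
  ring

end Pool.Agent.MSL
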